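import Mathlib
import Pool.Agent.H71.DN.Defs

/-!
Definitions for the Havet-Yu theorem for graphs of maximum average degree below the maximum degree.
-/

set_option autoImplicit false

namespace Pool.Agent.H71.MA

open Finset Classical
open Pool.Agent.H71.DN

/-- A family of pairwise edge-disjoint matchings of `G`, as involutions (fixed points = uncovered
vertices). -/
structure MF {V Y : Type} (G : SimpleGraph V) (mm : Y → V → V) : Prop where
  inv : ∀ y v, mm y (mm y v) = v
  adj : ∀ y v, mm y v ≠ v → G.Adj v (mm y v)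
  dis : ∀ y y' v, y ≠ y' → mm y v ≠ v → mm y v ≠ mm y' v

/-- The value of the functional `j` at the matching `π`. -/
noncomputable def Ph {V J : Type} (SJ : J → Finset V) (ψ : J → V → V → ℝ) (j : J) (π : V → V) :
    ℝ := ∑ v ∈ SJ j, ψ j v (π v)

/-- `G` with `Δ - dg G v` pendant edges added at every vertex `v`. -/
noncomputable def Aug {V : Type} [Fintype V] (G : SimpleGraph V) (Δ : ℕ) :
    SimpleGraph (V ⊕ V × Fin Δ) where
  Adj a b := match a, b with
    | Sum.inl u, Sum.inl v => G.Adj u v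
    | Sum.inl u, Sum.inr x => x.1 = u ∧ dg G u + (x.2 : ℕ) < Δ
    | Sum.inr x, Sum.inl u => x.1 = u ∧ dg G u + (x.2 : ℕ) < Δ
    | Sum.inr _, Sum.inr _ => False
  symm := ⟨by
    rintro (u | x) (v | y) h
    · exact G.adj_symm h
    · exact h
    · exact h
    · exact h⟩
  loopless := ⟨by
    rintro (u | x) h
    · exact G.ne_of_adj h rfl
    · exact h⟩

/-- The walk from `v` that applies `p0` and `p1` alternately, starting with `p0`. -/
def walk {W : Type} (p0 p1 : W → W) (v : W) : ℕ → W
  | 0 => v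
  | i + 1 => if i % 2 = 0 then p0 (walk p0 p1 v i) else p1 (walk p0 p1 v i)

/-- `v` lies in a set of at most `s` vertices that is closed under `q0` and `q1`. -/
def Short {W : Type} (q0 q1 : W → W) (s : ℕ) (v : W) : Prop :=
  ∃ κ : Finset W, κ.card ≤ s ∧ v ∈ κ ∧ ∀ w ∈ κ, q0 w ∈ κ ∧ q1 w ∈ κ

/-- The restriction of the graph `H` to the edges with class in `[a, b)`. -/
def cls {W : Type} (H : SimpleGraph W) (cl : Sym2 W → ℕ) (a b : ℕ) : SimpleGraph W where
  Adj u v := H.Adj u v ∧ a ≤ cl s(u, v) ∧ cl s(u, v) < b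
  symm := ⟨fun u v h => ⟨h.1.symm, by rw [Sym2.eq_swap]; exact h.2⟩⟩
  loopless := ⟨fun u h => h.1.ne rfl⟩

end Pool.Agent.H71.MA
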