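import Mathlib
import Pool.Agent.H71.MA.Defs

/-!
AGF: degrees in the graph `Aug G Δ` (pendant edges added so that the vertices `inl v` have degree `Δ`).
-/

set_option autoImplicit false

namespace Pool.Agent.H71.MA

open Finset Classical
open Pool.Agent.H71.DN

theorem aug_leaf {V : Type} [Fintype V] (G : SimpleGraph V) (Δ : ℕ) (x : V × Fin Δ) :
    dg (Aug G Δ) (Sum.inr x) ≤ 1 := by
  unfold dg
  rw [Finset.card_le_one]
  have key : ∀ a, (Aug G Δ).Adj (Sum.inr x) a → a = Sum.inl x.1 := by
    rintro (u | y) h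
    · have h1 : x.1 = u ∧ dg G u + (x.2 : ℕ) < Δ := h
      rw [h1.1]
    · exact absurd h (fun h => h)
  intro a ha b hb
  rw [mem_filter] at ha hb
  rw [key a ha.2, key b hb.2]

theorem aug_pend {V : Type} [Fintype V] (G : SimpleGraph V) (Δ : ℕ) (v : V) (hv : dg G v ≤ Δ) :
    (univ.filter fun x : V × Fin Δ => (Aug G Δ).Adj (Sum.inl v) (Sum.inr x)).card + dg G v = Δ := by
  have h1 : (univ.filter fun x : V × Fin Δ => (Aug G Δ).Adj (Sum.inl v) (Sum.inr x)) =
      (univ.filter fun j : Fin Δ => (j : ℕ) < Δ - dg G v).image fun j => (v, j) := by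
    ext ⟨w, j⟩
    simp only [mem_filter, mem_univ, true_and, mem_image, Prod.mk.injEq]
    constructor
    · intro h
      have h1 : w = v ∧ dg G v + (j : ℕ) < Δ := h
      exact ⟨j, by omega, h1.1.symm, rfl⟩
    · rintro ⟨j', hj, rfl, rfl⟩
      have : v = v ∧ dg G v + (j' : ℕ) < Δ := ⟨rfl, by omega⟩
      exact this
  rw [h1, card_image_of_injective _ (fun a b h => by simpa using h)]
  have h2 : (univ.filter fun j : Fin Δ => (j : ℕ) < Δ - dg G v).card = Δ - dg G v := by
    rw [Fin.card_filter_val_lt]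
    omega
  omega

theorem aug_deg {V : Type} [Fintype V] (G : SimpleGraph V) (Δ : ℕ) (v : V) (hv : dg G v ≤ Δ) :
    dg (Aug G Δ) (Sum.inl v) = Δ := by
  have h1 := aug_pend G Δ v hv
  have h2 : (univ.filter fun u => (Aug G Δ).Adj (Sum.inl v) u) =
      ((univ.filter fun x : V × Fin Δ => (Aug G Δ).Adj (Sum.inl v) (Sum.inr x)).image Sum.inr) ∪
        ((univ.filter fun u => G.Adj v u).image Sum.inl) := by
    ext a
    simp only [mem_filter, mem_univ, true_and, mem_union, mem_image]
    rcases a with u | x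
    · constructor
      · intro h
        exact Or.inr ⟨u, h, rfl⟩
      · rintro (⟨y, _, hy⟩ | ⟨y, hy, hyu⟩)
        · exact absurd hy (by simp)
        · rw [Sum.inl.injEq] at hyu
          rw [← hyu]
          exact hy
    · constructor
      · intro h
        exact Or.inl ⟨x, h, rfl⟩
      · rintro (⟨y, hy, hyu⟩ | ⟨y, _, hy⟩)
        · rw [Sum.inr.injEq] at hyu
          rw [← hyu]
          exact hy
        · exact absurd hy (by simp)
  unfold dg
  rw [h2, card_union_of_disjoint, card_image_of_injective _ Sum.inr_injective,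
    card_image_of_injective _ Sum.inl_injective]
  · exact h1
  · rw [Finset.disjoint_left]
    intro a ha hb
    obtain ⟨x, _, rfl⟩ := mem_image.1 ha
    obtain ⟨u, _, hu⟩ := mem_image.1 hb
    exact absurd hu (by simp)

end Pool.Agent.H71.MA
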