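import Mathlib
import Pool.Agent.H71.MA.Defs
import Pool.Agent.H71.MA.Agf
import Pool.Agent.H71.DN.Fnl

/-!
BAK: from matchings of `Aug G Δ` that cover all the vertices `inl v` outside their windows to the
Havet-Yu bound for `G`.

Proof.  For `ℓ < M` let `mg ℓ v := w` if `mm ℓ (inl v) = inl w`, and `v` if `mm ℓ (inl v)` is some `inr x`; `mg ℓ := id`
for `ℓ ≥ M`. `UG ℓ := {v : c v < ℓ + p ∧ ℓ < c v + p}`. Then `PM G M UG mg`: `inv`: if `mm ℓ (inl v) = inl w` then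
`mm ℓ (inl w) = inl v`; `adj`: `(Aug G Δ).Adj (inl v) (inl w)` is `G.Adj v w`; `dis`: if `mg ℓ v = mg ℓ' v = w ≠ v` then
`mm ℓ (inl v) = inl w = mm ℓ' (inl v) ≠ inl v`; `fix`: `v ∈ UG ℓ` implies `inl v ∈ U ℓ` (`hU`), so `mm ℓ (inl v) = inl v`.
Apply `DN.final` (`DN/Fnl.lean`) with `k' := M + 1 - p` (`k' + p - 1 = M`, since `p ≤ M` - if `V` is nonempty, by `hc`;
if `V` is empty the claim is trivial, or note `hpM`), `c v < k'` from `hc`, `M ≤ Δ + 2 p - 1` from `hM`.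
The last condition: `dg G v + #{ℓ < M : mg ℓ v = v} ≤ Δ + 2 p - 1`. If `mg ℓ v = v` then `mm ℓ (inl v) = inl v`, so
`inl v ∈ U ℓ` (`hcov`), so `c v < ℓ + p`, `ℓ < c v + p` (`hU'`), at most `2 p - 1` values `ℓ`
(`Ico (c v + 1 - p) (c v + p)`); or `mm ℓ (inl v) = inr x` for some `x`: `ℓ ↦ x` is injective (`hPM.dis`) into
`{x : (Aug G Δ).Adj (inl v) (inr x)}`, which has `Δ - dg G v` elements (`aug_pend`). The sum is
`≤ dg G v + (2 p - 1) + (Δ - dg G v)`.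
-/

set_option autoImplicit false

namespace Pool.Agent.H71.MA

open Finset Classical
open Pool.Agent.H71.DN

theorem bak {V : Type} [Fintype V] (G : SimpleGraph V) (Δ p M : ℕ) (hp : 1 ≤ p) (hpM : p ≤ M)
    (hΔ : ∀ v, dg G v ≤ Δ) (c : V → ℕ) (hc : ∀ v, c v + p ≤ M)
    (hprop : ∀ u v, G.Adj u v → c u ≠ c v) (hM : M ≤ Δ + 2 * p - 1)
    (mm : ℕ → (V ⊕ V × Fin Δ) → (V ⊕ V × Fin Δ)) (U : ℕ → Finset (V ⊕ V × Fin Δ))
    (hU : ∀ ℓ v, Sum.inl v ∈ U ℓ ↔ c v < ℓ + p ∧ ℓ < c v + p)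
    (hPM : PM (Aug G Δ) M U mm)
    (hcov : ∀ ℓ < M, ∀ v, Sum.inl v ∉ U ℓ → mm ℓ (Sum.inl v) ≠ Sum.inl v) :
    H70.HY.HYLab G Δ p := by
  have hk : M + 1 - p + p - 1 = M := by omega
  obtain ⟨mg, hmg⟩ : ∃ mg : ℕ → V → V, ∀ ℓ v, mg ℓ v = (mm ℓ (Sum.inl v)).elim id (fun _ => v) :=
    ⟨fun ℓ v => (mm ℓ (Sum.inl v)).elim id (fun _ => v), fun _ _ => rfl⟩
  have h1 : ∀ ℓ v w, mm ℓ (Sum.inl v) = Sum.inl w → mg ℓ v = w := by
    intro ℓ v w h
    rw [hmg, h]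
    rfl
  have h2 : ∀ ℓ v x, mm ℓ (Sum.inl v) = Sum.inr x → mg ℓ v = v := by
    intro ℓ v x h
    rw [hmg, h]
    rfl
  have h3 : ∀ ℓ v, mg ℓ v ≠ v → mm ℓ (Sum.inl v) = Sum.inl (mg ℓ v) := by
    intro ℓ v h
    rcases hs : mm ℓ (Sum.inl v) with w | x
    · rw [h1 ℓ v w hs]
    · exact absurd (h2 ℓ v x hs) h
  obtain ⟨UG, hUG⟩ : ∃ UG : ℕ → Finset V, ∀ ℓ v, v ∈ UG ℓ ↔ c v < ℓ + p ∧ ℓ < c v + p :=
    ⟨fun ℓ => univ.filter fun v => c v < ℓ + p ∧ ℓ < c v + p, fun ℓ v => by simp⟩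
  have hP : PM G M UG mg := by
    refine ⟨?_, ?_, ?_, ?_⟩
    · intro ℓ hℓ v
      by_cases h : mg ℓ v = v
      · rw [h, h]
      · have h4 := h3 ℓ v h
        have h5 := hPM.inv ℓ hℓ (Sum.inl v)
        rw [h4] at h5
        exact h1 ℓ _ _ h5
    · intro ℓ hℓ v h
      have h4 := h3 ℓ v h
      have h5 := hPM.adj ℓ hℓ (Sum.inl v) (by
        rw [h4]
        exact fun h6 => h (Sum.inl.inj h6))
      rw [h4] at h5
      exact h5
    · intro ℓ hℓ ℓ' hℓ' hne v h h'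
      have h4 := h3 ℓ v h
      have h5 := h3 ℓ' v (by rw [← h']; exact h)
      refine hPM.dis ℓ hℓ ℓ' hℓ' hne (Sum.inl v) ?_ ?_
      · rw [h4]
        exact fun h6 => h (Sum.inl.inj h6)
      · rw [h4, h5, h']
    · intro ℓ hℓ v hv
      have h4 : Sum.inl v ∈ U ℓ := (hU ℓ v).2 ((hUG ℓ v).1 hv)
      exact h1 ℓ v v (hPM.fix ℓ hℓ _ h4)
  refine final G Δ p (M + 1 - p) hp c ?_ hprop UG mg ?_ ?_ ?_ ?_
  · intro v
    have := hc v
    omega
  · rw [hk]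
    exact hP
  · intro ℓ _ v h4 h5
    exact (hUG ℓ v).2 ⟨h4, h5⟩
  · rw [hk]
    exact hM
  · intro v
    rw [hk]
    have hA : ((range M).filter fun ℓ => mg ℓ v = v) ⊆
        Finset.Ico (c v + 1 - p) (c v + p) ∪
          ((range M).filter fun ℓ => ∃ x, mm ℓ (Sum.inl v) = Sum.inr x) := by
      intro ℓ hℓ
      rw [Finset.mem_filter, Finset.mem_range] at hℓ
      rw [Finset.mem_union, Finset.mem_filter, Finset.mem_range, Finset.mem_Ico]
      rcases hs : mm ℓ (Sum.inl v) with w | x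
      · left
        have h4 : mg ℓ v = w := h1 ℓ v w hs
        rw [hℓ.2] at h4
        rw [← h4] at hs
        have h5 : Sum.inl v ∈ U ℓ := by
          by_contra h6
          exact hcov ℓ hℓ.1 v h6 hs
        have h6 := (hU ℓ v).1 h5
        omega
      · right
        exact ⟨hℓ.1, x, rfl⟩
    have hB : ((range M).filter fun ℓ => ∃ x, mm ℓ (Sum.inl v) = Sum.inr x).card ≤
        (univ.filter fun x : V × Fin Δ => (Aug G Δ).Adj (Sum.inl v) (Sum.inr x)).card := by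
      refine le_trans (Finset.card_le_card_of_injOn (fun ℓ => mm ℓ (Sum.inl v))
        (t := (univ.filter fun x : V × Fin Δ => (Aug G Δ).Adj (Sum.inl v) (Sum.inr x)).image
          (Sum.inr : V × Fin Δ → V ⊕ V × Fin Δ)) ?_ ?_) Finset.card_image_le
      · intro ℓ hℓ
        have hℓ' := Finset.mem_filter.1 (Finset.mem_coe.1 hℓ)
        obtain ⟨hℓ1, x, hx⟩ := hℓ'
        rw [Finset.mem_range] at hℓ1
        apply Finset.mem_coe.2
        show mm ℓ (Sum.inl v) ∈ _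
        rw [hx]
        refine Finset.mem_image_of_mem _ (Finset.mem_filter.2 ⟨Finset.mem_univ _, ?_⟩)
        have h5 := hPM.adj ℓ hℓ1 (Sum.inl v) (by rw [hx]; exact Sum.inr_ne_inl)
        rw [hx] at h5
        exact h5
      · intro ℓ hℓ ℓ' hℓ' he
        have hℓ1 := Finset.mem_filter.1 (Finset.mem_coe.1 hℓ)
        have hℓ1' := Finset.mem_filter.1 (Finset.mem_coe.1 hℓ')
        obtain ⟨hℓ2, x, hx⟩ := hℓ1
        rw [Finset.mem_range] at hℓ2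
        have hℓ2' := Finset.mem_range.1 hℓ1'.1
        by_contra hne
        refine hPM.dis ℓ hℓ2 ℓ' hℓ2' hne (Sum.inl v) ?_ he
        rw [hx]
        exact Sum.inr_ne_inl
    have hC := (Finset.card_le_card hA).trans (Finset.card_union_le _ _)
    rw [Nat.card_Ico] at hC
    have hD := aug_pend G Δ v (hΔ v)
    omega

end Pool.Agent.H71.MA
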