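import Mathlib
import Pool.Agent.H71.MA.Defs

/-!
The numerical conditions on the parameters of the construction.
-/

set_option autoImplicit false

namespace Pool.Agent.H71.MA

open Finset Classical

/-- The numerical conditions. `2 ^ k` = size of a group, `r` = size of the reservoir, `g` = degree of
a group, `K` = number of groups, `Λ`, `K0` = labels per part and number of parts of the vertex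
colouring, `ℓ0`, `Lm` = mixing, `1 / Ld` = selection probability. -/
structure Prm (Δ p cap k r g K Λ K0 ℓ0 Lm Ld : ℕ) (t e1 γ : ℝ) : Prop where
  hp : 1 ≤ p
  cap1 : 1 ≤ cap
  hΔ1 : 1 ≤ Δ
  ht : 0 < t
  hK0 : 1 ≤ K0
  hLd : 1 ≤ Ld
  hLm : 2 ≤ Lm
  hγ : 0 < γ
  hγ1 : γ ≤ 1
  hΛ : 2 * ((cap : ℝ) / K0 + t) + 1 ≤ Λ
  pΛ : 2 * p ≤ Λ
  pB : 2 * p ≤ 2 ^ k
  hrK : r + K * g ≤ Δ
  kΔ : 2 ^ k ≤ Δ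
  hℓ : ℓ0 ≤ Δ
  labs : K0 * Λ + p ≤ K * 2 ^ k
  KB : K * 2 ^ k ≤ Δ
  gB : (g : ℝ) + t + 1 ≤ 2 ^ k
  eC : 8 * Real.exp (-(t ^ 2 / (2 * Δ))) * ((Δ : ℝ) * (2 * (Δ * K0) : ℕ) + 1) ≤ 1
  eS : 8 * Real.exp (-(t ^ 2 / (2 * Δ))) *
    ((Δ : ℝ) * (2 * (3 + K + K * (K * 2 ^ k)) : ℕ) + 1) ≤ 1
  eQ : 4 * Real.exp (-((ℓ0 : ℝ) / Lm)) *
    ((Δ : ℝ) * (2 * (2 * ℓ0 + 2) * (Δ * (1 + 2 ^ k) + 1) : ℕ) + 1) ≤ 1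
  eM : 8 * Real.exp (-(t ^ 2 / (2 * Δ * (2 * ℓ0 + 2 : ℝ) ^ 2))) *
    ((Δ : ℝ) * (2 * (2 * ℓ0 + 2) * (Δ * (1 + 2 ^ k) + 1) : ℕ) + 1) ≤ 1
  eP : 8 * Real.exp (-(t ^ 2 / (8 * Δ))) * ((Δ : ℝ) * (2 + 2 * (3 * Δ) : ℕ) + 1) ≤ 1
  hU1 : 2 * ((Δ : ℝ) / K0 + t) ≤ e1
  he1 : (Δ : ℝ) * (((2 : ℝ) ^ k - g + t) + (2 * ((Δ : ℝ) / K0 + t) * g / Δ + t)) / 2 ^ k +
    2 * (k * ((Δ : ℝ) / Lm + 2 * t)) ≤ e1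
  he2 : K * (((2 : ℝ) ^ k - g + t) + k * ((2 : ℝ) ^ k / Lm + t)) + (2 * g + t) ≤ e1
  one_e1 : 1 ≤ e1
  hD : 100 ≤ γ ^ 2 * ((r : ℝ) / Ld)
  hN1 : (1 - γ / 10) * ((r : ℝ) / Ld) ≤ (r - t - (K * ((2 : ℝ) ^ k / Ld + t) + e1) - 2 * e1) / Ld -
    t - ((2 : ℝ) ^ k / Ld + t + e1)
  hN2 : ((r : ℝ) + t) / Ld + t + e1 ≤ (1 + γ / 10) * ((r : ℝ) / Ld)
  hN3 : ((cap : ℝ) * r / Δ + t) / Ld + t + e1 ≤ (1 - γ) * ((r : ℝ) / Ld) / 2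

end Pool.Agent.H71.MA
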