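import Mathlib
import Pool.Agent.H71.MA.Prm

/-!
BAS: the basic facts about the parameters `k`, `r`, `g`, `K`.

Proof.  `k := Nat.log 2 (N^180) + 1` (`Nat.lt_pow_succ_log_self`, `Nat.pow_log_le_self`: `2^(k-1) ≤ N^180 < 2^k`),
`r := Δ / (16 * N)` (ℕ-division), `g := 2^k - 2 * (2^k / N^12)`, `K := (Δ - 2 * r) / 2^k`.
`x2`: `(N+1)^200 ≤ 2 N^200`: `(1 + 1/N)^200 ≤ exp (200 / N) ≤ exp (1/50) ≤ 2` for `N ≥ 10^4` (`Real.add_one_le_exp`,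
 `Real.exp_nat_mul`-style, or Bernoulli: `(1 - 1/(N+1))^200 ≥ 1 - 200/(N+1) ≥ 1/2` by `one_add_mul_le_pow`).
`kN`: `2^k ≤ 2 N^180 ≤ 2^N`: choose `N0` with `2 * N^180 ≤ 2^N` for `N ≥ N0` (polynomial against exponential, for
 instance from `tendsto_pow_const_div_const_pow_of_one_lt`), then `k ≤ N` by `Nat.pow_le_pow_iff_right`.
`r1`, `r2`: `Nat.div_add_mod`/`Nat.cast_div_le`, `Nat.lt_floor_add_one`-type facts (`Nat.div_mul_le_self`,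
 `Nat.lt_succ_mul_div_succ` ...). `g1`, `g2`: `y / m - 1 ≤ ⌊y / m⌋ ≤ y / m` and `2 (2^k / N^12) ≤ 2^k` (as `N^12 ≥ 2`).
`K1`, `K2`: `K * 2^k ≤ Δ - 2 r < (K + 1) * 2^k`, and `2 r ≤ Δ`.
-/

set_option autoImplicit false

namespace Pool.Agent.H71.MA

open Finset Classical

/-- The basic facts about the parameters. -/
structure Bas (N Δ k r g K : ℕ) : Prop where
  n4 : 10 ^ 4 ≤ N
  b1 : N ^ 180 < 2 ^ k
  b2 : 2 ^ k ≤ 2 * N ^ 180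
  kN : k ≤ N
  x1 : N ^ 200 ≤ Δ
  x2 : Δ ≤ 2 * N ^ 200
  r1 : (Δ : ℝ) / (16 * N) - 1 ≤ r
  r2 : (r : ℝ) ≤ (Δ : ℝ) / (16 * N)
  g1 : (2 : ℝ) ^ k - 2 * (2 ^ k / (N : ℝ) ^ 12) ≤ g
  g2 : (g : ℝ) ≤ (2 : ℝ) ^ k - 2 * (2 ^ k / (N : ℝ) ^ 12) + 2
  K1 : (Δ : ℝ) - 2 * r - 2 ^ k ≤ K * 2 ^ k
  K2 : K * 2 ^ k + 2 * r ≤ Δ

theorem Bas_pow (m N : ℕ) (h : 2 * m ≤ N + 1) : (N + 1) ^ m ≤ 2 * N ^ m := by
  have hM : (0 : ℝ) < (N : ℝ) + 1 := by positivity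
  have h1 : (2 : ℝ) * m ≤ (N : ℝ) + 1 := by exact_mod_cast h
  have h2 : (N : ℝ) = ((N : ℝ) + 1) * (1 + -(1 / ((N : ℝ) + 1))) := by
    field_simp
    ring
  have h3 : -2 ≤ -(1 / ((N : ℝ) + 1)) := by
    have h4 : 1 / ((N : ℝ) + 1) ≤ 1 := by
      rw [div_le_one hM]
      have := Nat.cast_nonneg (α := ℝ) N
      linarith
    linarith
  have h4 := one_add_mul_le_pow h3 m
  have h5 : (1 : ℝ) / 2 ≤ 1 + (m : ℝ) * -(1 / ((N : ℝ) + 1)) := by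
    have h6 : (m : ℝ) * (1 / ((N : ℝ) + 1)) ≤ 1 / 2 := by
      rw [mul_one_div, div_le_iff₀ hM]
      linarith
    linarith
  have h6 : ((N : ℝ) + 1) ^ m * (1 / 2) ≤ (N : ℝ) ^ m := by
    calc ((N : ℝ) + 1) ^ m * (1 / 2) ≤ ((N : ℝ) + 1) ^ m * (1 + -(1 / ((N : ℝ) + 1))) ^ m := by
          exact mul_le_mul_of_nonneg_left (h5.trans h4) (pow_nonneg hM.le m)
      _ = (((N : ℝ) + 1) * (1 + -(1 / ((N : ℝ) + 1)))) ^ m := (mul_pow _ _ _).symm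
      _ = (N : ℝ) ^ m := by rw [← h2]
  have h7 : ((N : ℝ) + 1) ^ m ≤ 2 * (N : ℝ) ^ m := by linarith
  exact_mod_cast h7

theorem Bas_exp (m : ℕ) : ∃ N1 : ℕ, ∀ N, N1 ≤ N → 2 * N ^ m ≤ 2 ^ N := by
  have h1 := (tendsto_pow_const_div_const_pow_of_one_lt m (one_lt_two : (1 : ℝ) < 2)).eventually_lt_const
    (by norm_num : (0 : ℝ) < 1 / 2)
  obtain ⟨N1, hN1⟩ := Filter.eventually_atTop.mp h1
  refine ⟨N1, fun N hN => ?_⟩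
  have h2 : (N : ℝ) ^ m / 2 ^ N ≤ 1 / 2 := (hN1 N hN).le
  rw [div_le_iff₀ (by positivity)] at h2
  have h3 : (2 : ℝ) * (N : ℝ) ^ m ≤ 2 ^ N := by linarith
  exact_mod_cast h3

theorem Bas_k (y : ℕ) (hy : y ≠ 0) : ∃ k, y < 2 ^ k ∧ 2 ^ k ≤ 2 * y := by
  refine ⟨Nat.log 2 y + 1, Nat.lt_pow_succ_log_self one_lt_two y, ?_⟩
  rw [pow_succ, mul_comm]
  exact Nat.mul_le_mul_left 2 (Nat.pow_log_le_self 2 hy)

theorem Bas_div (a b : ℕ) (hb : 0 < b) :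
    (a : ℝ) / b - 1 ≤ ((a / b : ℕ) : ℝ) ∧ ((a / b : ℕ) : ℝ) ≤ (a : ℝ) / b := by
  refine ⟨?_, Nat.cast_div_le⟩
  have hb' : (0 : ℝ) < b := by exact_mod_cast hb
  rw [sub_le_iff_le_add, div_le_iff₀ hb']
  have h1 := (Nat.lt_mul_div_succ a hb).le
  have h2 : (a : ℝ) ≤ b * ((a / b : ℕ) + 1) := by exact_mod_cast h1
  linarith

theorem Bas_g (y m : ℕ) (hm : 2 ≤ m) : ∃ g : ℕ,
    (y : ℝ) - 2 * ((y : ℝ) / m) ≤ g ∧ (g : ℝ) ≤ (y : ℝ) - 2 * ((y : ℝ) / m) + 2 := by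
  obtain ⟨h1, h2⟩ := Bas_div y m (by omega)
  have h3 : 2 * (y / m) ≤ y := by
    have h4 := Nat.div_mul_le_self y m
    have h5 : y / m * 2 ≤ y / m * m := Nat.mul_le_mul_left _ hm
    omega
  refine ⟨y - 2 * (y / m), ?_, ?_⟩
  · rw [Nat.cast_sub h3]
    push_cast
    linarith
  · rw [Nat.cast_sub h3]
    push_cast
    linarith

theorem Bas_r (N D : ℕ) (hN : 1 ≤ N) : ∃ r : ℕ,
    (D : ℝ) / (16 * N) - 1 ≤ r ∧ (r : ℝ) ≤ (D : ℝ) / (16 * N) ∧ 2 * r ≤ D := by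
  obtain ⟨h1, h2⟩ := Bas_div D (16 * N) (by omega)
  have h3 : (((16 * N : ℕ)) : ℝ) = 16 * (N : ℝ) := by push_cast; ring
  rw [h3] at h1 h2
  refine ⟨D / (16 * N), h1, h2, ?_⟩
  have h4 := Nat.div_mul_le_self D (16 * N)
  have h5 : D / (16 * N) * 2 ≤ D / (16 * N) * (16 * N) := Nat.mul_le_mul_left _ (by omega)
  omega

theorem Bas_K (D r y : ℕ) (hr : 2 * r ≤ D) (hy : 0 < y) : ∃ K : ℕ,
    (D : ℝ) - 2 * r - y ≤ K * y ∧ K * y + 2 * r ≤ D := by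
  refine ⟨(D - 2 * r) / y, ?_, ?_⟩
  · have h1 := (Nat.lt_mul_div_succ (D - 2 * r) hy).le
    have h2 : ((D - 2 * r : ℕ) : ℝ) ≤ y * (((D - 2 * r) / y : ℕ) + 1) := by exact_mod_cast h1
    rw [Nat.cast_sub hr] at h2
    push_cast at h2 ⊢
    linarith
  · have h1 := Nat.div_mul_le_self (D - 2 * r) y
    omega

theorem bas : ∃ N0 : ℕ, ∀ N Δ : ℕ, N0 ≤ N → N ^ 200 ≤ Δ → Δ < (N + 1) ^ 200 →
    ∃ k r g K : ℕ, Bas N Δ k r g K := by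
  obtain ⟨N1, hN1⟩ := Bas_exp 180
  refine ⟨max N1 (10 ^ 4), fun N D hN hx1 hx2 => ?_⟩
  have hn1 : N1 ≤ N := le_trans (le_max_left _ _) hN
  have hn4 : 10 ^ 4 ≤ N := le_trans (le_max_right _ _) hN
  have hN0 : 1 ≤ N := le_trans (by norm_num) hn4
  have hx3 : D ≤ 2 * N ^ 200 :=
    hx2.le.trans (Bas_pow 200 N (le_trans (by norm_num) (hn4.trans (Nat.le_succ N))))
  obtain ⟨k, hk1, hk2⟩ := Bas_k (N ^ 180) (pow_ne_zero _ (Nat.one_le_iff_ne_zero.mp hN0))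
  have hkN : k ≤ N := (Nat.pow_le_pow_iff_right one_lt_two).mp (hk2.trans (hN1 N hn1))
  obtain ⟨r, hr1, hr2, hr3⟩ := Bas_r N D hN0
  have h12 : 2 ≤ N ^ 12 := by
    calc 2 ≤ 10 ^ 4 := by norm_num
      _ ≤ N := hn4
      _ = N ^ 1 := (pow_one N).symm
      _ ≤ N ^ 12 := Nat.pow_le_pow_right hN0 (by norm_num)
  obtain ⟨g, hg1, hg2⟩ := Bas_g (2 ^ k) (N ^ 12) h12
  obtain ⟨K, hK1, hK2⟩ := Bas_K D r (2 ^ k) hr3 (Nat.pow_pos two_pos)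
  have e1 : ((2 ^ k : ℕ) : ℝ) = (2 : ℝ) ^ k := by rw [Nat.cast_pow, Nat.cast_ofNat]
  have e2 : ((N ^ 12 : ℕ) : ℝ) = (N : ℝ) ^ 12 := Nat.cast_pow N 12
  rw [e1, e2] at hg1 hg2
  rw [e1] at hK1
  exact ⟨k, r, g, K, hn4, hk1, hk2, hkN, hx1, hx3, hr1, hr2, hg1, hg2, hK1, hK2⟩

end Pool.Agent.H71.MA
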