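import Mathlib
import Pool.Agent.H71.MA.Defs
import Pool.Agent.H71.SX.Tut
import Pool.Agent.H71.SX.Pmt

/-!
TL: a matching that covers `X` in a graph `F` that is nearly regular on `X` and locally sparse
(certified by an orientation `A` of small out-degree).

Proof.  `tut F ∅ X` (`Pool/Agent/H71/SX/Tut.lean`): either the claim, or there are `T`, `Q`, `#T < #Q`, the
`q ∈ Q` odd, disjoint, contained in `X`, disjoint from `T`, all `F`-neighbours of `z ∈ q` in `q ∪ T`.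
Reals, `ς := γ / 10 ≤ 1/10`, `e(A, B)` = number of ordered pairs `(a, b) ∈ A × B` that are `F`-adjacent (`ee F`; lemmas
`Pmt_sum`, `Pmt_comm`, `Pmt_biU` in `SX/Pmt.lean` may be used), `out v := #{u ∈ A v : F.Adj v u} ≤ (1 - γ) D / 2`.
For sets `S`: by `h3` each pair `(a, b)`, `a, b ∈ S`, has `b ∈ A a` or `a ∈ A b`, so
 (0) `e(S, S) ≤ 2 ∑_{v ∈ S} out v ≤ (1 - γ) D #S`.
For `q ∈ Q`: `e(q, T) ≥ ∑_{z ∈ q} dg F z - e(q, q) ≥ (1 - ς) D #q - e(q, q)`.
 - `#q = 1`: `e(q, T) ≥ (1 - ς) D` (`e(q, q) = 0`).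
 - `#q ≥ 2` (so `#q ≥ 3`, odd): `e(q, T) ≥ 2 D`. If `#q ≤ 4 / γ`: `e(q, q) ≤ #q (#q - 1) ≤ (4/γ) #q`, and
   `4/γ ≤ γ D / 25 ≤ D / 25` (`100 ≤ γ^2 D`), so `e(q, T) ≥ #q (1 - ς - 1/25) D ≥ 3 * 0.86 D ≥ 2 D`. If
   `#q > 4/γ`: by (0) `e(q, T) ≥ #q ((1 - ς) D - (1 - γ) D) = #q (9/10) γ D ≥ 3.6 D`.
Let `Q1 = {q ∈ Q : #q = 1}`, `a := #Q1`, `b := #Q - a`. The `q` are disjoint and `⊆ X`, so by `h2`
 `(1 - ς) D a + 2 D b ≤ ∑_{q ∈ Q} e(q, T) ≤ ∑_{u ∈ T} #{v ∈ X : F.Adj u v} ≤ (1 + ς) D #T ≤ (1 + ς) D (a + b)`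
 (`#T + 1 ≤ a + b`; `D > 0`). So `(1 - ς) b ≤ 2 ς a`, `b ≤ 3 ς a` (`ς ≤ 1/10`), and `a ≥ 1` (else `b = 0`, but `Q ≠ ∅`).
`I := Q1.biUnion id ⊆ X`, `#I = a`; `e(I, T) = ∑_{q ∈ Q1} e(q, T) ≥ (1 - ς) D a`. By `h3`, each adjacent pair
`(v, u) ∈ I × T` has `u ∈ A v` or `v ∈ A u`, so
 `e(I, T) ≤ ∑_{v ∈ I} out v + ∑_{u ∈ T} out u ≤ (1 - γ) (D / 2) (a + #T) ≤ (1 - γ) (D / 2) (2 a + b)
   ≤ (1 - γ) (D / 2) (2 + 3 ς) a`.
So `1 - ς ≤ (1 - γ) (1 + 3 ς / 2)`, i.e. `γ ≤ ς + (1 - γ) 3 ς / 2 ≤ (5/2) ς = γ / 4`: a contradiction.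
-/

set_option autoImplicit false

namespace Pool.Agent.H71.MA

open Finset Classical
open Pool.Agent.H71.DN

/-- Edges between `S` and `S'` are counted by the out-degrees. -/
theorem Tl_out {W : Type} [Fintype W] (F : SimpleGraph W) (A : W → Finset W)
    (h3 : ∀ u v, F.Adj u v → v ∈ A u ∨ u ∈ A v) (S S' : Finset W) :
    ee F S S' ≤ ∑ v ∈ S, ((A v).filter fun u => F.Adj v u).card +
      ∑ v ∈ S', ((A v).filter fun u => F.Adj v u).card := by
  rw [Pool.Agent.H71.SX.Pmt_sum]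
  have e1 : ∀ a ∈ S, (S'.filter fun b => F.Adj a b).card ≤
      ((A a).filter fun u => F.Adj a u).card + (S'.filter fun b => F.Adj b a ∧ a ∈ A b).card := by
    intro a _
    refine (Finset.card_le_card (?_ : _ ⊆ ((A a).filter fun u => F.Adj a u) ∪
      (S'.filter fun b => F.Adj b a ∧ a ∈ A b))).trans (Finset.card_union_le _ _)
    intro b hb
    rw [mem_filter] at hb
    rw [mem_union, mem_filter, mem_filter]
    rcases h3 a b hb.2 with h | h
    · exact Or.inl ⟨h, hb.2⟩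
    · exact Or.inr ⟨hb.1, hb.2.symm, h⟩
  refine (Finset.sum_le_sum e1).trans ?_
  rw [Finset.sum_add_distrib]
  refine Nat.add_le_add_left ?_ _
  have e2 : ∑ a ∈ S, (S'.filter fun b => F.Adj b a ∧ a ∈ A b).card =
      ∑ b ∈ S', (S.filter fun a => F.Adj b a ∧ a ∈ A b).card := by
    simp only [Finset.card_filter]
    exact Finset.sum_comm
  rw [e2]
  refine Finset.sum_le_sum fun b _ => Finset.card_le_card ?_
  intro a ha
  rw [mem_filter] at ha ⊢
  exact ⟨ha.2.2, ha.2.1⟩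

theorem Tl_outR {W : Type} [Fintype W] (F : SimpleGraph W) (A : W → Finset W) (D γ : ℝ)
    (h3 : ∀ u v, F.Adj u v → v ∈ A u ∨ u ∈ A v)
    (h4 : ∀ v, (((A v).filter fun u => F.Adj v u).card : ℝ) ≤ (1 - γ) * D / 2) (S S' : Finset W) :
    (ee F S S' : ℝ) ≤ (1 - γ) * D / 2 * (S.card + S'.card) := by
  have h5 : (ee F S S' : ℝ) ≤ ∑ v ∈ S, (((A v).filter fun u => F.Adj v u).card : ℝ) +
      ∑ v ∈ S', (((A v).filter fun u => F.Adj v u).card : ℝ) := by
    exact_mod_cast Tl_out F A h3 S S'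
  have h6 : ∀ R : Finset W, ∑ v ∈ R, (((A v).filter fun u => F.Adj v u).card : ℝ) ≤
      (1 - γ) * D / 2 * R.card := by
    intro R
    refine (Finset.sum_le_sum fun v _ => h4 v).trans ?_
    rw [Finset.sum_const, nsmul_eq_mul, mul_comm]
  have h7 := h6 S
  have h8 := h6 S'
  linarith

theorem tl {W : Type} [Fintype W] (F : SimpleGraph W) (X : Finset W) (A : W → Finset W) (D γ : ℝ)
    (hγ : 0 < γ) (hγ1 : γ ≤ 1) (hD : 100 ≤ γ ^ 2 * D)
    (h1 : ∀ v ∈ X, (1 - γ / 10) * D ≤ dg F v)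
    (h2 : ∀ u, ((X.filter fun v => F.Adj u v).card : ℝ) ≤ (1 + γ / 10) * D)
    (h3 : ∀ u v, F.Adj u v → v ∈ A u ∨ u ∈ A v)
    (h4 : ∀ v, (((A v).filter fun u => F.Adj v u).card : ℝ) ≤ (1 - γ) * D / 2) :
    ∃ π : W → W, Inv π ∧ (∀ v, π v ≠ v → F.Adj v (π v)) ∧ ∀ v ∈ X, π v ≠ v := by
  have hγ2 : 0 < γ ^ 2 := by positivity
  have hD0 : 0 < D := by
    by_contra hc
    have h5 : γ ^ 2 * D ≤ 0 := mul_nonpos_of_nonneg_of_nonpos hγ2.le (not_lt.mp hc)
    linarith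
  rcases Pool.Agent.H71.SX.tut F ∅ X (Finset.disjoint_empty_right X) with
    ⟨π, p1, -, p3, p4⟩ | ⟨T, Q, hTQ, -, hQ, hQd⟩
  · exact ⟨π, p1, p3, p4⟩
  exfalso
  -- the basic inequality
  have hb : ∀ q ∈ Q, (1 - γ / 10) * D * q.card ≤ (ee F q T : ℝ) + ee F q q := by
    intro q hq
    obtain ⟨-, hqX, -, hq4⟩ := hQ q hq
    have e1 : ∀ z ∈ q, (1 - γ / 10) * D ≤
        ((T.filter fun b => F.Adj z b).card : ℝ) + ((q.filter fun b => F.Adj z b).card : ℝ) := by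
      intro z hz
      have e2 := h1 z (hqX hz)
      have e3 : dg F z ≤ (T.filter fun b => F.Adj z b).card + (q.filter fun b => F.Adj z b).card := by
        unfold dg
        refine (Finset.card_le_card (?_ : _ ⊆ (T.filter fun b => F.Adj z b) ∪
          (q.filter fun b => F.Adj z b))).trans (Finset.card_union_le _ _)
        intro w hw
        rw [mem_filter] at hw
        rw [mem_union, mem_filter, mem_filter]
        rcases hq4 z hz w hw.2 with h | h | h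
        · exact Or.inr ⟨h, hw.2⟩
        · exact Or.inl ⟨h, hw.2⟩
        · exact absurd h (Finset.notMem_empty _)
      have e4 : (dg F z : ℝ) ≤ ((T.filter fun b => F.Adj z b).card : ℝ) +
          ((q.filter fun b => F.Adj z b).card : ℝ) := by exact_mod_cast e3
      linarith
    have e5 := Finset.sum_le_sum e1
    rw [Finset.sum_const, nsmul_eq_mul, Finset.sum_add_distrib] at e5
    rw [Pool.Agent.H71.SX.Pmt_sum, Pool.Agent.H71.SX.Pmt_sum]
    push_cast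
    linarith
  have hs1 : ∀ q ∈ Q, q.card = 1 → (1 - γ / 10) * D ≤ (ee F q T : ℝ) := by
    intro q hq hq1
    have e1 := hb q hq
    have e4 : ee F q q = 0 := by
      obtain ⟨z, rfl⟩ := Finset.card_eq_one.mp hq1
      rw [Pool.Agent.H71.SX.Pmt_sum, Finset.sum_singleton, Finset.card_eq_zero,
        Finset.filter_eq_empty_iff]
      intro w hw
      rw [Finset.mem_singleton] at hw
      rw [hw]
      exact F.loopless.irrefl z
    rw [hq1, e4, Nat.cast_one, Nat.cast_zero] at e1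
    linarith
  have hs2 : ∀ q ∈ Q, q.card ≠ 1 → 2 * D ≤ (ee F q T : ℝ) := by
    intro q hq hq1
    have e1 := hb q hq
    have hq3 : 3 ≤ q.card := by
      obtain ⟨k, hk⟩ := (hQ q hq).1
      omega
    have hq3r : (3 : ℝ) ≤ q.card := by exact_mod_cast hq3
    have hDq : 3 * D ≤ D * q.card := by
      have := mul_le_mul_of_nonneg_left hq3r hD0.le
      linarith
    by_cases hc : γ * q.card ≤ 4
    · have e2 := Pool.Agent.H71.SX.Pmt_sq F q
      have e3 : (q.card : ℝ) ≤ D / 25 := by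
        have e4 : γ * (q.card : ℝ) ≤ γ * (γ * D / 25) := by
          have : γ * (γ * D / 25) = γ ^ 2 * D / 25 := by ring
          rw [this]
          linarith
        have e5 : (q.card : ℝ) ≤ γ * D / 25 := le_of_mul_le_mul_left e4 hγ
        have e6 : γ * D ≤ 1 * D := mul_le_mul_of_nonneg_right hγ1 hD0.le
        linarith
      have e4 : (q.card : ℝ) * q.card ≤ D / 25 * q.card :=
        mul_le_mul_of_nonneg_right e3 (Nat.cast_nonneg _)
      have e5 : γ * (D * q.card) ≤ 1 * (D * q.card) :=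
        mul_le_mul_of_nonneg_right hγ1 (by positivity)
      nlinarith
    · have e2 := Tl_outR F A D γ h3 h4 q q
      have e3 : 4 * D ≤ γ * q.card * D := mul_le_mul_of_nonneg_right (not_le.mp hc).le hD0.le
      nlinarith
  obtain ⟨Q1, hQ1⟩ : ∃ Q1 : Finset (Finset W), Q1 = Q.filter fun q => q.card = 1 := ⟨_, rfl⟩
  obtain ⟨Q2, hQ2⟩ : ∃ Q2 : Finset (Finset W), Q2 = Q.filter fun q => ¬ q.card = 1 := ⟨_, rfl⟩
  have hm1 : ∀ q, q ∈ Q1 ↔ q ∈ Q ∧ q.card = 1 := by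
    intro q
    rw [hQ1, mem_filter]
  have hm2 : ∀ q, q ∈ Q2 ↔ q ∈ Q ∧ ¬ q.card = 1 := by
    intro q
    rw [hQ2, mem_filter]
  have hcard : Q1.card + Q2.card = Q.card := by
    rw [hQ1, hQ2]
    exact Finset.card_filter_add_card_filter_not _
  have hsum : ∑ q ∈ Q1, (ee F q T : ℝ) + ∑ q ∈ Q2, (ee F q T : ℝ) = ∑ q ∈ Q, (ee F q T : ℝ) := by
    rw [hQ1, hQ2]
    exact Finset.sum_filter_add_sum_filter_not _ _ _
  have hS1 : (1 - γ / 10) * D * Q1.card ≤ ∑ q ∈ Q1, (ee F q T : ℝ) := by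
    have e2 : ∀ q ∈ Q1, (1 - γ / 10) * D ≤ (ee F q T : ℝ) := by
      intro q hq
      exact hs1 q ((hm1 q).1 hq).1 ((hm1 q).1 hq).2
    have e3 := Finset.sum_le_sum e2
    rw [Finset.sum_const, nsmul_eq_mul] at e3
    linarith
  have hS2 : 2 * D * Q2.card ≤ ∑ q ∈ Q2, (ee F q T : ℝ) := by
    have e2 : ∀ q ∈ Q2, 2 * D ≤ (ee F q T : ℝ) := by
      intro q hq
      exact hs2 q ((hm2 q).1 hq).1 ((hm2 q).1 hq).2
    have e3 := Finset.sum_le_sum e2
    rw [Finset.sum_const, nsmul_eq_mul] at e3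
    linarith
  have hup : ∑ q ∈ Q, (ee F q T : ℝ) ≤ (1 + γ / 10) * D * T.card := by
    have e1 : ∑ q ∈ Q, (ee F q T : ℝ) = (ee F (Q.biUnion id) T : ℝ) := by
      rw [Pool.Agent.H71.SX.Pmt_biU F Q hQd T]
      push_cast
      rfl
    have e2 : Q.biUnion id ⊆ X := by
      intro v hv
      rw [mem_biUnion] at hv
      obtain ⟨q, hq, hvq⟩ := hv
      exact (hQ q hq).2.1 hvq
    have e3 : (ee F (Q.biUnion id) T : ℝ) ≤ ee F T X := by
      rw [Pool.Agent.H71.SX.Pmt_comm F T X]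
      exact_mod_cast Pool.Agent.H71.SX.Pmt_mono F _ _ T e2
    have e4 : (ee F T X : ℝ) ≤ (1 + γ / 10) * D * T.card := by
      rw [Pool.Agent.H71.SX.Pmt_sum]
      push_cast
      refine (Finset.sum_le_sum fun u _ => h2 u).trans ?_
      rw [Finset.sum_const, nsmul_eq_mul, mul_comm]
    linarith
  have hTc : (T.card : ℝ) ≤ Q1.card + Q2.card := by
    have : T.card ≤ Q1.card + Q2.card := by omega
    exact_mod_cast this
  have ha0 : (0 : ℝ) ≤ Q1.card := Nat.cast_nonneg _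
  have hb0 : (0 : ℝ) ≤ Q2.card := Nat.cast_nonneg _
  have hTD : (1 + γ / 10) * D * T.card ≤ (1 + γ / 10) * D * (Q1.card + Q2.card) :=
    mul_le_mul_of_nonneg_left hTc (by positivity)
  have hab : (1 - γ / 10) * (Q2.card : ℝ) ≤ 2 * (γ / 10) * Q1.card := by
    have e1 : D * ((1 - γ / 10) * (Q2.card : ℝ)) ≤ D * (2 * (γ / 10) * Q1.card) := by linarith
    exact le_of_mul_le_mul_left e1 hD0
  have hb3 : (Q2.card : ℝ) ≤ 3 * (γ / 10) * Q1.card := by
    have e1 : γ * (Q2.card : ℝ) ≤ 1 * Q2.card := mul_le_mul_of_nonneg_right hγ1 hb0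
    have e2 : 0 ≤ γ * (Q1.card : ℝ) := by positivity
    linarith
  have hapos : (0 : ℝ) < Q1.card := by
    rcases Nat.eq_zero_or_pos Q1.card with h | h
    · exfalso
      rw [h, Nat.cast_zero, mul_zero] at hb3
      have e1 : (Q2.card : ℝ) = 0 := le_antisymm hb3 hb0
      have e2 : Q2.card = 0 := by exact_mod_cast e1
      omega
    · exact_mod_cast h
  have hI : ((Q1.biUnion id).card : ℝ) = Q1.card := by
    have e1 : (Q1.biUnion id).card = ∑ q ∈ Q1, q.card := by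
      refine Finset.card_biUnion ?_
      intro q hq q' hq' hne
      exact hQd q ((hm1 q).1 hq).1 q' ((hm1 q').1 hq').1 hne
    have e2 : ∑ q ∈ Q1, q.card = ∑ q ∈ Q1, 1 :=
      Finset.sum_congr rfl fun q hq => ((hm1 q).1 hq).2
    rw [e1, e2, Finset.sum_const, smul_eq_mul, mul_one]
  have hIT : ∑ q ∈ Q1, (ee F q T : ℝ) = (ee F (Q1.biUnion id) T : ℝ) := by
    rw [Pool.Agent.H71.SX.Pmt_biU F Q1 (fun q hq q' hq' hne =>
      hQd q ((hm1 q).1 hq).1 q' ((hm1 q').1 hq').1 hne) T]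
    push_cast
    rfl
  have hfin := Tl_outR F A D γ h3 h4 (Q1.biUnion id) T
  rw [hI] at hfin
  have hg1 : 0 ≤ (1 - γ) * D / 2 := by
    have : 0 ≤ (1 - γ) := by linarith
    positivity
  have hfin2 : (1 - γ) * D / 2 * ((Q1.card : ℝ) + T.card) ≤
      (1 - γ) * D / 2 * ((2 + 3 * (γ / 10)) * Q1.card) := by
    refine mul_le_mul_of_nonneg_left ?_ hg1
    linarith
  have hfin3 : (1 - γ / 10) * D * (Q1.card : ℝ) ≤ (1 - γ) * D / 2 * ((2 + 3 * (γ / 10)) * Q1.card) := by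
    linarith
  have hDa : 0 < D * (Q1.card : ℝ) := mul_pos hD0 hapos
  have hfin4 : (1 - γ / 10) ≤ (1 - γ) / 2 * (2 + 3 * (γ / 10)) := by
    have e1 : D * (Q1.card : ℝ) * (1 - γ / 10) ≤
        D * (Q1.card : ℝ) * ((1 - γ) / 2 * (2 + 3 * (γ / 10))) := by
      calc D * (Q1.card : ℝ) * (1 - γ / 10) = (1 - γ / 10) * D * (Q1.card : ℝ) := by ring
        _ ≤ _ := hfin3
        _ = _ := by ring
    exact le_of_mul_le_mul_left e1 hDa
  nlinarith

end Pool.Agent.H71.MA
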