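import Mathlib
import Pool.Agent.H71.MA.Defs
import Pool.Agent.H71.MA.Tl

/-!
EXT: one more label. `nn` are the near-perfect matchings of `H` minus the reservoir `R`, `mm ℓ` (`ℓ < x`) the
matchings constructed so far (each edge of `mm ℓ` is an edge of `nn ℓ` or of `R`), they cover all of `C`
outside `U ℓ`. `Rc R mm x` is the graph of the unused reservoir edges.

Proof.  Let `Wx := {v : v ∉ U x ∧ (nn x v = v ∨ sel v)}` and `F.Adj a b := (Rc R mm x).Adj a b ∧ a ∈ Wx ∧ b ∈ Wx`,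
`X := C.filter (· ∈ Wx)`. `tl` for `F`, `X`, `A`, `D`, `γ`: `h1` (for `v ∈ X`, `dg F v` is the number in `h1`), `h2` (`F ≤ R`),
`h3` from `hA2` (`F ≤ R ≤ H`), `h4` (`F`-neighbours of `v` in `A v` are in `Wx` and `R`-neighbours; if `v ∉ Wx` the set
is empty; the bound `h4` holds for all `v`). It gives `π`, which moves only vertices of `Wx` (if `π v ≠ v` then
`F.Adj v (π v)`), and stays inside `Wx`.
`mm' ℓ := mm ℓ` for `ℓ ≠ x` and `mm' x v := if v ∈ Wx then π v else nn x v`.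
 - `mm' x` is an involution: for `v ∈ Wx` `π v ∈ Wx` (or `π v = v`). For `v ∉ Wx`: if `v ∈ U x` then `nn x v = v`
   (`hPM.fix`). Otherwise `nn x v ≠ v` and `¬ sel v`; `w := nn x v` is not in `Wx`: `nn x w = v ≠ w`, and `sel w` would
   give `sel (nn x w) = sel v` by `hsel`. So `mm' x w = nn x w = v`.
 - `adj`: `F ≤ R ≤ H` or `hPM.adj` (`H \ R ≤ H`). `fix`: `v ∈ U x` is not in `Wx`, `nn x v = v`.
 - `dis` for `ℓ < x` and `x` (both orders: `mm ℓ v ≠ v → mm ℓ v ≠ mm' x v`, and `mm' x v ≠ v → mm' x v ≠ mm ℓ v`): let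
   `u := mm' x v = mm ℓ v ≠ v`. If `v ∈ Wx`: `(Rc R mm x).Adj v u`, contradiction to `mm ℓ v = u`. If `v ∉ Wx`:
   `u = nn x v ≠ v`, so `(H \ R).Adj v u` (`hPM.adj`), not an `R`-edge; by `kind` `mm ℓ v = nn ℓ v`, so
   `nn ℓ v = nn x v ≠ v`, contradiction to `hPM.dis`.
 - `kind`: for `v ∈ Wx`, `π v ≠ v`: `R.Adj`. `cov`: for `v ∈ C`, `v ∉ U x`: if `v ∈ Wx` then `v ∈ X`, `π v ≠ v`; if
   `v ∉ Wx` then `nn x v ≠ v`.
 - the last claim: if `v ∉ Wx`, `mm' x v = nn x v` is `v` or an `H \ R`-neighbour, so not an `R`-neighbour.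
-/

set_option autoImplicit false

namespace Pool.Agent.H71.MA

open Finset Classical
open Pool.Agent.H71.DN

/-- The state after the labels `< x`. -/
structure St {W : Type} [Fintype W] (H R : SimpleGraph W) (C : Finset W) (U : ℕ → Finset W)
    (nn : ℕ → W → W) (x : ℕ) (mm : ℕ → W → W) : Prop where
  pm : PM H x U mm
  kind : ∀ ℓ < x, ∀ v, mm ℓ v ≠ v → mm ℓ v = nn ℓ v ∨ R.Adj v (mm ℓ v)
  cov : ∀ ℓ < x, ∀ v ∈ C, v ∉ U ℓ → mm ℓ v ≠ v

/-- The unused reservoir edges. -/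
def Rc {W : Type} (R : SimpleGraph W) (mm : ℕ → W → W) (x : ℕ) : SimpleGraph W where
  Adj u v := R.Adj u v ∧ ∀ ℓ < x, mm ℓ u ≠ v ∧ mm ℓ v ≠ u
  symm := ⟨fun u v h => ⟨h.1.symm, fun ℓ hℓ => ⟨(h.2 ℓ hℓ).2, (h.2 ℓ hℓ).1⟩⟩⟩
  loopless := ⟨fun u h => h.1.ne rfl⟩

/-- The number of reservoir edges used at `v` by the labels `< x`. -/
noncomputable def us {W : Type} (R : SimpleGraph W) (mm : ℕ → W → W) (x : ℕ) (v : W) : ℕ :=
  ((range x).filter fun ℓ => R.Adj v (mm ℓ v)).card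

theorem ext {W : Type} [Fintype W] (H R : SimpleGraph W) (hRH : R ≤ H) (C : Finset W) (M : ℕ)
    (U : ℕ → Finset W) (nn : ℕ → W → W) (hPM : PM (H \ R) M U nn) (A : W → Finset W)
    (hA2 : ∀ u v, H.Adj u v → v ∈ A u ∨ u ∈ A v) (x : ℕ) (hx : x < M) (mm : ℕ → W → W)
    (hSt : St H R C U nn x mm) (sel : W → Prop)
    (hsel : ∀ v, sel v → nn x v ≠ v ∧ sel (nn x v)) (D γ : ℝ)
    (hγ : 0 < γ) (hγ1 : γ ≤ 1) (hD : 100 ≤ γ ^ 2 * D)
    (h1 : ∀ v ∈ C, v ∉ U x → (nn x v = v ∨ sel v) → (1 - γ / 10) * D ≤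
      ((univ.filter fun u => (Rc R mm x).Adj v u ∧ u ∉ U x ∧ (nn x u = u ∨ sel u)).card : ℝ))
    (h2 : ∀ u, ((C.filter fun v => R.Adj u v ∧ v ∉ U x ∧ (nn x v = v ∨ sel v)).card : ℝ) ≤
      (1 + γ / 10) * D)
    (h4 : ∀ v, (((A v).filter fun u => R.Adj v u ∧ u ∉ U x ∧ (nn x u = u ∨ sel u)).card : ℝ) ≤
      (1 - γ) * D / 2) :
    ∃ mm' : ℕ → W → W, (∀ ℓ, ℓ ≠ x → mm' ℓ = mm ℓ) ∧ St H R C U nn (x + 1) mm' ∧
      ∀ v, R.Adj v (mm' x v) → v ∉ U x ∧ (nn x v = v ∨ sel v) := by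
  classical
  -- the free vertices
  obtain ⟨P, hP⟩ : ∃ P : W → Prop, ∀ v, P v ↔ (v ∉ U x ∧ (nn x v = v ∨ sel v)) :=
    ⟨_, fun v => Iff.rfl⟩
  let F : SimpleGraph W :=
    { Adj := fun a b => (Rc R mm x).Adj a b ∧ P a ∧ P b
      symm := ⟨fun a b h => ⟨h.1.symm, h.2.2, h.2.1⟩⟩
      loopless := ⟨fun a h => h.1.ne rfl⟩ }
  have hF : ∀ a b, F.Adj a b ↔ ((Rc R mm x).Adj a b ∧ P a ∧ P b) := fun a b => Iff.rfl
  have hRc : ∀ a b, (Rc R mm x).Adj a b ↔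
      (R.Adj a b ∧ ∀ ℓ < x, mm ℓ a ≠ b ∧ mm ℓ b ≠ a) := fun a b => Iff.rfl
  obtain ⟨π, hπ, hπa, hπX⟩ := tl F (C.filter P) A D γ hγ hγ1 hD (by
    intro v hv
    rw [mem_filter] at hv
    have hPv := (hP v).1 hv.2
    refine (h1 v hv.1 hPv.1 hPv.2).trans (le_of_eq ?_)
    unfold dg
    congr 2
    ext u
    simp only [mem_filter, mem_univ, true_and]
    rw [hF, ← hP]
    exact ⟨fun h => ⟨h.1, hv.2, h.2⟩, fun h => ⟨h.1, h.2.2⟩⟩) (by
    intro u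
    refine le_trans ?_ (h2 u)
    rw [Nat.cast_le]
    apply card_le_card
    intro v hv
    simp only [mem_filter] at hv ⊢
    obtain ⟨⟨hC, hPv⟩, hFv⟩ := hv
    exact ⟨hC, ((hRc _ _).1 ((hF _ _).1 hFv).1).1, (hP v).1 hPv⟩) (by
    intro u v h
    exact hA2 u v (hRH ((hRc _ _).1 ((hF _ _).1 h).1).1)) (by
    intro v
    refine le_trans ?_ (h4 v)
    rw [Nat.cast_le]
    apply card_le_card
    intro u hu
    simp only [mem_filter] at hu ⊢
    have h5 := (hF _ _).1 hu.2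
    exact ⟨hu.1, ((hRc _ _).1 h5.1).1, (hP u).1 h5.2.2⟩)
  have hPπ : ∀ v, P v → P (π v) := by
    intro v hv
    by_cases h : π v = v
    · rw [h]; exact hv
    · exact ((hF _ _).1 (hπa v h)).2.2
  have hinv := hPM.inv x hx
  have hPn : ∀ v, ¬ P v → ¬ P (nn x v) := by
    intro v hv hw
    by_cases hU : v ∈ U x
    · rw [hPM.fix x hx v hU] at hw
      exact hv hw
    · have h5 : ¬ (nn x v = v ∨ sel v) := fun h => hv ((hP v).2 ⟨hU, h⟩)
      push Not at h5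
      have h6 := ((hP _).1 hw).2
      rcases h6 with h6 | h6
      · rw [hinv v] at h6
        exact h5.1 h6.symm
      · have h7 := (hsel _ h6).2
        rw [hinv v] at h7
        exact h5.2 h7
  have hnP : ∀ v, ¬ P v → v ∉ U x → nn x v ≠ v := by
    intro v hv hU h
    exact hv ((hP v).2 ⟨hU, Or.inl h⟩)
  obtain ⟨q, hq1, hq2⟩ : ∃ q : W → W, (∀ v, P v → q v = π v) ∧ (∀ v, ¬ P v → q v = nn x v) :=
    ⟨fun v => if P v then π v else nn x v, fun v hv => if_pos hv, fun v hv => if_neg hv⟩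
  have qinv : Inv q := by
    intro v
    by_cases hv : P v
    · rw [hq1 v hv, hq1 _ (hPπ v hv)]
      exact hπ v
    · rw [hq2 v hv, hq2 _ (hPn v hv)]
      exact hinv v
  have qadj : ∀ v, q v ≠ v → H.Adj v (q v) := by
    intro v hne
    by_cases hv : P v
    · rw [hq1 v hv] at hne ⊢
      exact hRH ((hRc _ _).1 ((hF _ _).1 (hπa v hne)).1).1
    · rw [hq2 v hv] at hne ⊢
      exact (hPM.adj x hx v hne).1
  have qfix : ∀ v ∈ U x, q v = v := by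
    intro v hv
    have : ¬ P v := fun h => ((hP v).1 h).1 hv
    rw [hq2 v this, hPM.fix x hx v hv]
  have qdis : ∀ ℓ < x, ∀ v, q v ≠ v → q v ≠ mm ℓ v := by
    intro ℓ hℓ v hne he
    by_cases hv : P v
    · rw [hq1 v hv] at hne he
      have := ((hRc _ _).1 ((hF _ _).1 (hπa v hne)).1).2 ℓ hℓ
      exact this.1 he.symm
    · rw [hq2 v hv] at hne he
      have hadj := hPM.adj x hx v hne
      rcases hSt.kind ℓ hℓ v (by rw [← he]; exact hne) with h5 | h5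
      · exact hPM.dis ℓ (hℓ.trans hx) x hx (Nat.ne_of_lt hℓ) v (by rw [← h5, ← he]; exact hne)
          (by rw [← h5, ← he])
      · rw [← he] at h5
        exact hadj.2 h5
  have qkind : ∀ v, q v ≠ v → q v = nn x v ∨ R.Adj v (q v) := by
    intro v hne
    by_cases hv : P v
    · right
      rw [hq1 v hv] at hne ⊢
      exact ((hRc _ _).1 ((hF _ _).1 (hπa v hne)).1).1
    · left
      exact hq2 v hv
  have qcov : ∀ v ∈ C, v ∉ U x → q v ≠ v := by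
    intro v hC hU
    by_cases hv : P v
    · rw [hq1 v hv]
      exact hπX v (mem_filter.2 ⟨hC, hv⟩)
    · rw [hq2 v hv]
      exact hnP v hv hU
  have qres : ∀ v, R.Adj v (q v) → P v := by
    intro v hR
    by_contra hv
    rw [hq2 v hv] at hR
    have hne : nn x v ≠ v := fun h => by
      rw [h] at hR
      exact hR.ne rfl
    exact (hPM.adj x hx v hne).2 hR
  obtain ⟨mm', hm1, hm2⟩ : ∃ mm' : ℕ → W → W, mm' x = q ∧ ∀ ℓ, ℓ ≠ x → mm' ℓ = mm ℓ :=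
    ⟨fun ℓ => if ℓ = x then q else mm ℓ, if_pos rfl, fun ℓ hℓ => if_neg hℓ⟩
  have hcase : ∀ ℓ < x + 1, ℓ = x ∨ (ℓ < x ∧ mm' ℓ = mm ℓ) := by
    intro ℓ hℓ
    rcases Nat.lt_succ_iff_lt_or_eq.1 hℓ with h | h
    · exact Or.inr ⟨h, hm2 ℓ h.ne⟩
    · exact Or.inl h
  refine ⟨mm', hm2, ⟨⟨?_, ?_, ?_, ?_⟩, ?_, ?_⟩, ?_⟩
  · intro ℓ hℓ
    rcases hcase ℓ hℓ with rfl | ⟨h, h'⟩
    · rw [hm1]; exact qinv
    · rw [h']; exact hSt.pm.inv ℓ h
  · intro ℓ hℓ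
    rcases hcase ℓ hℓ with rfl | ⟨h, h'⟩
    · rw [hm1]; exact qadj
    · rw [h']; exact hSt.pm.adj ℓ h
  · intro ℓ hℓ ℓ' hℓ' hne v
    rcases hcase ℓ hℓ with rfl | ⟨h, h'⟩
    · rcases hcase ℓ' hℓ' with h2 | ⟨h2, h2'⟩
      · exact absurd h2.symm hne
      · rw [hm1, h2']
        exact qdis ℓ' h2 v
    · rcases hcase ℓ' hℓ' with rfl | ⟨h2, h2'⟩
      · rw [hm1, h']
        intro h3 h4
        exact qdis ℓ h v (by rw [← h4]; exact h3) h4.symm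
      · rw [h', h2']
        exact hSt.pm.dis ℓ h ℓ' h2 hne v
  · intro ℓ hℓ
    rcases hcase ℓ hℓ with rfl | ⟨h, h'⟩
    · rw [hm1]; exact qfix
    · rw [h']; exact hSt.pm.fix ℓ h
  · intro ℓ hℓ
    rcases hcase ℓ hℓ with rfl | ⟨h, h'⟩
    · rw [hm1]; exact qkind
    · rw [h']; exact hSt.kind ℓ h
  · intro ℓ hℓ
    rcases hcase ℓ hℓ with rfl | ⟨h, h'⟩
    · rw [hm1]; exact qcov
    · rw [h']; exact hSt.cov ℓ h
  · intro v hv
    rw [hm1] at hv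
    exact (hP v).1 (qres v hv)

end Pool.Agent.H71.MA
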