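import Mathlib

/-!
HOE: Hoeffding's inequality, counting version, for sums of bounded functions of independent uniform
variables.

Proof.  Let `K := Fintype.card κ > 0`, `g i a := f i a - (∑ b, f i b) / K`; then `∑ a, g i a = 0` and
`|g i a| ≤ r` (both `f i a` and its mean lie in `[0, r]`). Put `Z ω := ∑ i ∈ S, g i (ω i)`, which is the
quantity inside `|·|` (`Finset.sum_sub_distrib`). Let `lam := t / (n * r ^ 2) > 0`.
 (1) For `|x| ≤ r`: `exp (lam x) ≤ cosh (lam r) + (x / r) sinh (lam r)`: convexity of `exp` on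
   `[-lam r, lam r]`, `lam x = ((1 + x/r)/2) (lam r) + ((1 - x/r)/2) (-lam r)` (`convexOn_exp`). Summing over `a`:
   `∑ a, exp (lam * g i a) ≤ K cosh (lam r) ≤ K exp (lam^2 r^2 / 2)` (`Real.cosh_le_exp_half_sq`).
 (2) `∑ ω, exp (lam * Z ω) = ∏ i, ∑ a, (if i ∈ S then exp (lam * g i a) else 1)` (`Finset.prod_univ_sum`,
   `Fintype.piFinset_univ`; model: `sum_pow_count` in `Pool/Agent/H28/LLL.lean`)
   `≤ K ^ (card ι) * exp (lam^2 r^2 / 2) ^ #S ≤ card (ι → κ) * exp (n lam^2 r^2 / 2)`.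
 (3) Markov: `#{ω : t < Z ω} * exp (lam t) ≤ ∑ ω, exp (lam * Z ω)`, so
   `#{ω : t < Z ω} ≤ exp (n lam^2 r^2 / 2 - lam t) * card (ι → κ)` and
   `n lam^2 r^2 / 2 - lam t = t^2 / (2 n r^2) - t^2 / (n r^2) = - t^2 / (2 n r^2)`.
 (4) The same for `-g` (it satisfies the same two properties), and `{t < |Z|} ⊆ {t < Z} ∪ {t < -Z}`.
So prove (1)-(3) once, for a general `g` with `∑ a, g i a = 0`, `|g i a| ≤ r`.
-/

set_option autoImplicit false

namespace Pool.Agent.H71.MA

open Finset Classical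

private theorem Hoe_cvx (lam r x : ℝ) (hr : 0 < r) (hx : |x| ≤ r) :
    Real.exp (lam * x) ≤ Real.cosh (lam * r) + (x / r) * Real.sinh (lam * r) := by
  have h1 : x / r ≤ 1 := by rw [div_le_one hr]; exact (abs_le.1 hx).2
  have h2 : -1 ≤ x / r := by rw [le_div_iff₀ hr]; linarith [(abs_le.1 hx).1]
  have h3 := convexOn_exp.2 (Set.mem_univ (lam * r)) (Set.mem_univ (-(lam * r)))
    (by linarith : (0 : ℝ) ≤ (1 + x / r) / 2) (by linarith : (0 : ℝ) ≤ (1 - x / r) / 2) (by ring)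
  rw [smul_eq_mul, smul_eq_mul, smul_eq_mul, smul_eq_mul] at h3
  have h4 : (1 + x / r) / 2 * (lam * r) + (1 - x / r) / 2 * (-(lam * r)) = lam * x := by
    field_simp
    ring
  rw [h4] at h3
  refine h3.trans (le_of_eq ?_)
  rw [Real.cosh_eq, Real.sinh_eq]
  ring

private theorem Hoe_gen {ι κ : Type} [Fintype ι] [Fintype κ] [Nonempty κ] (S : Finset ι)
    (g : ι → κ → ℝ) (n : ℕ) (r t : ℝ) (hn0 : 1 ≤ n) (hn : S.card ≤ n) (hr : 0 < r) (ht : 0 < t)
    (hg0 : ∀ i, ∑ a, g i a = 0) (hgr : ∀ i a, |g i a| ≤ r) :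
    ((univ.filter fun ω : ι → κ => t < ∑ i ∈ S, g i (ω i)).card : ℝ) ≤
      Real.exp (-(t ^ 2 / (2 * n * r ^ 2))) * Fintype.card (ι → κ) := by
  have hK : (0 : ℝ) < Fintype.card κ := by exact_mod_cast Fintype.card_pos
  have hn' : (0 : ℝ) < n := by exact_mod_cast hn0
  obtain ⟨lam, hlam⟩ : ∃ lam : ℝ, lam = t / (n * r ^ 2) := ⟨_, rfl⟩
  have hl0 : 0 < lam := by rw [hlam]; positivity
  have hcard : (Fintype.card (ι → κ) : ℝ) = (Fintype.card κ : ℝ) ^ (Fintype.card ι) := by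
    rw [Fintype.card_fun]; push_cast; rfl
  -- the moment generating function
  have h1 : ∀ ω : ι → κ, Real.exp (lam * ∑ i ∈ S, g i (ω i)) =
      ∏ i, (if i ∈ S then Real.exp (lam * g i (ω i)) else 1) := by
    intro ω
    rw [Finset.prod_ite_mem, Finset.univ_inter, Finset.mul_sum, Real.exp_sum]
  have h2 : ∑ ω : ι → κ, Real.exp (lam * ∑ i ∈ S, g i (ω i)) =
      ∏ i, ∑ a, (if i ∈ S then Real.exp (lam * g i a) else 1) := by
    rw [Finset.sum_congr rfl (fun ω _ => h1 ω)]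
    exact (Fintype.prod_sum (ι := ι) (κ := fun _ => κ)
      (fun i a => (if i ∈ S then Real.exp (lam * g i a) else (1 : ℝ)))).symm
  have h3 : ∀ i, ∑ a, (if i ∈ S then Real.exp (lam * g i a) else (1 : ℝ)) ≤
      Fintype.card κ * (if i ∈ S then Real.exp ((lam * r) ^ 2 / 2) else 1) := by
    intro i
    by_cases hi : i ∈ S
    · simp only [if_pos hi]
      calc ∑ a, Real.exp (lam * g i a)
          ≤ ∑ a, (Real.cosh (lam * r) + (g i a / r) * Real.sinh (lam * r)) :=
            Finset.sum_le_sum fun a _ => Hoe_cvx lam r _ hr (hgr i a)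
        _ = Fintype.card κ * Real.cosh (lam * r) := by
            rw [Finset.sum_add_distrib, ← Finset.sum_mul, ← Finset.sum_div, hg0 i]
            simp
        _ ≤ Fintype.card κ * Real.exp ((lam * r) ^ 2 / 2) :=
            mul_le_mul_of_nonneg_left (Real.cosh_le_exp_half_sq _) hK.le
    · simp [hi]
  have h4 : ∑ ω : ι → κ, Real.exp (lam * ∑ i ∈ S, g i (ω i)) ≤
      (Fintype.card κ : ℝ) ^ (Fintype.card ι) * Real.exp ((lam * r) ^ 2 / 2) ^ S.card := by
    rw [h2]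
    refine (Finset.prod_le_prod (fun i _ => Finset.sum_nonneg fun a _ => ?_)
      (fun i _ => h3 i)).trans (le_of_eq ?_)
    · split_ifs
      · exact (Real.exp_pos _).le
      · exact zero_le_one
    · rw [Finset.prod_mul_distrib, Finset.prod_const, Finset.card_univ, Finset.prod_ite_mem,
        Finset.univ_inter, Finset.prod_const]
  have h5 : Real.exp ((lam * r) ^ 2 / 2) ^ S.card ≤ Real.exp (n * ((lam * r) ^ 2 / 2)) := by
    rw [← Real.exp_nat_mul, Real.exp_le_exp]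
    have h6 : (S.card : ℝ) ≤ n := by exact_mod_cast hn
    exact mul_le_mul_of_nonneg_right h6 (by positivity)
  -- Markov
  have h7 : ((univ.filter fun ω : ι → κ => t < ∑ i ∈ S, g i (ω i)).card : ℝ)
      * Real.exp (lam * t) ≤ ∑ ω : ι → κ, Real.exp (lam * ∑ i ∈ S, g i (ω i)) := by
    rw [← nsmul_eq_mul, ← Finset.sum_const]
    refine (Finset.sum_le_sum fun ω hω => ?_).trans
      (Finset.sum_le_sum_of_subset_of_nonneg (Finset.filter_subset _ _)
        fun ω _ _ => (Real.exp_pos (lam * ∑ i ∈ S, g i (ω i))).le)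
    rw [Real.exp_le_exp]
    exact mul_le_mul_of_nonneg_left (Finset.mem_filter.1 hω).2.le hl0.le
  have h8 : ((univ.filter fun ω : ι → κ => t < ∑ i ∈ S, g i (ω i)).card : ℝ)
      * Real.exp (lam * t) ≤ (Fintype.card κ : ℝ) ^ (Fintype.card ι)
        * Real.exp (n * ((lam * r) ^ 2 / 2)) :=
    (h7.trans h4).trans (mul_le_mul_of_nonneg_left h5 (by positivity))
  have h9 : ((univ.filter fun ω : ι → κ => t < ∑ i ∈ S, g i (ω i)).card : ℝ) ≤
      (Fintype.card κ : ℝ) ^ (Fintype.card ι) * Real.exp (n * ((lam * r) ^ 2 / 2))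
        * Real.exp (-(lam * t)) := by
    have h10 := mul_le_mul_of_nonneg_right h8 (Real.exp_pos (-(lam * t))).le
    rwa [mul_assoc, ← Real.exp_add, add_neg_cancel, Real.exp_zero, mul_one] at h10
  refine h9.trans (le_of_eq ?_)
  rw [mul_assoc, ← Real.exp_add, hcard, mul_comm]
  congr 2
  rw [hlam]
  field_simp
  ring

theorem hoe {ι κ : Type} [Fintype ι] [Fintype κ] [Nonempty κ] (S : Finset ι) (f : ι → κ → ℝ)
    (n : ℕ) (r t : ℝ) (hn0 : 1 ≤ n) (hn : S.card ≤ n) (hr : 0 < r) (ht : 0 < t)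
    (hf0 : ∀ i a, 0 ≤ f i a) (hfr : ∀ i a, f i a ≤ r) :
    ((univ.filter fun ω : ι → κ => t < |∑ i ∈ S, f i (ω i) -
      ∑ i ∈ S, (∑ a, f i a) / (Fintype.card κ : ℝ)|).card : ℝ) ≤
      2 * Real.exp (-(t ^ 2 / (2 * n * r ^ 2))) * Fintype.card (ι → κ) := by
  have hK : (0 : ℝ) < Fintype.card κ := by exact_mod_cast Fintype.card_pos
  obtain ⟨g, hg⟩ : ∃ g : ι → κ → ℝ, ∀ i a, g i a = f i a - (∑ b, f i b) / Fintype.card κ :=
    ⟨fun i a => f i a - (∑ b, f i b) / Fintype.card κ, fun i a => rfl⟩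
  have hg0 : ∀ i, ∑ a, g i a = 0 := by
    intro i
    rw [Finset.sum_congr rfl (fun a _ => hg i a), Finset.sum_sub_distrib, Finset.sum_const,
      Finset.card_univ, nsmul_eq_mul, mul_div_cancel₀ _ hK.ne', sub_self]
  have hgr : ∀ i a, |g i a| ≤ r := by
    intro i a
    have h1 : 0 ≤ (∑ b, f i b) / Fintype.card κ :=
      div_nonneg (Finset.sum_nonneg fun b _ => hf0 i b) hK.le
    have h2 : (∑ b, f i b) / Fintype.card κ ≤ r := by
      rw [div_le_iff₀ hK]
      refine (Finset.sum_le_sum fun b _ => hfr i b).trans (le_of_eq ?_)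
      rw [Finset.sum_const, Finset.card_univ, nsmul_eq_mul, mul_comm]
    rw [hg, abs_le]
    constructor
    · have := hf0 i a
      linarith
    · have := hfr i a
      linarith
  have hZ : ∀ ω : ι → κ, ∑ i ∈ S, f i (ω i) - ∑ i ∈ S, (∑ a, f i a) / (Fintype.card κ : ℝ)
      = ∑ i ∈ S, g i (ω i) := by
    intro ω
    rw [← Finset.sum_sub_distrib]
    exact Finset.sum_congr rfl fun i _ => (hg i (ω i)).symm
  have h1 := Hoe_gen S g n r t hn0 hn hr ht hg0 hgr
  have h2 := Hoe_gen S (fun i a => -g i a) n r t hn0 hn hr ht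
    (fun i => by rw [Finset.sum_neg_distrib, hg0, neg_zero])
    (fun i a => by rw [abs_neg]; exact hgr i a)
  have h3 : (univ.filter fun ω : ι → κ => t < |∑ i ∈ S, f i (ω i) -
      ∑ i ∈ S, (∑ a, f i a) / (Fintype.card κ : ℝ)|) ⊆
      (univ.filter fun ω : ι → κ => t < ∑ i ∈ S, g i (ω i)) ∪
      (univ.filter fun ω : ι → κ => t < ∑ i ∈ S, -g i (ω i)) := by
    intro ω hω
    have h4 := (Finset.mem_filter.1 hω).2
    rw [hZ ω, lt_abs] at h4
    rw [Finset.mem_union, Finset.mem_filter, Finset.mem_filter]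
    rcases h4 with h4 | h4
    · exact Or.inl ⟨Finset.mem_univ _, h4⟩
    · refine Or.inr ⟨Finset.mem_univ _, ?_⟩
      rw [Finset.sum_neg_distrib]
      exact h4
  have h5 : ((univ.filter fun ω : ι → κ => t < |∑ i ∈ S, f i (ω i) -
      ∑ i ∈ S, (∑ a, f i a) / (Fintype.card κ : ℝ)|).card : ℝ) ≤
      ((univ.filter fun ω : ι → κ => t < ∑ i ∈ S, g i (ω i)).card : ℝ) +
      ((univ.filter fun ω : ι → κ => t < ∑ i ∈ S, -g i (ω i)).card : ℝ) := by
    exact_mod_cast (Finset.card_le_card h3).trans (Finset.card_union_le _ _)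
  linarith

end Pool.Agent.H71.MA
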