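import Mathlib
import Pool.Agent.H28.LLL
import Pool.Agent.H71.MA.Hoe

/-!
LHX: the local lemma for Hoeffding events and some extra events.

Proof.  Apply `H28.local_lemma` (in `Pool/Agent/H28/LLL.lean`; variables `ι`, values `κ`) to the index type
`J ⊕ J'`: the event of `inl j` is `{ω : t < |∑ i ∈ S j, f j i (ω i) - mean|}`, which depends only on `S j`;
the event of `inr j` is `A j`, which depends only on `S' j`. `q0 := max q (2 exp (- t^2 / (2 n r^2)))` bounds
both kinds (`hoe`, `hAq`). For one event with coordinate set `N`, `#N ≤ n`, the other events whose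
coordinate set meets `N` are among the events that contain one of the (at most `n`) coordinates of `N`,
at most `m` for each coordinate (`hm`), so there are at most `d := n * m` of them (`card_biUnion_le`).
`4 q0 d ≤ 1` and `4 q0 ≤ 1` follow from `hqc`, `hec` (`d ≤ n * m + 1`, `1 ≤ n * m + 1`).
-/

set_option autoImplicit false

namespace Pool.Agent.H71.MA

open Finset Classical

theorem Lhx_cnt {ι J J' : Type} [Fintype J] [Fintype J'] (S : J → Finset ι) (S' : J' → Finset ι)
    (m : ℕ) (x : ι)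
    (hm : (univ.filter fun j => x ∈ S j).card + (univ.filter fun j => x ∈ S' j).card ≤ m) :
    (univ.filter fun j : J ⊕ J' => x ∈ (Sum.elim S S' j : Finset ι)).card ≤ m := by
  have h1 : (univ.filter fun j : J ⊕ J' => x ∈ (Sum.elim S S' j : Finset ι)) ⊆
      ((univ.filter fun j => x ∈ S j).image Sum.inl) ∪
        ((univ.filter fun j => x ∈ S' j).image Sum.inr) := by
    intro j hj
    rw [Finset.mem_filter] at hj
    rw [Finset.mem_union, Finset.mem_image, Finset.mem_image]
    cases j with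
    | inl j =>
      left
      exact ⟨j, Finset.mem_filter.2 ⟨Finset.mem_univ _, hj.2⟩, rfl⟩
    | inr j =>
      right
      exact ⟨j, Finset.mem_filter.2 ⟨Finset.mem_univ _, hj.2⟩, rfl⟩
  refine (Finset.card_le_card h1).trans ((Finset.card_union_le _ _).trans ?_)
  exact (Nat.add_le_add Finset.card_image_le Finset.card_image_le).trans hm

theorem lhx {ι κ J J' : Type} [Fintype ι] [Fintype κ] [Nonempty κ] [Fintype J] [Fintype J']
    (S : J → Finset ι) (f : J → ι → κ → ℝ) (S' : J' → Finset ι) (A : J' → Finset (ι → κ))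
    (n m : ℕ) (r t q : ℝ) (hn0 : 1 ≤ n) (hr : 0 < r) (ht : 0 < t) (hq : 0 ≤ q)
    (hn : ∀ j, (S j).card ≤ n) (hn' : ∀ j, (S' j).card ≤ n)
    (hm : ∀ i, (univ.filter fun j => i ∈ S j).card + (univ.filter fun j => i ∈ S' j).card ≤ m)
    (hf0 : ∀ j i a, 0 ≤ f j i a) (hfr : ∀ j i a, f j i a ≤ r)
    (hA : ∀ j, Pool.Agent.H28.DependsOnly (A j) (S' j))
    (hAq : ∀ j, ((A j).card : ℝ) ≤ q * Fintype.card (ι → κ))
    (hqc : 4 * q * ((n : ℝ) * m + 1) ≤ 1)
    (hec : 8 * Real.exp (-(t ^ 2 / (2 * n * r ^ 2))) * ((n : ℝ) * m + 1) ≤ 1) :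
    ∃ ω : ι → κ, (∀ j, |∑ i ∈ S j, f j i (ω i) -
      ∑ i ∈ S j, (∑ a, f j i a) / (Fintype.card κ : ℝ)| ≤ t) ∧ ∀ j, ω ∉ A j := by
  obtain ⟨e, he⟩ : ∃ e : ℝ, e = 2 * Real.exp (-(t ^ 2 / (2 * n * r ^ 2))) := ⟨_, rfl⟩
  obtain ⟨B, hB⟩ : ∃ B : J → Finset (ι → κ), ∀ j, B j = univ.filter fun ω : ι → κ =>
      t < |∑ i ∈ S j, f j i (ω i) - ∑ i ∈ S j, (∑ a, f j i a) / (Fintype.card κ : ℝ)| :=
    ⟨_, fun _ => rfl⟩
  have he0 : 0 ≤ e := by
    rw [he]
    positivity
  have hnm : (0 : ℝ) ≤ (n : ℝ) * m := by positivity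
  have hC : (0 : ℝ) ≤ (Fintype.card (ι → κ) : ℝ) := Nat.cast_nonneg _
  have hqc2 : ∀ x : ℝ, 0 ≤ x → 4 * x * ((n : ℝ) * m + 1) ≤ 1 →
      4 * x * ((n : ℝ) * m) ≤ 1 ∧ 4 * x ≤ 1 := by
    intro x hx h
    have h1 : 0 ≤ 4 * x * ((n : ℝ) * m) := by positivity
    have h2 : 4 * x * ((n : ℝ) * m + 1) = 4 * x * ((n : ℝ) * m) + 4 * x := by ring
    rw [h2] at h
    constructor
    · linarith
    · linarith
  have hmax0 : 0 ≤ max q e := le_trans hq (le_max_left _ _)
  have hmax : 4 * max q e * ((n : ℝ) * m + 1) ≤ 1 := by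
    rcases max_choice q e with h | h
    · rw [h]
      exact hqc
    · rw [h, he]
      refine le_trans (le_of_eq ?_) hec
      ring
  obtain ⟨hc1, hc2⟩ := hqc2 _ hmax0 hmax
  have hdep : ∀ i : J ⊕ J', Pool.Agent.H28.DependsOnly (Sum.elim B A i) (Sum.elim S S' i) := by
    intro i
    cases i with
    | inl j =>
      intro u v huv hu
      rw [Sum.elim_inl] at huv hu ⊢
      rw [hB, Finset.mem_filter] at hu ⊢
      refine ⟨Finset.mem_univ _, ?_⟩
      have h1 : ∑ i ∈ S j, f j i (v i) = ∑ i ∈ S j, f j i (u i) := by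
        apply Finset.sum_congr rfl
        intro i hi
        rw [huv i hi]
      rw [h1]
      exact hu.2
    | inr j => exact hA j
  have hcard : ∀ i : J ⊕ J', ((Sum.elim B A i).card : ℝ) ≤
      max q e * Fintype.card (ι → κ) := by
    intro i
    cases i with
    | inl j =>
      rw [Sum.elim_inl]
      have h1 := hoe (S j) (f j) n r t hn0 (hn j) hr ht (hf0 j) (hfr j)
      rw [← hB, ← he] at h1
      exact h1.trans (mul_le_mul_of_nonneg_right (le_max_right _ _) hC)
    | inr j =>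
      rw [Sum.elim_inr]
      exact (hAq j).trans (mul_le_mul_of_nonneg_right (le_max_left _ _) hC)
  have hNn : ∀ i : J ⊕ J', (Sum.elim S S' i : Finset ι).card ≤ n := by
    intro i
    cases i with
    | inl j => exact hn j
    | inr j => exact hn' j
  have hd : ∀ i : J ⊕ J', (univ.filter fun j : J ⊕ J' =>
      j ≠ i ∧ ¬ Disjoint (Sum.elim S S' i : Finset ι) (Sum.elim S S' j)).card ≤ n * m := by
    intro i
    have h1 : (univ.filter fun j : J ⊕ J' =>
        j ≠ i ∧ ¬ Disjoint (Sum.elim S S' i : Finset ι) (Sum.elim S S' j)) ⊆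
        (Sum.elim S S' i : Finset ι).biUnion
          (fun x => univ.filter fun j : J ⊕ J' => x ∈ (Sum.elim S S' j : Finset ι)) := by
      intro j hj
      rw [Finset.mem_filter, Finset.not_disjoint_iff] at hj
      obtain ⟨_, _, x, hx1, hx2⟩ := hj
      rw [Finset.mem_biUnion]
      exact ⟨x, hx1, Finset.mem_filter.2 ⟨Finset.mem_univ _, hx2⟩⟩
    refine (Finset.card_le_card h1).trans (Finset.card_biUnion_le.trans ?_)
    refine (Finset.sum_le_sum (fun x _ => Lhx_cnt S S' m x (hm x))).trans ?_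
    rw [Finset.sum_const, smul_eq_mul]
    exact Nat.mul_le_mul_right _ (hNn i)
  obtain ⟨ω, hω⟩ := Pool.Agent.H28.local_lemma (Sum.elim B A) (Sum.elim S S') hdep (n * m)
    (max q e) hmax0 hd hcard (by push_cast; exact hc1) hc2 Fintype.card_pos
  refine ⟨ω, fun j => ?_, fun j => ?_⟩
  · have h1 := hω (Sum.inl j)
    rw [Sum.elim_inl, hB, Finset.mem_filter] at h1
    by_contra hcon
    push Not at hcon
    exact h1 ⟨Finset.mem_univ _, hcon⟩
  · have h1 := hω (Sum.inr j)
    rw [Sum.elim_inr] at h1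
    exact h1

end Pool.Agent.H71.MA
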