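import Mathlib
import Pool.Agent.H71.MA.Defs
import Pool.Agent.H71.MA.Lhx

/-!
SMP: random selection of a `1 / Ld` fraction of the edges of the matchings `nn x`, `x0 ≤ x < x0 + b`.

Proof.  `lhx` with variables `Sym2 W`, values `Fin Ld`, no extra events (`J' := Empty`, `q := 0`), `r := 2`;
`sel x v := nn x v ≠ v ∧ ω s(v, nn x v) = 0` (value `0` in `Fin Ld`: `(ω _ : ℕ) = 0`). It is symmetric:
`s(nn x v, nn x (nn x v)) = s(v, nn x v)` (`hPM.inv`, for `x < M`; for `x ≥ M` define `sel x v := False`).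
Hoeffding events (index type `W ⊕ J × Fin b`):
 - `inl v`: `S := {s(v, nn x v) : x0 ≤ x < x0 + b, nn x v ≠ v}`, `f e a := if a = 0 then 1 else 0`. By `hPM.dis` the map
   `x ↦ s(v, nn x v)` is injective on the `x` with `nn x v ≠ v`, so the sum over `S` is `#{x : sel x v}` and the mean
   is `#S / Ld ≤ b / Ld`; `#S ≤ b ≤ n`.
 - `inr (j, i)`, `x := x0 + i`: `S := {s(u, nn x u) : u ∈ T j, nn x u ≠ u}`, `f e a := if a = 0 then
   #{u ∈ T j : nn x u ≠ u, s(u, nn x u) = e} else 0 ≤ 2` (`u ∈ e`). The sum is `#{u ∈ T j : sel x u}`, the mean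
   `#{u ∈ T j : nn x u ≠ u} / Ld`.
A variable `e` is in the event `inl v` only if `v ∈ e` (at most 2), and in `inr (j, i)` only if `e = s(u, nn x u)`,
`nn x u ≠ u`, `u ∈ T j`: `x` is determined by `e` (`hPM.dis`, `hPM.inv`: if `s(u, nn x u) = s(u', nn x' u')` then
`u' = u` and `nn x' u = nn x u`, or `u' = nn x u` and `nn x' u' = u = nn x u'`; in both cases `x = x'`), `u` is one of
2 and `j` one of at most `m`: at most `2 m`. Together `2 + 2 m`.
-/

set_option autoImplicit false

namespace Pool.Agent.H71.MA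

open Finset Classical
open Pool.Agent.H71.DN

theorem Smp_filter {α : Type} [Fintype α] (p : α → Prop) (inst : DecidablePred p) (s : Finset α)
    (h : ∀ a, p a → a ∈ s) : (@Finset.filter α p inst univ).card ≤ s.card :=
  Finset.card_le_card fun a ha => h a (Finset.mem_filter.mp ha).2

theorem Smp_two {W : Type} [Fintype W] (e : Sym2 W) : (univ.filter fun v => v ∈ e).card ≤ 2 := by
  induction e using Sym2.ind with
  | _ p q =>
    have h1 : (univ.filter fun v => v ∈ s(p, q)) ⊆ {p, q} := by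
      intro v hv
      rw [Finset.mem_filter, Sym2.mem_iff] at hv
      rw [Finset.mem_insert, Finset.mem_singleton]
      exact hv.2
    exact (Finset.card_le_card h1).trans Finset.card_le_two

theorem Smp_sum {Ld : ℕ} (hLd : 1 ≤ Ld) (c : ℝ) :
    ∑ a : Fin Ld, (if (a : ℕ) = 0 then c else 0) = c := by
  have h1 : ∀ a : Fin Ld, (if (a : ℕ) = 0 then c else 0) =
      if a = (⟨0, hLd⟩ : Fin Ld) then c else 0 := by
    intro a
    congr 1
    rw [Fin.ext_iff]
  rw [Finset.sum_congr rfl fun a _ => h1 a, Finset.sum_ite_eq' univ (⟨0, hLd⟩ : Fin Ld) fun _ => c,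
    if_pos (Finset.mem_univ _)]

theorem Smp_half {W J : Type} [Fintype W] [Fintype J] {H : SimpleGraph W} {M : ℕ}
    {U : ℕ → Finset W} {nn : ℕ → W → W} (hPM : PM H M U nn) (T : J → Finset W) (m x0 b : ℕ)
    (hb : x0 + b ≤ M) (hm : ∀ u, (univ.filter fun j => u ∈ T j).card ≤ m) (p q : W) :
    (univ.filter fun ji : J × Fin b => p ∈ T ji.1 ∧ nn (x0 + (ji.2 : ℕ)) p = q ∧
      nn (x0 + (ji.2 : ℕ)) p ≠ p).card ≤ m := by
  refine le_trans (Finset.card_le_card_of_injOn Prod.fst ?_ ?_) (hm p)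
  · intro ji hji
    rw [Finset.mem_coe, Finset.mem_filter] at hji ⊢
    exact ⟨Finset.mem_univ _, hji.2.1⟩
  · rintro ⟨j, i⟩ h1 ⟨j', i'⟩ h2 h
    rw [Finset.mem_coe, Finset.mem_filter] at h1 h2
    have hj : j = j' := h
    subst hj
    have hi : i = i' := by
      by_contra hne
      have h3 : x0 + (i : ℕ) ≠ x0 + (i' : ℕ) := by
        intro h4
        exact hne (Fin.ext (by omega))
      have h5 := hPM.dis (x0 + (i : ℕ)) (by have := i.2; omega) (x0 + (i' : ℕ))
        (by have := i'.2; omega) h3 p h1.2.2.2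
      exact h5 (h1.2.2.1.trans h2.2.2.1.symm)
    rw [hi]

theorem smp {W J : Type} [Fintype W] [Fintype J] (H : SimpleGraph W) (M : ℕ) (U : ℕ → Finset W)
    (nn : ℕ → W → W) (hPM : PM H M U nn) (T : J → Finset W) (n m Ld x0 b : ℕ) (t : ℝ)
    (hLd : 1 ≤ Ld) (hn1 : 1 ≤ n) (ht : 0 < t) (hb : x0 + b ≤ M) (hbn : b ≤ n)
    (hT : ∀ j, (T j).card ≤ n) (hm : ∀ u, (univ.filter fun j => u ∈ T j).card ≤ m)
    (he : 8 * Real.exp (-(t ^ 2 / (8 * n))) * ((n : ℝ) * (2 + 2 * m : ℕ) + 1) ≤ 1) :
    ∃ sel : ℕ → W → Prop, (∀ x v, sel x v → nn x v ≠ v ∧ sel x (nn x v)) ∧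
      (∀ j x, x0 ≤ x → x < x0 + b →
        |(((T j).filter fun u => sel x u).card : ℝ) -
          (((T j).filter fun u => nn x u ≠ u).card : ℝ) / Ld| ≤ t) ∧
      ∀ v, (((Finset.Ico x0 (x0 + b)).filter fun x => sel x v).card : ℝ) ≤ (b : ℝ) / Ld + t := by
  have hNE : Nonempty (Fin Ld) := ⟨⟨0, hLd⟩⟩
  -- the events
  obtain ⟨S, hS⟩ : ∃ S : W ⊕ J × Fin b → Finset (Sym2 W), S = fun idx => match idx with
      | Sum.inl v => ((Finset.Ico x0 (x0 + b)).filter fun x => nn x v ≠ v).image
          fun x => s(v, nn x v)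
      | Sum.inr ji => ((T ji.1).filter fun u => nn (x0 + (ji.2 : ℕ)) u ≠ u).image
          fun u => s(u, nn (x0 + (ji.2 : ℕ)) u) := ⟨_, rfl⟩
  obtain ⟨f, hf⟩ : ∃ f : W ⊕ J × Fin b → Sym2 W → Fin Ld → ℝ, f = fun idx e a => match idx with
      | Sum.inl _ => if (a : ℕ) = 0 then 1 else 0
      | Sum.inr ji => if (a : ℕ) = 0 then (((T ji.1).filter fun u => nn (x0 + (ji.2 : ℕ)) u ≠ u ∧
          s(u, nn (x0 + (ji.2 : ℕ)) u) = e).card : ℝ) else 0 := ⟨_, rfl⟩
  have hSl : ∀ v, S (Sum.inl v) = ((Finset.Ico x0 (x0 + b)).filter fun x => nn x v ≠ v).image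
      fun x => s(v, nn x v) := fun v => by rw [hS]
  have hSr : ∀ j (i : Fin b), S (Sum.inr (j, i)) =
      ((T j).filter fun u => nn (x0 + (i : ℕ)) u ≠ u).image
        fun u => s(u, nn (x0 + (i : ℕ)) u) := fun j i => by rw [hS]
  have hfl : ∀ v e a, f (Sum.inl v) e a = if (a : ℕ) = 0 then 1 else 0 := fun v e a => by rw [hf]
  have hfr : ∀ j (i : Fin b) e a, f (Sum.inr (j, i)) e a = if (a : ℕ) = 0 then
      (((T j).filter fun u => nn (x0 + (i : ℕ)) u ≠ u ∧
        s(u, nn (x0 + (i : ℕ)) u) = e).card : ℝ) else 0 := fun j i e a => by rw [hf]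
  obtain ⟨ω, hω, -⟩ := lhx (κ := Fin Ld) (J' := Empty) S f (fun _ => ∅) (fun _ => ∅) n (2 + 2 * m)
    2 t 0 hn1 two_pos ht le_rfl
    (by
      rintro (v | ⟨j, i⟩)
      · rw [hSl]
        refine le_trans Finset.card_image_le (le_trans (Finset.card_filter_le _ _) ?_)
        rw [Nat.card_Ico]
        omega
      · rw [hSr]
        exact le_trans Finset.card_image_le (le_trans (Finset.card_filter_le _ _) (hT j)))
    (fun j => j.elim)
    (by
      intro e
      have h0 : ∀ s : Finset Empty, s.card = 0 := fun s => by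
        rw [Finset.card_eq_zero]
        exact Subsingleton.elim _ _
      rw [h0, add_zero]
      have h2 : (univ.filter fun ji : J × Fin b => e ∈ S (Sum.inr ji)).card ≤ 2 * m := by
        induction e using Sym2.ind with
        | _ p q =>
          have h3 : (univ.filter fun ji : J × Fin b => s(p, q) ∈ S (Sum.inr ji)) ⊆
              (univ.filter fun ji : J × Fin b => p ∈ T ji.1 ∧ nn (x0 + (ji.2 : ℕ)) p = q ∧
                nn (x0 + (ji.2 : ℕ)) p ≠ p) ∪
              (univ.filter fun ji : J × Fin b => q ∈ T ji.1 ∧ nn (x0 + (ji.2 : ℕ)) q = p ∧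
                nn (x0 + (ji.2 : ℕ)) q ≠ q) := by
            rintro ⟨j, i⟩ h
            rw [Finset.mem_filter, hSr, Finset.mem_image] at h
            obtain ⟨-, u, hu, hux⟩ := h
            rw [Finset.mem_filter] at hu
            rw [Sym2.eq_iff] at hux
            rcases hux with ⟨rfl, h4⟩ | ⟨rfl, h4⟩
            · exact Finset.mem_union_left _ (Finset.mem_filter.mpr ⟨Finset.mem_univ _, hu.1, h4, hu.2⟩)
            · exact Finset.mem_union_right _ (Finset.mem_filter.mpr ⟨Finset.mem_univ _, hu.1, h4, hu.2⟩)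
          refine (Finset.card_le_card h3).trans ((Finset.card_union_le _ _).trans ?_)
          have h5 := Smp_half hPM T m x0 b hb hm p q
          have h6 := Smp_half hPM T m x0 b hb hm q p
          omega
      have h4 := (Finset.card_image_le (s := univ.filter fun v => v ∈ e)
        (f := (Sum.inl : W → W ⊕ J × Fin b))).trans (Smp_two e)
      have h5 := (Finset.card_image_le (s := univ.filter fun ji : J × Fin b => e ∈ S (Sum.inr ji))
        (f := (Sum.inr : J × Fin b → W ⊕ J × Fin b))).trans h2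
      refine le_trans (Smp_filter _ _ (((univ.filter fun v => v ∈ e).image Sum.inl) ∪
          ((univ.filter fun ji : J × Fin b => e ∈ S (Sum.inr ji)).image Sum.inr)) ?_) ?_
      · rintro (v | ji) h
        · rw [hSl, Finset.mem_image] at h
          obtain ⟨x, -, hx⟩ := h
          refine Finset.mem_union_left _ (Finset.mem_image_of_mem _ ?_)
          rw [Finset.mem_filter, ← hx]
          exact ⟨Finset.mem_univ _, Sym2.mem_mk_left _ _⟩
        · exact Finset.mem_union_right _ (Finset.mem_image_of_mem _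
            (Finset.mem_filter.mpr ⟨Finset.mem_univ _, h⟩))
      · refine (Finset.card_union_le _ _).trans ?_
        omega)
    (by
      rintro (v | ⟨j, i⟩) e a
      · rw [hfl]; split_ifs <;> norm_num
      · rw [hfr]; split_ifs
        · exact Nat.cast_nonneg _
        · exact le_rfl)
    (by
      rintro (v | ⟨j, i⟩) e a
      · rw [hfl]; split_ifs <;> norm_num
      · rw [hfr]; split_ifs
        · have h1 : ((T j).filter fun u => nn (x0 + (i : ℕ)) u ≠ u ∧
              s(u, nn (x0 + (i : ℕ)) u) = e) ⊆ univ.filter fun v => v ∈ e := by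
            intro u hu
            rw [Finset.mem_filter] at hu ⊢
            refine ⟨Finset.mem_univ _, ?_⟩
            rw [← hu.2.2]
            exact Sym2.mem_mk_left _ _
          exact_mod_cast (Finset.card_le_card h1).trans (Smp_two e)
        · norm_num)
    (fun j => j.elim) (fun j => j.elim) (by norm_num)
    (by
      refine le_trans (le_of_eq ?_) he
      have h1 : (2 * (n : ℝ) * 2 ^ 2) = 8 * n := by ring
      rw [h1])
  obtain ⟨sel, hsel⟩ : ∃ sel : ℕ → W → Prop, ∀ x v, sel x v ↔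
      (x < M ∧ nn x v ≠ v ∧ (ω s(v, nn x v) : ℕ) = 0) := ⟨_, fun _ _ => Iff.rfl⟩
  refine ⟨sel, ?_, ?_, ?_⟩
  · intro x v hxv
    obtain ⟨hx, h1, h2⟩ := (hsel x v).mp hxv
    have h3 : nn x (nn x v) = v := hPM.inv x hx v
    refine ⟨h1, (hsel _ _).mpr ⟨hx, ?_, ?_⟩⟩
    · rw [h3]; exact fun h => h1 h.symm
    · rw [h3, Sym2.eq_swap]; exact h2
  · intro j x hx0 hxb
    obtain ⟨i, rfl⟩ : ∃ i : Fin b, x = x0 + (i : ℕ) := ⟨⟨x - x0, by omega⟩, by
      change x = x0 + (x - x0); omega⟩
    have hxM : x0 + (i : ℕ) < M := by omega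
    have h1 := hω (Sum.inr (j, i))
    have e1 : ∑ e ∈ S (Sum.inr (j, i)), f (Sum.inr (j, i)) e (ω e) =
        (((T j).filter fun u => sel (x0 + (i : ℕ)) u).card : ℝ) := by
      rw [Finset.card_eq_sum_card_fiberwise (f := fun u => s(u, nn (x0 + (i : ℕ)) u))
        (t := S (Sum.inr (j, i))) (by
          intro u hu
          rw [Finset.mem_coe, Finset.mem_filter, hsel] at hu
          rw [Finset.mem_coe, hSr]
          exact Finset.mem_image_of_mem _ (Finset.mem_filter.mpr ⟨hu.1, hu.2.2.1⟩)), Nat.cast_sum]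
      refine Finset.sum_congr rfl fun e _ => ?_
      rw [hfr]
      split_ifs with h0
      · congr 2
        ext u
        simp only [Finset.mem_filter, hsel]
        constructor
        · rintro ⟨hu, h2, h3⟩
          refine ⟨⟨hu, hxM, h2, ?_⟩, h3⟩
          rw [h3]; exact h0
        · rintro ⟨⟨hu, -, h2, -⟩, h3⟩
          exact ⟨hu, h2, h3⟩
      · symm
        rw [Nat.cast_eq_zero, Finset.card_eq_zero, Finset.filter_eq_empty_iff]
        intro u hu h3
        rw [Finset.mem_filter, hsel] at hu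
        apply h0
        rw [← h3]
        exact hu.2.2.2
    have e2 : ∑ e ∈ S (Sum.inr (j, i)), (∑ a, f (Sum.inr (j, i)) e a) / (Fintype.card (Fin Ld) : ℝ) =
        (((T j).filter fun u => nn (x0 + (i : ℕ)) u ≠ u).card : ℝ) / Ld := by
      rw [← Finset.sum_div, Fintype.card_fin]
      congr 1
      rw [Finset.card_eq_sum_card_fiberwise (f := fun u => s(u, nn (x0 + (i : ℕ)) u))
        (t := S (Sum.inr (j, i))) (by
          intro u hu
          rw [Finset.mem_coe, Finset.mem_filter] at hu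
          rw [Finset.mem_coe, hSr]
          exact Finset.mem_image_of_mem _ (Finset.mem_filter.mpr hu)), Nat.cast_sum]
      refine Finset.sum_congr rfl fun e _ => ?_
      rw [Finset.sum_congr rfl fun a _ => hfr j i e a, Smp_sum hLd]
      congr 2
      rw [Finset.filter_filter]
    rw [e1, e2] at h1
    exact h1
  · intro v
    have h1 := hω (Sum.inl v)
    have e1 : (((Finset.Ico x0 (x0 + b)).filter fun x => sel x v).card : ℝ) ≤ ∑ e ∈ S (Sum.inl v), f (Sum.inl v) e (ω e) := by
      have e3 : ∑ e ∈ S (Sum.inl v), f (Sum.inl v) e (ω e) =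
          (((S (Sum.inl v)).filter fun e => (ω e : ℕ) = 0).card : ℝ) := by
        rw [Finset.sum_congr rfl fun e _ => hfl v e (ω e), Finset.sum_boole]
      rw [e3, Nat.cast_le]
      refine Finset.card_le_card_of_injOn (fun x => s(v, nn x v)) ?_ ?_
      · intro x hx
        rw [Finset.mem_coe, Finset.mem_filter, hsel] at hx
        rw [Finset.mem_coe, Finset.mem_filter, hSl]
        exact ⟨Finset.mem_image_of_mem _ (Finset.mem_filter.mpr ⟨hx.1, hx.2.2.1⟩), hx.2.2.2⟩
      · intro x hx x' hx' h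
        rw [Finset.mem_coe, Finset.mem_filter, hsel] at hx hx'
        by_contra hne
        have h2 := hPM.dis x hx.2.1 x' hx'.2.1 hne v hx.2.2.1
        apply h2
        have h3 : s(v, nn x v) = s(v, nn x' v) := h
        exact Sym2.congr_right.mp h3
    have e2 : ∑ e ∈ S (Sum.inl v), (∑ a, f (Sum.inl v) e a) / (Fintype.card (Fin Ld) : ℝ) ≤
        (b : ℝ) / Ld := by
      rw [← Finset.sum_div, Fintype.card_fin]
      refine div_le_div_of_nonneg_right ?_ (Nat.cast_nonneg _)
      rw [Finset.sum_congr rfl fun e _ => (Finset.sum_congr rfl fun a _ => hfl v e a).trans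
        (Smp_sum hLd 1), Finset.sum_const, nsmul_eq_mul, mul_one, Nat.cast_le, hSl]
      refine le_trans Finset.card_image_le (le_trans (Finset.card_filter_le _ _) ?_)
      rw [Nat.card_Ico]
      omega
    have h3 := (abs_le.mp h1).2
    linarith

end Pool.Agent.H71.MA
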