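import Mathlib
import Pool.Agent.H71.MA.Defs
import Pool.Agent.H71.MA.Smp
import Pool.Agent.H71.MA.Ext

/-!
BLK: one block of `b` labels `x0, ..., x0 + b - 1`.

Proof.  `R0 := Rc R mm x0` (`mm` the given state). Apply `smp` (with `H \ R`, `hPM`) to the index type `W ⊕ W ⊕ W`:
 `T1 v := C.filter (R0.Adj v ·)`, `T2 v := C.filter (R.Adj v ·)`, `T3 v := (A v).filter (R.Adj v ·)`, `n := Δ`,
 `m := 3 Δ` (`u ∈ T_i v` implies `H.Adj v u`, at most `dg H u ≤ Δ` values of `v`). It gives `sel`.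
Now by induction on `i ≤ b` construct `mm_i` with `St H R C U nn (x0 + i) mm_i`, `mm_i ℓ = mm ℓ` for `ℓ < x0`, and: for
 `x0 ≤ x < x0 + i`, `R.Adj v (mm_i x v)` implies `v ∉ U x ∧ (nn x v = v ∨ sel x v)`  (*).
 `i = 0`: `mm`. Step: `ext` with `x := x0 + i`, `sel x`. To check (write `[x]` for the conditions
 `u ∉ U x ∧ (nn x u = u ∨ sel x u)`):
 usage in the block, from (*): the number `ub v` of `x` in `[x0, x0 + i)` with `R.Adj v (mm_i x v)` satisfies for `v ∈ C`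
  `ub v ≤ #{x : sel x v} + #{x < M : v ∉ U x, nn x v = v} ≤ b / Ld + t + e1` (`smp`, `hB2`).
 (h1) Let `v ∈ C`. `#{u : (Rc R mm_i x).Adj v u, [x]} ≥ #{u : R0.Adj v u, [x]} - ub v`: an `R0`-neighbour `u` of `v` that is not
  a neighbour in `Rc R mm_i x` is `mm_i y v` for some `x0 ≤ y < x0 + i` (for `mm_i y u = v` use the involution), with
  `R.Adj v (mm_i y v)`. Next `#{u : R0.Adj v u, [x]} ≥ #{u ∈ C : R0.Adj v u, sel x u} + #{u ∉ C : R0.Adj v u}`:
  if `sel x u` then `nn x u ≠ u`, so `u ∉ U x` (`hPM.fix`); if `u ∉ C`, `R.Adj v u`: `u ∉ U x` (`hUC`) and `nn x u = u`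
  (otherwise `v` and `nn x u` are two different `H`-neighbours of `u`: `nn x u` is an `H \ R`-neighbour; but
  `dg H u ≤ 1`, `hL`). By `smp` for `T1 v`:
  `#{u ∈ C : R0.Adj v u, sel x u} ≥ #{u ∈ C : R0.Adj v u, nn x u ≠ u} / Ld - t`, so, as `Ld ≥ 1`,
  `#{u : R0.Adj v u, [x]} ≥ (dg R0 v - #{u ∈ C : H.Adj v u, nn x u = u}) / Ld - t`, and
  `#{u ∈ C : H.Adj v u, nn x u = u} ≤ #{u ∈ C : H.Adj v u, u ∉ U x, nn x u = u} + #{u ∈ U x : H.Adj v u} ≤ e1 + e1`.
  `dg R0 v ≥ dg R v - us R mm x0 v ≥ (r - t) - u0` (an `R`-neighbour of `v` that is not an `R0`-neighbour is `mm ℓ v`,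
  `ℓ < x0`). So (h1) follows from `hN1`.
 (h2) `#{v ∈ C : R.Adj u v, [x]} ≤ #{v ∈ C : R.Adj u v, sel x v} + #{v ∈ C : H.Adj u v, v ∉ U x, nn x v = v}
   ≤ (dg R u / Ld + t) + e1 ≤ (r + t) / Ld + t + e1`, `hN2`.
 (h4) `#{u ∈ A v : R.Adj v u, [x]} ≤ #{u ∈ A v : R.Adj v u, sel x u} + #{u ∈ C : H.Adj v u, u ∉ U x, nn x u = u}
   ≤ (a0 / Ld + t) + e1` (`A v ⊆ C` by `hAC`), `hN3`.
 Conclusion with `i = b`: for all `v`, `us R mm_b (x0 + b) v = us R mm x0 v + ub v`, and by (*)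
 `ub v ≤ #{x ∈ [x0, x0+b) : sel x v} + #{x ∈ [x0, x0+b) : v ∉ U x, nn x v = v}`.
-/

set_option autoImplicit false

namespace Pool.Agent.H71.MA

open Finset Classical
open Pool.Agent.H71.DN

theorem Blk_un {α : Type} (S A B : Finset α) (h : ∀ x ∈ S, x ∈ A ∨ x ∈ B) :
    (S.card : ℝ) ≤ (A.card : ℝ) + (B.card : ℝ) := by
  have h1 : S ⊆ A ∪ B := fun x hx => Finset.mem_union.2 (h x hx)
  exact_mod_cast (Finset.card_le_card h1).trans (Finset.card_union_le _ _)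

theorem Blk_sub {α : Type} (S A : Finset α) (h : S ⊆ A) : (S.card : ℝ) ≤ (A.card : ℝ) := by
  exact_mod_cast Finset.card_le_card h

/-- number of index sets containing a point -/
theorem Blk_m3 {W : Type} [Fintype W] (T1 T2 T3 : W → Finset W) (H : SimpleGraph W) (Δ : ℕ)
    (hΔ : ∀ v, dg H v ≤ Δ) (h1 : ∀ v, ∀ u ∈ T1 v, H.Adj v u) (h2 : ∀ v, ∀ u ∈ T2 v, H.Adj v u)
    (h3 : ∀ v, ∀ u ∈ T3 v, H.Adj v u) (u : W) :
    (univ.filter fun j : W ⊕ W ⊕ W => u ∈ (Sum.elim T1 (Sum.elim T2 T3) j : Finset W)).card ≤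
      3 * Δ := by
  have hs : (univ.filter fun j : W ⊕ W ⊕ W => u ∈ (Sum.elim T1 (Sum.elim T2 T3) j : Finset W)) ⊆
      ((univ.filter fun v => H.Adj u v).image Sum.inl) ∪
      (((univ.filter fun v => H.Adj u v).image (fun v => Sum.inr (Sum.inl v))) ∪
      ((univ.filter fun v => H.Adj u v).image (fun v => Sum.inr (Sum.inr v)))) := by
    intro j hj
    rw [Finset.mem_filter] at hj
    rw [Finset.mem_union, Finset.mem_union, Finset.mem_image, Finset.mem_image, Finset.mem_image]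
    rcases j with v | v | v
    · exact Or.inl ⟨v, Finset.mem_filter.2 ⟨Finset.mem_univ _, (h1 v u hj.2).symm⟩, rfl⟩
    · exact Or.inr (Or.inl ⟨v, Finset.mem_filter.2 ⟨Finset.mem_univ _, (h2 v u hj.2).symm⟩, rfl⟩)
    · exact Or.inr (Or.inr ⟨v, Finset.mem_filter.2 ⟨Finset.mem_univ _, (h3 v u hj.2).symm⟩, rfl⟩)
  have hd : (univ.filter fun v => H.Adj u v).card ≤ Δ := hΔ u
  have e1 := Finset.card_le_card hs
  have e2 := Finset.card_union_le ((univ.filter fun v => H.Adj u v).image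
      (Sum.inl : W → W ⊕ W ⊕ W))
    (((univ.filter fun v => H.Adj u v).image (fun v => (Sum.inr (Sum.inl v) : W ⊕ W ⊕ W))) ∪
      ((univ.filter fun v => H.Adj u v).image (fun v => (Sum.inr (Sum.inr v) : W ⊕ W ⊕ W))))
  have e3 := Finset.card_union_le
    ((univ.filter fun v => H.Adj u v).image (fun v => (Sum.inr (Sum.inl v) : W ⊕ W ⊕ W)))
      ((univ.filter fun v => H.Adj u v).image (fun v => (Sum.inr (Sum.inr v) : W ⊕ W ⊕ W)))
  have e4 : ((univ.filter fun v => H.Adj u v).image (Sum.inl : W → W ⊕ W ⊕ W)).card ≤ Δ :=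
    Finset.card_image_le.trans hd
  have e5 : ((univ.filter fun v => H.Adj u v).image
      (fun v => (Sum.inr (Sum.inl v) : W ⊕ W ⊕ W))).card ≤ Δ := Finset.card_image_le.trans hd
  have e6 : ((univ.filter fun v => H.Adj u v).image
      (fun v => (Sum.inr (Sum.inr v) : W ⊕ W ⊕ W))).card ≤ Δ := Finset.card_image_le.trans hd
  omega

/-- a vertex outside `C` adjacent to a reservoir edge is not moved -/
theorem Blk_out {W : Type} [Fintype W] (H R : SimpleGraph W) (hRH : R ≤ H) (C : Finset W) (M : ℕ)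
    (hL : ∀ v, v ∉ C → dg H v ≤ 1) (U : ℕ → Finset W) (nn : ℕ → W → W)
    (hPM : PM (H \ R) M U nn) (x : ℕ) (hx : x < M) (u v : W) (hu : u ∉ C) (huv : R.Adj v u) :
    nn x u = u := by
  by_contra hne
  have h1 := hPM.adj x hx u hne
  rw [SimpleGraph.sdiff_adj] at h1
  have h2 : v ≠ nn x u := by
    intro h
    apply h1.2
    rw [← h]
    exact huv.symm
  have h3 : ({v, nn x u} : Finset W) ⊆ univ.filter fun w => H.Adj u w := by
    intro w hw
    rw [Finset.mem_insert, Finset.mem_singleton] at hw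
    rw [Finset.mem_filter]
    refine ⟨Finset.mem_univ _, ?_⟩
    rcases hw with rfl | rfl
    · exact hRH huv.symm
    · exact h1.1
  have h4 := Finset.card_le_card h3
  rw [Finset.card_pair h2] at h4
  have h5 := hL u hu
  rw [dg] at h5
  omega

/-- degrees in the unused reservoir -/
theorem Blk_deg {W : Type} [Fintype W] (R : SimpleGraph W) (mm : ℕ → W → W) (x0 : ℕ)
    (hinv : ∀ ℓ < x0, Inv (mm ℓ)) (v : W) :
    (dg R v : ℝ) ≤ dg (Rc R mm x0) v + us R mm x0 v := by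
  have h1 : ∀ u ∈ (univ.filter fun u => R.Adj v u),
      u ∈ (univ.filter fun u => (Rc R mm x0).Adj v u) ∨
      u ∈ ((range x0).filter fun ℓ => R.Adj v (mm ℓ v)).image (fun ℓ => mm ℓ v) := by
    intro u hu
    rw [Finset.mem_filter] at hu
    rw [Finset.mem_filter, Finset.mem_image]
    by_cases h : ∃ ℓ < x0, mm ℓ v = u
    · obtain ⟨ℓ, hℓ, he⟩ := h
      refine Or.inr ⟨ℓ, Finset.mem_filter.2 ⟨Finset.mem_range.2 hℓ, ?_⟩, he⟩
      rw [he]
      exact hu.2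
    · refine Or.inl ⟨Finset.mem_univ _, hu.2, fun ℓ hℓ => ⟨fun h2 => h ⟨ℓ, hℓ, h2⟩, fun h2 => ?_⟩⟩
      apply h
      refine ⟨ℓ, hℓ, ?_⟩
      rw [← h2]
      exact hinv ℓ hℓ u
  have h2 := Blk_un _ _ _ h1
  have h3 : ((((range x0).filter fun ℓ => R.Adj v (mm ℓ v)).image (fun ℓ => mm ℓ v)).card : ℝ) ≤
      (((range x0).filter fun ℓ => R.Adj v (mm ℓ v)).card : ℝ) := by
    exact_mod_cast Finset.card_image_le
  rw [dg, dg, us]
  linarith

/-- the loss of available edges in the block -/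
theorem Blk_loss {W : Type} [Fintype W] (R : SimpleGraph W) (mm mi : ℕ → W → W) (x0 x : ℕ)
    (hinv : ∀ ℓ < x, Inv (mi ℓ)) (hag : ∀ ℓ < x0, mi ℓ = mm ℓ) (Ux : Finset W) (n : W → W) (sel : W → Prop) (v : W) :
    ((univ.filter fun u => (Rc R mm x0).Adj v u ∧ u ∉ Ux ∧ (n u = u ∨ sel u)).card : ℝ) ≤
      ((univ.filter fun u => (Rc R mi x).Adj v u ∧ u ∉ Ux ∧ (n u = u ∨ sel u)).card : ℝ) +
      (((Ico x0 x).filter fun y => R.Adj v (mi y v)).card : ℝ) := by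
  have h1 : ∀ u ∈ (univ.filter fun u => (Rc R mm x0).Adj v u ∧ u ∉ Ux ∧ (n u = u ∨ sel u)),
      u ∈ (univ.filter fun u => (Rc R mi x).Adj v u ∧ u ∉ Ux ∧ (n u = u ∨ sel u)) ∨
      u ∈ ((Ico x0 x).filter fun y => R.Adj v (mi y v)).image (fun ℓ => mi ℓ v) := by
    intro u hu
    rw [Finset.mem_filter] at hu
    obtain ⟨_, hR0, hQ⟩ := hu
    rw [Finset.mem_filter, Finset.mem_image]
    by_cases h : ∃ ℓ < x, mi ℓ v = u
    · obtain ⟨ℓ, hℓ, he⟩ := h
      have h3 : x0 ≤ ℓ := by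
        by_contra hlt
        push Not at hlt
        rw [hag ℓ hlt] at he
        exact (hR0.2 ℓ hlt).1 he
      refine Or.inr ⟨ℓ, Finset.mem_filter.2 ⟨Finset.mem_Ico.2 ⟨h3, hℓ⟩, ?_⟩, he⟩
      rw [he]
      exact hR0.1
    · refine Or.inl ⟨Finset.mem_univ _, ⟨hR0.1, fun ℓ hℓ => ⟨fun h2 => h ⟨ℓ, hℓ, h2⟩,
        fun h2 => ?_⟩⟩, hQ⟩
      apply h
      refine ⟨ℓ, hℓ, ?_⟩
      rw [← h2]
      exact hinv ℓ hℓ u
  have h2 := Blk_un _ _ _ h1
  have h3 : ((((Ico x0 x).filter fun y => R.Adj v (mi y v)).image (fun ℓ => mi ℓ v)).card : ℝ) ≤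
      (((Ico x0 x).filter fun y => R.Adj v (mi y v)).card : ℝ) := by
    exact_mod_cast Finset.card_image_le
  linarith

/-- lower bound for the number of available edges at the start of the block -/
theorem Blk_low {W : Type} [Fintype W] (H R R0 : SimpleGraph W) (hRH : R ≤ H) (hR0 : R0 ≤ R)
    (C : Finset W) (M : ℕ) (hL : ∀ v, v ∉ C → dg H v ≤ 1) (U : ℕ → Finset W)
    (hUC : ∀ ℓ, U ℓ ⊆ C) (nn : ℕ → W → W) (hPM : PM (H \ R) M U nn) (x Ld : ℕ) (hx : x < M)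
    (hLd : 1 ≤ Ld) (t e1 : ℝ) (sel : W → Prop) (hsel : ∀ v, sel v → nn x v ≠ v)
    (hU1 : ∀ v, (((U x).filter fun u => H.Adj v u).card : ℝ) ≤ e1)
    (hB1 : ∀ v, ((C.filter fun u => H.Adj v u ∧ u ∉ U x ∧ nn x u = u).card : ℝ) ≤ e1) (v : W)
    (hs : (((C.filter fun u => R0.Adj v u).filter fun u => nn x u ≠ u).card : ℝ) / Ld - t ≤
      (((C.filter fun u => R0.Adj v u).filter fun u => sel u).card : ℝ)) :
    ((dg R0 v : ℝ) - 2 * e1) / Ld - t ≤
      ((univ.filter fun u => R0.Adj v u ∧ u ∉ U x ∧ (nn x u = u ∨ sel u)).card : ℝ) := by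
  have hLd0 : (1 : ℝ) ≤ Ld := by exact_mod_cast hLd
  have h1 : ((C.filter fun u => R0.Adj v u).filter fun u => sel u) ∪
      (univ.filter fun u => R0.Adj v u ∧ u ∉ C) ⊆
      (univ.filter fun u => R0.Adj v u ∧ u ∉ U x ∧ (nn x u = u ∨ sel u)) := by
    intro u hu
    rw [Finset.mem_union, Finset.mem_filter, Finset.mem_filter, Finset.mem_filter] at hu
    rw [Finset.mem_filter]
    rcases hu with ⟨⟨_, h2⟩, h3⟩ | ⟨_, h2, h3⟩
    · refine ⟨Finset.mem_univ _, h2, fun h4 => ?_, Or.inr h3⟩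
      exact hsel u h3 (hPM.fix x hx u h4)
    · exact ⟨Finset.mem_univ _, h2, fun h4 => h3 (hUC x h4),
        Or.inl (Blk_out H R hRH C M hL U nn hPM x hx u v h3 (hR0 h2))⟩
  have hdj : Disjoint ((C.filter fun u => R0.Adj v u).filter fun u => sel u)
      (univ.filter fun u => R0.Adj v u ∧ u ∉ C) := by
    rw [Finset.disjoint_left]
    intro u hu hu2
    rw [Finset.mem_filter, Finset.mem_filter] at hu
    rw [Finset.mem_filter] at hu2
    exact hu2.2.2 hu.1.1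
  have h2 := Blk_sub _ _ h1
  rw [Finset.card_union_of_disjoint hdj, Nat.cast_add] at h2
  have h3 : (dg R0 v : ℝ) ≤ ((C.filter fun u => R0.Adj v u).card : ℝ) +
      ((univ.filter fun u => R0.Adj v u ∧ u ∉ C).card : ℝ) := by
    rw [dg]
    apply Blk_un
    intro u hu
    rw [Finset.mem_filter] at hu
    rw [Finset.mem_filter, Finset.mem_filter]
    by_cases h : u ∈ C
    · exact Or.inl ⟨h, hu.2⟩
    · exact Or.inr ⟨Finset.mem_univ _, hu.2, h⟩
  have h4 : ((C.filter fun u => R0.Adj v u).card : ℝ) ≤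
      (((C.filter fun u => R0.Adj v u).filter fun u => nn x u ≠ u).card : ℝ) +
      (((C.filter fun u => R0.Adj v u).filter fun u => nn x u = u).card : ℝ) := by
    apply Blk_un
    intro u hu
    by_cases h : nn x u = u
    · exact Or.inr (Finset.mem_filter.2 ⟨hu, h⟩)
    · exact Or.inl (Finset.mem_filter.2 ⟨hu, h⟩)
  have h5 : (((C.filter fun u => R0.Adj v u).filter fun u => nn x u = u).card : ℝ) ≤
      ((C.filter fun u => H.Adj v u ∧ u ∉ U x ∧ nn x u = u).card : ℝ) +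
      (((U x).filter fun u => H.Adj v u).card : ℝ) := by
    apply Blk_un
    intro u hu
    rw [Finset.mem_filter, Finset.mem_filter] at hu
    rw [Finset.mem_filter, Finset.mem_filter]
    have h6 : H.Adj v u := hRH (hR0 hu.1.2)
    by_cases h : u ∈ U x
    · exact Or.inr ⟨h, h6⟩
    · exact Or.inl ⟨hu.1.1, h6, h, hu.2⟩
  have h6 := hU1 v
  have h7 := hB1 v
  obtain ⟨a, ha⟩ : ∃ a : ℝ, a =
    (((C.filter fun u => R0.Adj v u).filter fun u => nn x u ≠ u).card : ℝ) := ⟨_, rfl⟩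
  obtain ⟨o, ho⟩ : ∃ o : ℝ, o = ((univ.filter fun u => R0.Adj v u ∧ u ∉ C).card : ℝ) := ⟨_, rfl⟩
  rw [← ha] at hs h4
  rw [← ho] at h2 h3
  have ho0 : 0 ≤ o := by
    rw [ho]
    exact Nat.cast_nonneg _
  have h8 : ((dg R0 v : ℝ) - 2 * e1) / Ld ≤ (a + o) / Ld := by
    apply div_le_div_of_nonneg_right _ (by linarith)
    linarith
  have h9 : o / Ld ≤ o := div_le_self ho0 hLd0
  rw [add_div] at h8
  linarith

/-- upper bound for a set of available edges -/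
theorem Blk_up {W : Type} (T B : Finset W) (P Q1 Q2 : W → Prop) [DecidablePred P]
    [DecidablePred Q2]
    (S : Finset W) (n : W → W) (Ld : ℕ) (hLd : 1 ≤ Ld) (t e1 k : ℝ)
    (hS : ∀ u ∈ S, P u → (Q1 u ∨ Q2 u)) (hT : ∀ u ∈ S, P u → Q2 u → u ∈ T)
    (hB : ∀ u ∈ S, P u → Q1 u → u ∈ B) (hB1 : (B.card : ℝ) ≤ e1)
    (hT1 : ((T.filter Q2).card : ℝ) ≤ ((T.filter fun u => n u ≠ u).card : ℝ) / Ld + t)
    (hk : (T.card : ℝ) ≤ k) :
    ((S.filter P).card : ℝ) ≤ k / Ld + t + e1 := by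
  have hLd0 : (1 : ℝ) ≤ Ld := by exact_mod_cast hLd
  have h1 : ((S.filter P).card : ℝ) ≤ ((T.filter Q2).card : ℝ) + (B.card : ℝ) := by
    apply Blk_un
    intro u hu
    rw [Finset.mem_filter] at hu
    rw [Finset.mem_filter]
    rcases hS u hu.1 hu.2 with h | h
    · exact Or.inr (hB u hu.1 hu.2 h)
    · exact Or.inl ⟨hT u hu.1 hu.2 h, h⟩
  have h2 : ((T.filter fun u => n u ≠ u).card : ℝ) ≤ k :=
    (Blk_sub _ _ (Finset.filter_subset _ _)).trans hk
  have h3 : ((T.filter fun u => n u ≠ u).card : ℝ) / Ld ≤ k / Ld :=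
    div_le_div_of_nonneg_right h2 (by linarith)
  linarith

theorem Blk_us {W : Type} (R : SimpleGraph W) (mm mi : ℕ → W → W) (x0 b : ℕ)
    (hag : ∀ ℓ < x0, mi ℓ = mm ℓ) (v : W) :
    (us R mi (x0 + b) v : ℝ) ≤ us R mm x0 v +
      (((Ico x0 (x0 + b)).filter fun y => R.Adj v (mi y v)).card : ℝ) := by
  rw [us, us]
  apply Blk_un
  intro ℓ hℓ
  rw [Finset.mem_filter, Finset.mem_range] at hℓ
  rw [Finset.mem_filter, Finset.mem_filter, Finset.mem_range, Finset.mem_Ico]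
  by_cases h : ℓ < x0
  · refine Or.inl ⟨h, ?_⟩
    rw [← hag ℓ h]
    exact hℓ.2
  · exact Or.inr ⟨⟨by omega, hℓ.1⟩, hℓ.2⟩

theorem blk {W : Type} [Fintype W] (H R : SimpleGraph W) (hRH : R ≤ H) (C : Finset W) (Δ M : ℕ)
    (hΔ : ∀ v, dg H v ≤ Δ) (hL : ∀ v, v ∉ C → dg H v ≤ 1)
    (U : ℕ → Finset W) (hUC : ∀ ℓ, U ℓ ⊆ C) (nn : ℕ → W → W) (hPM : PM (H \ R) M U nn)
    (A : W → Finset W) (hA1 : ∀ v, ∀ u ∈ A v, H.Adj v u) (hAC : ∀ v, A v ⊆ C)
    (hA2 : ∀ u v, H.Adj u v → v ∈ A u ∨ u ∈ A v)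
    (r Ld b x0 : ℕ) (t e1 a0 u0 D γ : ℝ) (hLd : 1 ≤ Ld) (hΔ1 : 1 ≤ Δ) (ht : 0 < t)
    (hb : x0 + b ≤ M) (hbΔ : b ≤ Δ)
    (he : 8 * Real.exp (-(t ^ 2 / (8 * Δ))) * ((Δ : ℝ) * (2 + 2 * (3 * Δ) : ℕ) + 1) ≤ 1)
    (hR1 : ∀ v ∈ C, (r : ℝ) - t ≤ dg R v) (hR2 : ∀ v, (dg R v : ℝ) ≤ r + t)
    (hR3 : ∀ v, (((A v).filter fun u => R.Adj v u).card : ℝ) ≤ a0)
    (hU1 : ∀ ℓ v, (((U ℓ).filter fun u => H.Adj v u).card : ℝ) ≤ e1)
    (hB1 : ∀ ℓ < M, ∀ v, ((C.filter fun u => H.Adj v u ∧ u ∉ U ℓ ∧ nn ℓ u = u).card : ℝ) ≤ e1)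
    (hB2 : ∀ v ∈ C, (((range M).filter fun ℓ => v ∉ U ℓ ∧ nn ℓ v = v).card : ℝ) ≤ e1)
    (hγ : 0 < γ) (hγ1 : γ ≤ 1) (hD : 100 ≤ γ ^ 2 * D)
    (hN1 : (1 - γ / 10) * D ≤ (r - t - u0 - 2 * e1) / Ld - t - ((b : ℝ) / Ld + t + e1))
    (hN2 : ((r : ℝ) + t) / Ld + t + e1 ≤ (1 + γ / 10) * D)
    (hN3 : a0 / Ld + t + e1 ≤ (1 - γ) * D / 2)
    (mm : ℕ → W → W) (hSt : St H R C U nn x0 mm) (hu : ∀ v ∈ C, (us R mm x0 v : ℝ) ≤ u0) :
    ∃ mm' : ℕ → W → W, St H R C U nn (x0 + b) mm' ∧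
      ∀ v, (us R mm' (x0 + b) v : ℝ) ≤ us R mm x0 v + ((b : ℝ) / Ld + t) +
        (((Finset.Ico x0 (x0 + b)).filter fun x => v ∉ U x ∧ nn x v = v).card : ℝ) := by
  have hLd0 : (1 : ℝ) ≤ Ld := by exact_mod_cast hLd
  obtain ⟨R0, hR0⟩ : ∃ R0, R0 = Rc R mm x0 := ⟨_, rfl⟩
  have hR0R : R0 ≤ R := by
    rw [hR0]
    intro a c h
    exact h.1
  obtain ⟨T1, hT1⟩ : ∃ T1 : W → Finset W, ∀ v, T1 v = C.filter fun u => R0.Adj v u :=
    ⟨_, fun _ => rfl⟩
  obtain ⟨T2, hT2⟩ : ∃ T2 : W → Finset W, ∀ v, T2 v = C.filter fun u => R.Adj v u :=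
    ⟨_, fun _ => rfl⟩
  obtain ⟨T3, hT3⟩ : ∃ T3 : W → Finset W, ∀ v, T3 v = (A v).filter fun u => R.Adj v u :=
    ⟨_, fun _ => rfl⟩
  have g1 : ∀ v, ∀ u ∈ T1 v, H.Adj v u := by
    intro v u h
    rw [hT1, Finset.mem_filter] at h
    exact hRH (hR0R h.2)
  have g2 : ∀ v, ∀ u ∈ T2 v, H.Adj v u := by
    intro v u h
    rw [hT2, Finset.mem_filter] at h
    exact hRH h.2
  have g3 : ∀ v, ∀ u ∈ T3 v, H.Adj v u := by
    intro v u h
    rw [hT3, Finset.mem_filter] at h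
    exact hRH h.2
  have hcard : ∀ (T : W → Finset W), (∀ v, ∀ u ∈ T v, H.Adj v u) → ∀ v, (T v).card ≤ Δ := by
    intro T hT v
    refine (Finset.card_le_card ?_).trans (hΔ v)
    intro u h
    exact Finset.mem_filter.2 ⟨Finset.mem_univ _, hT v u h⟩
  obtain ⟨sel, hsel, hs1, hs2⟩ := smp (H \ R) M U nn hPM (Sum.elim T1 (Sum.elim T2 T3)) Δ (3 * Δ)
    Ld x0 b t hLd hΔ1 ht hb hbΔ (by
      intro j
      rcases j with v | v | v
      · exact hcard T1 g1 v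
      · exact hcard T2 g2 v
      · exact hcard T3 g3 v) (Blk_m3 T1 T2 T3 H Δ hΔ g1 g2 g3) he
  have hub : ∀ (i : ℕ) (mi : ℕ → W → W), i ≤ b → (∀ x, x0 ≤ x → x < x0 + i → ∀ v,
      R.Adj v (mi x v) → v ∉ U x ∧ (nn x v = v ∨ sel x v)) → ∀ v,
      (((Ico x0 (x0 + i)).filter fun y => R.Adj v (mi y v)).card : ℝ) ≤ ((b : ℝ) / Ld + t) +
        (((Finset.Ico x0 (x0 + b)).filter fun x => v ∉ U x ∧ nn x v = v).card : ℝ) := by
    intro i mi hi hmi v
    have h1 : (((Ico x0 (x0 + i)).filter fun y => R.Adj v (mi y v)).card : ℝ) ≤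
        (((Ico x0 (x0 + b)).filter fun x => sel x v).card : ℝ) +
        (((Finset.Ico x0 (x0 + b)).filter fun x => v ∉ U x ∧ nn x v = v).card : ℝ) := by
      apply Blk_un
      intro y hy
      rw [Finset.mem_filter, Finset.mem_Ico] at hy
      rw [Finset.mem_filter, Finset.mem_filter, Finset.mem_Ico]
      obtain ⟨h2, h3⟩ := hmi y hy.1.1 hy.1.2 v hy.2
      rcases h3 with h3 | h3
      · exact Or.inr ⟨⟨hy.1.1, by omega⟩, h2, h3⟩
      · exact Or.inl ⟨⟨hy.1.1, by omega⟩, h3⟩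
    have h2 := hs2 v
    linarith
  have hB2' : ∀ v ∈ C, (((Finset.Ico x0 (x0 + b)).filter fun x => v ∉ U x ∧ nn x v = v).card : ℝ)
      ≤ e1 := by
    intro v hv
    refine le_trans (Blk_sub _ _ ?_) (hB2 v hv)
    intro y hy
    rw [Finset.mem_filter, Finset.mem_Ico] at hy
    rw [Finset.mem_filter, Finset.mem_range]
    exact ⟨by omega, hy.2⟩
  have key : ∀ i ≤ b, ∃ mi : ℕ → W → W, St H R C U nn (x0 + i) mi ∧ (∀ ℓ < x0, mi ℓ = mm ℓ) ∧
      ∀ x, x0 ≤ x → x < x0 + i → ∀ v,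
        R.Adj v (mi x v) → v ∉ U x ∧ (nn x v = v ∨ sel x v) := by
    intro i
    induction i with
    | zero =>
      intro _
      exact ⟨mm, hSt, fun _ _ => rfl, fun x h1 h2 => by omega⟩
    | succ i ih =>
      intro hi
      obtain ⟨mi, hSti, hag, hst⟩ := ih (by omega)
      have hx : x0 + i < M := by omega
      have hub' : ∀ v ∈ C, (((Ico x0 (x0 + i)).filter fun y => R.Adj v (mi y v)).card : ℝ) ≤
          (b : ℝ) / Ld + t + e1 := by
        intro v hv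
        have h1 := hub i mi (by omega) hst v
        have h2 := hB2' v hv
        linarith
      obtain ⟨mi', hag', hSt', hst'⟩ := ext H R hRH C M U nn hPM A hA2 (x0 + i) hx mi hSti
        (sel (x0 + i)) (hsel (x0 + i)) D γ hγ hγ1 hD
        (by
          intro v hv _ _
          have h1 := Blk_loss R mm mi x0 (x0 + i) hSti.pm.inv hag (U (x0 + i)) (nn (x0 + i))
            (sel (x0 + i)) v
          have h2 := hub' v hv
          have h3 := hs1 (Sum.inl v) (x0 + i) (by omega) (by omega)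
          rw [Sum.elim_inl, abs_le, hT1] at h3
          have h4 := Blk_low H R R0 hRH hR0R C M hL U hUC nn hPM (x0 + i) Ld hx hLd t e1
            (sel (x0 + i)) (fun v hv => (hsel (x0 + i) v hv).1) (hU1 (x0 + i))
            (hB1 (x0 + i) hx) v (by linarith [h3.1])
          have h5 := Blk_deg R mm x0 hSt.pm.inv v
          have h6 := hu v hv
          have h7 := hR1 v hv
          rw [← hR0] at h1 h5
          have h8 : ((r : ℝ) - t - u0 - 2 * e1) / Ld ≤ ((dg R0 v : ℝ) - 2 * e1) / Ld := by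
            apply div_le_div_of_nonneg_right _ (by linarith)
            linarith
          linarith)
        (by
          intro u
          have h3 := hs1 (Sum.inr (Sum.inl u)) (x0 + i) (by omega) (by omega)
          rw [Sum.elim_inr, Sum.elim_inl, abs_le] at h3
          refine le_trans (Blk_up (T2 u)
            (C.filter fun v => H.Adj u v ∧ v ∉ U (x0 + i) ∧ nn (x0 + i) v = v) _
            (fun v => nn (x0 + i) v = v) (sel (x0 + i)) C (nn (x0 + i)) Ld hLd t e1 (r + t)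
            ?_ ?_ ?_ (hB1 (x0 + i) hx u) (by linarith [h3.2]) ?_) hN2
          · intro v _ h
            exact h.2.2
          · intro v hv h _
            rw [hT2]
            exact Finset.mem_filter.2 ⟨hv, h.1⟩
          · intro v hv h h5
            exact Finset.mem_filter.2 ⟨hv, hRH h.1, h.2.1, h5⟩
          · refine le_trans (Blk_sub _ _ ?_) (hR2 u)
            intro v hv
            rw [hT2, Finset.mem_filter] at hv
            exact Finset.mem_filter.2 ⟨Finset.mem_univ _, hv.2⟩)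
        (by
          intro v
          have h3 := hs1 (Sum.inr (Sum.inr v)) (x0 + i) (by omega) (by omega)
          rw [Sum.elim_inr, Sum.elim_inr, abs_le] at h3
          refine le_trans (Blk_up (T3 v)
            (C.filter fun u => H.Adj v u ∧ u ∉ U (x0 + i) ∧ nn (x0 + i) u = u) _
            (fun u => nn (x0 + i) u = u) (sel (x0 + i)) (A v) (nn (x0 + i)) Ld hLd t e1 a0
            ?_ ?_ ?_ (hB1 (x0 + i) hx v) (by linarith [h3.2]) ?_) hN3
          · intro u _ h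
            exact h.2.2
          · intro u hu2 h _
            rw [hT3]
            exact Finset.mem_filter.2 ⟨hu2, h.1⟩
          · intro u hu2 h h5
            exact Finset.mem_filter.2 ⟨hAC v hu2, hRH h.1, h.2.1, h5⟩
          · rw [hT3]
            exact hR3 v)
      refine ⟨mi', ?_, ?_, ?_⟩
      · rw [← add_assoc]
        exact hSt'
      · intro ℓ hℓ
        rw [hag' ℓ (by omega)]
        exact hag ℓ hℓ
      · intro x hx1 hx2 v
        by_cases h : x = x0 + i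
        · subst h
          exact hst' v
        · rw [hag' x h]
          exact hst x hx1 (by omega) v
  obtain ⟨mb, hStb, hag, hst⟩ := key b le_rfl
  refine ⟨mb, hStb, fun v => ?_⟩
  have h1 := Blk_us R mm mb x0 b hag v
  have h2 := hub b mb le_rfl hst v
  linarith

end Pool.Agent.H71.MA
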