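import Mathlib
import Pool.Agent.H71.MA.Defs
import Pool.Agent.H71.MA.Lhx

/-!
CNS: random exchange of the matchings `y` and `τ y` on the components of their union.

Proof.  For `y : Y`, `v : W` let `cmp y v := {w : Relation.ReflTransGen (fun a b => b = mm y a ∨ b = mm (τ y) a) v w}`
(a `univ.filter`). It contains `v`, is closed under `mm y` and `mm (τ y)`, is contained in every closed set that
contains `v`, so `#(cmp y v) ≤ s` by `hsh`. The relation is symmetric (involutions), so `w ∈ cmp y v` implies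
`cmp y w = cmp y v`; in particular `cmp y (mm y v) = cmp y (mm (τ y) v) = cmp y v`. `cmp (τ y) v = cmp y v`.
Apply `lhx` with variables `Finset Y × Finset W`, values `Bool`, `J' := Empty` (no extra events, `q := 0`), and
put `co y v := ω ({y, τ y}, cmp y v)`. Then `co (τ y) v = co y v` and `co y` is constant on components.
`mm'' y v := if co y v then mm (τ y) v else mm y v`. It is `MF`: with `w := mm'' y v` we have `cmp y w = cmp y v`, so
`co y w = co y v` and `mm'' y w = v`. `adj`: clear. `dis`: `mm'' y v = mm z v ≠ v` with `z ∈ {y, τ y}`,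
`mm'' y' v = mm z' v` with `z' ∈ {y', τ y'}`; if `y' ∉ {y, τ y}` then `z ≠ z'`; if `y' = τ y` then
`co y' v = co y v`, so again `z ≠ z'`; use `hMF.dis`. (`y' = y` is excluded.)
Hoeffding events, index type `J × Y`, `r := s`: for `(j, y)`, `S := {({y, τ y}, cmp y v) : v ∈ SJ j}` (`#S ≤ n`) and
`f (P, K) b := ∑_{v ∈ SJ j, cmp y v = K} ψ j v (if b then mm (τ y) v else mm y v)` if `P = {y, τ y}` and `#K ≤ s`, and
`0` otherwise; it is between `0` and `#{v ∈ SJ j : cmp y v = K} ≤ #K ≤ s` (`v ∈ cmp y v = K`). The sum over `S` at `ω` is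
`∑_{v ∈ SJ j} ψ j v (mm'' y v) = Ph SJ ψ j (mm'' y)` (`Finset.sum_fiberwise_of_maps_to` or `sum_image'`), the mean is
`(Ph SJ ψ j (mm y) + Ph SJ ψ j (mm (τ y))) / 2` (`∑ b : Bool`, `card Bool = 2`).
The variable `(P, K)` is in the event `(j, y)` only if `{y, τ y} = P` (at most 2 values of `y`: if `{y, τ y} = {y0, τ y0}`
then `y ∈ {y0, τ y0}`) and `K = cmp y v` for some `v ∈ SJ j`; then `v ∈ K`, `#K ≤ s`, so at most `s * m` values of `j`
for each `y`. So `2 * s * m` events.
-/

set_option autoImplicit false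

namespace Pool.Agent.H71.MA

open Finset Classical

/-- The component of `v` for the two involutions `p` and `q`. -/
noncomputable def Cns_c {W : Type} [Fintype W] (p q : W → W) (v : W) : Finset W :=
  univ.filter fun w => Relation.ReflTransGen (fun a b => b = p a ∨ b = q a) v w

theorem Cns_self {W : Type} [Fintype W] (p q : W → W) (v : W) : v ∈ Cns_c p q v :=
  mem_filter.2 ⟨mem_univ _, Relation.ReflTransGen.refl⟩

theorem Cns_left {W : Type} [Fintype W] {p q : W → W} {v w : W} (h : w ∈ Cns_c p q v) :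
    p w ∈ Cns_c p q v :=
  mem_filter.2 ⟨mem_univ _, (mem_filter.1 h).2.tail (Or.inl rfl)⟩

theorem Cns_right {W : Type} [Fintype W] {p q : W → W} {v w : W} (h : w ∈ Cns_c p q v) :
    q w ∈ Cns_c p q v :=
  mem_filter.2 ⟨mem_univ _, (mem_filter.1 h).2.tail (Or.inr rfl)⟩

theorem Cns_min {W : Type} [Fintype W] {p q : W → W} {v : W} {κ : Finset W} (hv : v ∈ κ)
    (h : ∀ w ∈ κ, p w ∈ κ ∧ q w ∈ κ) : Cns_c p q v ⊆ κ := by
  intro w hw
  have h1 := (mem_filter.1 hw).2
  induction h1 with
  | refl => exact hv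
  | tail h2 h3 ih =>
    have h4 := h _ (ih (mem_filter.2 ⟨mem_univ _, h2⟩))
    rcases h3 with rfl | rfl
    · exact h4.1
    · exact h4.2

theorem Cns_swap {W : Type} [Fintype W] (p q : W → W) (v : W) : Cns_c p q v = Cns_c q p v := by
  apply Subset.antisymm
  · exact Cns_min (Cns_self q p v) fun w hw => ⟨Cns_right hw, Cns_left hw⟩
  · exact Cns_min (Cns_self p q v) fun w hw => ⟨Cns_right hw, Cns_left hw⟩

theorem Cns_eq {W : Type} [Fintype W] {p q : W → W} (hp : ∀ v, p (p v) = v)
    (hq : ∀ v, q (q v) = v) {v w : W} (h : w ∈ Cns_c p q v) : Cns_c p q w = Cns_c p q v := by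
  have h1 := (mem_filter.1 h).2
  induction h1 with
  | refl => rfl
  | @tail a b h2 h3 ih =>
    rw [← ih (mem_filter.2 ⟨mem_univ _, h2⟩)]
    apply Subset.antisymm
    · refine Cns_min ?_ fun w hw => ⟨Cns_left hw, Cns_right hw⟩
      rcases h3 with rfl | rfl
      · exact Cns_left (Cns_self p q a)
      · exact Cns_right (Cns_self p q a)
    · refine Cns_min ?_ fun w hw => ⟨Cns_left hw, Cns_right hw⟩
      rcases h3 with rfl | rfl
      · have h4 := Cns_left (Cns_self p q (p a))
        rwa [hp] at h4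
      · have h4 := Cns_right (Cns_self p q (q a))
        rwa [hq] at h4

theorem Cns_card {W : Type} [Fintype W] {p q : W → W} {s : ℕ} {v : W} (h : Short p q s v) :
    (Cns_c p q v).card ≤ s := by
  obtain ⟨κ, h1, h2, h3⟩ := h
  exact (card_le_card (Cns_min h2 h3)).trans h1

/-- The function of the event `(j, y)`. -/
noncomputable def Cns_f {W Y J : Type} [Fintype W] (mm : Y → W → W) (τ : Y → Y)
    (SJ : J → Finset W) (ψ : J → W → W → ℝ) (s : ℕ) (x : J × Y) (i : Finset Y × Finset W)
    (b : Bool) : ℝ :=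
  if i.1 = {x.2, τ x.2} ∧ i.2.card ≤ s then
    ∑ v ∈ (SJ x.1).filter (fun v => Cns_c (mm x.2) (mm (τ x.2)) v = i.2),
      ψ x.1 v (if b then mm (τ x.2) v else mm x.2 v)
  else 0

theorem Cns_sum {W Y J : Type} [Fintype W] (mm : Y → W → W) (τ : Y → Y)
    (SJ : J → Finset W) (ψ : J → W → W → ℝ) (s : ℕ)
    (hsh : ∀ y v, Short (mm y) (mm (τ y)) s v) (j : J) (y : Y)
    (b : Finset Y × Finset W → Bool) :
    ∑ i ∈ (SJ j).image (fun v => (({y, τ y} : Finset Y), Cns_c (mm y) (mm (τ y)) v)),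
      Cns_f mm τ SJ ψ s (j, y) i (b i) =
    ∑ v ∈ SJ j, ψ j v (if b ({y, τ y}, Cns_c (mm y) (mm (τ y)) v) then mm (τ y) v
      else mm y v) := by
  rw [← sum_fiberwise_of_maps_to (s := SJ j)
    (t := (SJ j).image (fun v => (({y, τ y} : Finset Y), Cns_c (mm y) (mm (τ y)) v)))
    (g := fun v => (({y, τ y} : Finset Y), Cns_c (mm y) (mm (τ y)) v))
    (fun v hv => mem_image_of_mem _ hv)]
  refine sum_congr rfl fun i hi => ?_
  obtain ⟨v0, _, rfl⟩ := mem_image.1 hi
  unfold Cns_f
  rw [if_pos ⟨rfl, Cns_card (hsh y v0)⟩]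
  have h1 : (SJ j).filter (fun v => Cns_c (mm y) (mm (τ y)) v = Cns_c (mm y) (mm (τ y)) v0) =
      (SJ j).filter (fun v => (({y, τ y} : Finset Y), Cns_c (mm y) (mm (τ y)) v) =
        (({y, τ y} : Finset Y), Cns_c (mm y) (mm (τ y)) v0)) := by
    ext v
    simp only [mem_filter, Prod.mk.injEq, true_and]
  change ∑ v ∈ (SJ j).filter (fun v => Cns_c (mm y) (mm (τ y)) v =
    Cns_c (mm y) (mm (τ y)) v0), _ = _
  rw [← h1]
  refine sum_congr rfl fun v hv => ?_
  rw [(mem_filter.1 hv).2]

theorem Cns_flt {α : Type} (p q : α → Prop) (i1 : DecidablePred p) (i2 : DecidablePred q)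
    (s : Finset α) (h : ∀ a, p a → q a) : (@filter α p i1 s).card ≤ (@filter α q i2 s).card :=
  card_le_card fun x hx => mem_filter.2 ⟨(mem_filter.1 hx).1, h x (mem_filter.1 hx).2⟩

theorem Cns_img {α β : Type} (i1 i2 : DecidableEq β) (f : α → β) (s : Finset α) (b : β)
    (h : b ∈ @image α β i1 f s) : b ∈ @image α β i2 f s := by
  cases Subsingleton.elim i1 i2
  exact h

theorem Cns_ev {W Y J : Type} [Fintype W] [Fintype Y] [Fintype J]
    (mm : Y → W → W) (τ : Y → Y) (SJ : J → Finset W) (m s : ℕ)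
    (hm : ∀ v, (univ.filter fun j => v ∈ SJ j).card ≤ m)
    (hsh : ∀ y v, Short (mm y) (mm (τ y)) s v) (i : Finset Y × Finset W) :
    (univ.filter fun x : J × Y => i ∈ (SJ x.1).image
      (fun v => (({x.2, τ x.2} : Finset Y), Cns_c (mm x.2) (mm (τ x.2)) v))).card ≤
      2 * s * m := by
  rcases (univ.filter fun x : J × Y => i ∈ (SJ x.1).image
    (fun v => (({x.2, τ x.2} : Finset Y), Cns_c (mm x.2) (mm (τ x.2)) v))).eq_empty_or_nonempty
    with h0 | ⟨x0, hx0⟩
  · rw [h0, card_empty]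
    exact Nat.zero_le _
  · obtain ⟨v0, _, rfl⟩ := mem_image.1 (mem_filter.1 hx0).2
    have hK := Cns_card (hsh x0.2 v0)
    have hsub : (univ.filter fun x : J × Y =>
        (({x0.2, τ x0.2} : Finset Y), Cns_c (mm x0.2) (mm (τ x0.2)) v0) ∈ (SJ x.1).image
        (fun v => (({x.2, τ x.2} : Finset Y), Cns_c (mm x.2) (mm (τ x.2)) v))) ⊆
        ((Cns_c (mm x0.2) (mm (τ x0.2)) v0).biUnion fun v =>
          univ.filter fun j => v ∈ SJ j) ×ˢ ({x0.2, τ x0.2} : Finset Y) := by
      intro x hx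
      obtain ⟨v, hv, he⟩ := mem_image.1 (mem_filter.1 hx).2
      have h1 : ({x.2, τ x.2} : Finset Y) = {x0.2, τ x0.2} := congrArg Prod.fst he
      have h2 : Cns_c (mm x.2) (mm (τ x.2)) v = Cns_c (mm x0.2) (mm (τ x0.2)) v0 :=
        congrArg Prod.snd he
      refine mem_product.2 ⟨mem_biUnion.2 ⟨v, ?_, mem_filter.2 ⟨mem_univ _, hv⟩⟩, ?_⟩
      · rw [← h2]
        exact Cns_self _ _ _
      · rw [← h1]
        exact mem_insert_self _ _
    refine (card_le_card hsub).trans ?_
    rw [card_product]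
    have h3 : ((Cns_c (mm x0.2) (mm (τ x0.2)) v0).biUnion fun v =>
        univ.filter fun j => v ∈ SJ j).card ≤ s * m := by
      refine card_biUnion_le.trans ?_
      refine (sum_le_card_nsmul _ _ m fun v _ => hm v).trans ?_
      rw [smul_eq_mul]
      exact Nat.mul_le_mul_right m hK
    have h4 : ({x0.2, τ x0.2} : Finset Y).card ≤ 2 := card_le_two
    calc _ ≤ (s * m) * 2 := Nat.mul_le_mul h3 h4
      _ = 2 * s * m := by ring

theorem cns {W Y J : Type} [Fintype W] [Fintype Y] [Fintype J] (H : SimpleGraph W)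
    (mm : Y → W → W) (hMF : MF H mm) (τ : Y → Y) (hτ2 : ∀ y, τ (τ y) = y) (hτ : ∀ y, τ y ≠ y)
    (SJ : J → Finset W) (ψ : J → W → W → ℝ) (hψ0 : ∀ j v w, 0 ≤ ψ j v w)
    (hψ1 : ∀ j v w, ψ j v w ≤ 1) (n m s : ℕ) (t : ℝ) (ht : 0 < t) (hn : 1 ≤ n) (hs : 1 ≤ s)
    (hSJ : ∀ j, (SJ j).card ≤ n) (hm : ∀ v, (univ.filter fun j => v ∈ SJ j).card ≤ m)
    (hsh : ∀ y v, Short (mm y) (mm (τ y)) s v)
    (he : 8 * Real.exp (-(t ^ 2 / (2 * n * (s : ℝ) ^ 2))) * ((n : ℝ) * (2 * s * m : ℕ) + 1) ≤ 1) :
    ∃ mm'' : Y → W → W, MF H mm'' ∧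
      (∀ y v, (mm'' y v = mm y v ∧ mm'' (τ y) v = mm (τ y) v) ∨
        (mm'' y v = mm (τ y) v ∧ mm'' (τ y) v = mm y v)) ∧
      ∀ j y, Ph SJ ψ j (mm'' y) ≤ (Ph SJ ψ j (mm y) + Ph SJ ψ j (mm (τ y))) / 2 + t := by
  have hcmp : ∀ y v, Cns_c (mm (τ y)) (mm (τ (τ y))) v = Cns_c (mm y) (mm (τ y)) v := by
    intro y v
    rw [hτ2, Cns_swap]
  have hpair : ∀ y, ({τ y, τ (τ y)} : Finset Y) = {y, τ y} := by
    intro y
    rw [hτ2, pair_comm]
  obtain ⟨ω, hω, _⟩ := lhx (ι := Finset Y × Finset W) (κ := Bool) (J := J × Y) (J' := Empty)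
    (fun x => (SJ x.1).image
      (fun v => (({x.2, τ x.2} : Finset Y), Cns_c (mm x.2) (mm (τ x.2)) v)))
    (Cns_f mm τ SJ ψ s) (fun _ => ∅) (fun _ => ∅) n (2 * s * m) (s : ℝ) t 0 hn
    (by exact_mod_cast hs) ht le_rfl (fun x => card_image_le.trans (hSJ x.1))
    (fun x => x.elim)
    (fun i => by
      have h1 := Cns_ev mm τ SJ m s hm hsh i
      have h2 : (univ.filter fun j : Empty => i ∈ (∅ : Finset (Finset Y × Finset W))).card = 0 := by
        rw [card_eq_zero, filter_eq_empty_iff]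
        intro x
        exact x.elim
      refine (Nat.add_le_add ((Cns_flt _ _ _ _ _ ?_).trans h1) h2.le).trans (by rw [Nat.add_zero])
      intro x hx
      exact Cns_img _ _ _ _ _ hx)
    (fun x i b => by
      unfold Cns_f
      split_ifs
      · exact sum_nonneg fun v _ => hψ0 _ _ _
      · exact sum_nonneg fun v _ => hψ0 _ _ _
      · exact le_rfl)
    (fun x i b => by
      have h0 : (0 : ℝ) ≤ s := Nat.cast_nonneg s
      unfold Cns_f
      by_cases h : i.1 = {x.2, τ x.2} ∧ i.2.card ≤ s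
      · rw [if_pos h]
        refine (sum_le_card_nsmul _ _ 1 fun v _ => hψ1 _ _ _).trans ?_
        rw [nsmul_eq_mul, mul_one, Nat.cast_le]
        refine (card_le_card ?_).trans h.2
        intro v hv
        rw [← (mem_filter.1 hv).2]
        exact Cns_self _ _ _
      · rw [if_neg h]
        exact h0)
    (fun x => x.elim) (fun x => x.elim) (by norm_num) he
  obtain ⟨co, hco⟩ : ∃ co : Y → W → Bool, ∀ y v,
      co y v = ω ({y, τ y}, Cns_c (mm y) (mm (τ y)) v) := ⟨_, fun _ _ => rfl⟩
  have hcoτ : ∀ y v, co (τ y) v = co y v := by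
    intro y v
    rw [hco, hco, hcmp, hpair]
  have hcoe : ∀ y v w, w ∈ Cns_c (mm y) (mm (τ y)) v → co y w = co y v := by
    intro y v w hw
    rw [hco, hco, Cns_eq (hMF.inv y) (hMF.inv (τ y)) hw]
  refine ⟨fun y v => if co y v then mm (τ y) v else mm y v, ⟨fun y v => ?_, fun y v h => ?_,
    fun y y' v hy h => ?_⟩, fun y v => ?_, fun j y => ?_⟩
  · cases hc : co y v with
    | true =>
      have h1 : co y (mm (τ y) v) = true := by
        rw [hcoe y v _ (Cns_right (Cns_self _ _ v)), hc]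
      simp only [if_true, h1, hMF.inv]
    | false =>
      have h1 : co y (mm y v) = false := by
        rw [hcoe y v _ (Cns_left (Cns_self _ _ v)), hc]
      simp only [Bool.false_eq_true, if_false, h1, hMF.inv]
  · cases hc : co y v with
    | true =>
      simp only [hc, if_true] at h
      exact hMF.adj _ _ h
    | false =>
      simp only [hc, Bool.false_eq_true, if_false] at h
      exact hMF.adj _ _ h
  · have hτi : τ y ≠ τ y' := fun e => hy (by rw [← hτ2 y, e, hτ2])
    by_cases hyy : y' = τ y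
    · subst hyy
      simp only [hcoτ, hτ2] at h ⊢
      cases hc : co y v with
      | true =>
        simp only [hc, if_true] at h ⊢
        exact hMF.dis _ _ _ (hτ y) h
      | false =>
        simp only [hc, Bool.false_eq_true, if_false] at h ⊢
        exact hMF.dis _ _ _ (hτ y).symm h
    · have hyy' : y ≠ τ y' := fun e => hyy (by rw [e, hτ2])
      cases hc : co y v with
      | true =>
        simp only [hc, if_true] at h ⊢
        cases hc' : co y' v with
        | true =>
          simp only [if_true]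
          exact hMF.dis _ _ _ hτi h
        | false =>
          simp only [Bool.false_eq_true, if_false]
          exact hMF.dis _ _ _ (Ne.symm hyy) h
      | false =>
        simp only [hc, Bool.false_eq_true, if_false] at h ⊢
        cases hc' : co y' v with
        | true =>
          simp only [if_true]
          exact hMF.dis _ _ _ hyy' h
        | false =>
          simp only [Bool.false_eq_true, if_false]
          exact hMF.dis _ _ _ hy h
  · simp only [hcoτ, hτ2]
    cases hc : co y v with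
    | true =>
      simp only [if_true, and_self, or_true]
    | false =>
      simp only [Bool.false_eq_true, if_false, and_self, true_or]
  · have h1 := (abs_le.1 (hω (j, y))).2
    have h2 := Cns_sum mm τ SJ ψ s hsh j y ω
    have h3 := Cns_sum mm τ SJ ψ s hsh j y (fun _ => true)
    have h4 := Cns_sum mm τ SJ ψ s hsh j y (fun _ => false)
    simp only [if_true] at h3
    simp only [Bool.false_eq_true, if_false] at h4
    have h5 : ∑ i ∈ (SJ j).image (fun v => (({y, τ y} : Finset Y), Cns_c (mm y) (mm (τ y)) v)),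
        (∑ a : Bool, Cns_f mm τ SJ ψ s (j, y) i a) / (Fintype.card Bool : ℝ) =
        (Ph SJ ψ j (mm (τ y)) + Ph SJ ψ j (mm y)) / 2 := by
      unfold Ph
      rw [← h3, ← h4, ← sum_add_distrib, sum_div]
      refine sum_congr rfl fun i _ => ?_
      rw [Fintype.sum_bool, Fintype.card_bool]
      norm_num
    change ∑ i ∈ (SJ j).image (fun v => (({y, τ y} : Finset Y), Cns_c (mm y) (mm (τ y)) v)),
      Cns_f mm τ SJ ψ s (j, y) i (ω i) -
      ∑ i ∈ (SJ j).image (fun v => (({y, τ y} : Finset Y), Cns_c (mm y) (mm (τ y)) v)),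
        (∑ a : Bool, Cns_f mm τ SJ ψ s (j, y) i a) / (Fintype.card Bool : ℝ) ≤ t at h1
    rw [h2, h5] at h1
    have h6 : Ph SJ ψ j (fun v => if co y v then mm (τ y) v else mm y v) =
        ∑ v ∈ SJ j, ψ j v (if ω ({y, τ y}, Cns_c (mm y) (mm (τ y)) v) then mm (τ y) v
          else mm y v) := by
      unfold Ph
      refine sum_congr rfl fun v _ => ?_
      change ψ j v (if co y v then mm (τ y) v else mm y v) = _
      rw [hco]
    rw [h6]
    linarith

end Pool.Agent.H71.MA
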