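import Mathlib
import Pool.Agent.H71.MA.Defs

/-!
WLK: short components. `p0`, `p1` are two matchings (involutions), `q0`, `q1` arise from them by deleting
some edges. If both alternating walks from `v` stop (in the `q`'s) or repeat a vertex within `ℓ` steps then
the component of `v` is small.

Proof.  Write `p_i` for `p0` if `i` is even and `p1` if `i` is odd, `a_i := walk p0 p1 v i`, so
`a_{i+1} = p_i (a_i)` and (involution) `a_i = p_i (a_{i+1})`.
 Claim A. Under `ha`: (A1) there is `i ≤ ℓ` (indeed `i < ℓ`) with `q_i (a_i) = a_i`, or (A2) the set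
 `{a_0, ..., a_ℓ}` is closed under `p0` and `p1` (hence under `q0`, `q1`, because `q w ∈ {p w, w}`).
  If the second alternative of `ha` holds we have (A1). Otherwise `a_i = a_j`, `i < j ≤ ℓ`.
  - `i ≡ j` mod 2: going back, `a_{i-s} = a_{j-s}` for `s ≤ i` (`a_{i-1} = p_{i-1} (a_i)`, and
    `p_{i-1} = p_{j-1}`), so `a_d = a_0` with `d := j - i` even, `0 < d ≤ ℓ`. Then `a_{i+d} = a_i` for all `i`
    (induction, `d` even), so `{a_0..a_ℓ} ⊇ {a_0..a_{d-1}} = {a_i : i ∈ ℕ}`; call it `O`. `p_i (a_i) = a_{i+1} ∈ O`;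
    `p_{i+1} (a_i) = p_{i-1} (a_i) = a_{i-1}` for `i ≥ 1` and `p_1 (a_0) = p_{d-1} (a_d) = a_{d-1} ∈ O`. So `O` is
    closed under both.
  - `i`, `j` of different parity: `a_{i+s} = a_{j-s}` as long as `i + s ≤ j - s` (induction on `s`:
    `a_{i+s+1} = p_{i+s} (a_{i+s})`, `a_{j-s-1} = p_{j-s-1} (a_{j-s})`, and `i + s ≡ j - s - 1` mod 2). With
    `s = (j - i - 1) / 2` (`j - i` is odd): `a_m = a_{m+1}` for `m = i + s < j ≤ ℓ`, that is `p_m (a_m) = a_m`,
    so `q_m (a_m) = a_m`: (A1).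
 The same for the walk `b_i := walk p1 p0 v i` (`b_{i+1} = p_{i+1} (b_i)`).
 If (A2) holds for one of the two walks: `κ` = that set (`≤ ℓ + 1` elements, contains `v = a_0`).
 Otherwise let `i` be minimal with `q_i (a_i) = a_i` and `j` minimal with `q_{j+1} (b_j) = b_j`; `i, j < ℓ + 1`.
 `κ := {a_0, ..., a_i} ∪ {b_0, ..., b_j}` (`≤ 2 ℓ + 2` elements; images of `range (i+1)`, `range (j+1)`).
 Closed: for `s < i`, `q_s (a_s) ≠ a_s`, so `q_s (a_s) = p_s (a_s) = a_{s+1} ∈ κ`; `q_i (a_i) = a_i`. For `1 ≤ s ≤ i`: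
 `q_{s-1} (a_{s-1}) = a_s`, so `q_{s-1} (a_s) = a_{s-1} ∈ κ` (`q` is an involution), and `q_{s-1} = q_{s+1}`. For
 `s = 0`: `q_1 (a_0) = q_1 (b_0)` is `b_1` or `b_0` (and in `κ`: if `j ≥ 1` it is `b_1`, if `j = 0` it is `b_0`).
 Symmetrically for the `b_s`.
-/

set_option autoImplicit false

namespace Pool.Agent.H71.MA

open Finset Classical

theorem wlk_succ {W : Type} (p0 p1 : W → W) (v : W) (i : ℕ) :
    walk p0 p1 v (i + 1) = if i % 2 = 0 then p0 (walk p0 p1 v i) else p1 (walk p0 p1 v i) := rfl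

theorem wlk_back {W : Type} (p0 p1 : W → W) (hp0 : ∀ w, p0 (p0 w) = w)
    (hp1 : ∀ w, p1 (p1 w) = w) (v : W) (i : ℕ) :
    walk p0 p1 v i =
      if i % 2 = 0 then p0 (walk p0 p1 v (i + 1)) else p1 (walk p0 p1 v (i + 1)) := by
  rw [wlk_succ]
  split_ifs
  · rw [hp0]
  · rw [hp1]

theorem wlk_A {W : Type} (p0 p1 q0 q1 : W → W) (hp0 : ∀ w, p0 (p0 w) = w)
    (hp1 : ∀ w, p1 (p1 w) = w)
    (h0 : ∀ w, q0 w = p0 w ∨ q0 w = w) (h1 : ∀ w, q1 w = p1 w ∨ q1 w = w) (ℓ : ℕ) (v : W)
    (ha : (∃ i j, i < j ∧ j ≤ ℓ ∧ walk p0 p1 v i = walk p0 p1 v j) ∨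
      ∃ i < ℓ, (if i % 2 = 0 then q0 (walk p0 p1 v i) else q1 (walk p0 p1 v i)) =
        walk p0 p1 v i) :
    (∃ i ≤ ℓ, (if i % 2 = 0 then q0 (walk p0 p1 v i) else q1 (walk p0 p1 v i)) =
        walk p0 p1 v i) ∨
      ∃ κ : Finset W, κ.card ≤ ℓ + 1 ∧ v ∈ κ ∧ ∀ w ∈ κ, p0 w ∈ κ ∧ p1 w ∈ κ := by
  rcases ha with ⟨i, j, hij, hj, he⟩ | ⟨i, hi, he⟩
  swap
  · exact Or.inl ⟨i, hi.le, he⟩
  have hsucc := wlk_succ p0 p1 v
  have hback := wlk_back p0 p1 hp0 hp1 v
  generalize ha : walk p0 p1 v = a at *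
  have ha0 : a 0 = v := by rw [← ha]; rfl
  rcases Nat.even_or_odd' (j - i) with ⟨e, hd | hd⟩
  · right
    obtain ⟨d, hdd⟩ : ∃ d, d = 2 * e := ⟨_, rfl⟩
    have hji : j = i + d := by omega
    have hd0 : 0 < d := by omega
    have hS : ∀ s, s ≤ i → a (i - s) = a (i - s + d) := by
      intro s
      induction s with
      | zero =>
        intro _
        rw [Nat.sub_zero, ← hji]
        exact he
      | succ s ih =>
        intro hs
        have h3 := ih (by omega)
        have h4 : i - s = i - (s + 1) + 1 := by omega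
        rw [h4] at h3
        rw [hback (i - (s + 1)), hback (i - (s + 1) + d), h3,
          show i - (s + 1) + 1 + d = i - (s + 1) + d + 1 by omega]
        by_cases h5 : (i - (s + 1)) % 2 = 0
        · rw [if_pos h5, if_pos (by omega)]
        · rw [if_neg h5, if_neg (by omega)]
    have h0d : a 0 = a d := by
      have := hS i le_rfl
      rwa [Nat.sub_self, Nat.zero_add] at this
    refine ⟨(range d).image a, ?_, ?_, ?_⟩
    · have := card_image_le (s := range d) (f := a)
      rw [card_range] at this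
      omega
    · rw [← ha0]
      exact mem_image_of_mem _ (mem_range.2 hd0)
    · intro w hw
      obtain ⟨k, hk, rfl⟩ := mem_image.1 hw
      rw [mem_range] at hk
      have hA : (if k % 2 = 0 then p0 (a k) else p1 (a k)) ∈ (range d).image a := by
        rw [← hsucc k]
        rcases Nat.lt_or_ge (k + 1) d with h6 | h6
        · exact mem_image_of_mem _ (mem_range.2 h6)
        · have h7 : k + 1 = d := by omega
          rw [h7, ← h0d]
          exact mem_image_of_mem _ (mem_range.2 hd0)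
      have hB : (if k % 2 = 0 then p1 (a k) else p0 (a k)) ∈ (range d).image a := by
        rcases Nat.eq_zero_or_pos k with h6 | h6
        · subst h6
          have h7 := hback (d - 1)
          rw [if_neg (by omega), show d - 1 + 1 = d by omega, ← h0d] at h7
          rw [if_pos (by omega), ← h7]
          exact mem_image_of_mem _ (mem_range.2 (by omega))
        · have h7 := hback (k - 1)
          rw [show k - 1 + 1 = k by omega] at h7
          have h8 : (if k % 2 = 0 then p1 (a k) else p0 (a k)) = a (k - 1) := by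
            rw [h7]
            by_cases h9 : k % 2 = 0
            · rw [if_pos h9, if_neg (by omega)]
            · rw [if_neg h9, if_pos (by omega)]
          rw [h8]
          exact mem_image_of_mem _ (mem_range.2 (by omega))
      by_cases h9 : k % 2 = 0
      · rw [if_pos h9] at hA hB
        exact ⟨hA, hB⟩
      · rw [if_neg h9] at hA hB
        exact ⟨hB, hA⟩
  · left
    have hS : ∀ s, s ≤ e → a (i + s) = a (j - s) := by
      intro s
      induction s with
      | zero =>
        intro _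
        exact he
      | succ s ih =>
        intro hs
        have h3 := ih (by omega)
        have h4 := hback (j - (s + 1))
        rw [show j - (s + 1) + 1 = j - s by omega, ← h3] at h4
        rw [h4, show i + (s + 1) = i + s + 1 by omega, hsucc (i + s)]
        by_cases h5 : (i + s) % 2 = 0
        · rw [if_pos h5, if_pos (by omega)]
        · rw [if_neg h5, if_neg (by omega)]
    have h3 := hS e le_rfl
    rw [show j - e = i + e + 1 by omega, hsucc (i + e)] at h3
    refine ⟨i + e, by omega, ?_⟩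
    by_cases h5 : (i + e) % 2 = 0
    · rw [if_pos h5] at h3 ⊢
      rcases h0 (a (i + e)) with h6 | h6
      · rw [h6]
        exact h3.symm
      · exact h6
    · rw [if_neg h5] at h3 ⊢
      rcases h1 (a (i + e)) with h6 | h6
      · rw [h6]
        exact h3.symm
      · exact h6

theorem wlk_B {W : Type} (p0 p1 q0 q1 : W → W) (hq0 : ∀ w, q0 (q0 w) = w)
    (hq1 : ∀ w, q1 (q1 w) = w)
    (h0 : ∀ w, q0 w = p0 w ∨ q0 w = w) (h1 : ∀ w, q1 w = p1 w ∨ q1 w = w) (v : W) (i : ℕ)
    (hi : (if i % 2 = 0 then q0 (walk p0 p1 v i) else q1 (walk p0 p1 v i)) = walk p0 p1 v i)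
    (hm : ∀ s < i, (if s % 2 = 0 then q0 (walk p0 p1 v s) else q1 (walk p0 p1 v s)) ≠
      walk p0 p1 v s) (s : ℕ) (hs : s ≤ i) :
    (if s % 2 = 0 then q0 (walk p0 p1 v s) else q1 (walk p0 p1 v s)) ∈
        (range (i + 1)).image (walk p0 p1 v) ∧
      (0 < s → (if s % 2 = 0 then q1 (walk p0 p1 v s) else q0 (walk p0 p1 v s)) ∈
        (range (i + 1)).image (walk p0 p1 v)) := by
  have hsucc := wlk_succ p0 p1 v
  generalize ha : walk p0 p1 v = a at *
  have key : ∀ t < i, (if t % 2 = 0 then q0 (a t) else q1 (a t)) = a (t + 1) := by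
    intro t ht
    have h3 := hm t ht
    rw [hsucc t]
    by_cases h5 : t % 2 = 0
    · rw [if_pos h5] at h3
      rw [if_pos h5, if_pos h5]
      exact (h0 (a t)).resolve_right h3
    · rw [if_neg h5] at h3
      rw [if_neg h5, if_neg h5]
      exact (h1 (a t)).resolve_right h3
  constructor
  · rcases Nat.lt_or_ge s i with h4 | h4
    · rw [key s h4]
      exact mem_image_of_mem _ (mem_range.2 (by omega))
    · have h5 : s = i := by omega
      subst h5
      rw [hi]
      exact mem_image_of_mem _ (mem_range.2 (by omega))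
  · intro hs0
    have h3 := key (s - 1) (by omega)
    rw [show s - 1 + 1 = s by omega] at h3
    have h8 : (if s % 2 = 0 then q1 (a s) else q0 (a s)) = a (s - 1) := by
      by_cases h9 : s % 2 = 0
      · rw [if_pos h9]
        rw [if_neg (by omega)] at h3
        rw [← h3, hq1]
      · rw [if_neg h9]
        rw [if_pos (by omega)] at h3
        rw [← h3, hq0]
    rw [h8]
    exact mem_image_of_mem _ (mem_range.2 (by omega))

theorem wlk {W : Type} (p0 p1 q0 q1 : W → W) (hp0 : ∀ w, p0 (p0 w) = w) (hp1 : ∀ w, p1 (p1 w) = w)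
    (hq0 : ∀ w, q0 (q0 w) = w) (hq1 : ∀ w, q1 (q1 w) = w)
    (h0 : ∀ w, q0 w = p0 w ∨ q0 w = w) (h1 : ∀ w, q1 w = p1 w ∨ q1 w = w) (ℓ : ℕ) (v : W)
    (ha : (∃ i j, i < j ∧ j ≤ ℓ ∧ walk p0 p1 v i = walk p0 p1 v j) ∨
      ∃ i < ℓ, (if i % 2 = 0 then q0 (walk p0 p1 v i) else q1 (walk p0 p1 v i)) = walk p0 p1 v i)
    (hb : (∃ i j, i < j ∧ j ≤ ℓ ∧ walk p1 p0 v i = walk p1 p0 v j) ∨
      ∃ i < ℓ, (if i % 2 = 0 then q1 (walk p1 p0 v i) else q0 (walk p1 p0 v i)) = walk p1 p0 v i) :
    Short q0 q1 (2 * ℓ + 2) v := by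
  have A := wlk_A p0 p1 q0 q1 hp0 hp1 h0 h1 ℓ v ha
  have B := wlk_A p1 p0 q1 q0 hp1 hp0 h1 h0 ℓ v hb
  rcases A with A | ⟨κ, hκ, hv, hc⟩
  swap
  · refine ⟨κ, by omega, hv, fun w hw => ⟨?_, ?_⟩⟩
    · rcases h0 w with h | h
      · rw [h]
        exact (hc w hw).1
      · rw [h]
        exact hw
    · rcases h1 w with h | h
      · rw [h]
        exact (hc w hw).2
      · rw [h]
        exact hw
  rcases B with B | ⟨κ, hκ, hv, hc⟩
  swap
  · refine ⟨κ, by omega, hv, fun w hw => ⟨?_, ?_⟩⟩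
    · rcases h0 w with h | h
      · rw [h]
        exact (hc w hw).2
      · rw [h]
        exact hw
    · rcases h1 w with h | h
      · rw [h]
        exact (hc w hw).1
      · rw [h]
        exact hw
  have A' : ∃ i, (if i % 2 = 0 then q0 (walk p0 p1 v i) else q1 (walk p0 p1 v i)) =
      walk p0 p1 v i := by
    obtain ⟨i, -, hi⟩ := A
    exact ⟨i, hi⟩
  have B' : ∃ i, (if i % 2 = 0 then q1 (walk p1 p0 v i) else q0 (walk p1 p0 v i)) =
      walk p1 p0 v i := by
    obtain ⟨i, -, hi⟩ := B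
    exact ⟨i, hi⟩
  have hA1 := Nat.find_spec A'
  have hA2 : ∀ s < Nat.find A', (if s % 2 = 0 then q0 (walk p0 p1 v s)
      else q1 (walk p0 p1 v s)) ≠ walk p0 p1 v s := fun s hs => Nat.find_min A' hs
  have hA3 : Nat.find A' ≤ ℓ := by
    obtain ⟨i, hi, hi2⟩ := A
    exact (Nat.find_min' A' hi2).trans hi
  have hB1 := Nat.find_spec B'
  have hB2 : ∀ s < Nat.find B', (if s % 2 = 0 then q1 (walk p1 p0 v s)
      else q0 (walk p1 p0 v s)) ≠ walk p1 p0 v s := fun s hs => Nat.find_min B' hs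
  have hB3 : Nat.find B' ≤ ℓ := by
    obtain ⟨i, hi, hi2⟩ := B
    exact (Nat.find_min' B' hi2).trans hi
  generalize Nat.find A' = i at hA1 hA2 hA3
  generalize Nat.find B' = j at hB1 hB2 hB3
  have KA := wlk_B p0 p1 q0 q1 hq0 hq1 h0 h1 v i hA1 hA2
  have KB := wlk_B p1 p0 q1 q0 hq1 hq0 h1 h0 v j hB1 hB2
  have hvA : v ∈ (range (i + 1)).image (walk p0 p1 v) :=
    mem_image.2 ⟨0, mem_range.2 (by omega), rfl⟩
  have hq0v : q0 v ∈ (range (i + 1)).image (walk p0 p1 v) := by
    have := (KA 0 (by omega)).1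
    rwa [if_pos (by omega)] at this
  have hq1v : q1 v ∈ (range (j + 1)).image (walk p1 p0 v) := by
    have := (KB 0 (by omega)).1
    rwa [if_pos (by omega)] at this
  refine ⟨(range (i + 1)).image (walk p0 p1 v) ∪ (range (j + 1)).image (walk p1 p0 v), ?_,
    mem_union_left _ hvA, ?_⟩
  · have e1 := card_union_le ((range (i + 1)).image (walk p0 p1 v))
      ((range (j + 1)).image (walk p1 p0 v))
    have e2 := card_image_le (s := range (i + 1)) (f := walk p0 p1 v)
    have e3 := card_image_le (s := range (j + 1)) (f := walk p1 p0 v)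
    rw [card_range] at e2 e3
    omega
  · intro w hw
    rcases mem_union.1 hw with hw | hw
    · obtain ⟨s, hs, rfl⟩ := mem_image.1 hw
      rw [mem_range] at hs
      rcases Nat.eq_zero_or_pos s with h6 | h6
      · subst h6
        exact ⟨mem_union_left _ hq0v, mem_union_right _ hq1v⟩
      · have h7 := (KA s (by omega)).1
        have h8 := (KA s (by omega)).2 h6
        by_cases h9 : s % 2 = 0
        · rw [if_pos h9] at h7 h8
          exact ⟨mem_union_left _ h7, mem_union_left _ h8⟩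
        · rw [if_neg h9] at h7 h8
          exact ⟨mem_union_left _ h8, mem_union_left _ h7⟩
    · obtain ⟨s, hs, rfl⟩ := mem_image.1 hw
      rw [mem_range] at hs
      rcases Nat.eq_zero_or_pos s with h6 | h6
      · subst h6
        exact ⟨mem_union_left _ hq0v, mem_union_right _ hq1v⟩
      · have h7 := (KB s (by omega)).1
        have h8 := (KB s (by omega)).2 h6
        by_cases h9 : s % 2 = 0
        · rw [if_pos h9] at h7 h8
          exact ⟨mem_union_right _ h8, mem_union_right _ h7⟩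
        · rw [if_neg h9] at h7 h8
          exact ⟨mem_union_right _ h7, mem_union_right _ h8⟩

end Pool.Agent.H71.MA
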