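import Mathlib
import Pool.Agent.H71.MA.Defs
import Pool.Agent.H71.MA.Lhx
import Pool.Agent.H71.MA.Wlk

/-!
MKS: random deletion of a few edges (`1 / Lm` of them) so that the components of the union of the two
matchings `y` and `τ y` become short.
-/

set_option autoImplicit false

namespace Pool.Agent.H71.MA

open Finset Classical

/-- counting the functions that avoid a value on a set -/
theorem Mks_cnt {E κ : Type} [Fintype E] [Fintype κ] (z : κ) (T : Finset E) :
    ((univ.filter fun ω : E → κ => ∀ e ∈ T, ω e ≠ z).card : ℝ) ≤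
      Real.exp (-((T.card : ℝ) / Fintype.card κ)) * Fintype.card (E → κ) := by
  have hpos : 0 < Fintype.card κ := Fintype.card_pos_iff.2 ⟨z⟩
  have hpos' : (0 : ℝ) < Fintype.card κ := by exact_mod_cast hpos
  have hone : (1 : ℝ) ≤ Fintype.card κ := by exact_mod_cast hpos
  have h1 : (univ.filter fun ω : E → κ => ∀ e ∈ T, ω e ≠ z) =
      Fintype.piFinset fun e => if e ∈ T then univ.erase z else (univ : Finset κ) := by
    ext ω
    rw [Finset.mem_filter, Fintype.mem_piFinset]
    constructor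
    · rintro ⟨_, h⟩ e
      by_cases he : e ∈ T
      · rw [if_pos he]
        exact Finset.mem_erase.2 ⟨h e he, Finset.mem_univ _⟩
      · rw [if_neg he]
        exact Finset.mem_univ _
    · intro h
      refine ⟨Finset.mem_univ _, fun e he => ?_⟩
      have h2 := h e
      rw [if_pos he] at h2
      exact (Finset.mem_erase.1 h2).1
  have h2 : ((univ.filter fun ω : E → κ => ∀ e ∈ T, ω e ≠ z).card : ℝ) =
      ∏ e : E, ((Fintype.card κ : ℝ) * (if e ∈ T then 1 - 1 / (Fintype.card κ : ℝ) else 1)) := by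
    rw [h1, Fintype.card_piFinset, Nat.cast_prod]
    apply Finset.prod_congr rfl
    intro e _
    by_cases he : e ∈ T
    · rw [if_pos he, if_pos he, Finset.card_erase_of_mem (Finset.mem_univ _), Finset.card_univ,
        Nat.cast_sub hpos, Nat.cast_one, mul_sub, mul_one, mul_one_div_cancel hpos'.ne']
    · rw [if_neg he, if_neg he, Finset.card_univ, mul_one]
  have h3 : 1 - 1 / (Fintype.card κ : ℝ) ≤ Real.exp (-(1 / (Fintype.card κ : ℝ))) := by
    have := Real.add_one_le_exp (-(1 / (Fintype.card κ : ℝ)))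
    linarith
  have h4 : 0 ≤ 1 - 1 / (Fintype.card κ : ℝ) := by
    have : 1 / (Fintype.card κ : ℝ) ≤ 1 := by
      rw [div_le_one hpos']
      exact hone
    linarith
  have h5 : (1 - 1 / (Fintype.card κ : ℝ)) ^ T.card ≤
      Real.exp (-((T.card : ℝ) / Fintype.card κ)) := by
    refine (pow_le_pow_left₀ h4 h3 _).trans (le_of_eq ?_)
    rw [← Real.exp_nat_mul]
    congr 1
    ring
  rw [h2, Finset.prod_mul_distrib, Finset.prod_const, Finset.prod_ite_mem, Finset.univ_inter,
    Finset.prod_const, Fintype.card_fun, Finset.card_univ, Nat.cast_pow, mul_comm]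
  exact mul_le_mul_of_nonneg_right h5 (by positivity)

theorem Mks_sum {E κ α : Type} (z : κ) (F : Finset α) (g : α → E) (ω : E → κ) :
    ∑ e ∈ F.image g, (if ω e = z then ((F.filter fun v => g v = e).card : ℝ) else 0) =
      ((F.filter fun v => ω (g v) = z).card : ℝ) := by
  have h1 : (F.filter fun v => ω (g v) = z).card = ∑ e ∈ F.image g,
      ((F.filter fun v => ω (g v) = z).filter fun v => g v = e).card := by
    apply Finset.card_eq_sum_card_fiberwise
    intro v hv
    exact Finset.mem_image_of_mem g (Finset.mem_filter.1 (Finset.mem_coe.1 hv)).1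
  rw [h1, Nat.cast_sum]
  apply Finset.sum_congr rfl
  intro e _
  by_cases he : ω e = z
  · rw [if_pos he]
    congr 2
    ext v
    rw [Finset.mem_filter, Finset.mem_filter, Finset.mem_filter]
    constructor
    · rintro ⟨h, h'⟩
      exact ⟨⟨h, by rw [h', he]⟩, h'⟩
    · rintro ⟨⟨h, _⟩, h'⟩
      exact ⟨h, h'⟩
  · rw [if_neg he, eq_comm, Nat.cast_eq_zero, Finset.card_eq_zero, Finset.filter_eq_empty_iff]
    intro v hv h'
    rw [Finset.mem_filter, h'] at hv
    exact he hv.2

theorem Mks_mean {E κ α : Type} [Fintype κ] (z : κ) (F : Finset α) (g : α → E) :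
    ∑ e ∈ F.image g, (∑ a : κ, (if a = z then ((F.filter fun v => g v = e).card : ℝ) else 0)) /
      (Fintype.card κ : ℝ) = (F.card : ℝ) / Fintype.card κ := by
  rw [← Finset.sum_div]
  congr 1
  rw [Finset.card_eq_sum_card_image g F, Nat.cast_sum]
  apply Finset.sum_congr rfl
  intro e _
  rw [Finset.sum_ite_eq', if_pos (Finset.mem_univ _)]

theorem Mks_gen {W Y J E κ : Type} [Fintype W] [Fintype Y] [Fintype J] [Fintype E] [Fintype κ]
    (z : κ) (g : W → W → E) (gs : ∀ v w, g v w = g w v)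
    (gi : ∀ v w v' w', g v w = g v' w' → (v = v' ∧ w = w') ∨ (v = w' ∧ w = v'))
    (H : SimpleGraph W)
    (mm : Y → W → W) (hMF : MF H mm) (τ : Y → Y) (hτ2 : ∀ y, τ (τ y) = y)
    (SJ : J → Finset W) (n m ℓ : ℕ) (t : ℝ) (ht : 0 < t) (hn : 1 ≤ n)
    (hSJ : ∀ j, (SJ j).card ≤ n) (hm : ∀ v, (univ.filter fun j => v ∈ SJ j).card ≤ m)
    (hY : Fintype.card Y ≤ n) (hℓ : ℓ ≤ n)
    (hq : 4 * Real.exp (-((ℓ : ℝ) / Fintype.card κ)) * ((n : ℝ) * (2 + 2 * m + 4 * ℓ : ℕ) + 1) ≤ 1)
    (he : 8 * Real.exp (-(t ^ 2 / (8 * n))) * ((n : ℝ) * (2 + 2 * m + 4 * ℓ : ℕ) + 1) ≤ 1) :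
    ∃ mm' : Y → W → W, MF H mm' ∧ (∀ y v, mm' y v = mm y v ∨ mm' y v = v) ∧
      (∀ j y, (((SJ j).filter fun v => mm' y v ≠ mm y v).card : ℝ) ≤
        (n : ℝ) / Fintype.card κ + t) ∧
      (∀ v, ((univ.filter fun y => mm' y v ≠ mm y v).card : ℝ) ≤
        (Fintype.card Y : ℝ) / Fintype.card κ + t) ∧
      ∀ y v, Short (mm' y) (mm' (τ y)) (2 * ℓ + 2) v := by
  have hne : Nonempty κ := ⟨z⟩
  have hpos : 0 < Fintype.card κ := Fintype.card_pos
  have hpos' : (0 : ℝ) < Fintype.card κ := by exact_mod_cast hpos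
  -- uniqueness
  have U : ∀ y v y' w, mm y v ≠ v → mm y' w ≠ w → g v (mm y v) = g w (mm y' w) →
      y' = y ∧ (w = v ∨ w = mm y v) := by
    intro y v y' w h1 h2 h3
    rcases gi _ _ _ _ h3 with ⟨h4, h5⟩ | ⟨h4, h5⟩
    · refine ⟨?_, Or.inl h4.symm⟩
      by_contra hc
      rw [← h4] at h5
      exact hMF.dis y y' v (fun h => hc h.symm) h1 h5
    · refine ⟨?_, Or.inr h5.symm⟩
      by_contra hc
      have h6 : mm y' v = w := by
        rw [h4]
        exact hMF.inv y' w
      exact hMF.dis y y' v (fun h => hc h.symm) h1 (h5.trans h6.symm)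
  -- the data
  obtain ⟨F1, hF1⟩ : ∃ F1 : W → Finset Y, ∀ v, F1 v = univ.filter (fun y => mm y v ≠ v) :=
    ⟨_, fun _ => rfl⟩
  obtain ⟨F2, hF2⟩ : ∃ F2 : J × Y → Finset W, ∀ p, F2 p =
      (SJ p.1).filter (fun v => mm p.2 v ≠ v) := ⟨_, fun _ => rfl⟩
  obtain ⟨AA, hAA⟩ : ∃ AA : Y × W → ℕ → W, ∀ p i, AA p i = walk (mm p.1) (mm (τ p.1)) p.2 i :=
    ⟨_, fun _ _ => rfl⟩
  obtain ⟨Dst, hDst⟩ : ∃ Dst : Y × W → Prop, ∀ p, Dst p ↔ ∀ i j, i < j → j ≤ ℓ → AA p i ≠ AA p j :=
    ⟨_, fun _ => Iff.rfl⟩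
  obtain ⟨S', hS'⟩ : ∃ S' : Y × W → Finset E, ∀ p, S' p =
      if Dst p then (range ℓ).image (fun i => g (AA p i) (AA p (i + 1))) else ∅ :=
    ⟨_, fun _ => rfl⟩
  obtain ⟨A, hA⟩ : ∃ A : Y × W → Finset (E → κ), ∀ p, A p =
      if Dst p then univ.filter (fun ω : E → κ => ∀ e ∈ S' p, ω e ≠ z) else ∅ :=
    ⟨_, fun _ => rfl⟩
  -- one step of the walk
  have hstep : ∀ p i, ∃ y', (y' = p.1 ∨ y' = τ p.1) ∧ AA p (i + 1) = mm y' (AA p i) ∧
      (i % 2 = 0 → y' = p.1) ∧ (i % 2 ≠ 0 → y' = τ p.1) := by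
    intro p i
    by_cases h : i % 2 = 0
    · refine ⟨p.1, Or.inl rfl, ?_, fun _ => rfl, fun h' => absurd h h'⟩
      rw [hAA, hAA, walk, if_pos h]
    · refine ⟨τ p.1, Or.inr rfl, ?_, fun h' => absurd h' h, fun _ => rfl⟩
      rw [hAA, hAA, walk, if_neg h]
  have hinj : ∀ y i v w, AA (y, v) i = AA (y, w) i → v = w := by
    intro y i v w
    induction i with
    | zero => intro h; rw [hAA, hAA] at h; exact h
    | succ i ih =>
      intro h
      apply ih
      rw [hAA, hAA] at h ⊢
      rw [walk, walk] at h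
      by_cases hi : i % 2 = 0
      · rw [if_pos hi, if_pos hi] at h
        have h2 := congrArg (mm y) h
        simp only at h2
        rw [hMF.inv, hMF.inv] at h2
        exact h2
      · rw [if_neg hi, if_neg hi] at h
        have h2 := congrArg (mm (τ y)) h
        simp only at h2
        rw [hMF.inv, hMF.inv] at h2
        exact h2
  have hS'card : ∀ p, Dst p → (S' p).card = ℓ := by
    intro p hp
    rw [hS', if_pos hp, Finset.card_image_of_injOn, Finset.card_range]
    have hp' := (hDst p).1 hp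
    have hne2 : ∀ i j, i ≤ ℓ → j ≤ ℓ → AA p i = AA p j → i = j := by
      intro i j hi hj h
      rcases lt_trichotomy i j with h1 | h1 | h1
      · exact absurd h (hp' i j h1 hj)
      · exact h1
      · exact absurd h.symm (hp' j i h1 hi)
    intro i hi j hj hij
    rw [Finset.mem_coe, Finset.mem_range] at hi hj
    rcases gi _ _ _ _ hij with ⟨h1, _⟩ | ⟨h1, h2⟩
    · exact hne2 i j hi.le hj.le h1
    · have e1 := hne2 i (j + 1) hi.le hj h1
      have e2 := hne2 (i + 1) j hi hj.le h2
      omega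
  -- a member of `S'`
  have hS'mem : ∀ p e, e ∈ S' p → ∃ i < ℓ, ∃ y', (y' = p.1 ∨ y' = τ p.1) ∧
      mm y' (AA p i) ≠ AA p i ∧ g (AA p i) (mm y' (AA p i)) = e := by
    intro p e h
    rw [hS'] at h
    by_cases hp : Dst p
    · rw [if_pos hp, Finset.mem_image] at h
      obtain ⟨i, hi, hie⟩ := h
      rw [Finset.mem_range] at hi
      obtain ⟨y', hy', hs, _, _⟩ := hstep p i
      refine ⟨i, hi, y', hy', ?_, ?_⟩
      · rw [← hs]
        exact fun h => (hDst p).1 hp i (i + 1) (Nat.lt_succ_self i) hi h.symm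
      · rw [← hs]
        exact hie
    · rw [if_neg hp] at h
      exact absurd h (Finset.notMem_empty _)
  obtain ⟨S, hS1, hS2⟩ : ∃ S : W ⊕ J × Y → Finset E,
      (∀ v, S (Sum.inl v) = (F1 v).image (fun y => g v (mm y v))) ∧
      (∀ p, S (Sum.inr p) = (F2 p).image (fun v => g v (mm p.2 v))) :=
    ⟨Sum.elim (fun v => (F1 v).image (fun y => g v (mm y v)))
      (fun p => (F2 p).image (fun v => g v (mm p.2 v))), fun _ => rfl, fun _ => rfl⟩
  obtain ⟨f, hf1, hf2⟩ : ∃ f : W ⊕ J × Y → E → κ → ℝ,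
      (∀ v e a, f (Sum.inl v) e a =
        if a = z then (((F1 v).filter fun y => g v (mm y v) = e).card : ℝ) else 0) ∧
      (∀ p e a, f (Sum.inr p) e a =
        if a = z then (((F2 p).filter fun v => g v (mm p.2 v) = e).card : ℝ) else 0) :=
    ⟨Sum.elim (fun v e a =>
        if a = z then (((F1 v).filter fun y => g v (mm y v) = e).card : ℝ) else 0)
      (fun p e a =>
        if a = z then (((F2 p).filter fun v => g v (mm p.2 v) = e).card : ℝ) else 0),
      fun _ _ _ => rfl, fun _ _ _ => rfl⟩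
  have hc1 : ∀ v e, ((F1 v).filter fun y => g v (mm y v) = e).card ≤ 2 := by
    intro v e
    have : ((F1 v).filter fun y => g v (mm y v) = e).card ≤ 1 := by
      rw [Finset.card_le_one]
      intro y hy y' hy'
      rw [Finset.mem_filter, hF1, Finset.mem_filter] at hy hy'
      exact (U y v y' v hy.1.2 hy'.1.2 (hy.2.trans hy'.2.symm)).1.symm
    omega
  have hc2 : ∀ p e, ((F2 p).filter fun v => g v (mm p.2 v) = e).card ≤ 2 := by
    intro p e
    rcases Finset.eq_empty_or_nonempty ((F2 p).filter fun v => g v (mm p.2 v) = e) with h | h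
    · rw [h]
      exact Nat.zero_le _
    · obtain ⟨v0, h0⟩ := h
      rw [Finset.mem_filter, hF2, Finset.mem_filter] at h0
      have hsub : ((F2 p).filter fun v => g v (mm p.2 v) = e) ⊆ {v0, mm p.2 v0} := by
        intro w hw
        rw [Finset.mem_filter, hF2, Finset.mem_filter] at hw
        have h3 := (U p.2 v0 p.2 w h0.1.2 hw.1.2 (h0.2.trans hw.2.symm)).2
        rw [Finset.mem_insert, Finset.mem_singleton]
        exact h3
      exact (Finset.card_le_card hsub).trans Finset.card_le_two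
  have hn1 : ∀ j, (S j).card ≤ n := by
    intro j
    rcases j with v | p
    · rw [hS1]
      exact (Finset.card_image_le.trans (Finset.card_le_univ _)).trans hY
    · rw [hS2, hF2]
      exact (Finset.card_image_le.trans (Finset.card_filter_le _ _)).trans (hSJ _)
  have hn2 : ∀ p, (S' p).card ≤ n := by
    intro p
    by_cases hp : Dst p
    · rw [hS'card p hp]
      exact hℓ
    · rw [hS', if_neg hp, Finset.card_empty]
      exact Nat.zero_le _
  have hm' : ∀ e, (univ.filter fun j => e ∈ S j).card + (univ.filter fun p => e ∈ S' p).card ≤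
      2 + 2 * m + 4 * ℓ := by
    intro e
    by_cases hex : ∃ y0 v0, mm y0 v0 ≠ v0 ∧ g v0 (mm y0 v0) = e
    · obtain ⟨y0, v0, hv0, h0⟩ := hex
      have k1 : (univ.filter fun j => e ∈ S j) ⊆
          (({v0, mm y0 v0} : Finset W).image Sum.inl) ∪
            ((((univ.filter fun j => v0 ∈ SJ j) ∪
              (univ.filter fun j => mm y0 v0 ∈ SJ j)).image fun j => (j, y0)).image Sum.inr) := by
        intro j hj
        rw [Finset.mem_filter] at hj
        rw [Finset.mem_union, Finset.mem_image, Finset.mem_image]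
        rcases j with v | p
        · left
          have h1 := hj.2
          rw [hS1, Finset.mem_image] at h1
          obtain ⟨y, hy, hye⟩ := h1
          rw [hF1, Finset.mem_filter] at hy
          have h3 := (U y0 v0 y v hv0 hy.2 (h0.trans hye.symm)).2
          refine ⟨v, ?_, rfl⟩
          rw [Finset.mem_insert, Finset.mem_singleton]
          exact h3
        · right
          have h1 := hj.2
          rw [hS2, Finset.mem_image] at h1
          obtain ⟨v, hv, hve⟩ := h1
          rw [hF2, Finset.mem_filter] at hv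
          obtain ⟨h3, h4⟩ := U y0 v0 p.2 v hv0 hv.2 (h0.trans hve.symm)
          refine ⟨p, ?_, rfl⟩
          rw [Finset.mem_image]
          refine ⟨p.1, ?_, Prod.ext rfl h3.symm⟩
          rw [Finset.mem_union, Finset.mem_filter, Finset.mem_filter]
          rcases h4 with h4 | h4
          · left
            exact ⟨Finset.mem_univ _, h4 ▸ hv.1⟩
          · right
            exact ⟨Finset.mem_univ _, h4 ▸ hv.1⟩
      have k2 : (univ.filter fun j => e ∈ S j).card ≤ 2 + 2 * m := by
        refine (Finset.card_le_card k1).trans ((Finset.card_union_le _ _).trans ?_)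
        have a1 : (({v0, mm y0 v0} : Finset W).image (Sum.inl : W → W ⊕ J × Y)).card ≤ 2 :=
          Finset.card_image_le.trans Finset.card_le_two
        have a2 : ((((univ.filter fun j => v0 ∈ SJ j) ∪
              (univ.filter fun j => mm y0 v0 ∈ SJ j)).image fun j => (j, y0)).image
                (Sum.inr : J × Y → W ⊕ J × Y)).card ≤ m + m :=
          Finset.card_image_le.trans (Finset.card_image_le.trans
            ((Finset.card_union_le _ _).trans (Nat.add_le_add (hm _) (hm _))))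
        omega
      have k3 : (univ.filter fun p => e ∈ S' p) ⊆
          ((({y0, τ y0} : Finset Y) ×ˢ range ℓ) ×ˢ ({v0, mm y0 v0} : Finset W)).biUnion
            (fun q => univ.filter fun p : Y × W => p.1 = q.1.1 ∧ AA p q.1.2 = q.2) := by
        intro p hp
        rw [Finset.mem_filter] at hp
        obtain ⟨i, hi, y', hy', h1, h2⟩ := hS'mem p e hp.2
        obtain ⟨h3, h4⟩ := U y0 v0 y' (AA p i) hv0 h1 (h0.trans h2.symm)
        rw [Finset.mem_biUnion]
        refine ⟨((p.1, i), AA p i), ?_, ?_⟩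
        · rw [Finset.mem_product, Finset.mem_product]
          refine ⟨⟨?_, Finset.mem_range.2 hi⟩, ?_⟩
          · rw [Finset.mem_insert, Finset.mem_singleton]
            rcases hy' with hy' | hy'
            · left
              rw [← h3, hy']
            · right
              rw [← h3, hy', hτ2]
          · rw [Finset.mem_insert, Finset.mem_singleton]
            exact h4
        · rw [Finset.mem_filter]
          exact ⟨Finset.mem_univ _, rfl, rfl⟩
      have k4 : (univ.filter fun p => e ∈ S' p).card ≤ 4 * ℓ := by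
        refine (Finset.card_le_card k3).trans ?_
        refine (Finset.card_biUnion_le_card_mul _ _ 1 ?_).trans ?_
        · intro q _
          rw [Finset.card_le_one]
          intro p hp p' hp'
          rw [Finset.mem_filter] at hp hp'
          have e1 : p.1 = p'.1 := hp.2.1.trans hp'.2.1.symm
          have e2 : AA p q.1.2 = AA p' q.1.2 := hp.2.2.trans hp'.2.2.symm
          obtain ⟨y, v⟩ := p
          obtain ⟨y', v'⟩ := p'
          simp only at e1
          subst e1
          rw [hinj _ _ _ _ e2]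
        · rw [mul_one, Finset.card_product, Finset.card_product, Finset.card_range]
          have b1 : ({y0, τ y0} : Finset Y).card ≤ 2 := Finset.card_le_two
          have b2 : ({v0, mm y0 v0} : Finset W).card ≤ 2 := Finset.card_le_two
          calc ({y0, τ y0} : Finset Y).card * ℓ * ({v0, mm y0 v0} : Finset W).card
              ≤ 2 * ℓ * 2 := Nat.mul_le_mul (Nat.mul_le_mul_right _ b1) b2
            _ = 4 * ℓ := by ring
      omega
    · have k1 : (univ.filter fun j => e ∈ S j) = ∅ := by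
        rw [Finset.filter_eq_empty_iff]
        intro j _ hj
        rcases j with v | p
        · rw [hS1, Finset.mem_image] at hj
          obtain ⟨y, hy, hye⟩ := hj
          rw [hF1, Finset.mem_filter] at hy
          exact hex ⟨y, v, hy.2, hye⟩
        · rw [hS2, Finset.mem_image] at hj
          obtain ⟨v, hv, hve⟩ := hj
          rw [hF2, Finset.mem_filter] at hv
          exact hex ⟨p.2, v, hv.2, hve⟩
      have k2 : (univ.filter fun p => e ∈ S' p) = ∅ := by
        rw [Finset.filter_eq_empty_iff]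
        intro p _ hp
        obtain ⟨i, _, y', _, h1, h2⟩ := hS'mem p e hp
        exact hex ⟨y', _, h1, h2⟩
      rw [k1, k2, Finset.card_empty, Finset.card_empty]
      exact Nat.zero_le _
  have hf0 : ∀ j i a, 0 ≤ f j i a := by
    intro j i a
    rcases j with v | p
    · rw [hf1]
      split_ifs
      · exact Nat.cast_nonneg _
      · exact le_rfl
    · rw [hf2]
      split_ifs
      · exact Nat.cast_nonneg _
      · exact le_rfl
  have hfr : ∀ j i a, f j i a ≤ 2 := by
    intro j i a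
    rcases j with v | p
    · rw [hf1]
      split_ifs
      · exact_mod_cast hc1 v i
      · exact zero_le_two
    · rw [hf2]
      split_ifs
      · exact_mod_cast hc2 p i
      · exact zero_le_two
  have hdep : ∀ p, Pool.Agent.H28.DependsOnly (A p) (S' p) := by
    intro p u v huv hu
    rw [hA] at hu ⊢
    by_cases hp : Dst p
    · rw [if_pos hp, Finset.mem_filter] at hu ⊢
      refine ⟨Finset.mem_univ _, fun e he' => ?_⟩
      have h1 := hu.2 e he'
      have h2 := huv e he'
      intro h3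
      apply h1
      rw [← h3]
      exact h2
    · rw [if_neg hp] at hu
      exact absurd hu (Finset.notMem_empty _)
  have hAq : ∀ p, ((A p).card : ℝ) ≤
      Real.exp (-((ℓ : ℝ) / Fintype.card κ)) * Fintype.card (E → κ) := by
    intro p
    rw [hA]
    by_cases hp : Dst p
    · rw [if_pos hp]
      have h1 := Mks_cnt z (S' p)
      rw [hS'card p hp] at h1
      exact h1
    · rw [if_neg hp, Finset.card_empty, Nat.cast_zero]
      positivity
  have he' : 8 * Real.exp (-(t ^ 2 / (2 * n * 2 ^ 2))) *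
      ((n : ℝ) * (2 + 2 * m + 4 * ℓ : ℕ) + 1) ≤ 1 := by
    have : (2 * n * 2 ^ 2 : ℝ) = 8 * n := by ring
    rw [this]
    exact he
  obtain ⟨ω, h1, h2⟩ := lhx S f S' A n (2 + 2 * m + 4 * ℓ) 2 t
    (Real.exp (-((ℓ : ℝ) / Fintype.card κ))) hn two_pos ht (Real.exp_nonneg _) hn1 hn2 hm' hf0 hfr
    hdep hAq hq he'
  obtain ⟨mk, hmk⟩ : ∃ mk : Y → W → W, ∀ y v, mk y v =
      if mm y v ≠ v ∧ ω (g v (mm y v)) = z then v else mm y v := ⟨_, fun _ _ => rfl⟩
  have hmk1 : ∀ y v, mk y v ≠ mm y v ↔ (mm y v ≠ v ∧ ω (g v (mm y v)) = z) := by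
    intro y v
    rw [hmk]
    by_cases h : mm y v ≠ v ∧ ω (g v (mm y v)) = z
    · rw [if_pos h]
      exact ⟨fun _ => h, fun _ => h.1.symm⟩
    · rw [if_neg h]
      exact ⟨fun h' => absurd rfl h', fun h' => absurd h' h⟩
  have hmk2 : ∀ y v, mk y v = mm y v ∨ mk y v = v := by
    intro y v
    rw [hmk]
    by_cases h : mm y v ≠ v ∧ ω (g v (mm y v)) = z
    · rw [if_pos h]
      exact Or.inr rfl
    · rw [if_neg h]
      exact Or.inl rfl
  have hmk3 : ∀ y v, mk y (mk y v) = v := by
    intro y v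
    by_cases h : mm y v ≠ v ∧ ω (g v (mm y v)) = z
    · have e1 : mk y v = v := by rw [hmk, if_pos h]
      rw [e1, e1]
    · have e1 : mk y v = mm y v := by rw [hmk, if_neg h]
      rw [e1]
      have h' : ¬ (mm y (mm y v) ≠ mm y v ∧ ω (g (mm y v) (mm y (mm y v))) = z) := by
        rw [hMF.inv, gs]
        intro h''
        exact h ⟨fun h3 => h''.1 h3.symm, h''.2⟩
      rw [hmk, if_neg h', hMF.inv]
  have hmk4 : ∀ y v, mk y v ≠ v → mk y v = mm y v := fun y v h => (hmk2 y v).resolve_right h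
  refine ⟨mk, ⟨hmk3, ?_, ?_⟩, hmk2, ?_, ?_, ?_⟩
  · intro y v h
    have e1 := hmk4 y v h
    rw [e1]
    rw [e1] at h
    exact hMF.adj y v h
  · intro y y' v hyy h
    have e1 := hmk4 y v h
    rcases hmk2 y' v with h3 | h3
    · rw [e1, h3]
      rw [e1] at h
      exact hMF.dis y y' v hyy h
    · rw [h3]
      exact h
  · intro j y
    have k1 := h1 (Sum.inr (j, y))
    have k2 : ∑ i ∈ S (Sum.inr (j, y)), f (Sum.inr (j, y)) i (ω i) =
        (((F2 (j, y)).filter fun v => ω (g v (mm y v)) = z).card : ℝ) := by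
      rw [hS2, ← Mks_sum z (F2 (j, y)) (fun v => g v (mm y v)) ω]
      apply Finset.sum_congr rfl
      intro e _
      rw [hf2]
    have k3 : ∑ i ∈ S (Sum.inr (j, y)), (∑ a, f (Sum.inr (j, y)) i a) / (Fintype.card κ : ℝ) =
        ((F2 (j, y)).card : ℝ) / Fintype.card κ := by
      rw [hS2, ← Mks_mean z (F2 (j, y)) (fun v => g v (mm y v))]
      apply Finset.sum_congr rfl
      intro e _
      congr 1
      apply Finset.sum_congr rfl
      intro a _
      rw [hf2]
    rw [k2, k3] at k1
    have k4 : ((SJ j).filter fun v => mk y v ≠ mm y v) =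
        ((F2 (j, y)).filter fun v => ω (g v (mm y v)) = z) := by
      ext v
      rw [Finset.mem_filter, Finset.mem_filter, hF2, Finset.mem_filter, hmk1]
      exact ⟨fun h => ⟨⟨h.1, h.2.1⟩, h.2.2⟩, fun h => ⟨h.1.1, h.1.2, h.2⟩⟩
    have k5 : ((F2 (j, y)).card : ℝ) / Fintype.card κ ≤ (n : ℝ) / Fintype.card κ := by
      apply div_le_div_of_nonneg_right _ hpos'.le
      have : (F2 (j, y)).card ≤ n := by
        rw [hF2]
        exact (Finset.card_filter_le _ _).trans (hSJ _)
      exact_mod_cast this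
    rw [k4]
    have k6 := (abs_le.1 k1).2
    linarith
  · intro v
    have k1 := h1 (Sum.inl v)
    have k2 : ∑ i ∈ S (Sum.inl v), f (Sum.inl v) i (ω i) =
        (((F1 v).filter fun y => ω (g v (mm y v)) = z).card : ℝ) := by
      rw [hS1, ← Mks_sum z (F1 v) (fun y => g v (mm y v)) ω]
      apply Finset.sum_congr rfl
      intro e _
      rw [hf1]
    have k3 : ∑ i ∈ S (Sum.inl v), (∑ a, f (Sum.inl v) i a) / (Fintype.card κ : ℝ) =
        ((F1 v).card : ℝ) / Fintype.card κ := by
      rw [hS1, ← Mks_mean z (F1 v) (fun y => g v (mm y v))]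
      apply Finset.sum_congr rfl
      intro e _
      congr 1
      apply Finset.sum_congr rfl
      intro a _
      rw [hf1]
    rw [k2, k3] at k1
    have k4 : (univ.filter fun y => mk y v ≠ mm y v) =
        ((F1 v).filter fun y => ω (g v (mm y v)) = z) := by
      ext y
      rw [Finset.mem_filter, Finset.mem_filter, hF1, Finset.mem_filter, hmk1]
      exact ⟨fun h => ⟨⟨h.1, h.2.1⟩, h.2.2⟩, fun h => ⟨h.1.1, h.1.2, h.2⟩⟩
    have k5 : ((F1 v).card : ℝ) / Fintype.card κ ≤ (Fintype.card Y : ℝ) / Fintype.card κ := by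
      apply div_le_div_of_nonneg_right _ hpos'.le
      exact_mod_cast Finset.card_le_univ _
    rw [k4]
    have k6 := (abs_le.1 k1).2
    linarith
  · intro y v
    have main : ∀ y, (∃ i j, i < j ∧ j ≤ ℓ ∧ walk (mm y) (mm (τ y)) v i =
        walk (mm y) (mm (τ y)) v j) ∨
        ∃ i < ℓ, (if i % 2 = 0 then mk y (walk (mm y) (mm (τ y)) v i)
          else mk (τ y) (walk (mm y) (mm (τ y)) v i)) = walk (mm y) (mm (τ y)) v i := by
      intro y
      have k1 := h2 (y, v)
      by_cases hp : Dst (y, v)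
      · right
        rw [hA, if_pos hp, Finset.mem_filter] at k1
        have k2 : ∃ e ∈ S' (y, v), ω e = z := by
          by_contra hc
          apply k1
          refine ⟨Finset.mem_univ _, fun e he1 he2 => hc ⟨e, he1, he2⟩⟩
        obtain ⟨e, he1, he2⟩ := k2
        rw [hS', if_pos hp, Finset.mem_image] at he1
        obtain ⟨i, hi, hie⟩ := he1
        rw [Finset.mem_range] at hi
        refine ⟨i, hi, ?_⟩
        have k3 : AA (y, v) i ≠ AA (y, v) (i + 1) :=
          (hDst _).1 hp i (i + 1) (Nat.lt_succ_self i) hi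
        obtain ⟨y', _, hs, hs1, hs2⟩ := hstep (y, v) i
        have k4 : mk y' (AA (y, v) i) = AA (y, v) i := by
          rw [hmk, if_pos]
          rw [← hs]
          exact ⟨k3.symm, by rw [hie, he2]⟩
        rw [← hAA (y, v) i]
        by_cases hi2 : i % 2 = 0
        · rw [if_pos hi2]
          rw [hs1 hi2] at k4
          exact k4
        · rw [if_neg hi2]
          rw [hs2 hi2] at k4
          exact k4
      · left
        by_contra hc
        apply hp
        rw [hDst]
        intro i j hij hj h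
        rw [hAA, hAA] at h
        exact hc ⟨i, j, hij, hj, h⟩
    have mb := main (τ y)
    rw [hτ2] at mb
    exact wlk (mm y) (mm (τ y)) (mk y) (mk (τ y)) (hMF.inv y) (hMF.inv (τ y)) (hmk3 y)
      (hmk3 (τ y)) (hmk2 y) (hmk2 (τ y)) ℓ v (main y) mb

theorem mks {W Y J : Type} [Fintype W] [Fintype Y] [Fintype J] (H : SimpleGraph W)
    (mm : Y → W → W) (hMF : MF H mm) (τ : Y → Y) (hτ2 : ∀ y, τ (τ y) = y) (hτ : ∀ y, τ y ≠ y)
    (SJ : J → Finset W) (n m ℓ Lm : ℕ) (t : ℝ) (ht : 0 < t) (hLm : 2 ≤ Lm) (hn : 1 ≤ n)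
    (hSJ : ∀ j, (SJ j).card ≤ n) (hm : ∀ v, (univ.filter fun j => v ∈ SJ j).card ≤ m)
    (hY : Fintype.card Y ≤ n) (hℓ : ℓ ≤ n)
    (hq : 4 * Real.exp (-((ℓ : ℝ) / Lm)) * ((n : ℝ) * (2 + 2 * m + 4 * ℓ : ℕ) + 1) ≤ 1)
    (he : 8 * Real.exp (-(t ^ 2 / (8 * n))) * ((n : ℝ) * (2 + 2 * m + 4 * ℓ : ℕ) + 1) ≤ 1) :
    ∃ mm' : Y → W → W, MF H mm' ∧ (∀ y v, mm' y v = mm y v ∨ mm' y v = v) ∧
      (∀ j y, (((SJ j).filter fun v => mm' y v ≠ mm y v).card : ℝ) ≤ (n : ℝ) / Lm + t) ∧
      (∀ v, ((univ.filter fun y => mm' y v ≠ mm y v).card : ℝ) ≤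
        (Fintype.card Y : ℝ) / Lm + t) ∧
      ∀ y v, Short (mm' y) (mm' (τ y)) (2 * ℓ + 2) v := by
  have h0 : 0 < Lm := by omega
  have hq' : 4 * Real.exp (-((ℓ : ℝ) / Fintype.card (Fin Lm))) *
      ((n : ℝ) * (2 + 2 * m + 4 * ℓ : ℕ) + 1) ≤ 1 := by
    rw [Fintype.card_fin]
    exact hq
  have h := Mks_gen (κ := Fin Lm) (E := Sym2 W) ⟨0, h0⟩ (fun v w => s(v, w))
    (fun v w => Sym2.eq_swap)
    (fun v w v' w' h => Sym2.eq_iff.1 h) H mm hMF τ hτ2 SJ n m ℓ t ht hn hSJ hm hY hℓ hq' he
  rw [Fintype.card_fin] at h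
  exact h

end Pool.Agent.H71.MA
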