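import Mathlib
import Pool.Agent.H71.MA.Defs
import Pool.Agent.H71.MA.Mks
import Pool.Agent.H71.MA.Cns

/-!
RND: one round of the mixing: marks, then random exchange of `y` and `τ y` on short components.

Proof.  `mks` gives `mm'` (its conditions follow from `hq`, `he`: `2 + 2 m + 4 ℓ ≤ 2 (2 ℓ + 2) (m + 1)`, and
`t^2 / (2 n (2 ℓ + 2)^2) ≤ t^2 / (8 n)`, so `exp (-(t^2/(8 n))) ≤ exp (-(t^2/(2 n (2 ℓ + 2)^2)))`). Apply `cns` to
`mm'` with `s = 2 ℓ + 2` (its condition follows from `he`, `2 s m ≤ 2 (2 ℓ + 2) (m + 1)`).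
`Ph SJ ψ j (mm' y) ≤ Ph SJ ψ j (mm y) + #{v ∈ SJ j : mm' y v ≠ mm y v}` because `ψ ≤ 1`, `ψ ≥ 0` (termwise), so
`≤ Ph SJ ψ j (mm y) + (n / Lm + t)`; the same for `τ y`. Hence the first bound.
For the second: by the alternative in `cns`, for every `y` (with `[P]` = 1 if `P`, 0 otherwise)
`[mm'' y v = v] + [mm'' (τ y) v = v] = [mm' y v = v] + [mm' (τ y) v = v]`. Sum over `y`; `τ` is a bijection of `Y`, so
`2 #{y : mm'' y v = v} = 2 #{y : mm' y v = v}`.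
So `#{y : mm'' y v = v} ≤ #{y : mm' y v = v} ≤ #{y : mm y v = v} + #{y : mm' y v ≠ mm y v}`.
-/

set_option autoImplicit false

namespace Pool.Agent.H71.MA

open Finset Classical

theorem Rnd_mono (a b x y : ℝ) (hb : 0 ≤ b) (hab : a ≤ b) (hx : 0 ≤ x) (hxy : x ≤ y)
    (h : b * (y + 1) ≤ 1) : a * (x + 1) ≤ 1 := by
  have h1 : a * (x + 1) ≤ b * (x + 1) := mul_le_mul_of_nonneg_right hab (by linarith)
  have h2 : b * (x + 1) ≤ b * (y + 1) := mul_le_mul_of_nonneg_left (by linarith) hb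
  linarith

theorem Rnd_ph {W J : Type} (SJ : J → Finset W) (ψ : J → W → W → ℝ)
    (hψ0 : ∀ j v w, 0 ≤ ψ j v w) (hψ1 : ∀ j v w, ψ j v w ≤ 1) (p q : W → W) (j : J) :
    Ph SJ ψ j p ≤ Ph SJ ψ j q + (((SJ j).filter fun v => p v ≠ q v).card : ℝ) := by
  have h1 : (((SJ j).filter fun v => p v ≠ q v).card : ℝ) =
      ∑ v ∈ SJ j, (if p v ≠ q v then (1 : ℝ) else 0) := by
    rw [Finset.sum_boole]
  rw [h1, Ph, Ph, ← Finset.sum_add_distrib]
  apply Finset.sum_le_sum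
  intro v _
  by_cases h : p v = q v
  · rw [h]
    simp
  · rw [if_pos h]
    have h2 := hψ0 j v (q v)
    have h3 := hψ1 j v (p v)
    linarith

theorem Rnd_cnt {W Y : Type} [Fintype Y] (p q : Y → W → W) (τ : Y → Y) (hτ2 : ∀ y, τ (τ y) = y)
    (h : ∀ y v, (p y v = q y v ∧ p (τ y) v = q (τ y) v) ∨
        (p y v = q (τ y) v ∧ p (τ y) v = q y v)) (v : W) :
    (univ.filter fun y => p y v = v).card = (univ.filter fun y => q y v = v).card := by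
  let e : Y ≃ Y := ⟨τ, τ, hτ2, hτ2⟩
  have h1 : ∀ r : Y → W → W, (univ.filter fun y => r y v = v).card =
      ∑ y, (if r (τ y) v = v then 1 else 0) := by
    intro r
    rw [Finset.card_filter]
    exact (Equiv.sum_comp e (fun y => if r y v = v then 1 else 0)).symm
  have h2 : ∀ r : Y → W → W, (univ.filter fun y => r y v = v).card +
      (univ.filter fun y => r y v = v).card =
      ∑ y, ((if r y v = v then 1 else 0) + (if r (τ y) v = v then 1 else 0)) := by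
    intro r
    rw [Finset.sum_add_distrib, ← h1 r, ← Finset.card_filter]
  have h3 := h2 p
  have h4 := h2 q
  have h5 : ∑ y, ((if p y v = v then 1 else 0) + (if p (τ y) v = v then 1 else 0)) =
      ∑ y, ((if q y v = v then 1 else 0) + (if q (τ y) v = v then 1 else 0)) := by
    apply Finset.sum_congr rfl
    intro y _
    rcases h y v with ⟨h6, h7⟩ | ⟨h6, h7⟩
    · rw [h6, h7]
    · rw [h6, h7, add_comm]
  omega

theorem rnd {W Y J : Type} [Fintype W] [Fintype Y] [Fintype J] (H : SimpleGraph W)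
    (mm : Y → W → W) (hMF : MF H mm) (τ : Y → Y) (hτ2 : ∀ y, τ (τ y) = y) (hτ : ∀ y, τ y ≠ y)
    (SJ : J → Finset W) (ψ : J → W → W → ℝ) (hψ0 : ∀ j v w, 0 ≤ ψ j v w)
    (hψ1 : ∀ j v w, ψ j v w ≤ 1) (n m ℓ Lm : ℕ) (t : ℝ) (ht : 0 < t) (hLm : 2 ≤ Lm) (hn : 1 ≤ n)
    (hSJ : ∀ j, (SJ j).card ≤ n) (hm : ∀ v, (univ.filter fun j => v ∈ SJ j).card ≤ m)
    (hY : Fintype.card Y ≤ n) (hℓ : ℓ ≤ n)
    (hq : 4 * Real.exp (-((ℓ : ℝ) / Lm)) * ((n : ℝ) * (2 * (2 * ℓ + 2) * (m + 1) : ℕ) + 1) ≤ 1)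
    (he : 8 * Real.exp (-(t ^ 2 / (2 * n * (2 * ℓ + 2 : ℝ) ^ 2))) *
      ((n : ℝ) * (2 * (2 * ℓ + 2) * (m + 1) : ℕ) + 1) ≤ 1) :
    ∃ mm'' : Y → W → W, MF H mm'' ∧
      (∀ j y, Ph SJ ψ j (mm'' y) ≤ (Ph SJ ψ j (mm y) + Ph SJ ψ j (mm (τ y))) / 2 +
        ((n : ℝ) / Lm + 2 * t)) ∧
      ∀ v, ((univ.filter fun y => mm'' y v = v).card : ℝ) ≤
        ((univ.filter fun y => mm y v = v).card : ℝ) + ((Fintype.card Y : ℝ) / Lm + t) := by
  have hn1 : (1 : ℝ) ≤ n := by exact_mod_cast hn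
  have hn0 : (0 : ℝ) ≤ n := by linarith
  have hcnt : ∀ a b : ℕ, a ≤ b → (n : ℝ) * (a : ℕ) ≤ (n : ℝ) * (b : ℕ) := by
    intro a b hab
    exact mul_le_mul_of_nonneg_left (by exact_mod_cast hab) hn0
  have hle1 : 2 + 2 * m + 4 * ℓ ≤ 2 * (2 * ℓ + 2) * (m + 1) := by
    have h1 : 2 * (2 * ℓ + 2) * (m + 1) = 4 * (ℓ * m) + 4 * ℓ + 4 * m + 4 := by ring
    omega
  have hle2 : 2 * (2 * ℓ + 2) * m ≤ 2 * (2 * ℓ + 2) * (m + 1) :=
    Nat.mul_le_mul_left _ (Nat.le_succ m)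
  have hexp : Real.exp (-(t ^ 2 / (8 * n))) ≤
      Real.exp (-(t ^ 2 / (2 * n * (2 * ℓ + 2 : ℝ) ^ 2))) := by
    apply Real.exp_le_exp.2
    apply neg_le_neg
    apply div_le_div_of_nonneg_left (by positivity) (by positivity)
    have h1 : (0 : ℝ) ≤ (ℓ : ℝ) := Nat.cast_nonneg _
    have h2 : (2 * ℓ + 2 : ℝ) ^ 2 = 4 + (4 * (ℓ : ℝ) ^ 2 + 8 * ℓ) := by ring
    have h3 : 0 ≤ (2 * (n : ℝ)) * (4 * (ℓ : ℝ) ^ 2 + 8 * ℓ) := by positivity
    rw [h2]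
    linarith
  obtain ⟨mm', hMF', _, hJ', hv', hS'⟩ := mks H mm hMF τ hτ2 hτ SJ n m ℓ Lm t ht hLm hn hSJ hm hY hℓ
    (Rnd_mono _ _ _ _ (by positivity) le_rfl (by positivity) (hcnt _ _ hle1) hq)
    (Rnd_mono _ _ _ _ (by positivity) (by linarith) (by positivity) (hcnt _ _ hle1) he)
  have he2 : 8 * Real.exp (-(t ^ 2 / (2 * n * ((2 * ℓ + 2 : ℕ) : ℝ) ^ 2))) *
      ((n : ℝ) * (2 * (2 * ℓ + 2) * m : ℕ) + 1) ≤ 1 := by
    have h1 : ((2 * ℓ + 2 : ℕ) : ℝ) = 2 * ℓ + 2 := by push_cast; ring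
    rw [h1]
    exact Rnd_mono _ _ _ _ (by positivity) le_rfl (by positivity) (hcnt _ _ hle2) he
  obtain ⟨mm'', hMF'', hal, hP⟩ := cns H mm' hMF' τ hτ2 hτ SJ ψ hψ0 hψ1 n m (2 * ℓ + 2) t ht hn
    (by omega) hSJ hm hS' he2
  refine ⟨mm'', hMF'', fun j y => ?_, fun v => ?_⟩
  · have h1 := hP j y
    have h2 := Rnd_ph SJ ψ hψ0 hψ1 (mm' y) (mm y) j
    have h3 := Rnd_ph SJ ψ hψ0 hψ1 (mm' (τ y)) (mm (τ y)) j
    have h4 := hJ' j y
    have h5 := hJ' j (τ y)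
    linarith
  · have h1 := Rnd_cnt mm'' mm' τ hτ2 hal v
    rw [h1]
    have h2 : (univ.filter fun y => mm' y v = v) ⊆
        (univ.filter fun y => mm y v = v) ∪ (univ.filter fun y => mm' y v ≠ mm y v) := by
      intro y hy
      rw [Finset.mem_union, Finset.mem_filter, Finset.mem_filter]
      rw [Finset.mem_filter] at hy
      by_cases h : mm y v = v
      · exact Or.inl ⟨hy.1, h⟩
      · refine Or.inr ⟨hy.1, fun h3 => h ?_⟩
        rw [← h3]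
        exact hy.2
    have h3 := (Finset.card_le_card h2).trans (Finset.card_union_le _ _)
    have h4 : ((univ.filter fun y => mm' y v = v).card : ℝ) ≤
        ((univ.filter fun y => mm y v = v).card : ℝ) +
        ((univ.filter fun y => mm' y v ≠ mm y v).card : ℝ) := by exact_mod_cast h3
    have h5 := hv' v
    linarith

end Pool.Agent.H71.MA
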