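import Mathlib
import Pool.Agent.H71.MA.Defs
import Pool.Agent.H71.MA.Rnd

/-!
MIX: `k` rounds of `rnd` for the labels `Fin k → Bool`, the `i`-th round flips the bit `i`.

Proof.  Prove by induction on `r ≤ k`: there is a family `mm_r` of matchings (`MF`) with
 `Ph SJ ψ j (mm_r y) ≤ (∑ z ∈ {z : ∀ i, r ≤ i → z i = y i}, Ph SJ ψ j (mm z)) / 2 ^ r + r * (n / Lm + 2 t)` and
 `#{y : mm_r y v = v} ≤ #{y : mm y v = v} + r * (2 ^ k / Lm + t)`.
`r = 0`: `mm_0 = mm` (the set is `{y}`). Step (`r < k`): `rnd` for `mm_r` and `τ y := Function.update y ⟨r, _⟩ (!(y ⟨r, _⟩))`.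
The set `{z : ∀ i, r + 1 ≤ i → z i = y i}` is the disjoint union of `{z : ∀ i, r ≤ i → z i = y i}` (those with
`z r = y r`) and `{z : ∀ i, r ≤ i → z i = (τ y) i}` (those with `z r = !(y r)`), so the two averages over `2 ^ r`
add up to the average over `2 ^ (r + 1)`. For `r = k` the set is `univ`. `Fintype.card (Fin k → Bool) = 2 ^ k`.
-/

set_option autoImplicit false

namespace Pool.Agent.H71.MA

open Finset Classical

/-- The points which agree with `y` from the index `r` on. -/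
private noncomputable def Mix_S {k : ℕ} (r : ℕ) (y : Fin k → Bool) : Finset (Fin k → Bool) :=
  univ.filter fun z => ∀ i : Fin k, r ≤ (i : ℕ) → z i = y i

private theorem Mix_mem {k : ℕ} (r : ℕ) (y z : Fin k → Bool) :
    z ∈ Mix_S r y ↔ ∀ i : Fin k, r ≤ (i : ℕ) → z i = y i := by
  simp [Mix_S]

private theorem Mix_sum {k r : ℕ} (hr : r < k) (y : Fin k → Bool) (f : (Fin k → Bool) → ℝ) :
    ∑ z ∈ Mix_S (r + 1) y, f z =
      ∑ z ∈ Mix_S r y, f z + ∑ z ∈ Mix_S r (Function.update y ⟨r, hr⟩ (!(y ⟨r, hr⟩))), f z := by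
  have hdis : Disjoint (Mix_S r y) (Mix_S r (Function.update y ⟨r, hr⟩ (!(y ⟨r, hr⟩)))) := by
    rw [Finset.disjoint_left]
    intro z h1 h2
    have h3 := (Mix_mem r y z).1 h1 ⟨r, hr⟩ le_rfl
    have h4 := (Mix_mem r _ z).1 h2 ⟨r, hr⟩ le_rfl
    rw [Function.update_self, h3] at h4
    cases h5 : y ⟨r, hr⟩ <;> rw [h5] at h4 <;> exact absurd h4 (by decide)
  rw [← Finset.sum_union hdis]
  apply Finset.sum_congr _ fun _ _ => rfl
  ext z
  rw [Finset.mem_union, Mix_mem, Mix_mem, Mix_mem]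
  constructor
  · intro h
    by_cases h1 : z ⟨r, hr⟩ = y ⟨r, hr⟩
    · left
      intro i hi
      rcases eq_or_lt_of_le hi with h2 | h2
      · have h3 : i = ⟨r, hr⟩ := Fin.ext h2.symm
        rw [h3]
        exact h1
      · exact h i h2
    · right
      intro i hi
      rcases eq_or_lt_of_le hi with h2 | h2
      · have h3 : i = ⟨r, hr⟩ := Fin.ext h2.symm
        rw [h3, Function.update_self]
        cases h5 : y ⟨r, hr⟩ <;> cases h6 : z ⟨r, hr⟩ <;> rw [h5, h6] at h1 <;>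
          first
            | rfl
            | exact absurd rfl h1
      · have h3 : i ≠ ⟨r, hr⟩ := by
          rintro rfl
          exact lt_irrefl _ h2
        rw [Function.update_of_ne h3]
        exact h i h2
  · rintro (h | h) i hi
    · exact h i (by omega)
    · have h3 : i ≠ ⟨r, hr⟩ := by
        rintro rfl
        exact absurd hi (by simp)
      have h4 := h i (by omega)
      rw [Function.update_of_ne h3] at h4
      exact h4

theorem mix {W J : Type} [Fintype W] [Fintype J] (H : SimpleGraph W) (k : ℕ)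
    (mm : (Fin k → Bool) → W → W) (hMF : MF H mm)
    (SJ : J → Finset W) (ψ : J → W → W → ℝ) (hψ0 : ∀ j v w, 0 ≤ ψ j v w)
    (hψ1 : ∀ j v w, ψ j v w ≤ 1) (n m ℓ Lm : ℕ) (t : ℝ) (ht : 0 < t) (hLm : 2 ≤ Lm) (hn : 1 ≤ n)
    (hSJ : ∀ j, (SJ j).card ≤ n) (hm : ∀ v, (univ.filter fun j => v ∈ SJ j).card ≤ m)
    (hY : 2 ^ k ≤ n) (hℓ : ℓ ≤ n)
    (hq : 4 * Real.exp (-((ℓ : ℝ) / Lm)) * ((n : ℝ) * (2 * (2 * ℓ + 2) * (m + 1) : ℕ) + 1) ≤ 1)
    (he : 8 * Real.exp (-(t ^ 2 / (2 * n * (2 * ℓ + 2 : ℝ) ^ 2))) *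
      ((n : ℝ) * (2 * (2 * ℓ + 2) * (m + 1) : ℕ) + 1) ≤ 1) :
    ∃ mm' : (Fin k → Bool) → W → W, MF H mm' ∧
      (∀ j y, Ph SJ ψ j (mm' y) ≤ (∑ z, Ph SJ ψ j (mm z)) / 2 ^ k +
        k * ((n : ℝ) / Lm + 2 * t)) ∧
      ∀ v, ((univ.filter fun y => mm' y v = v).card : ℝ) ≤
        ((univ.filter fun y => mm y v = v).card : ℝ) + k * ((2 : ℝ) ^ k / Lm + t) := by
  have hcard : Fintype.card (Fin k → Bool) = 2 ^ k := by
    rw [Fintype.card_fun, Fintype.card_bool, Fintype.card_fin]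
  have key : ∀ r : ℕ, r ≤ k → ∃ mr : (Fin k → Bool) → W → W, MF H mr ∧
      (∀ j y, Ph SJ ψ j (mr y) ≤ (∑ z ∈ Mix_S r y, Ph SJ ψ j (mm z)) / 2 ^ r +
        r * ((n : ℝ) / Lm + 2 * t)) ∧
      ∀ v, ((univ.filter fun y => mr y v = v).card : ℝ) ≤
        ((univ.filter fun y => mm y v = v).card : ℝ) + r * ((2 : ℝ) ^ k / Lm + t) := by
    intro r
    induction r with
    | zero =>
      intro _
      refine ⟨mm, hMF, fun j y => ?_, fun v => ?_⟩
      · have h1 : Mix_S 0 y = {y} := by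
          ext z
          rw [Mix_mem, Finset.mem_singleton]
          exact ⟨fun h => funext fun i => h i (Nat.zero_le _), fun h i _ => by rw [h]⟩
        rw [h1, Finset.sum_singleton]
        simp
      · simp
    | succ r ih =>
      intro hr
      have hr' : r < k := hr
      obtain ⟨mr, h1, h2, h3⟩ := ih hr'.le
      have hτ2 : ∀ y : Fin k → Bool,
          Function.update (Function.update y ⟨r, hr'⟩ (!(y ⟨r, hr'⟩))) ⟨r, hr'⟩
            (!(Function.update y ⟨r, hr'⟩ (!(y ⟨r, hr'⟩)) ⟨r, hr'⟩)) = y := by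
        intro y
        rw [Function.update_self, Bool.not_not, Function.update_idem, Function.update_eq_self]
      have hτ : ∀ y : Fin k → Bool, Function.update y ⟨r, hr'⟩ (!(y ⟨r, hr'⟩)) ≠ y := by
        intro y h
        have h4 := congrFun h ⟨r, hr'⟩
        rw [Function.update_self] at h4
        cases h5 : y ⟨r, hr'⟩ <;> rw [h5] at h4 <;> exact absurd h4 (by decide)
      obtain ⟨ms, g1, g2, g3⟩ := rnd H mr h1
        (fun y => Function.update y ⟨r, hr'⟩ (!(y ⟨r, hr'⟩))) hτ2 hτ SJ ψ hψ0 hψ1 n m ℓ Lm t ht hLm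
        hn hSJ hm (by rw [hcard]; exact hY) hℓ hq he
      refine ⟨ms, g1, fun j y => ?_, fun v => ?_⟩
      · have e1 := g2 j y
        have e2 := h2 j y
        have e3 := h2 j (Function.update y ⟨r, hr'⟩ (!(y ⟨r, hr'⟩)))
        rw [Mix_sum hr' y]
        refine e1.trans ?_
        have e4 : (∑ z ∈ Mix_S r y, Ph SJ ψ j (mm z) +
            ∑ z ∈ Mix_S r (Function.update y ⟨r, hr'⟩ (!(y ⟨r, hr'⟩))), Ph SJ ψ j (mm z)) /
              2 ^ (r + 1) =
            ((∑ z ∈ Mix_S r y, Ph SJ ψ j (mm z)) / 2 ^ r +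
              (∑ z ∈ Mix_S r (Function.update y ⟨r, hr'⟩ (!(y ⟨r, hr'⟩))), Ph SJ ψ j (mm z)) /
                2 ^ r) / 2 := by
          rw [pow_succ]
          field_simp
        rw [e4]
        push_cast
        linarith
      · have e1 := g3 v
        have e2 := h3 v
        rw [hcard] at e1
        push_cast at e1 ⊢
        linarith
  obtain ⟨mk, h1, h2, h3⟩ := key k le_rfl
  refine ⟨mk, h1, fun j y => ?_, h3⟩
  have h4 : Mix_S k y = univ := by
    ext z
    rw [Mix_mem]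
    exact ⟨fun _ => Finset.mem_univ _, fun _ i hi => absurd i.2 (not_lt.2 hi)⟩
  have h5 := h2 j y
  rw [h4] at h5
  exact h5

end Pool.Agent.H71.MA
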