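import Mathlib
import Pool.Agent.H71.MA.Defs
import Pool.Agent.H28.VAL

/-!
VIZ: Vizing's theorem gives `2 ^ k` matchings.

Proof.  `H28.vizing` (with `d := 2 ^ k - 1`, `(E.neighborSet v).ncard = dg E v ≤ d`; `2 ^ k ≥ 1`) gives a proper edge
colouring with `d + 1 = 2 ^ k` colours (definition `ECol` in `Pool/Agent/H28/VAL.lean` or its imports). Take a
bijection `Fin (2 ^ k) ≃ (Fin k → Bool)` (`Fintype.equivFinOfCardEq` / `Fintype.truncEquivOfCardEq`), so the colours are
`y : Fin k → Bool`. `mm y v := ` the neighbour `u` of `v` in `E` whose edge `s(v, u)` has the colour `y` if there is one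
(it is unique), and `v` otherwise. This is `MF`. For fixed `v` the number of `y` with `mm y v ≠ v` is the number
of neighbours of `v` (`y ↦ mm y v` is a bijection from `{y : mm y v ≠ v}` onto the neighbours, inverse
`u ↦ colour of s(v, u)`), so `#{y : mm y v = v} + dg E v = 2 ^ k`.
-/

set_option autoImplicit false

namespace Pool.Agent.H71.MA

open Finset Classical
open Pool.Agent.H71.DN

theorem viz {W : Type} [Fintype W] (E : SimpleGraph W) (k : ℕ) (hE : ∀ v, dg E v + 1 ≤ 2 ^ k) :
    ∃ mm : (Fin k → Bool) → W → W, MF E mm ∧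
      ∀ v, (univ.filter fun y => mm y v = v).card + dg E v = 2 ^ k := by
  have hdeg : ∀ v, (E.neighborSet v).ncard ≤ 2 ^ k - 1 := by
    intro v
    have h1 : (E.neighborSet v).ncard = dg E v := by
      unfold dg
      rw [← Set.ncard_coe_finset]
      congr 1
      ext u
      simp
    have h2 := hE v
    omega
  obtain ⟨c, hc1, hc2⟩ := Pool.Agent.H28.vizing hdeg
  have hpos : 0 < 2 ^ k := by positivity
  have hk1 : 2 ^ k - 1 + 1 = 2 ^ k := by omega
  rw [hk1] at hc1
  obtain ⟨e⟩ : Nonempty ((Fin k → Bool) ≃ Fin (2 ^ k)) :=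
    ⟨Fintype.equivFinOfCardEq (by simp)⟩
  let mm : (Fin k → Bool) → W → W := fun y v =>
    if h : ∃ u, E.Adj v u ∧ c s(v, u) = (e y : ℕ) then h.choose else v
  have hne : ∀ y v, mm y v ≠ v → E.Adj v (mm y v) ∧ c s(v, mm y v) = (e y : ℕ) := by
    intro y v h
    by_cases hex : ∃ u, E.Adj v u ∧ c s(v, u) = (e y : ℕ)
    · have h1 : mm y v = hex.choose := dif_pos hex
      rw [h1]
      exact hex.choose_spec
    · exact absurd (dif_neg hex : mm y v = v) h
  have heq : ∀ y v u, E.Adj v u → c s(v, u) = (e y : ℕ) → mm y v = u := by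
    intro y v u h1 h2
    have hex : ∃ u, E.Adj v u ∧ c s(v, u) = (e y : ℕ) := ⟨u, h1, h2⟩
    have h3 : mm y v = hex.choose := dif_pos hex
    by_contra h4
    obtain ⟨h5, h6⟩ := hex.choose_spec
    rw [h3] at h4
    exact hc2 v _ u h5 h1 h4 (h6.trans h2.symm)
  refine ⟨mm, ⟨?_, ?_, ?_⟩, ?_⟩
  · intro y v
    by_cases h : mm y v = v
    · rw [h, h]
    · obtain ⟨h1, h2⟩ := hne y v h
      apply heq y _ v h1.symm
      rw [Sym2.eq_swap]
      exact h2
  · intro y v h
    exact (hne y v h).1
  · intro y y' v hyy h h'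
    obtain ⟨h1, h2⟩ := hne y v h
    obtain ⟨h3, h4⟩ := hne y' v (by rw [← h']; exact h)
    rw [← h'] at h4
    exact hyy (e.injective (Fin.ext (h2.symm.trans h4)))
  · intro v
    have hcard : (univ.filter fun y => ¬ mm y v = v).card = dg E v := by
      unfold dg
      symm
      refine Finset.card_bij (fun u hu => e.symm ⟨c s(v, u), hc1 v u (by simpa using hu)⟩) ?_ ?_ ?_
      · intro u hu
        have hadj : E.Adj v u := by simpa using hu
        rw [Finset.mem_filter]
        refine ⟨Finset.mem_univ _, ?_⟩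
        rw [heq _ v u hadj (by rw [Equiv.apply_symm_apply])]
        exact hadj.ne'
      · intro u hu u' hu' h
        have hadj : E.Adj v u := by simpa using hu
        have hadj' : E.Adj v u' := by simpa using hu'
        have h1 := e.symm.injective h
        by_contra h2
        exact hc2 v u u' hadj hadj' h2 (congrArg Fin.val h1)
      · intro y hy
        rw [Finset.mem_filter] at hy
        obtain ⟨h1, h2⟩ := hne y v hy.2
        refine ⟨mm y v, by simpa using h1, ?_⟩
        rw [Equiv.symm_apply_eq]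
        exact Fin.ext h2
    rw [← hcard, Finset.card_filter_add_card_filter_not, Finset.card_univ]
    simp

end Pool.Agent.H71.MA
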