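import Mathlib
import Pool.Agent.H71.MA.Defs
import Pool.Agent.H71.MA.Mix
import Pool.Agent.H71.MA.Viz

/-!
GRP: the near-perfect matchings of one group `E`, with locally few uncovered vertices, avoiding the
blocked sets `Uy y`.

Proof.  Let `mm` be given by `viz E k`. Apply `mix` (`H := E`) with `n := Δ`, `m := Δ * (1 + 2 ^ k)` and the functionals
indexed by `J := W ⊕ W × (Fin k → Bool)`: `SJ (inl v) = SJ (inr (v, i)) := C.filter fun u => H.Adj v u` (at most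
`dg H v ≤ Δ` elements; `u` is in at most `Δ * (1 + 2 ^ k)` of them, since `H.Adj v u` for at most `Δ` vertices `v`),
`ψ (inl v) u w := if w = u then 1 else 0`, `ψ (inr (v, i)) u w := if w ≠ u ∧ w ∈ Uy i then 1 else 0`. We get `mm'`.
 (a) `#{u ∈ C : H.Adj v u, mm' y u = u} = Ph SJ ψ (inl v) (mm' y) ≤ (∑ z, Ph (inl v) (mm z)) / 2^k + k e1`
  (`e1 := Δ / Lm + 2 t`), and `∑ z, Ph (inl v) (mm z) = ∑_{u ∈ C, H.Adj v u} #{z : mm z u = u} ≤ Δ d0`
  (`#{z : mm z u = u} = 2^k - dg E u ≤ d0` for `u ∈ C`). So `≤ Δ d0 / 2^k + k e1`.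
 (b) `#{u ∈ C : H.Adj v u, mm' y u ≠ u, mm' y u ∈ Uy y} = Ph SJ ψ (inr (v, y)) (mm' y)
  ≤ (∑ z, Ph (inr (v, y)) (mm z)) / 2^k + k e1`, and `∑ z, Ph (inr (v, y)) (mm z) = ∑_{u} #{z : mm z u ≠ u, mm z u ∈ Uy y}
  ≤ ∑_u #{w ∈ Uy y : E.Adj u w} ≤ Δ d1` (`z ↦ mm z u` is injective on `{z : mm z u ≠ u}`). So `≤ Δ d1 / 2^k + k e1`.
`nn y v := if v ∈ Uy y ∨ mm' y v ∈ Uy y then v else mm' y v`. It is `MF E` (the condition is symmetric in the two ends
of the edge) and fixes `Uy y`. If `u ∉ Uy y` and `nn y u = u` then `mm' y u = u` or (`mm' y u ≠ u` and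
`mm' y u ∈ Uy y`). So (a) + (b) give the first bound; for the second
`#{y : v ∉ Uy y, nn y v = v} ≤ #{y : mm' y v = v} + #{y : mm' y v ≠ v, mm' y v ∈ Uy y}`, the first number is
`≤ #{y : mm y v = v} + k (2^k / Lm + t) ≤ d0 + k (2^k / Lm + t)` and the second is
`≤ #{w : E.Adj v w ∧ ∃ y, w ∈ Uy y}` (injectivity of `y ↦ mm' y v` on `{y : mm' y v ≠ v}`, from `MF.dis`).
-/

set_option autoImplicit false

namespace Pool.Agent.H71.MA

open Finset Classical
open Pool.Agent.H71.DN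

/-- the functionals -/
noncomputable def GrpPsi {W : Type} {k : ℕ} (Uy : (Fin k → Bool) → Finset W)
    (j : W × Option (Fin k → Bool)) (u w : W) : ℝ :=
  match j.2 with
  | none => if w = u then 1 else 0
  | some y => if w ≠ u ∧ w ∈ Uy y then 1 else 0

lemma GrpPsi_none {W : Type} {k : ℕ} (Uy : (Fin k → Bool) → Finset W) (v u w : W) :
    GrpPsi Uy (v, none) u w = if w = u then 1 else 0 := rfl

lemma GrpPsi_some {W : Type} {k : ℕ} (Uy : (Fin k → Bool) → Finset W) (v : W) (y : Fin k → Bool)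
    (u w : W) : GrpPsi Uy (v, some y) u w = if w ≠ u ∧ w ∈ Uy y then 1 else 0 := rfl

lemma GrpPsi_nonneg {W : Type} {k : ℕ} (Uy : (Fin k → Bool) → Finset W)
    (j : W × Option (Fin k → Bool)) (u w : W) : 0 ≤ GrpPsi Uy j u w := by
  obtain ⟨v, y⟩ := j
  cases y with
  | none =>
    rw [GrpPsi_none]
    split_ifs
    · exact zero_le_one
    · exact le_rfl
  | some y =>
    rw [GrpPsi_some]
    split_ifs
    · exact zero_le_one
    · exact le_rfl

lemma GrpPsi_le {W : Type} {k : ℕ} (Uy : (Fin k → Bool) → Finset W)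
    (j : W × Option (Fin k → Bool)) (u w : W) : GrpPsi Uy j u w ≤ 1 := by
  obtain ⟨v, y⟩ := j
  cases y with
  | none =>
    rw [GrpPsi_none]
    split_ifs
    · exact le_rfl
    · exact zero_le_one
  | some y =>
    rw [GrpPsi_some]
    split_ifs
    · exact le_rfl
    · exact zero_le_one

lemma Grp_cnt {W Y : Type} [Fintype Y] (S : Finset W) (P : Y → W → Prop)
    [∀ z u, Decidable (P z u)] (f : Y → W → ℝ) (hf : ∀ z u, f z u = if P z u then 1 else 0) :
    ∑ z : Y, ∑ u ∈ S, f z u = ∑ u ∈ S, ((univ.filter fun z => P z u).card : ℝ) := by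
  rw [Finset.sum_comm]
  apply Finset.sum_congr rfl
  intro u _
  rw [← Finset.sum_boole]
  exact Finset.sum_congr rfl (fun z _ => hf z u)

lemma Grp_one {W : Type} (S : Finset W) (P : W → Prop) [DecidablePred P] (f : W → ℝ)
    (hf : ∀ u, f u = if P u then 1 else 0) :
    ∑ u ∈ S, f u = ((S.filter fun u => P u).card : ℝ) := by
  rw [← Finset.sum_boole]
  exact Finset.sum_congr rfl (fun u _ => hf u)

lemma Grp_mem {α : Type} (s : Finset α) (P : α → Prop) (inst : DecidablePred P) (x : α) :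
    x ∈ @Finset.filter α P inst s ↔ x ∈ s ∧ P x := Finset.mem_filter

lemma Grp_inj {W Y : Type} {E : SimpleGraph W} {mm : Y → W → W} (h : MF E mm) (v : W)
    (S : Finset Y) (T : Finset W) (hS : ∀ y ∈ S, mm y v ≠ v) (hT : ∀ y ∈ S, mm y v ∈ T) :
    S.card ≤ T.card := by
  apply Finset.card_le_card_of_injOn (fun y => mm y v)
  · intro y hy
    exact hT y hy
  · intro y hy y' _ he
    by_contra hne
    exact h.dis y y' v hne (hS y hy) he

/-- the matchings without the edges that meet the blocked sets -/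
noncomputable def GrpN {W Y : Type} (Uy : Y → Finset W) (mm : Y → W → W) (y : Y) (v : W) : W :=
  if v ∈ Uy y ∨ mm y v ∈ Uy y then v else mm y v

lemma GrpN_pos {W Y : Type} {Uy : Y → Finset W} {mm : Y → W → W} {y : Y} {v : W}
    (h : v ∈ Uy y ∨ mm y v ∈ Uy y) : GrpN Uy mm y v = v := if_pos h

lemma GrpN_neg {W Y : Type} {Uy : Y → Finset W} {mm : Y → W → W} {y : Y} {v : W}
    (h : ¬ (v ∈ Uy y ∨ mm y v ∈ Uy y)) : GrpN Uy mm y v = mm y v := if_neg h

lemma GrpN_MF {W Y : Type} {E : SimpleGraph W} (Uy : Y → Finset W) {mm : Y → W → W}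
    (h : MF E mm) : MF E (GrpN Uy mm) := by
  refine ⟨fun y v => ?_, fun y v hv => ?_, fun y y' v hy hv => ?_⟩
  · by_cases hc : v ∈ Uy y ∨ mm y v ∈ Uy y
    · rw [GrpN_pos hc, GrpN_pos hc]
    · rw [GrpN_neg hc, GrpN_neg, h.inv]
      rw [h.inv]
      exact fun h' => hc h'.symm
  · by_cases hc : v ∈ Uy y ∨ mm y v ∈ Uy y
    · exact absurd (GrpN_pos hc) hv
    · rw [GrpN_neg hc] at hv ⊢
      exact h.adj y v hv
  · by_cases hc : v ∈ Uy y ∨ mm y v ∈ Uy y
    · exact absurd (GrpN_pos hc) hv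
    · by_cases hc' : v ∈ Uy y' ∨ mm y' v ∈ Uy y'
      · rw [GrpN_pos hc']
        exact hv
      · rw [GrpN_neg hc] at hv ⊢
        rw [GrpN_neg hc']
        exact h.dis y y' v hy hv

lemma GrpN_fix {W Y : Type} {Uy : Y → Finset W} {mm : Y → W → W} {y : Y} {v : W}
    (hv : v ∉ Uy y) (h : GrpN Uy mm y v = v) : mm y v = v ∨ (mm y v ≠ v ∧ mm y v ∈ Uy y) := by
  by_cases hc : v ∈ Uy y ∨ mm y v ∈ Uy y
  · by_cases h1 : mm y v = v
    · exact Or.inl h1
    · exact Or.inr ⟨h1, hc.resolve_left hv⟩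
  · rw [GrpN_neg hc] at h
    exact Or.inl h

theorem grp {W : Type} [Fintype W] (H E : SimpleGraph W) (hEH : E ≤ H) (C : Finset W) (Δ k : ℕ)
    (hΔ : ∀ v, dg H v ≤ Δ) (hE : ∀ v, dg E v + 1 ≤ 2 ^ k) (Uy : (Fin k → Bool) → Finset W)
    (d0 d1 : ℝ) (hd0 : ∀ v ∈ C, (2 : ℝ) ^ k ≤ dg E v + d0)
    (hd1 : ∀ y v, (((Uy y).filter fun u => E.Adj v u).card : ℝ) ≤ d1) (h00 : 0 ≤ d0)
    (ℓ Lm : ℕ) (t : ℝ) (ht : 0 < t) (hLm : 2 ≤ Lm) (hΔ1 : 1 ≤ Δ) (hk : 2 ^ k ≤ Δ) (hℓ : ℓ ≤ Δ)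
    (hq : 4 * Real.exp (-((ℓ : ℝ) / Lm)) *
      ((Δ : ℝ) * (2 * (2 * ℓ + 2) * (Δ * (1 + 2 ^ k) + 1) : ℕ) + 1) ≤ 1)
    (he : 8 * Real.exp (-(t ^ 2 / (2 * Δ * (2 * ℓ + 2 : ℝ) ^ 2))) *
      ((Δ : ℝ) * (2 * (2 * ℓ + 2) * (Δ * (1 + 2 ^ k) + 1) : ℕ) + 1) ≤ 1) :
    ∃ nn : (Fin k → Bool) → W → W, MF E nn ∧ (∀ y, ∀ v ∈ Uy y, nn y v = v) ∧
      (∀ y v, ((C.filter fun u => H.Adj v u ∧ u ∉ Uy y ∧ nn y u = u).card : ℝ) ≤
        (Δ : ℝ) * (d0 + d1) / 2 ^ k + 2 * (k * ((Δ : ℝ) / Lm + 2 * t))) ∧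
      ∀ v ∈ C, ((univ.filter fun y => v ∉ Uy y ∧ nn y v = v).card : ℝ) ≤
        d0 + k * ((2 : ℝ) ^ k / Lm + t) +
          ((univ.filter fun w => E.Adj v w ∧ ∃ y, w ∈ Uy y).card : ℝ) := by
  obtain ⟨mm, hmm, hviz⟩ := viz E k hE
  have hS : ∀ v, (C.filter fun u => H.Adj v u).card ≤ Δ := by
    intro v
    refine le_trans (Finset.card_le_card ?_) (hΔ v)
    intro u hu
    exact Finset.mem_filter.2 ⟨Finset.mem_univ _, (Finset.mem_filter.1 hu).2⟩
  have hm : ∀ v : W, (univ.filter fun j : W × Option (Fin k → Bool) =>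
      v ∈ C.filter fun u => H.Adj j.1 u).card ≤ Δ * (1 + 2 ^ k) := by
    intro v
    have h1 : (univ.filter fun j : W × Option (Fin k → Bool) =>
        v ∈ C.filter fun u => H.Adj j.1 u) ⊆
        (univ.filter fun u => H.Adj v u) ×ˢ (univ : Finset (Option (Fin k → Bool))) := by
      intro j hj
      have h2 := (Finset.mem_filter.1 (Finset.mem_filter.1 hj).2).2
      exact Finset.mem_product.2 ⟨Finset.mem_filter.2 ⟨Finset.mem_univ _, h2.symm⟩,
        Finset.mem_univ _⟩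
    refine (Finset.card_le_card h1).trans ?_
    rw [Finset.card_product, Finset.card_univ, Fintype.card_option, Fintype.card_fun,
      Fintype.card_bool, Fintype.card_fin, Nat.add_comm (2 ^ k) 1]
    exact Nat.mul_le_mul_right _ (hΔ v)
  obtain ⟨mm', hmf, hPh, hfix⟩ := mix E k mm hmm
    (fun j : W × Option (Fin k → Bool) => C.filter fun u => H.Adj j.1 u) (GrpPsi Uy)
    (GrpPsi_nonneg Uy) (GrpPsi_le Uy) Δ (Δ * (1 + 2 ^ k)) ℓ Lm t ht hLm hΔ1 (fun j => hS j.1) hm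
    hk hℓ hq he
  have h2k : (0 : ℝ) < 2 ^ k := by positivity
  have hA : ∀ y v, ((C.filter fun u => H.Adj v u ∧ mm' y u = u).card : ℝ) ≤
      (Δ : ℝ) * d0 / 2 ^ k + k * ((Δ : ℝ) / Lm + 2 * t) := by
    intro y v
    have h1 := hPh (v, none) y
    unfold Ph at h1
    rw [Grp_one _ (fun u => mm' y u = u) _ (fun u => GrpPsi_none Uy v u (mm' y u)),
      Finset.filter_filter,
      Grp_cnt _ (fun z u => mm z u = u) _ (fun z u => GrpPsi_none Uy v u (mm z u))] at h1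
    refine h1.trans (add_le_add ?_ le_rfl)
    apply div_le_div_of_nonneg_right _ h2k.le
    have h2 : ∑ u ∈ C.filter (fun u => H.Adj v u), ((univ.filter fun z => mm z u = u).card : ℝ) ≤
        ∑ u ∈ C.filter (fun u => H.Adj v u), d0 := by
      apply Finset.sum_le_sum
      intro u hu
      have h3 := hviz u
      have h4 := hd0 u (Finset.mem_filter.1 hu).1
      have h5 : ((univ.filter fun z => mm z u = u).card : ℝ) + dg E u = 2 ^ k := by
        exact_mod_cast h3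
      linarith
    refine h2.trans ?_
    rw [Finset.sum_const, nsmul_eq_mul]
    exact mul_le_mul_of_nonneg_right (by exact_mod_cast hS v) h00
  have hB : ∀ y v, ((C.filter fun u => H.Adj v u ∧ (mm' y u ≠ u ∧ mm' y u ∈ Uy y)).card : ℝ) ≤
      (Δ : ℝ) * d1 / 2 ^ k + k * ((Δ : ℝ) / Lm + 2 * t) := by
    intro y v
    have h1 := hPh (v, some y) y
    unfold Ph at h1
    rw [Grp_one _ (fun u => mm' y u ≠ u ∧ mm' y u ∈ Uy y) _ (fun u => by
        rw [GrpPsi_some]),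
      Finset.filter_filter,
      Grp_cnt _ (fun z u => mm z u ≠ u ∧ mm z u ∈ Uy y) _ (fun z u => by
        rw [GrpPsi_some])] at h1
    refine h1.trans (add_le_add ?_ le_rfl)
    apply div_le_div_of_nonneg_right _ h2k.le
    have h2 : ∑ u ∈ C.filter (fun u => H.Adj v u),
        ((univ.filter fun z => mm z u ≠ u ∧ mm z u ∈ Uy y).card : ℝ) ≤
        ∑ u ∈ C.filter (fun u => H.Adj v u), d1 := by
      apply Finset.sum_le_sum
      intro u _
      refine le_trans ?_ (hd1 y u)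
      refine Nat.cast_le.2 (Grp_inj hmm u _ _ ?_ ?_)
      · intro z hz
        exact ((Grp_mem _ _ _ _).1 hz).2.1
      · intro z hz
        have h3 := ((Grp_mem _ _ _ _).1 hz).2
        exact (Grp_mem _ _ _ _).2 ⟨h3.2, hmm.adj z u h3.1⟩
    refine h2.trans ?_
    rw [Finset.sum_const, nsmul_eq_mul]
    refine mul_le_mul_of_nonneg_right (by exact_mod_cast hS v) ?_
    exact (Nat.cast_nonneg _).trans (hd1 y v)
  refine ⟨GrpN Uy mm', GrpN_MF Uy hmf, fun y v hv => GrpN_pos (Or.inl hv), fun y v => ?_,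
    fun v hv => ?_⟩
  · have h1 : (C.filter fun u => H.Adj v u ∧ u ∉ Uy y ∧ GrpN Uy mm' y u = u) ⊆
        (C.filter fun u => H.Adj v u ∧ mm' y u = u) ∪
        (C.filter fun u => H.Adj v u ∧ (mm' y u ≠ u ∧ mm' y u ∈ Uy y)) := by
      intro u hu
      obtain ⟨hu1, hu2, hu3, hu4⟩ := Finset.mem_filter.1 hu
      rcases GrpN_fix hu3 hu4 with h | h
      · exact Finset.mem_union_left _ (Finset.mem_filter.2 ⟨hu1, hu2, h⟩)
      · exact Finset.mem_union_right _ (Finset.mem_filter.2 ⟨hu1, hu2, h⟩)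
    have h2 : ((C.filter fun u => H.Adj v u ∧ u ∉ Uy y ∧ GrpN Uy mm' y u = u).card : ℝ) ≤
        ((C.filter fun u => H.Adj v u ∧ mm' y u = u).card : ℝ) +
        ((C.filter fun u => H.Adj v u ∧ (mm' y u ≠ u ∧ mm' y u ∈ Uy y)).card : ℝ) := by
      exact_mod_cast (Finset.card_le_card h1).trans (Finset.card_union_le _ _)
    refine h2.trans ((add_le_add (hA y v) (hB y v)).trans (le_of_eq ?_))
    ring
  · have h1 : (univ.filter fun y => v ∉ Uy y ∧ GrpN Uy mm' y v = v) ⊆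
        (univ.filter fun y => mm' y v = v) ∪
        (univ.filter fun y => mm' y v ≠ v ∧ mm' y v ∈ Uy y) := by
      intro y hy
      obtain ⟨-, hy1, hy2⟩ := Finset.mem_filter.1 hy
      rcases GrpN_fix hy1 hy2 with h | h
      · exact Finset.mem_union_left _ (Finset.mem_filter.2 ⟨Finset.mem_univ _, h⟩)
      · exact Finset.mem_union_right _ (Finset.mem_filter.2 ⟨Finset.mem_univ _, h⟩)
    have h2 : ((univ.filter fun y => v ∉ Uy y ∧ GrpN Uy mm' y v = v).card : ℝ) ≤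
        ((univ.filter fun y => mm' y v = v).card : ℝ) +
        ((univ.filter fun y => mm' y v ≠ v ∧ mm' y v ∈ Uy y).card : ℝ) := by
      exact_mod_cast (Finset.card_le_card h1).trans (Finset.card_union_le _ _)
    have h3 := hfix v
    have h4 : ((univ.filter fun z => mm z v = v).card : ℝ) + dg E v = 2 ^ k := by
      exact_mod_cast hviz v
    have h5 := hd0 v hv
    have h6 : ((univ.filter fun y => mm' y v ≠ v ∧ mm' y v ∈ Uy y).card : ℝ) ≤
        ((univ.filter fun w => E.Adj v w ∧ ∃ y, w ∈ Uy y).card : ℝ) := by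
      refine Nat.cast_le.2 (Grp_inj hmf v _ _ ?_ ?_)
      · intro z hz
        exact ((Grp_mem _ _ _ _).1 hz).2.1
      · intro z hz
        have h7 := ((Grp_mem _ _ _ _).1 hz).2
        exact (Grp_mem _ _ _ _).2 ⟨Finset.mem_univ _, hmf.adj z v h7.1, z, h7.2⟩
    linarith

end Pool.Agent.H71.MA
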