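import Mathlib
import Pool.Agent.H71.MA.Defs
import Pool.Agent.H71.MA.Grp

/-!
NPM: near-perfect matchings `nn ℓ`, `ℓ < K * 2 ^ k`, of `H` minus the reservoir.

Proof.  Let `B = 2 ^ k`, `E j := cls H cl (r + j g) (r + (j+1) g)`, `R := cls H cl 0 r`. Fix a bijection
`β : (Fin k → Bool) ≃ Fin (2 ^ k)`. For `j < K` apply `grp` to `E j` and `Uy y := U (j B + β y)`, with `d0`, `d1`: `hd0`,
`hd1`, `hE` are given. It gives `nn_j`. For `ℓ < K B` let `j = ℓ / B < K`, `nn ℓ := nn_j (β.symm ⟨ℓ % B, _⟩)`; for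
`ℓ ≥ K B` let `nn ℓ := id`. Then `PM (H \ R) (K B) U nn`:
 `inv`, `fix` clear (`U (j B + ℓ % B) = U ℓ`); `adj`: `E j ≤ H`, and an edge of `E j` has class `≥ r`, so it is not in
 `R`. `dis`: `ℓ ≠ ℓ'`; if `ℓ / B = ℓ' / B` then the `y`'s differ: `MF.dis`; if `j ≠ j'` and
 `nn ℓ v = nn ℓ' v = u ≠ v` then the edge `s(v, u)` has its class in both `[r + j g, r + (j+1) g)` and
 `[r + j' g, r + (j'+1) g)`, which are disjoint for `j ≠ j'` (`Nat.mul_le_mul_right`; say `j + 1 ≤ j'`).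
 First bound: that of `grp` (`e1` given by `he1`). Second bound: `∑_{j < K}` of the bounds of `grp` for `v ∈ C`
 (the labels `ℓ < K B` with `ℓ / B = j` correspond to the `y`):
 `≤ K (d0 + k (2^k / Lm + t)) + ∑_{j < K} #{w : (E j).Adj v w ∧ ∃ y, w ∈ U (j B + β y)}`; for different `j` the sets
 of `w` are disjoint (an edge has only one class), their union is contained in the set counted in `h5`
 (`∃ j < K, (E j).Adj v w ∧ ∃ ℓ, j B ≤ ℓ < (j+1) B ∧ w ∈ U ℓ`), so the sum is at most `d2`.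
-/

set_option autoImplicit false

namespace Pool.Agent.H71.MA

open Finset Classical
open Pool.Agent.H71.DN

theorem npm {W : Type} [Fintype W] (H : SimpleGraph W) (C : Finset W) (Δ k r g K : ℕ)
    (hΔ : ∀ v, dg H v ≤ Δ) (U : ℕ → Finset W) (cl : Sym2 W → ℕ)
    (hE : ∀ j < K, ∀ v, dg (cls H cl (r + j * g) (r + (j + 1) * g)) v + 1 ≤ 2 ^ k)
    (d0 d1 d2 e1 : ℝ)
    (hd0 : ∀ j < K, ∀ v ∈ C, (2 : ℝ) ^ k ≤ dg (cls H cl (r + j * g) (r + (j + 1) * g)) v + d0)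
    (hd1 : ∀ j < K, ∀ ℓ < K * 2 ^ k, ∀ v,
      (((U ℓ).filter fun u => (cls H cl (r + j * g) (r + (j + 1) * g)).Adj v u).card : ℝ) ≤ d1)
    (hd2 : ∀ v, ((univ.filter fun u => ∃ j < K,
      (cls H cl (r + j * g) (r + (j + 1) * g)).Adj v u ∧
        ∃ ℓ, j * 2 ^ k ≤ ℓ ∧ ℓ < (j + 1) * 2 ^ k ∧ u ∈ U ℓ).card : ℝ) ≤ d2)
    (ℓ0 Lm : ℕ) (t : ℝ) (ht : 0 < t) (hLm : 2 ≤ Lm) (hΔ1 : 1 ≤ Δ) (hk : 2 ^ k ≤ Δ) (hℓ : ℓ0 ≤ Δ)
    (hq : 4 * Real.exp (-((ℓ0 : ℝ) / Lm)) *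
      ((Δ : ℝ) * (2 * (2 * ℓ0 + 2) * (Δ * (1 + 2 ^ k) + 1) : ℕ) + 1) ≤ 1)
    (he : 8 * Real.exp (-(t ^ 2 / (2 * Δ * (2 * ℓ0 + 2 : ℝ) ^ 2))) *
      ((Δ : ℝ) * (2 * (2 * ℓ0 + 2) * (Δ * (1 + 2 ^ k) + 1) : ℕ) + 1) ≤ 1)
    (he1 : (Δ : ℝ) * (d0 + d1) / 2 ^ k + 2 * (k * ((Δ : ℝ) / Lm + 2 * t)) ≤ e1)
    (he2 : K * (d0 + k * ((2 : ℝ) ^ k / Lm + t)) + d2 ≤ e1) (h00 : 0 ≤ d0) :
    ∃ nn : ℕ → W → W, PM (H \ cls H cl 0 r) (K * 2 ^ k) U nn ∧
      (∀ ℓ < K * 2 ^ k, ∀ v,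
        ((C.filter fun u => H.Adj v u ∧ u ∉ U ℓ ∧ nn ℓ u = u).card : ℝ) ≤ e1) ∧
      ∀ v ∈ C, (((range (K * 2 ^ k)).filter fun ℓ => v ∉ U ℓ ∧ nn ℓ v = v).card : ℝ) ≤ e1 := by
  have hB : 0 < 2 ^ k := Nat.two_pow_pos k
  have hcard : Fintype.card (Fin k → Bool) = 2 ^ k := by simp
  obtain β := Fintype.equivFinOfCardEq hcard
  have key : ∀ j, ∃ nn : (Fin k → Bool) → W → W, j < K →
      (MF (cls H cl (r + j * g) (r + (j + 1) * g)) nn ∧
      (∀ y, ∀ v ∈ U (j * 2 ^ k + (β y : ℕ)), nn y v = v) ∧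
      (∀ y v, ((C.filter fun u => H.Adj v u ∧ u ∉ U (j * 2 ^ k + (β y : ℕ)) ∧ nn y u = u).card : ℝ) ≤
        (Δ : ℝ) * (d0 + d1) / 2 ^ k + 2 * (k * ((Δ : ℝ) / Lm + 2 * t))) ∧
      ∀ v ∈ C, ((univ.filter fun y => v ∉ U (j * 2 ^ k + (β y : ℕ)) ∧ nn y v = v).card : ℝ) ≤
        d0 + k * ((2 : ℝ) ^ k / Lm + t) +
          ((univ.filter fun w => (cls H cl (r + j * g) (r + (j + 1) * g)).Adj v w ∧
            ∃ y, w ∈ U (j * 2 ^ k + (β y : ℕ))).card : ℝ)) := by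
    intro j
    by_cases hj : j < K
    · have hlt : ∀ y : Fin k → Bool, j * 2 ^ k + (β y : ℕ) < K * 2 ^ k := by
        intro y
        have h1 : (β y : ℕ) < 2 ^ k := (β y).2
        have h2 : (j + 1) * 2 ^ k ≤ K * 2 ^ k := Nat.mul_le_mul_right _ hj
        rw [Nat.add_mul, Nat.one_mul] at h2
        omega
      obtain ⟨nn, h1, h2, h3, h4⟩ := grp H (cls H cl (r + j * g) (r + (j + 1) * g))
        (fun a b h => h.1) C Δ k hΔ (hE j hj) (fun y => U (j * 2 ^ k + (β y : ℕ))) d0 d1 (hd0 j hj)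
        (fun y v => hd1 j hj _ (hlt y) v) h00 ℓ0 Lm t ht hLm hΔ1 hk hℓ hq he
      exact ⟨nn, fun _ => ⟨h1, h2, h3, h4⟩⟩
    · exact ⟨fun _ v => v, fun h => absurd h hj⟩
  choose nj hnj using key
  set yy : ℕ → (Fin k → Bool) := fun ℓ => β.symm ⟨ℓ % 2 ^ k, Nat.mod_lt _ hB⟩ with hyy
  have hβ : ∀ ℓ, ((β (yy ℓ) : Fin (2 ^ k)) : ℕ) = ℓ % 2 ^ k := by
    intro ℓ
    rw [hyy]
    simp only [Equiv.apply_symm_apply]
  have hidx : ∀ ℓ, ℓ / 2 ^ k * 2 ^ k + ((β (yy ℓ) : Fin (2 ^ k)) : ℕ) = ℓ := by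
    intro ℓ
    rw [hβ]
    exact Nat.div_add_mod' ℓ (2 ^ k)
  have hdiv : ∀ ℓ < K * 2 ^ k, ℓ / 2 ^ k < K := by
    intro ℓ hl
    exact Nat.div_lt_of_lt_mul (by rw [mul_comm]; exact hl)
  -- disjointness of the classes
  have hcls : ∀ j j', j < j' → ∀ a b, (cls H cl (r + j * g) (r + (j + 1) * g)).Adj a b →
      ¬ (cls H cl (r + j' * g) (r + (j' + 1) * g)).Adj a b := by
    intro j j' hjj a b h h'
    have h1 : cl s(a, b) < r + (j + 1) * g := h.2.2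
    have h2 : r + j' * g ≤ cl s(a, b) := h'.2.1
    have h3 : (j + 1) * g ≤ j' * g := Nat.mul_le_mul_right g hjj
    omega
  have hcls' : ∀ j j', j ≠ j' → ∀ a b, (cls H cl (r + j * g) (r + (j + 1) * g)).Adj a b →
      ¬ (cls H cl (r + j' * g) (r + (j' + 1) * g)).Adj a b := by
    intro j j' hjj a b h h'
    rcases Nat.lt_or_gt_of_ne hjj with h1 | h1
    · exact hcls j j' h1 a b h h'
    · exact hcls j' j h1 a b h' h
  set nn : ℕ → W → W := fun ℓ => nj (ℓ / 2 ^ k) (yy ℓ) with hnn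
  refine ⟨nn, ⟨?_, ?_, ?_, ?_⟩, ?_, ?_⟩
  · intro ℓ hl v
    exact (hnj _ (hdiv ℓ hl)).1.inv (yy ℓ) v
  · intro ℓ hl v hv
    have h1 := (hnj _ (hdiv ℓ hl)).1.adj (yy ℓ) v hv
    refine ⟨h1.1, fun h2 => ?_⟩
    have h3 : r + ℓ / 2 ^ k * g ≤ cl s(v, nn ℓ v) := h1.2.1
    have h4 : cl s(v, nn ℓ v) < r := h2.2.2
    omega
  · intro ℓ hl ℓ' hl' hne v hv heq
    by_cases hjj : ℓ / 2 ^ k = ℓ' / 2 ^ k
    · have hy : yy ℓ ≠ yy ℓ' := by
        intro h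
        apply hne
        rw [← hidx ℓ, ← hidx ℓ', hjj, h]
      have h1 := (hnj _ (hdiv ℓ hl)).1.dis (yy ℓ) (yy ℓ') v hy hv
      apply h1
      change nj (ℓ / 2 ^ k) (yy ℓ) v = nj (ℓ' / 2 ^ k) (yy ℓ') v at heq
      rw [heq, hjj]
    · have h1 := (hnj _ (hdiv ℓ hl)).1.adj (yy ℓ) v hv
      have hv' : nj (ℓ' / 2 ^ k) (yy ℓ') v ≠ v := by
        change nn ℓ' v ≠ v
        rw [← heq]
        exact hv
      have h2 := (hnj _ (hdiv ℓ' hl')).1.adj (yy ℓ') v hv'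
      apply hcls' _ _ hjj v _ h1
      change (cls H cl (r + ℓ' / 2 ^ k * g) (r + (ℓ' / 2 ^ k + 1) * g)).Adj v (nn ℓ v)
      rw [heq]
      exact h2
  · intro ℓ hl v hv
    apply (hnj _ (hdiv ℓ hl)).2.1 (yy ℓ) v
    rw [hidx]
    exact hv
  · intro ℓ hl v
    have h1 := (hnj _ (hdiv ℓ hl)).2.2.1 (yy ℓ) v
    rw [hidx] at h1
    exact h1.trans he1
  · intro v hv
    have h1 : ((range (K * 2 ^ k)).filter fun ℓ => v ∉ U ℓ ∧ nn ℓ v = v).card ≤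
        ∑ j ∈ range K, (univ.filter fun y => v ∉ U (j * 2 ^ k + (β y : ℕ)) ∧ nj j y v = v).card := by
      rw [Finset.card_eq_sum_card_fiberwise (f := fun ℓ => ℓ / 2 ^ k) (t := range K)]
      · refine Finset.sum_le_sum fun j _ => ?_
        refine Finset.card_le_card_of_injOn yy ?_ ?_
        · intro ℓ hl
          simp only [Finset.coe_filter, Finset.mem_filter, Finset.mem_range, Set.mem_setOf_eq] at hl
          simp only [Finset.coe_filter, Finset.mem_univ, true_and, Set.mem_setOf_eq]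
          obtain ⟨⟨h1, h2, h3⟩, h4⟩ := hl
          rw [← h4, hidx]
          exact ⟨h2, h3⟩
        · intro ℓ hl ℓ' hl' h
          simp only [Finset.coe_filter, Finset.mem_filter, Finset.mem_range, Set.mem_setOf_eq] at hl hl'
          rw [← hidx ℓ, ← hidx ℓ', hl.2, hl'.2, h]
      · intro ℓ hl
        simp only [Finset.coe_filter, Finset.mem_range, Set.mem_setOf_eq] at hl
        simp only [Finset.coe_range, Set.mem_Iio]
        exact hdiv ℓ hl.1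
    have h2 : ((∑ j ∈ range K, (univ.filter fun y => v ∉ U (j * 2 ^ k + (β y : ℕ)) ∧
        nj j y v = v).card : ℕ) : ℝ) ≤ ∑ j ∈ range K, (d0 + k * ((2 : ℝ) ^ k / Lm + t) +
          ((univ.filter fun w => (cls H cl (r + j * g) (r + (j + 1) * g)).Adj v w ∧
            ∃ y, w ∈ U (j * 2 ^ k + (β y : ℕ))).card : ℝ)) := by
      rw [Nat.cast_sum]
      exact Finset.sum_le_sum fun j hj => (hnj j (Finset.mem_range.1 hj)).2.2.2 v hv
    have h3 : ∑ j ∈ range K, (univ.filter fun w => (cls H cl (r + j * g) (r + (j + 1) * g)).Adj v w ∧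
            ∃ y, w ∈ U (j * 2 ^ k + (β y : ℕ))).card ≤ (univ.filter fun u => ∃ j < K,
      (cls H cl (r + j * g) (r + (j + 1) * g)).Adj v u ∧
        ∃ ℓ, j * 2 ^ k ≤ ℓ ∧ ℓ < (j + 1) * 2 ^ k ∧ u ∈ U ℓ).card := by
      rw [← Finset.card_biUnion]
      · apply Finset.card_le_card
        intro u hu
        rw [Finset.mem_biUnion] at hu
        obtain ⟨j, hj, hu⟩ := hu
        rw [Finset.mem_filter] at hu
        obtain ⟨_, hadj, y, hy⟩ := hu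
        rw [Finset.mem_filter]
        refine ⟨Finset.mem_univ _, j, Finset.mem_range.1 hj, hadj, j * 2 ^ k + (β y : ℕ),
          Nat.le_add_right _ _, ?_, hy⟩
        have h1 : (β y : ℕ) < 2 ^ k := (β y).2
        rw [Nat.add_mul, Nat.one_mul]
        omega
      · intro j _ j' _ hne
        rw [Function.onFun, Finset.disjoint_left]
        intro u hu hu'
        rw [Finset.mem_filter] at hu hu'
        exact hcls' j j' hne v u hu.2.1 hu'.2.1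
    have h4 := hd2 v
    have h5 : ((∑ j ∈ range K, (univ.filter fun w =>
        (cls H cl (r + j * g) (r + (j + 1) * g)).Adj v w ∧
            ∃ y, w ∈ U (j * 2 ^ k + (β y : ℕ))).card : ℕ) : ℝ) ≤ d2 :=
      le_trans (by exact_mod_cast h3) h4
    rw [Nat.cast_sum] at h5
    rw [Finset.sum_add_distrib, Finset.sum_const, Finset.card_range, nsmul_eq_mul] at h2
    have h6 : (((range (K * 2 ^ k)).filter fun ℓ => v ∉ U ℓ ∧ nn ℓ v = v).card : ℝ) ≤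
        ((∑ j ∈ range K, (univ.filter fun y => v ∉ U (j * 2 ^ k + (β y : ℕ)) ∧
          nj j y v = v).card : ℕ) : ℝ) := by exact_mod_cast h1
    linarith

end Pool.Agent.H71.MA
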