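import Mathlib
import Pool.Agent.H71.MA.Defs

/-!
ORI: Hakimi's theorem. If every set `S` of vertices spans at most `k #S` edges then the edges can be
oriented (each edge is given to one of its ends) so that every vertex gets at most `k` edges.

Proof.  Hall's theorem (`Finset.all_card_le_biUnion_card_iff_exists_injective`) for the index type
`ι := {e : Sym2 V // e ∈ G.edgeSet}` and `t e := {(v, j) : V × Fin k | v ∈ e}`. Hall's condition: for a finset
`s` of edges let `S := {v : ∃ e ∈ s, v ∈ e.1}`. `s.biUnion t = S ×ˢ univ` has `k #S` elements. The map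
`(e, orientation)`: every `e = s(a, b) ∈ s` gives the two pairs `(a, b) ≠ (b, a)` in
`(S ×ˢ S).filter (G.Adj)`, different edges give different pairs, so `2 #s ≤ ee G S S ≤ 2 (k #S)`
(for instance: `s` is the image of a subset of the pairs under `Sym2.mk`, each fibre over `e ∈ s` having
exactly 2 elements: `Finset.card_eq_sum_card_fiberwise`).
So there is an injective `φ : ι → V × Fin k` with `(φ e).1 ∈ e`. `A v := {u : ∃ h : G.Adj v u, (φ ⟨s(v, u), _⟩).1 = v}`:
`u ↦ (φ s(v, u)).2` is injective on `A v` (`φ` is injective and `s(v, u)` determines `u`), so `#(A v) ≤ k`.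
For `G.Adj u v` the vertex `(φ s(u, v)).1` is `u` (then `v ∈ A u`) or `v` (then `u ∈ A v`).
-/

set_option autoImplicit false

namespace Pool.Agent.H71.MA

open Finset Classical
open Pool.Agent.H71.DN

theorem Ori_count {V : Type} [Fintype V] (G : SimpleGraph V)
    (s : Finset {e : Sym2 V // e ∈ G.edgeSet}) :
    2 * s.card ≤ ee G (univ.filter fun v => ∃ e ∈ s, v ∈ e.1)
      (univ.filter fun v => ∃ e ∈ s, v ∈ e.1) := by
  have hout : ∀ e : {e : Sym2 V // e ∈ G.edgeSet}, ∃ a b : V, s(a, b) = e.1 ∧ G.Adj a b := by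
    rintro ⟨e, he⟩
    induction e using Sym2.ind with
    | _ a b => exact ⟨a, b, rfl, he⟩
  choose a b hab hadj using hout
  have h2 : 2 * s.card = (s ×ˢ (univ : Finset Bool)).card := by
    rw [card_product, card_univ, Fintype.card_bool, mul_comm]
  rw [h2]
  unfold ee
  refine card_le_card_of_injOn (fun x => if x.2 then (a x.1, b x.1) else (b x.1, a x.1)) ?_ ?_
  · rintro ⟨e, c⟩ hx
    have he : e ∈ s := (mem_product.1 (mem_coe.1 hx)).1
    have ha : a e ∈ e.1 := by rw [← hab e]; exact Sym2.mem_mk_left _ _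
    have hb : b e ∈ e.1 := by rw [← hab e]; exact Sym2.mem_mk_right _ _
    cases c with
    | true =>
      simp only [if_true, coe_filter, mem_product, mem_filter, mem_univ, true_and,
        Set.mem_ofPred_eq]
      exact ⟨⟨⟨e, he, ha⟩, ⟨e, he, hb⟩⟩, hadj e⟩
    | false =>
      simp only [Bool.false_eq_true, if_false, coe_filter, mem_product, mem_filter, mem_univ,
        true_and, Set.mem_ofPred_eq]
      exact ⟨⟨⟨e, he, hb⟩, ⟨e, he, ha⟩⟩, (hadj e).symm⟩
  · rintro ⟨e, c⟩ _ ⟨e', c'⟩ _ h
    have key : ∀ (e : {e : Sym2 V // e ∈ G.edgeSet}) (c : Bool),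
        (fun x : V × V => s(x.1, x.2)) (if c then (a e, b e) else (b e, a e)) = e.1 := by
      intro e c
      cases c with
      | true => exact hab e
      | false =>
        rw [← hab e]
        exact Sym2.eq_swap
    have h1 : e = e' := by
      apply Subtype.ext
      rw [← key e c, ← key e' c']
      exact congrArg (fun x : V × V => s(x.1, x.2)) h
    subst h1
    have hne : a e ≠ b e := (hadj e).ne
    cases c with
    | true =>
      cases c' with
      | true => rfl
      | false => exact absurd (congrArg Prod.fst h) hne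
    | false =>
      cases c' with
      | true => exact absurd (congrArg Prod.fst h).symm hne
      | false => rfl

theorem ori {V : Type} [Fintype V] (G : SimpleGraph V) (k : ℕ)
    (h : ∀ S : Finset V, ee G S S ≤ 2 * (k * S.card)) :
    ∃ A : V → Finset V, (∀ v, (A v).card ≤ k) ∧ (∀ v, ∀ u ∈ A v, G.Adj v u) ∧
      ∀ u v, G.Adj u v → v ∈ A u ∨ u ∈ A v := by
  have hall : ∃ φ : {e : Sym2 V // e ∈ G.edgeSet} → V × Fin k, Function.Injective φ ∧
      ∀ e, φ e ∈ univ.filter fun x : V × Fin k => x.1 ∈ e.1 := by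
    rw [← all_card_le_biUnion_card_iff_exists_injective]
    intro s
    have h1 := Ori_count G s
    have h2 := h (univ.filter fun v => ∃ e ∈ s, v ∈ e.1)
    have h3 : (s.biUnion fun e => univ.filter fun x : V × Fin k => x.1 ∈ e.1) =
        (univ.filter fun v => ∃ e ∈ s, v ∈ e.1) ×ˢ (univ : Finset (Fin k)) := by
      ext x
      simp only [mem_biUnion, mem_filter, mem_univ, true_and, mem_product, and_true]
    rw [h3, card_product, card_univ, Fintype.card_fin, mul_comm]
    exact Nat.le_of_mul_le_mul_left (h1.trans h2) two_pos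
  obtain ⟨φ, hφ, hmem⟩ := hall
  have hmem' : ∀ e, (φ e).1 ∈ e.1 := fun e => (mem_filter.1 (hmem e)).2
  refine ⟨fun v => univ.filter fun u => ∃ h : G.Adj v u, (φ ⟨s(v, u), h⟩).1 = v,
    fun v => ?_, fun v u hu => ?_, fun u v huv => ?_⟩
  · have hch : ∀ u : {u // u ∈ univ.filter fun u => ∃ h : G.Adj v u, (φ ⟨s(v, u), h⟩).1 = v},
        ∃ h : G.Adj v u.1, (φ ⟨s(v, u.1), h⟩).1 = v := fun u => (mem_filter.1 u.2).2
    choose ad had using hch
    have hinj : Function.Injective fun u : {u // u ∈ univ.filter fun u =>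
        ∃ h : G.Adj v u, (φ ⟨s(v, u), h⟩).1 = v} => (φ ⟨s(v, u.1), ad u⟩).2 := by
      intro u u' huu
      have h1 : φ ⟨s(v, u.1), ad u⟩ = φ ⟨s(v, u'.1), ad u'⟩ :=
        Prod.ext ((had u).trans (had u').symm) huu
      have h2 := congrArg Subtype.val (hφ h1)
      exact Subtype.ext (Sym2.congr_right.1 h2)
    have h4 := Fintype.card_le_of_injective _ hinj
    rwa [Fintype.card_coe, Fintype.card_fin] at h4
  · exact (mem_filter.1 hu).2.choose
  · rcases Sym2.mem_iff.1 (hmem' ⟨s(u, v), huv⟩) with h1 | h1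
    · exact Or.inl (mem_filter.2 ⟨mem_univ _, huv, h1⟩)
    · refine Or.inr (mem_filter.2 ⟨mem_univ _, huv.symm, ?_⟩)
      have h2 : (⟨s(v, u), huv.symm⟩ : {e : Sym2 V // e ∈ G.edgeSet}) = ⟨s(u, v), huv⟩ :=
        Subtype.ext Sym2.eq_swap
      rw [h2]
      exact h1

end Pool.Agent.H71.MA
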