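import Mathlib
import Pool.Agent.H71.MA.Defs
import Pool.Agent.H71.MA.Blk

/-!
PRC: all blocks: `K` blocks of `B` labels.

Proof.  By induction on `j ≤ K`: there is `mm` with `St H R C U nn (j * B) mm` and for all `v`
 `us R mm (j * B) v ≤ j * (B / Ld + t) + #{x ∈ range (j * B) : v ∉ U x, nn x v = v}`.
`j = 0`: `mm := fun _ => id`; `St` for `0` is trivial, `us = 0`. Step: `blk` with `x0 := j * B`, `b := B`
(`(j + 1) * B ≤ K * B`), `u0 := K * (B / Ld + t) + e1` (for `v ∈ C` the induction hypothesis and `hB2` give `hu`);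
`range ((j+1) B)` is the disjoint union of `range (j B)` and `Ico (j B) (j B + B)`. Take `j = K`.
-/

set_option autoImplicit false

namespace Pool.Agent.H71.MA

open Finset Classical
open Pool.Agent.H71.DN

private theorem Prc_card (p : ℕ → Prop) [DecidablePred p] (a b : ℕ) :
    ((range a).filter p).card + ((Finset.Ico a (a + b)).filter p).card ≤
      ((range (a + b)).filter p).card := by
  have hdis : Disjoint ((range a).filter p) ((Finset.Ico a (a + b)).filter p) := by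
    rw [Finset.disjoint_left]
    intro x h1 h2
    have h3 := Finset.mem_range.1 (Finset.mem_filter.1 h1).1
    have h4 := (Finset.mem_Ico.1 (Finset.mem_filter.1 h2).1).1
    omega
  rw [← Finset.card_union_of_disjoint hdis]
  apply Finset.card_le_card
  intro x hx
  rw [Finset.mem_union, Finset.mem_filter, Finset.mem_filter, Finset.mem_range,
    Finset.mem_Ico] at hx
  rw [Finset.mem_filter, Finset.mem_range]
  rcases hx with hx | hx
  · exact ⟨by omega, hx.2⟩
  · exact ⟨hx.1.2, hx.2⟩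

theorem prc {W : Type} [Fintype W] (H R : SimpleGraph W) (hRH : R ≤ H) (C : Finset W) (Δ K B : ℕ)
    (hΔ : ∀ v, dg H v ≤ Δ) (hL : ∀ v, v ∉ C → dg H v ≤ 1)
    (U : ℕ → Finset W) (hUC : ∀ ℓ, U ℓ ⊆ C) (nn : ℕ → W → W) (hPM : PM (H \ R) (K * B) U nn)
    (A : W → Finset W) (hA1 : ∀ v, ∀ u ∈ A v, H.Adj v u) (hAC : ∀ v, A v ⊆ C)
    (hA2 : ∀ u v, H.Adj u v → v ∈ A u ∨ u ∈ A v)
    (r Ld : ℕ) (t e1 a0 D γ : ℝ) (hLd : 1 ≤ Ld) (hΔ1 : 1 ≤ Δ) (ht : 0 < t) (hBΔ : B ≤ Δ)
    (he : 8 * Real.exp (-(t ^ 2 / (8 * Δ))) * ((Δ : ℝ) * (2 + 2 * (3 * Δ) : ℕ) + 1) ≤ 1)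
    (hR1 : ∀ v ∈ C, (r : ℝ) - t ≤ dg R v) (hR2 : ∀ v, (dg R v : ℝ) ≤ r + t)
    (hR3 : ∀ v, (((A v).filter fun u => R.Adj v u).card : ℝ) ≤ a0)
    (hU1 : ∀ ℓ v, (((U ℓ).filter fun u => H.Adj v u).card : ℝ) ≤ e1)
    (hB1 : ∀ ℓ < K * B, ∀ v,
      ((C.filter fun u => H.Adj v u ∧ u ∉ U ℓ ∧ nn ℓ u = u).card : ℝ) ≤ e1)
    (hB2 : ∀ v ∈ C, (((range (K * B)).filter fun ℓ => v ∉ U ℓ ∧ nn ℓ v = v).card : ℝ) ≤ e1)
    (hγ : 0 < γ) (hγ1 : γ ≤ 1) (hD : 100 ≤ γ ^ 2 * D)
    (hN1 : (1 - γ / 10) * D ≤ (r - t - (K * ((B : ℝ) / Ld + t) + e1) - 2 * e1) / Ld - t -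
      ((B : ℝ) / Ld + t + e1))
    (hN2 : ((r : ℝ) + t) / Ld + t + e1 ≤ (1 + γ / 10) * D)
    (hN3 : a0 / Ld + t + e1 ≤ (1 - γ) * D / 2) :
    ∃ mm : ℕ → W → W, St H R C U nn (K * B) mm := by
  have hq0 : 0 ≤ (B : ℝ) / Ld + t := by positivity
  have key : ∀ j : ℕ, j ≤ K → ∃ mm : ℕ → W → W, St H R C U nn (j * B) mm ∧
      ∀ v, (us R mm (j * B) v : ℝ) ≤ j * ((B : ℝ) / Ld + t) +
        (((range (j * B)).filter fun x => v ∉ U x ∧ nn x v = v).card : ℝ) := by
    intro j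
    induction j with
    | zero =>
      intro _
      refine ⟨fun _ => id, ?_, fun v => ?_⟩
      · rw [zero_mul]
        exact ⟨⟨fun ℓ hℓ => absurd hℓ (Nat.not_lt_zero ℓ), fun ℓ hℓ => absurd hℓ (Nat.not_lt_zero ℓ),
          fun ℓ hℓ => absurd hℓ (Nat.not_lt_zero ℓ), fun ℓ hℓ => absurd hℓ (Nat.not_lt_zero ℓ)⟩,
          fun ℓ hℓ => absurd hℓ (Nat.not_lt_zero ℓ), fun ℓ hℓ => absurd hℓ (Nat.not_lt_zero ℓ)⟩
      · have h1 : us R (fun _ => id) (0 * B) v = 0 := by
          unfold us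
          rw [zero_mul, Finset.range_zero, Finset.filter_empty, Finset.card_empty]
        rw [h1]
        push_cast
        rw [zero_mul, zero_add]
        exact Nat.cast_nonneg _
    | succ j ih =>
      intro hj
      obtain ⟨mm, hSt, hus⟩ := ih (by omega)
      have hb : j * B + B ≤ K * B := by
        have h1 := Nat.mul_le_mul_right B hj
        rw [Nat.succ_mul] at h1
        exact h1
      have hu : ∀ v ∈ C, (us R mm (j * B) v : ℝ) ≤ K * ((B : ℝ) / Ld + t) + e1 := by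
        intro v hv
        refine (hus v).trans (add_le_add ?_ ?_)
        · have h1 : (j : ℝ) ≤ K := by
            have h2 : j ≤ K := by omega
            exact_mod_cast h2
          exact mul_le_mul_of_nonneg_right h1 hq0
        · refine le_trans ?_ (hB2 v hv)
          have h1 : ((range (j * B)).filter fun x => v ∉ U x ∧ nn x v = v).card ≤
              ((range (K * B)).filter fun ℓ => v ∉ U ℓ ∧ nn ℓ v = v).card := by
            apply Finset.card_le_card
            intro x hx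
            rw [Finset.mem_filter, Finset.mem_range] at hx ⊢
            exact ⟨by omega, hx.2⟩
          exact_mod_cast h1
      obtain ⟨mm', h1, h2⟩ := blk H R hRH C Δ (K * B) hΔ hL U hUC nn hPM A hA1 hAC hA2 r Ld B (j * B)
        t e1 a0 (K * ((B : ℝ) / Ld + t) + e1) D γ hLd hΔ1 ht hb hBΔ he hR1 hR2 hR3 hU1 hB1 hB2 hγ hγ1
        hD hN1 hN2 hN3 mm hSt hu
      refine ⟨mm', ?_, fun v => ?_⟩
      · rw [Nat.succ_mul]
        exact h1
      · rw [Nat.succ_mul]
        have h3 := h2 v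
        have h4 := hus v
        have h5 : ((((range (j * B)).filter fun x => v ∉ U x ∧ nn x v = v).card : ℕ) : ℝ) +
            (((Finset.Ico (j * B) (j * B + B)).filter fun x => v ∉ U x ∧ nn x v = v).card : ℝ) ≤
            (((range (j * B + B)).filter fun x => v ∉ U x ∧ nn x v = v).card : ℝ) := by
          exact_mod_cast Prc_card (fun x => v ∉ U x ∧ nn x v = v) (j * B) B
        push_cast
        linarith
  obtain ⟨mm, h1, -⟩ := key K le_rfl
  exact ⟨mm, h1⟩

end Pool.Agent.H71.MA
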