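import Mathlib
import Pool.Agent.H71.MA.Defs
import Pool.Agent.H71.MA.Lhx

/-!
SPC: a proper vertex colouring with `K0` random parts; part `a` uses the labels `a Λ, ..., (a + 1) Λ - 1`.

Proof.  `lhx` with variables `V`, values `Fin K0`, no extra events, `r := 1`, index type
`(V × Fin K0) ⊕ (V × Fin K0)`: `S (inl (v, a)) := {u : G.Adj v u}`, `S (inr (v, a)) := A v` (both `≤ Δ` elements:
`A v` consists of neighbours), `f _ u x := if x = a then 1 else 0`. Means `dg G v / K0 ≤ Δ / K0` and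
`#(A v) / K0 ≤ cap / K0`. The variable `u` is in at most `Δ * K0 + Δ * K0` events. This gives `f : V → Fin K0` with
 (1) `#{u : G.Adj v u, f u = a} ≤ Δ / K0 + t`, (2) `#{u ∈ A v : f u = a} ≤ cap / K0 + t`.
Colouring of a part `P_a = {v : f v = a}`: every nonempty `S ⊆ P_a` contains a vertex with less than `Λ` neighbours
in `S`: `∑_{v ∈ S} #{u ∈ S : G.Adj v u} ≤ 2 ∑_{v ∈ S} #{u ∈ A v : u ∈ S} ≤ 2 (cap / K0 + t) #S` (each ordered pair
`(v, u)` has `u ∈ A v` or `v ∈ A u`), so some `v ∈ S` has at most `2 (cap / K0 + t) ≤ Λ - 1` neighbours in `S`.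
So by induction on `#S` every `S ⊆ P_a` has a colouring `S → {0..Λ-1}` proper on `S` (remove `v`, colour the rest,
give `v` a free colour). State it as: for all `S ⊆ P_a` there is `g : V → ℕ`, `g u < Λ` for all `u`, `g u ≠ g w` for
adjacent `u, w ∈ S` (`1 ≤ Λ` by `hΛ`). Take `S = P_a`, `g_a`, and `c v := f v * Λ + g_{f v} v`.
-/

set_option autoImplicit false

namespace Pool.Agent.H71.MA

open Finset Classical
open Pool.Agent.H71.DN

theorem Spc_cnt {V : Type} (K0 : ℕ) (t : ℝ) (S : Finset V) (a : Fin K0) (ω : V → Fin K0)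
    (h : |∑ i ∈ S, (if ω i = a then (1 : ℝ) else 0) -
      ∑ _i ∈ S, (∑ b : Fin K0, if b = a then (1 : ℝ) else 0) / (Fintype.card (Fin K0) : ℝ)| ≤ t) :
    ((S.filter fun u => ω u = a).card : ℝ) ≤ (S.card : ℝ) / K0 + t := by
  rw [sum_ite_eq' univ a, if_pos (mem_univ a), sum_const, nsmul_eq_mul, Fintype.card_fin,
    sum_boole, mul_one_div] at h
  have h1 := (abs_le.1 h).2
  linarith

theorem Spc_exv {V : Type} [Fintype V] (G : SimpleGraph V) (A : V → Finset V) (Λ : ℕ) (M : ℝ)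
    (P : Finset V) (hM : 2 * M + 1 ≤ Λ)
    (hA2 : ∀ u v, G.Adj u v → v ∈ A u ∨ u ∈ A v)
    (hA : ∀ v, (((A v).filter fun u => u ∈ P).card : ℝ) ≤ M) (S : Finset V) (hS : S.Nonempty)
    (hSP : S ⊆ P) : ∃ v ∈ S, (S.filter fun u => G.Adj v u).card < Λ := by
  by_contra hcon
  push Not at hcon
  have h1 : S.card * Λ ≤ ∑ v ∈ S, (S.filter fun u => G.Adj v u).card := by
    rw [← smul_eq_mul]
    exact card_nsmul_le_sum _ _ _ hcon
  have h2 : ∀ v ∈ S, (S.filter fun u => G.Adj v u).card ≤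
      (S.filter fun u => u ∈ A v).card + (S.filter fun u => v ∈ A u).card := by
    intro v _
    refine (card_le_card ?_).trans (card_union_le _ _)
    intro u hu
    rw [mem_filter] at hu
    rw [mem_union, mem_filter, mem_filter]
    rcases hA2 v u hu.2 with h | h
    · exact Or.inl ⟨hu.1, h⟩
    · exact Or.inr ⟨hu.1, h⟩
  have h3 : ∑ v ∈ S, (S.filter fun u => v ∈ A u).card =
      ∑ v ∈ S, (S.filter fun u => u ∈ A v).card := by
    have h4 : ∀ x ∈ S, (S.filter fun u => x ∈ A u).card = ∑ u ∈ S, if x ∈ A u then 1 else 0 :=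
      fun x _ => card_filter _ _
    have h5 : ∀ x ∈ S, (S.filter fun u => u ∈ A x).card = ∑ u ∈ S, if u ∈ A x then 1 else 0 :=
      fun x _ => card_filter _ _
    rw [sum_congr rfl h4, sum_congr rfl h5, sum_comm]
  have h6 : ∀ v ∈ S, ((S.filter fun u => u ∈ A v).card : ℝ) ≤ M := by
    intro v _
    refine le_trans ?_ (hA v)
    rw [Nat.cast_le]
    refine card_le_card ?_
    intro u hu
    rw [mem_filter] at hu ⊢
    exact ⟨hu.2, hSP hu.1⟩
  have h7 : ((∑ v ∈ S, (S.filter fun u => u ∈ A v).card : ℕ) : ℝ) ≤ S.card * M := by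
    rw [Nat.cast_sum, ← nsmul_eq_mul]
    exact sum_le_card_nsmul _ _ _ h6
  have h8 : S.card * Λ ≤ 2 * ∑ v ∈ S, (S.filter fun u => u ∈ A v).card := by
    refine h1.trans ((sum_le_sum h2).trans ?_)
    rw [sum_add_distrib, h3, two_mul]
  have h9 : ((S.card : ℝ) * Λ) ≤ 2 * ((∑ v ∈ S, (S.filter fun u => u ∈ A v).card : ℕ) : ℝ) := by
    exact_mod_cast h8
  have h10 : (0 : ℝ) < S.card := by
    rw [Nat.cast_pos]
    exact hS.card_pos
  have h11 : (S.card : ℝ) * (2 * M + 1) ≤ S.card * Λ := mul_le_mul_of_nonneg_left hM h10.le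
  linarith

theorem Spc_col {V : Type} [Fintype V] (G : SimpleGraph V) (A : V → Finset V) (Λ : ℕ) (M : ℝ)
    (P : Finset V) (hΛ1 : 1 ≤ Λ) (hM : 2 * M + 1 ≤ Λ)
    (hA2 : ∀ u v, G.Adj u v → v ∈ A u ∨ u ∈ A v)
    (hA : ∀ v, (((A v).filter fun u => u ∈ P).card : ℝ) ≤ M) (n : ℕ) :
    ∀ S : Finset V, S.card = n → S ⊆ P → ∃ g : V → ℕ, (∀ u, g u < Λ) ∧
      ∀ u ∈ S, ∀ w ∈ S, G.Adj u w → g u ≠ g w := by
  induction n with
  | zero =>
    intro S hS _
    rw [card_eq_zero] at hS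
    refine ⟨fun _ => 0, fun _ => hΛ1, ?_⟩
    intro u hu
    rw [hS] at hu
    exact absurd hu (notMem_empty u)
  | succ n ih =>
    intro S hS hSP
    have hne : S.Nonempty := by
      rw [← card_pos, hS]
      exact Nat.succ_pos n
    obtain ⟨v, hv, hvc⟩ := Spc_exv G A Λ M P hM hA2 hA S hne hSP
    obtain ⟨g, hg1, hg2⟩ := ih (S.erase v) (by rw [card_erase_of_mem hv, hS]; rfl)
      ((erase_subset _ _).trans hSP)
    obtain ⟨k, hk1, hk2⟩ : ∃ k ∈ range Λ, k ∉ (S.filter fun u => G.Adj v u).image g := by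
      refine exists_mem_notMem_of_card_lt_card ?_
      rw [card_range]
      exact lt_of_le_of_lt card_image_le hvc
    refine ⟨fun u => if u = v then k else g u, ?_, ?_⟩
    · intro u
      by_cases h : u = v
      · simp only [h, if_true]
        exact mem_range.1 hk1
      · simp only [h, if_false]
        exact hg1 u
    · intro u hu w hw huw
      have huw' : u ≠ w := huw.ne
      by_cases h : u = v
      · have hw' : w ≠ v := fun e => huw' (h.trans e.symm)
        simp only [h, hw', if_true, if_false]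
        intro e
        refine hk2 ?_
        rw [e]
        refine mem_image_of_mem g (mem_filter.2 ⟨hw, ?_⟩)
        rw [← h]
        exact huw
      · by_cases h' : w = v
        · simp only [h, h', if_true, if_false]
          intro e
          refine hk2 ?_
          rw [← e]
          refine mem_image_of_mem g (mem_filter.2 ⟨hu, ?_⟩)
          rw [← h']
          exact huw.symm
        · simp only [h, h', if_false]
          exact hg2 u (mem_erase.2 ⟨h, hu⟩) w (mem_erase.2 ⟨h', hw⟩) huw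

theorem Spc_deg {V : Type} [Fintype V] (G : SimpleGraph V) (Δ K0 : ℕ) (A : V → Finset V)
    (hΔ : ∀ v, dg G v ≤ Δ) (hA1 : ∀ v, ∀ u ∈ A v, G.Adj v u) (i : V) :
    (univ.filter fun j : (V × Fin K0) ⊕ (V × Fin K0) => i ∈
      (Sum.elim (fun x => univ.filter fun u => G.Adj x.1 u) (fun x => A x.1) j : Finset V)).card ≤
      2 * (Δ * K0) := by
  have h1 : (univ.filter fun j : (V × Fin K0) ⊕ (V × Fin K0) => i ∈
      (Sum.elim (fun x => univ.filter fun u => G.Adj x.1 u) (fun x => A x.1) j : Finset V)) ⊆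
      (((univ.filter fun v => G.Adj i v) ×ˢ (univ : Finset (Fin K0))).image Sum.inl) ∪
      (((univ.filter fun v => G.Adj i v) ×ˢ (univ : Finset (Fin K0))).image Sum.inr) := by
    intro j hj
    rw [mem_filter] at hj
    rw [mem_union, mem_image, mem_image]
    cases j with
    | inl x =>
      left
      have h := hj.2
      rw [Sum.elim_inl, mem_filter] at h
      exact ⟨x, mem_product.2 ⟨mem_filter.2 ⟨mem_univ _, h.2.symm⟩, mem_univ _⟩, rfl⟩
    | inr x =>
      right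
      have h := hj.2
      rw [Sum.elim_inr] at h
      exact ⟨x, mem_product.2 ⟨mem_filter.2 ⟨mem_univ _, (hA1 _ _ h).symm⟩, mem_univ _⟩, rfl⟩
  have h2 : ((univ.filter fun v => G.Adj i v) ×ˢ (univ : Finset (Fin K0))).card ≤ Δ * K0 := by
    rw [card_product, card_univ, Fintype.card_fin]
    exact Nat.mul_le_mul_right _ (hΔ i)
  refine (card_le_card h1).trans ((card_union_le _ _).trans ?_)
  rw [two_mul]
  exact Nat.add_le_add (card_image_le.trans h2) (card_image_le.trans h2)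

theorem Spc_rand {V : Type} [Fintype V] (G : SimpleGraph V) (Δ cap K0 : ℕ) (A : V → Finset V)
    (hΔ : ∀ v, dg G v ≤ Δ) (hΔ1 : 1 ≤ Δ) (hAc : ∀ v, (A v).card ≤ cap)
    (hA1 : ∀ v, ∀ u ∈ A v, G.Adj v u)
    (hK0 : 1 ≤ K0) (t : ℝ) (ht : 0 < t)
    (he : 8 * Real.exp (-(t ^ 2 / (2 * Δ))) * ((Δ : ℝ) * (2 * (Δ * K0) : ℕ) + 1) ≤ 1) :
    ∃ ω : V → Fin K0,
      (∀ v a, ((univ.filter fun u => G.Adj v u ∧ ω u = a).card : ℝ) ≤ (Δ : ℝ) / K0 + t) ∧
      (∀ v a, (((A v).filter fun u => ω u = a).card : ℝ) ≤ (cap : ℝ) / K0 + t) := by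
  have hne : Nonempty (Fin K0) := ⟨⟨0, hK0⟩⟩
  obtain ⟨ω, hω, _⟩ := lhx (ι := V) (κ := Fin K0) (J := (V × Fin K0) ⊕ (V × Fin K0)) (J' := Empty)
    (Sum.elim (fun x => univ.filter fun u => G.Adj x.1 u) (fun x => A x.1))
    (fun j _ b => if b = Sum.elim Prod.snd Prod.snd j then 1 else 0)
    (fun _ => ∅) (fun _ => ∅) Δ (2 * (Δ * K0)) 1 t 0 hΔ1 one_pos ht le_rfl
    (fun j => by
      cases j with
      | inl x => exact hΔ x.1
      | inr x =>
        refine (card_le_card ?_).trans (hΔ x.1)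
        intro u hu
        exact mem_filter.2 ⟨mem_univ _, hA1 _ _ hu⟩)
    (fun x => x.elim)
    (fun i => by
      have h1 := Spc_deg G Δ K0 A hΔ hA1 i
      have h2 : (univ.filter fun j : Empty => i ∈ (∅ : Finset V)).card = 0 := by
        rw [card_eq_zero, filter_eq_empty_iff]
        intro x
        exact x.elim
      exact (Nat.add_le_add h1 h2.le).trans (by rw [Nat.add_zero]))
    (fun j i b => by
      split_ifs
      · exact zero_le_one
      · exact le_rfl)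
    (fun j i b => by
      split_ifs
      · exact le_rfl
      · exact zero_le_one)
    (fun x => x.elim) (fun x => x.elim)
    (by rw [mul_zero, zero_mul]; exact zero_le_one)
    (by rw [one_pow, mul_one]; exact he)
  have hK : (0 : ℝ) < K0 := by
    rw [Nat.cast_pos]
    exact hK0
  refine ⟨ω, ?_, ?_⟩
  · intro v a
    have h1 := Spc_cnt K0 t (univ.filter fun u => G.Adj v u) a ω (hω (Sum.inl (v, a)))
    rw [filter_filter] at h1
    refine h1.trans ?_
    have h2 : (((univ.filter fun u => G.Adj v u).card : ℕ) : ℝ) ≤ Δ := by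
      rw [Nat.cast_le]
      exact hΔ v
    have h3 := div_le_div_of_nonneg_right h2 hK.le
    linarith
  · intro v a
    have h1 := Spc_cnt K0 t (A v) a ω (hω (Sum.inr (v, a)))
    refine h1.trans ?_
    have h2 : ((A v).card : ℝ) ≤ cap := by
      rw [Nat.cast_le]
      exact hAc v
    have h3 := div_le_div_of_nonneg_right h2 hK.le
    linarith

theorem spc {V : Type} [Fintype V] (G : SimpleGraph V) (Δ cap K0 Λ : ℕ) (A : V → Finset V)
    (hΔ : ∀ v, dg G v ≤ Δ) (hΔ1 : 1 ≤ Δ) (hAc : ∀ v, (A v).card ≤ cap)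
    (hA1 : ∀ v, ∀ u ∈ A v, G.Adj v u) (hA2 : ∀ u v, G.Adj u v → v ∈ A u ∨ u ∈ A v)
    (hK0 : 1 ≤ K0) (t : ℝ) (ht : 0 < t) (hΛ : 2 * ((cap : ℝ) / K0 + t) + 1 ≤ Λ)
    (he : 8 * Real.exp (-(t ^ 2 / (2 * Δ))) * ((Δ : ℝ) * (2 * (Δ * K0) : ℕ) + 1) ≤ 1) :
    ∃ f c : V → ℕ, (∀ v, f v < K0) ∧ (∀ v, f v * Λ ≤ c v ∧ c v < (f v + 1) * Λ) ∧
      (∀ u v, G.Adj u v → c u ≠ c v) ∧
      ∀ v a, ((univ.filter fun u => G.Adj v u ∧ f u = a).card : ℝ) ≤ (Δ : ℝ) / K0 + t := by
  obtain ⟨ω, h1, h2⟩ := Spc_rand G Δ cap K0 A hΔ hΔ1 hAc hA1 hK0 t ht he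
  have hM0 : 0 ≤ (cap : ℝ) / K0 + t := by positivity
  have hΛ1 : 1 ≤ Λ := by
    have h : (1 : ℝ) ≤ Λ := by linarith
    exact_mod_cast h
  have hg : ∀ a : Fin K0, ∃ g : V → ℕ, (∀ u, g u < Λ) ∧
      ∀ u ∈ univ.filter (fun u => ω u = a), ∀ w ∈ univ.filter (fun u => ω u = a),
        G.Adj u w → g u ≠ g w := by
    intro a
    refine Spc_col G A Λ ((cap : ℝ) / K0 + t) (univ.filter fun u => ω u = a) hΛ1 hΛ hA2 ?_ _ _ rfl
      (Subset.refl _)
    intro v
    refine le_trans ?_ (h2 v a)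
    rw [Nat.cast_le]
    refine card_le_card ?_
    intro u hu
    rw [mem_filter] at hu ⊢
    exact ⟨hu.1, (mem_filter.1 hu.2).2⟩
  choose g hg1 hg2 using hg
  have hc : ∀ v, (ω v : ℕ) * Λ ≤ (ω v : ℕ) * Λ + g (ω v) v ∧
      (ω v : ℕ) * Λ + g (ω v) v < ((ω v : ℕ) + 1) * Λ := by
    intro v
    refine ⟨Nat.le_add_right _ _, ?_⟩
    rw [add_mul, one_mul]
    exact Nat.add_lt_add_left (hg1 _ _) _
  refine ⟨fun v => (ω v : ℕ), fun v => (ω v : ℕ) * Λ + g (ω v) v, fun v => (ω v).2, hc, ?_, ?_⟩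
  · intro u v huv he'
    change (ω u : ℕ) * Λ + g (ω u) u = (ω v : ℕ) * Λ + g (ω v) v at he'
    have hle : ∀ x y : V, (ω x : ℕ) * Λ + g (ω x) x = (ω y : ℕ) * Λ + g (ω y) y →
        (ω x : ℕ) ≤ ω y := by
      intro x y hxy
      have h3 : (ω x : ℕ) * Λ < ((ω y : ℕ) + 1) * Λ :=
        lt_of_le_of_lt (hc x).1 (lt_of_le_of_lt hxy.le (hc y).2)
      exact Nat.lt_succ_iff.1 (lt_of_mul_lt_mul_right h3 (Nat.zero_le _))
    have heq : ω u = ω v := Fin.ext (le_antisymm (hle u v he') (hle v u he'.symm))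
    rw [heq] at he'
    exact hg2 (ω v) u (mem_filter.2 ⟨mem_univ _, heq⟩) v (mem_filter.2 ⟨mem_univ _, rfl⟩) huv
      (Nat.add_left_cancel he')
  · intro v a
    by_cases ha : a < K0
    · refine le_trans ?_ (h1 v ⟨a, ha⟩)
      rw [Nat.cast_le]
      refine card_le_card ?_
      intro u hu
      rw [mem_filter] at hu ⊢
      exact ⟨hu.1, hu.2.1, Fin.ext hu.2.2⟩
    · have h3 : (univ.filter fun u => G.Adj v u ∧ (ω u : ℕ) = a) = ∅ := by
        rw [filter_eq_empty_iff]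
        intro u _ h4
        exact ha (h4.2 ▸ (ω u).2)
      rw [h3, card_empty, Nat.cast_zero]
      positivity

end Pool.Agent.H71.MA
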