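import Mathlib
import Pool.Agent.H71.MA.Defs
import Pool.Agent.H71.MA.Lhx

/-!
LSP: random classes of the edges by the local lemma.

Proof.  `lhx` with variables `Sym2 W`, values `Fin Q`, no extra events (`J' := Empty`, `q := 0`), `r := 1`, index
type `J × W`: `S (j, v) := {s(v, u) : H.Adj v u}` (image of the neighbour set; `#S = dg H v ≤ n`, `u ↦ s(v, u)` is
injective), `f (j, v) e a := if ∃ u, e = s(v, u) ∧ H.Adj v u ∧ a ∈ h j v u then 1 else 0`. For `e = s(v, u)` this is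
`if a ∈ h j v u then 1 else 0`, so the sum over `S` at `cl` is `#{u : H.Adj v u ∧ cl s(v, u) ∈ h j v u}` and the mean is
`∑_{u ∈ N(v)} #(h j v u) / Q`. A variable `e` is in `S (j, v)` only if `v ∈ e`: at most `2 * card J` pairs `(j, v)`.
-/

set_option autoImplicit false

namespace Pool.Agent.H71.MA

open Finset Classical
open Pool.Agent.H71.DN

/-- `lhx` without extra events, in a form which does not depend on decidability instances. -/
private theorem Lsp_aux {ι κ J : Type} [Fintype ι] [Fintype κ] [Nonempty κ] [Fintype J]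
    (S : J → Finset ι) (f : J → ι → κ → ℝ) (n m : ℕ) (t : ℝ) (hn0 : 1 ≤ n) (ht : 0 < t)
    (hn : ∀ j, (S j).card ≤ n)
    (hm : ∀ i, ∃ T : Finset J, (∀ x, i ∈ S x → x ∈ T) ∧ T.card ≤ m)
    (hf0 : ∀ j i a, 0 ≤ f j i a) (hfr : ∀ j i a, f j i a ≤ 1)
    (hec : 8 * Real.exp (-(t ^ 2 / (2 * n))) * ((n : ℝ) * m + 1) ≤ 1) :
    ∃ ω : ι → κ, ∀ j, |∑ i ∈ S j, f j i (ω i) -
      ∑ i ∈ S j, (∑ a, f j i a) / (Fintype.card κ : ℝ)| ≤ t := by
  obtain ⟨S', -⟩ : ∃ S' : Empty → Finset ι, True := ⟨fun j => j.elim, trivial⟩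
  obtain ⟨A, -⟩ : ∃ A : Empty → Finset (ι → κ), True := ⟨fun j => j.elim, trivial⟩
  obtain ⟨ω, hω, -⟩ := lhx S f S' A n m 1 t 0 hn0 one_pos ht le_rfl hn (fun j => j.elim)
    (fun i => by
      obtain ⟨T, hT1, hT2⟩ := hm i
      have h0 : (univ.filter fun j : Empty => i ∈ S' j).card = 0 := by
        rw [Finset.card_eq_zero]
        exact Finset.eq_empty_of_forall_notMem fun j => j.elim
      rw [h0, add_zero]
      refine (Finset.card_le_card fun x hx => ?_).trans hT2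
      exact hT1 x (Finset.mem_filter.1 hx).2)
    hf0 hfr (fun j => j.elim) (fun j => j.elim)
    (by rw [mul_zero, zero_mul]; exact zero_le_one) (by rw [one_pow, mul_one]; exact hec)
  exact ⟨ω, hω⟩

theorem lsp {W J : Type} [Fintype W] [Fintype J] (H : SimpleGraph W) (n Q : ℕ) (hQ : 1 ≤ Q)
    (hn : ∀ v, dg H v ≤ n) (hn1 : 1 ≤ n) (t : ℝ) (ht : 0 < t) (h : J → W → W → Finset (Fin Q))
    (he : 8 * Real.exp (-(t ^ 2 / (2 * n))) *
      ((n : ℝ) * (2 * Fintype.card J : ℕ) + 1) ≤ 1) :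
    ∃ cl : Sym2 W → Fin Q, ∀ j v,
      |((univ.filter fun u => H.Adj v u ∧ cl s(v, u) ∈ h j v u).card : ℝ) -
        (∑ u ∈ univ.filter (fun u => H.Adj v u), ((h j v u).card : ℝ)) / Q| ≤ t := by
  have hne : Nonempty (Fin Q) := ⟨⟨0, hQ⟩⟩
  obtain ⟨S, hS⟩ : ∃ S : J × W → Finset (Sym2 W), ∀ x, S x =
      (univ.filter fun u => H.Adj x.2 u).image fun u => s(x.2, u) := ⟨_, fun _ => rfl⟩
  obtain ⟨f, hf⟩ : ∃ f : J × W → Sym2 W → Fin Q → ℝ, ∀ x e a, f x e a =
      if ∃ u, e = s(x.2, u) ∧ H.Adj x.2 u ∧ a ∈ h x.1 x.2 u then 1 else 0 :=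
    ⟨_, fun _ _ _ => rfl⟩
  have hf0 : ∀ x e a, 0 ≤ f x e a := by
    intro x e a
    rw [hf]
    split_ifs
    · exact zero_le_one
    · exact le_rfl
  have hf1 : ∀ x e a, f x e a ≤ 1 := by
    intro x e a
    rw [hf]
    split_ifs
    · exact le_rfl
    · exact zero_le_one
  have hSn : ∀ x, (S x).card ≤ n := by
    intro x
    rw [hS]
    exact Finset.card_image_le.trans (hn x.2)
  have hm : ∀ e : Sym2 W, ∃ T : Finset (J × W), (∀ x, e ∈ S x → x ∈ T) ∧
      T.card ≤ 2 * Fintype.card J := by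
    intro e
    induction e using Sym2.ind with
    | _ a b =>
      refine ⟨(univ : Finset J) ×ˢ ({a, b} : Finset W), fun x hx => ?_, ?_⟩
      · rw [hS, Finset.mem_image] at hx
        obtain ⟨u, _, hu⟩ := hx
        rw [Finset.mem_product]
        refine ⟨Finset.mem_univ _, ?_⟩
        have h2 : x.2 ∈ s(x.2, u) := Sym2.mem_mk_left _ _
        rw [hu, Sym2.mem_iff] at h2
        rw [Finset.mem_insert, Finset.mem_singleton]
        exact h2
      · rw [Finset.card_product, Finset.card_univ, mul_comm]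
        exact Nat.mul_le_mul_right _ Finset.card_le_two
  obtain ⟨cl, hcl⟩ := Lsp_aux (ι := Sym2 W) (κ := Fin Q) (J := J × W) S f n
    (2 * Fintype.card J) t hn1 ht hSn hm hf0 hf1 he
  refine ⟨cl, fun j v => ?_⟩
  have h1 := hcl (j, v)
  have hinj : Set.InjOn (fun u => s(v, u)) ((univ.filter fun u => H.Adj v u : Finset W) : Set W) :=
    fun a _ b _ hab => Sym2.congr_right.1 hab
  have hval : ∀ u ∈ univ.filter (fun u => H.Adj v u), ∀ a,
      f (j, v) s(v, u) a = if a ∈ h j v u then 1 else 0 := by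
    intro u hu a
    rw [hf]
    have hu' : H.Adj v u := (Finset.mem_filter.1 hu).2
    by_cases ha : a ∈ h j v u
    · rw [if_pos ha, if_pos ⟨u, rfl, hu', ha⟩]
    · rw [if_neg ha, if_neg]
      rintro ⟨u', h2, _, h4⟩
      have h5 : u = u' := Sym2.congr_right.1 h2
      rw [← h5] at h4
      exact ha h4
  rw [hS, Finset.sum_image hinj, Finset.sum_image hinj] at h1
  have e1 : ∑ u ∈ univ.filter (fun u => H.Adj v u), f (j, v) s(v, u) (cl s(v, u)) =
      ((univ.filter fun u => H.Adj v u ∧ cl s(v, u) ∈ h j v u).card : ℝ) := by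
    rw [Finset.sum_congr rfl fun u hu => hval u hu (cl s(v, u)), Finset.sum_boole,
      Finset.filter_filter]
  have e2 : ∑ u ∈ univ.filter (fun u => H.Adj v u),
      (∑ a, f (j, v) s(v, u) a) / (Fintype.card (Fin Q) : ℝ) =
        (∑ u ∈ univ.filter (fun u => H.Adj v u), ((h j v u).card : ℝ)) / Q := by
    rw [Finset.sum_div]
    apply Finset.sum_congr rfl
    intro u hu
    rw [Finset.sum_congr rfl fun a _ => hval u hu a, Finset.sum_boole, Fintype.card_fin,
      Finset.filter_mem_eq_inter, Finset.univ_inter]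
  have h2 : |∑ u ∈ univ.filter (fun u => H.Adj v u), f (j, v) s(v, u) (cl s(v, u)) -
      ∑ u ∈ univ.filter (fun u => H.Adj v u),
        (∑ a, f (j, v) s(v, u) a) / (Fintype.card (Fin Q) : ℝ)| ≤ t := h1
  rw [e1, e2] at h2
  exact h2

end Pool.Agent.H71.MA
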