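import Mathlib
import Pool.Agent.H71.MA.Defs
import Pool.Agent.H71.MA.Lsp

/-!
SPL: splitting the edges into a reservoir `R = cls H cl 0 r` and `K` groups
`E_j = cls H cl (r + j g) (r + (j + 1) g)`.

Proof.  `lsp` with `Q = n = Δ` and the index type `Unit ⊕ Unit ⊕ Fin K ⊕ (Fin K × Fin (K * B)) ⊕ Unit` (with
`3 + K + K * (K * B)` elements):
 (1) `h v u := {a : a < r}`; (2) `h v u := if u ∈ A v then {a : a < r} else ∅`; (3) for `j`:
 `h v u := {a : r + j g ≤ a < r + (j+1) g}`; (4) for `(j, ℓ)`: the same set if `u ∈ U ℓ`, and `∅` otherwise; (5)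
 `h v u := {a : ∃ j < K, r + j g ≤ a < r + (j+1) g ∧ ∃ ℓ, j B ≤ ℓ < (j+1) B ∧ u ∈ U ℓ}`.
`{a : Fin Δ | a < r}` has `r` elements (`r ≤ Δ`), `{a : Fin Δ | r + j g ≤ a < r + (j+1) g}` has `g` elements
(`r + (j+1) g ≤ r + K g ≤ Δ`), the set in (5) at most `2 g` elements (it is the union over the at most 2 values of `j`
given by `hV`). `A v` consists of neighbours of `v`. The value of `cl` in the statement is `fun e => (cl0 e : ℕ)`.
`(cls H cl a b).Adj v u ↔ H.Adj v u ∧ a ≤ cl s(v, u) ∧ cl s(v, u) < b`; `dg` is the number of neighbours.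
-/

set_option autoImplicit false

namespace Pool.Agent.H71.MA

open Finset Classical
open Pool.Agent.H71.DN

theorem Spl_card (Δ a b : ℕ) (hb : b ≤ Δ) :
    (univ.filter (fun x : Fin Δ => a ≤ (x : ℕ) ∧ (x : ℕ) < b)).card = b - a := by
  rw [← Nat.card_Ico a b, ← Finset.card_map Fin.valEmbedding]
  congr 1
  ext y
  simp only [mem_map, mem_filter, mem_univ, true_and, Fin.valEmbedding_apply, mem_Ico]
  constructor
  · rintro ⟨x, hx, rfl⟩
    exact hx
  · intro hy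
    exact ⟨⟨y, by omega⟩, hy, rfl⟩

theorem spl {W : Type} [Fintype W] (H : SimpleGraph W) (Δ r g K B : ℕ) (hΔ1 : 1 ≤ Δ)
    (hΔ : ∀ v, dg H v ≤ Δ) (A : W → Finset W) (hA : ∀ v, ∀ u ∈ A v, H.Adj v u)
    (U : ℕ → Finset W) (hrK : r + K * g ≤ Δ)
    (hV : ∀ w, ((range K).filter fun j => ∃ ℓ, j * B ≤ ℓ ∧ ℓ < (j + 1) * B ∧ w ∈ U ℓ).card ≤ 2)
    (t : ℝ) (ht : 0 < t)
    (he : 8 * Real.exp (-(t ^ 2 / (2 * Δ))) *
      ((Δ : ℝ) * (2 * (3 + K + K * (K * B)) : ℕ) + 1) ≤ 1) :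
    ∃ cl : Sym2 W → ℕ,
      (∀ v, |(dg (cls H cl 0 r) v : ℝ) - dg H v * (r : ℝ) / Δ| ≤ t) ∧
      (∀ v, (((A v).filter fun u => (cls H cl 0 r).Adj v u).card : ℝ) ≤
        ((A v).card : ℝ) * r / Δ + t) ∧
      (∀ v, ∀ j < K, |(dg (cls H cl (r + j * g) (r + (j + 1) * g)) v : ℝ) -
        dg H v * (g : ℝ) / Δ| ≤ t) ∧
      (∀ v, ∀ j < K, ∀ ℓ < K * B,
        (((U ℓ).filter fun u => (cls H cl (r + j * g) (r + (j + 1) * g)).Adj v u).card : ℝ) ≤
          (((U ℓ).filter fun u => H.Adj v u).card : ℝ) * g / Δ + t) ∧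
      (∀ v, ((univ.filter fun u => ∃ j < K, (cls H cl (r + j * g) (r + (j + 1) * g)).Adj v u ∧
        ∃ ℓ, j * B ≤ ℓ ∧ ℓ < (j + 1) * B ∧ u ∈ U ℓ).card : ℝ) ≤
          2 * (dg H v * (g : ℝ) / Δ) + t) := by
  have hΔ0 : (0 : ℝ) < Δ := by exact_mod_cast hΔ1
  obtain ⟨S, hS⟩ : ∃ S : ℕ → ℕ → Finset (Fin Δ), ∀ a b, S a b =
      univ.filter (fun x : Fin Δ => a ≤ (x : ℕ) ∧ (x : ℕ) < b) := ⟨_, fun _ _ => rfl⟩
  have hmS : ∀ a b x, x ∈ S a b ↔ a ≤ (x : ℕ) ∧ (x : ℕ) < b := by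
    intro a b x
    rw [hS]
    simp
  have hcS : ∀ a b, b ≤ Δ → (S a b).card = b - a := by
    intro a b hb
    rw [hS]
    exact Spl_card Δ a b hb
  have hrΔ : r ≤ Δ := le_trans (Nat.le_add_right _ _) hrK
  have hjΔ : ∀ j < K, r + (j + 1) * g ≤ Δ := by
    intro j hj
    exact le_trans (Nat.add_le_add_left (Nat.mul_le_mul_right g hj) r) hrK
  have hc0 : (S 0 r).card = r := by rw [hcS 0 r hrΔ, Nat.sub_zero]
  have hcj : ∀ j < K, (S (r + j * g) (r + (j + 1) * g)).card = g := by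
    intro j hj
    rw [hcS _ _ (hjΔ j hj), Nat.add_mul, one_mul]
    omega
  have hJ : Fintype.card (Unit ⊕ Unit ⊕ Fin K ⊕ (Fin K × Fin (K * B)) ⊕ Unit) =
      3 + K + K * (K * B) := by
    simp only [Fintype.card_sum, Fintype.card_unit, Fintype.card_fin, Fintype.card_prod]
    ring
  obtain ⟨cl0, hcl0⟩ := lsp (J := Unit ⊕ Unit ⊕ Fin K ⊕ (Fin K × Fin (K * B)) ⊕ Unit)
    H Δ Δ hΔ1 hΔ hΔ1 t ht
    (fun J v u => match J with
      | Sum.inl _ => S 0 r
      | Sum.inr (Sum.inl _) => if u ∈ A v then S 0 r else ∅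
      | Sum.inr (Sum.inr (Sum.inl j)) => S (r + (j : ℕ) * g) (r + ((j : ℕ) + 1) * g)
      | Sum.inr (Sum.inr (Sum.inr (Sum.inl x))) =>
          if u ∈ U (x.2 : ℕ) then S (r + (x.1 : ℕ) * g) (r + ((x.1 : ℕ) + 1) * g) else ∅
      | Sum.inr (Sum.inr (Sum.inr (Sum.inr _))) =>
          univ.filter (fun x => ∃ j < K, x ∈ S (r + j * g) (r + (j + 1) * g) ∧
            ∃ ℓ, j * B ≤ ℓ ∧ ℓ < (j + 1) * B ∧ u ∈ U ℓ))
    (by rw [hJ]; exact he)
  have hA' : ∀ a b v u, (cls H (fun e => (cl0 e : ℕ)) a b).Adj v u ↔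
      H.Adj v u ∧ cl0 s(v, u) ∈ S a b := by
    intro a b v u
    rw [hmS]
    exact Iff.rfl
  -- the mean for a set of vertices
  have hsum : ∀ (v : W) (X : Finset W) (T : Finset (Fin Δ)),
      (∑ u ∈ univ.filter (fun u => H.Adj v u), ((if u ∈ X then T else ∅ : Finset (Fin Δ)).card : ℝ)) =
        ((X.filter fun u => H.Adj v u).card : ℝ) * (T.card : ℝ) := by
    intro v X T
    have h1 : ∀ u, ((if u ∈ X then T else ∅ : Finset (Fin Δ)).card : ℝ) =
        if u ∈ X then (T.card : ℝ) else 0 := by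
      intro u
      split_ifs
      · rfl
      · simp
    rw [Finset.sum_congr rfl (fun u _ => h1 u), ← Finset.sum_filter, Finset.sum_const, nsmul_eq_mul]
    congr 3
    ext u
    simp only [mem_filter, mem_univ, true_and]
    exact and_comm
  have hcnt : ∀ (v : W) (X : Finset W) (a b : ℕ),
      (univ.filter fun u => H.Adj v u ∧ cl0 s(v, u) ∈ (if u ∈ X then S a b else ∅ : Finset (Fin Δ))) =
        X.filter fun u => (cls H (fun e => (cl0 e : ℕ)) a b).Adj v u := by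
    intro v X a b
    ext u
    simp only [mem_filter, mem_univ, true_and, hA']
    by_cases hu : u ∈ X
    · simp [hu]
    · simp [hu]
  refine ⟨fun e => (cl0 e : ℕ), ?_, ?_, ?_, ?_, ?_⟩
  · intro v
    have h := hcl0 (Sum.inl ()) v
    simp only at h
    rw [Finset.sum_const, nsmul_eq_mul, hc0] at h
    have h2 : (univ.filter fun u => H.Adj v u ∧ cl0 s(v, u) ∈ S 0 r) =
        univ.filter fun u => (cls H (fun e => (cl0 e : ℕ)) 0 r).Adj v u := by
      ext u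
      simp only [mem_filter, mem_univ, true_and, hA']
    rw [h2] at h
    exact h
  · intro v
    have h := hcl0 (Sum.inr (Sum.inl ())) v
    simp only at h
    rw [hsum v (A v) (S 0 r), hcnt v (A v) 0 r, hc0] at h
    have h3 : ((A v).filter fun u => H.Adj v u) = A v := by
      apply Finset.filter_true_of_mem
      exact hA v
    rw [h3] at h
    have h4 := (abs_le.1 h).2
    linarith
  · intro v j hj
    have h := hcl0 (Sum.inr (Sum.inr (Sum.inl ⟨j, hj⟩))) v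
    simp only at h
    rw [Finset.sum_const, nsmul_eq_mul, hcj j hj] at h
    have h2 : (univ.filter fun u => H.Adj v u ∧ cl0 s(v, u) ∈ S (r + j * g) (r + (j + 1) * g)) =
        univ.filter fun u =>
          (cls H (fun e => (cl0 e : ℕ)) (r + j * g) (r + (j + 1) * g)).Adj v u := by
      ext u
      simp only [mem_filter, mem_univ, true_and, hA']
    rw [h2] at h
    exact h
  · intro v j hj ℓ hℓ
    have h := hcl0 (Sum.inr (Sum.inr (Sum.inr (Sum.inl (⟨j, hj⟩, ⟨ℓ, hℓ⟩))))) v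
    simp only at h
    rw [hsum v (U ℓ) (S (r + j * g) (r + (j + 1) * g)), hcnt v (U ℓ) _ _, hcj j hj] at h
    have h4 := (abs_le.1 h).2
    linarith
  · intro v
    have h := hcl0 (Sum.inr (Sum.inr (Sum.inr (Sum.inr ())))) v
    simp only at h
    have h1 : ∀ u, ((univ.filter (fun x : Fin Δ => ∃ j < K, x ∈ S (r + j * g) (r + (j + 1) * g) ∧
            ∃ ℓ, j * B ≤ ℓ ∧ ℓ < (j + 1) * B ∧ u ∈ U ℓ)).card : ℝ) ≤ 2 * (g : ℝ) := by
      intro u
      have h5 : (univ.filter (fun x : Fin Δ => ∃ j < K, x ∈ S (r + j * g) (r + (j + 1) * g) ∧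
            ∃ ℓ, j * B ≤ ℓ ∧ ℓ < (j + 1) * B ∧ u ∈ U ℓ)) ⊆
          ((range K).filter fun j => ∃ ℓ, j * B ≤ ℓ ∧ ℓ < (j + 1) * B ∧ u ∈ U ℓ).biUnion
            (fun j => S (r + j * g) (r + (j + 1) * g)) := by
        intro x hx
        simp only [mem_filter, mem_univ, true_and] at hx
        obtain ⟨j, hj, hxj, hl⟩ := hx
        rw [Finset.mem_biUnion]
        exact ⟨j, by simp only [mem_filter, mem_range]; exact ⟨hj, hl⟩, hxj⟩
      have h6 := (Finset.card_le_card h5).trans Finset.card_biUnion_le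
      have h7 : ∑ j ∈ (range K).filter fun j => ∃ ℓ, j * B ≤ ℓ ∧ ℓ < (j + 1) * B ∧ u ∈ U ℓ,
          (S (r + j * g) (r + (j + 1) * g)).card =
          ((range K).filter fun j => ∃ ℓ, j * B ≤ ℓ ∧ ℓ < (j + 1) * B ∧ u ∈ U ℓ).card * g := by
        rw [Finset.sum_congr rfl (fun j hj => hcj j (Finset.mem_range.1 (Finset.mem_filter.1 hj).1)),
          Finset.sum_const, smul_eq_mul]
      rw [h7] at h6
      have h8 := h6.trans (Nat.mul_le_mul_right g (hV u))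
      exact_mod_cast h8
    have h9 : (∑ u ∈ univ.filter (fun u => H.Adj v u),
        ((univ.filter (fun x : Fin Δ => ∃ j < K, x ∈ S (r + j * g) (r + (j + 1) * g) ∧
            ∃ ℓ, j * B ≤ ℓ ∧ ℓ < (j + 1) * B ∧ u ∈ U ℓ)).card : ℝ)) / Δ ≤
        2 * (dg H v * (g : ℝ) / Δ) := by
      have h10 := Finset.sum_le_sum (s := univ.filter (fun u => H.Adj v u)) (fun u _ => h1 u)
      rw [Finset.sum_const, nsmul_eq_mul] at h10
      have h11 : 2 * (dg H v * (g : ℝ) / Δ) = ((dg H v : ℝ) * (2 * (g : ℝ))) / Δ := by ring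
      rw [h11]
      exact div_le_div_of_nonneg_right h10 hΔ0.le
    have h12 : (univ.filter fun u => H.Adj v u ∧ cl0 s(v, u) ∈
          univ.filter (fun x : Fin Δ => ∃ j < K, x ∈ S (r + j * g) (r + (j + 1) * g) ∧
            ∃ ℓ, j * B ≤ ℓ ∧ ℓ < (j + 1) * B ∧ u ∈ U ℓ)) =
        univ.filter fun u => ∃ j < K,
          (cls H (fun e => (cl0 e : ℕ)) (r + j * g) (r + (j + 1) * g)).Adj v u ∧
            ∃ ℓ, j * B ≤ ℓ ∧ ℓ < (j + 1) * B ∧ u ∈ U ℓ := by
      ext u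
      simp only [mem_filter, mem_univ, true_and, hA']
      constructor
      · rintro ⟨h13, j, hj, hx, hl⟩
        exact ⟨j, hj, ⟨h13, hx⟩, hl⟩
      · rintro ⟨j, hj, ⟨h13, hx⟩, hl⟩
        exact ⟨h13, j, hj, hx, hl⟩
    rw [h12] at h
    have h4 := (abs_le.1 h).2
    linarith

end Pool.Agent.H71.MA
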