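import Mathlib
import Pool.Agent.H71.MA.Defs

/-!
WND: two facts about the windows `(ℓ - p, ℓ + p)`.

Proof.  (1) If `c u < ℓ + p`, `ℓ < c u + p` and `f u Λ ≤ c u < (f u + 1) Λ`, then (`2 p ≤ Λ`) `f u` is one of two
values: let `q := ℓ / Λ`, so `q Λ ≤ ℓ < (q + 1) Λ`. `c u < ℓ + p` and `ℓ < c u + p` say `|c u - ℓ| ≤ p - 1 < Λ / 2`.
If `ℓ - q Λ < p` (`ℓ` near the left end): `c u < ℓ + p < q Λ + 2 p ≤ (q + 1) Λ` so `f u ≤ q`, and `c u > ℓ - p ≥ (q - 1) Λ`, so
`f u ≥ q - 1`. Otherwise `c u > ℓ - p ≥ q Λ`, so `f u ≥ q`, and `c u < ℓ + p < (q + 2) Λ`, so `f u ≤ q + 1`.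
So the set is contained in `{u : G.Adj v u, f u = a} ∪ {u : G.Adj v u, f u = a'}` for some `a`, `a'`.
(2) `j` is counted iff there is `ℓ` with `j B ≤ ℓ < (j + 1) B`, `c < ℓ + p`, `ℓ < c + p`; then `j B < c + p` and
`c < (j + 1) B + p`, i.e. (`2 p ≤ B`) `j B` lies in an interval of length `< 2 B`: if `j < j' < j''` are three such
values, then `j'' B < c + p` and `c < (j + 1) B + p`, so `j'' B < (j + 1) B + 2 p ≤ (j + 2) B`, so `j'' < j + 2`,
a contradiction. (A finite set of naturals in which any two elements differ by at most 1 has at most 2 elements: it is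
contained in `{a, a + 1}`, `a` its minimum.)
-/

set_option autoImplicit false

namespace Pool.Agent.H71.MA

open Finset Classical

theorem wnd1 {V : Type} [Fintype V] (G : SimpleGraph V) (Λ p : ℕ) (hp : 1 ≤ p) (hpΛ : 2 * p ≤ Λ)
    (f c : V → ℕ) (hfc : ∀ v, f v * Λ ≤ c v ∧ c v < (f v + 1) * Λ) (d : ℝ)
    (hd : ∀ v a, ((univ.filter fun u => G.Adj v u ∧ f u = a).card : ℝ) ≤ d) (ℓ : ℕ) (v : V) :
    ((univ.filter fun u => G.Adj v u ∧ c u < ℓ + p ∧ ℓ < c u + p).card : ℝ) ≤ 2 * d := by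
  have hΛ : 0 < Λ := by omega
  set q : ℕ := ℓ / Λ with hq
  have h1 : q * Λ ≤ ℓ := Nat.div_mul_le_self ℓ Λ
  have h2 : ℓ < (q + 1) * Λ := by
    have h3 := Nat.div_add_mod' ℓ Λ
    have h4 := Nat.mod_lt ℓ hΛ
    rw [← hq] at h3
    rw [Nat.add_mul, Nat.one_mul]
    omega
  have key : ∃ a a' : ℕ, ∀ u, c u < ℓ + p → ℓ < c u + p → f u = a ∨ f u = a' := by
    by_cases hc : ℓ < q * Λ + p
    · refine ⟨q, q - 1, fun u hu hu' => ?_⟩
      obtain ⟨h3, h4⟩ := hfc u
      have h5 : f u * Λ < (q + 1) * Λ := by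
        rw [Nat.add_mul, Nat.one_mul]
        omega
      have h6 : f u < q + 1 := Nat.lt_of_mul_lt_mul_right h5
      have h7 : (q - 1) * Λ < (f u + 1) * Λ := by
        rcases Nat.eq_zero_or_pos q with h0 | h0
        · rw [h0]
          simp only [Nat.zero_sub, Nat.zero_mul]
          positivity
        · have h8 : (q - 1) * Λ + Λ = q * Λ := by
            rw [← Nat.succ_mul]
            congr 1
            omega
          omega
      have h8 : q - 1 < f u + 1 := Nat.lt_of_mul_lt_mul_right h7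
      omega
    · refine ⟨q, q + 1, fun u hu hu' => ?_⟩
      obtain ⟨h3, h4⟩ := hfc u
      have h5 : q * Λ < (f u + 1) * Λ := by omega
      have h6 : q < f u + 1 := Nat.lt_of_mul_lt_mul_right h5
      have h7 : f u * Λ < (q + 2) * Λ := by
        have h8 : (q + 2) * Λ = (q + 1) * Λ + Λ := by ring
        omega
      have h8 : f u < q + 2 := Nat.lt_of_mul_lt_mul_right h7
      omega
  obtain ⟨a, a', ha⟩ := key
  have hsub : (univ.filter fun u => G.Adj v u ∧ c u < ℓ + p ∧ ℓ < c u + p) ⊆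
      (univ.filter fun u => G.Adj v u ∧ f u = a) ∪ (univ.filter fun u => G.Adj v u ∧ f u = a') := by
    intro u hu
    rw [Finset.mem_filter] at hu
    rw [Finset.mem_union, Finset.mem_filter, Finset.mem_filter]
    rcases ha u hu.2.2.1 hu.2.2.2 with h | h
    · exact Or.inl ⟨Finset.mem_univ _, hu.2.1, h⟩
    · exact Or.inr ⟨Finset.mem_univ _, hu.2.1, h⟩
  have h3 := (Finset.card_le_card hsub).trans (Finset.card_union_le _ _)
  have h4 : ((univ.filter fun u => G.Adj v u ∧ c u < ℓ + p ∧ ℓ < c u + p).card : ℝ) ≤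
      ((univ.filter fun u => G.Adj v u ∧ f u = a).card : ℝ) +
        ((univ.filter fun u => G.Adj v u ∧ f u = a').card : ℝ) := by exact_mod_cast h3
  linarith [hd v a, hd v a']

theorem wnd2 (K B p c : ℕ) (hpB : 2 * p ≤ B) :
    ((range K).filter fun j => ∃ ℓ, j * B ≤ ℓ ∧ ℓ < (j + 1) * B ∧ c < ℓ + p ∧ ℓ < c + p).card ≤ 2 := by
  set S := (range K).filter fun j => ∃ ℓ, j * B ≤ ℓ ∧ ℓ < (j + 1) * B ∧ c < ℓ + p ∧ ℓ < c + p
    with hS
  rcases Finset.eq_empty_or_nonempty S with h | h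
  · rw [h]
    simp
  · have hpair : ∀ j ∈ S, ∀ j' ∈ S, j' < j + 2 := by
      intro j hj j' hj'
      rw [hS, Finset.mem_filter] at hj hj'
      obtain ⟨_, ℓ, h1, h2, h3, h4⟩ := hj
      obtain ⟨_, ℓ', h1', h2', h3', h4'⟩ := hj'
      have h5 : j' * B < (j + 2) * B := by
        have h6 : (j + 2) * B = (j + 1) * B + B := by ring
        omega
      exact Nat.lt_of_mul_lt_mul_right h5
    have hsub : S ⊆ {S.min' h, S.min' h + 1} := by
      intro j hj
      have h1 := Finset.min'_le S j hj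
      have h2 := hpair _ (Finset.min'_mem S h) j hj
      rw [Finset.mem_insert, Finset.mem_singleton]
      omega
    exact (Finset.card_le_card hsub).trans Finset.card_le_two

end Pool.Agent.H71.MA
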