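import Mathlib
import Pool.Agent.H71.MA.Prm
import Pool.Agent.H71.MA.Ori
import Pool.Agent.H71.MA.Agf
import Pool.Agent.H71.MA.Spl
import Pool.Agent.H71.MA.Npm
import Pool.Agent.H71.MA.Prc
import Pool.Agent.H71.MA.Spc
import Pool.Agent.H71.MA.Wnd
import Pool.Agent.H71.MA.Bak

/-!
COR: the assembly of the construction.
-/

set_option autoImplicit false

namespace Pool.Agent.H71.MA

open Finset Classical
open Pool.Agent.H71.DN

/-- The orientation on the augmented graph. -/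
noncomputable def augA {V : Type} [Fintype V] (G : SimpleGraph V) (Δ : ℕ) (A : V → Finset V) :
    (V ⊕ V × Fin Δ) → Finset (V ⊕ V × Fin Δ)
  | Sum.inl v => (A v).image Sum.inl
  | Sum.inr x => if (Aug G Δ).Adj (Sum.inr x) (Sum.inl x.1) then {Sum.inl x.1} else ∅

theorem augA_inl {V : Type} [Fintype V] (G : SimpleGraph V) (Δ : ℕ) (A : V → Finset V) (v : V) :
    augA G Δ A (Sum.inl v) = (A v).image Sum.inl := rfl

theorem augA_inr {V : Type} [Fintype V] (G : SimpleGraph V) (Δ : ℕ) (A : V → Finset V)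
    (x : V × Fin Δ) : augA G Δ A (Sum.inr x) =
      if (Aug G Δ).Adj (Sum.inr x) (Sum.inl x.1) then {Sum.inl x.1} else ∅ := rfl

theorem cor {V : Type} [Fintype V] (G : SimpleGraph V) (Δ p cap k r g K Λ K0 ℓ0 Lm Ld : ℕ)
    (t e1 γ : ℝ) (hP : Prm Δ p cap k r g K Λ K0 ℓ0 Lm Ld t e1 γ) (hΔ : ∀ v, dg G v ≤ Δ)
    (hmad : ∀ S : Finset V, ee G S S ≤ 2 * (cap * S.card)) : H70.HY.HYLab G Δ p := by
  obtain ⟨A, hA1, hA2, hA3⟩ := ori G cap hmad
  obtain ⟨f, c, hf, hfc, hcp, hfd⟩ := spc G Δ cap K0 Λ A hΔ hP.hΔ1 hA1 hA2 hA3 hP.hK0 t hP.ht hP.hΛ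
    hP.eC
  obtain ⟨H, hH⟩ : ∃ H, H = Aug G Δ := ⟨_, rfl⟩
  obtain ⟨C, hC⟩ : ∃ C : Finset (V ⊕ V × Fin Δ), C = univ.image Sum.inl := ⟨_, rfl⟩
  obtain ⟨A', hA'⟩ : ∃ A', A' = augA G Δ A := ⟨_, rfl⟩
  obtain ⟨U, hU⟩ : ∃ U : ℕ → Finset (V ⊕ V × Fin Δ), ∀ ℓ, U ℓ =
      (univ.filter fun v => c v < ℓ + p ∧ ℓ < c v + p).image Sum.inl := ⟨_, fun _ => rfl⟩
  have hCm : ∀ v, Sum.inl v ∈ C := fun v => by rw [hC]; exact mem_image_of_mem _ (mem_univ _)
  have hCr : ∀ x, Sum.inr x ∉ C := fun x h => by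
    rw [hC] at h
    obtain ⟨a, _, ha⟩ := mem_image.1 h
    exact absurd ha (by simp)
  have hUm : ∀ ℓ v, Sum.inl v ∈ U ℓ ↔ c v < ℓ + p ∧ ℓ < c v + p := by
    intro ℓ v
    rw [hU, mem_image]
    constructor
    · rintro ⟨a, ha, hav⟩
      rw [Sum.inl.injEq] at hav
      rw [← hav]
      exact (mem_filter.1 ha).2
    · intro h
      exact ⟨v, mem_filter.2 ⟨mem_univ _, h⟩, rfl⟩
  have hUr : ∀ ℓ x, Sum.inr x ∉ U ℓ := by
    intro ℓ x h
    rw [hU] at h
    obtain ⟨a, _, ha⟩ := mem_image.1 h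
    exact absurd ha (by simp)
  have hUC : ∀ ℓ, U ℓ ⊆ C := by
    rintro ℓ (v | x) h
    · exact hCm v
    · exact absurd h (hUr ℓ x)
  have hdC : ∀ v, dg H (Sum.inl v) = Δ := fun v => by rw [hH]; exact aug_deg G Δ v (hΔ v)
  have hdL : ∀ x, dg H (Sum.inr x) ≤ 1 := fun x => by rw [hH]; exact aug_leaf G Δ x
  have hdH : ∀ v, dg H v ≤ Δ := by
    rintro (v | x)
    · exact (hdC v).le
    · exact (hdL x).trans hP.hΔ1
  have hL : ∀ v, v ∉ C → dg H v ≤ 1 := by
    rintro (v | x) h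
    · exact absurd (hCm v) h
    · exact hdL x
  have hll : ∀ u v, H.Adj (Sum.inl u) (Sum.inl v) ↔ G.Adj u v := by
    intro u v
    rw [hH]
    exact Iff.rfl
  have hA'1 : ∀ v, ∀ u ∈ A' v, H.Adj v u := by
    rintro (v | x) u hu
    · rw [hA'] at hu
      obtain ⟨w, hw, rfl⟩ := mem_image.1 hu
      exact (hll _ _).2 (hA2 v w hw)
    · rw [hA'] at hu
      rw [augA_inr] at hu
      split_ifs at hu with h
      · rw [mem_singleton] at hu
        rw [hu, hH]
        exact h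
      · exact absurd hu (notMem_empty _)
  have hA'C : ∀ v, A' v ⊆ C := by
    rintro (v | x) u hu
    · rw [hA'] at hu
      obtain ⟨w, hw, rfl⟩ := mem_image.1 hu
      exact hCm w
    · rw [hA'] at hu
      rw [augA_inr] at hu
      split_ifs at hu with h
      · rw [mem_singleton] at hu
        rw [hu]
        exact hCm _
      · exact absurd hu (notMem_empty _)
  have hA'2 : ∀ u v, H.Adj u v → v ∈ A' u ∨ u ∈ A' v := by
    have key : ∀ (x : V × Fin Δ) (v : V), H.Adj (Sum.inr x) (Sum.inl v) →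
        Sum.inl v ∈ A' (Sum.inr x) := by
      intro x v h
      have h1 : (Aug G Δ).Adj (Sum.inr x) (Sum.inl v) := by rw [← hH]; exact h
      have h2 : x.1 = v := h1.1
      subst h2
      rw [hA']
      rw [augA_inr]
      rw [if_pos h1]
      exact mem_singleton_self _
    rintro (u | x) (v | y) h
    · rcases hA3 u v ((hll _ _).1 h) with h1 | h1
      · left
        rw [hA']
        exact mem_image_of_mem _ h1
      · right
        rw [hA']
        exact mem_image_of_mem _ h1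
    · right
      exact key y u h.symm
    · left
      exact key x v h
    · exfalso
      rw [hH] at h
      exact h
  have hA'c : ∀ v, (A' v).card ≤ cap := by
    rintro (v | x)
    · rw [hA']
      exact card_image_le.trans (hA1 v)
    · rw [hA']
      rw [augA_inr]
      split_ifs with h
      · rw [card_singleton]
        exact hP.cap1
      · rw [card_empty]
        exact Nat.zero_le _
  have hΔ0 : (0 : ℝ) < Δ := by
    have := hP.hΔ1
    exact_mod_cast this
  have hU1 : ∀ ℓ v, (((U ℓ).filter fun u => H.Adj v u).card : ℝ) ≤ 2 * ((Δ : ℝ) / K0 + t) := by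
    have hpos : (1 : ℝ) ≤ 2 * ((Δ : ℝ) / K0 + t) := by
      have ht := hP.ht
      have hK : (0 : ℝ) < K0 := by
        have := hP.hK0
        exact_mod_cast this
      have h2 : K0 * 1 ≤ Δ := by
        have h3 : K0 * 1 ≤ K0 * Λ := Nat.mul_le_mul_left _ (by
          have := hP.pΛ
          have := hP.hp
          omega)
        have := hP.labs
        have := hP.KB
        omega
      have h4 : (K0 : ℝ) ≤ Δ := by
        rw [mul_one] at h2
        exact_mod_cast h2
      have h5 : 1 ≤ (Δ : ℝ) / K0 := (one_le_div hK).2 h4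
      linarith
    rintro ℓ (v | x)
    · refine le_trans ?_ (wnd1 G Λ p hP.hp hP.pΛ f c hfc _ hfd ℓ v)
      have h1 : ((U ℓ).filter fun u => H.Adj (Sum.inl v) u) ⊆
          (univ.filter fun u => G.Adj v u ∧ c u < ℓ + p ∧ ℓ < c u + p).image Sum.inl := by
        rintro (u | y) hu
        · rw [mem_filter] at hu
          refine mem_image_of_mem _ (mem_filter.2 ⟨mem_univ _, (hll _ _).1 hu.2, (hUm _ _).1 hu.1⟩)
        · exact absurd (mem_filter.1 hu).1 (hUr ℓ y)
      exact_mod_cast (card_le_card h1).trans card_image_le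
    · refine le_trans ?_ hpos
      have h1 : ((U ℓ).filter fun u => H.Adj (Sum.inr x) u).card ≤ dg H (Sum.inr x) := by
        unfold dg
        exact card_le_card fun u hu => mem_filter.2 ⟨mem_univ _, (mem_filter.1 hu).2⟩
      exact_mod_cast h1.trans (hdL x)
  have hg0 : (0 : ℝ) ≤ g := Nat.cast_nonneg _
  -- the splitting
  obtain ⟨cl, s1, s2, s3, s4, s5⟩ := spl H Δ r g K (2 ^ k) hP.hΔ1 hdH A' hA'1 U hP.hrK (by
      rintro (v | x)
      · refine le_trans (card_le_card ?_) (wnd2 K (2 ^ k) p (c v) hP.pB)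
        intro j hj
        rw [mem_filter] at hj ⊢
        obtain ⟨ℓ, h1, h2, h3⟩ := hj.2
        obtain ⟨h4, h5⟩ := (hUm ℓ v).1 h3
        exact ⟨hj.1, ℓ, h1, h2, h4, h5⟩
      · refine le_trans (card_le_card (t := ∅) ?_) (by simp)
        intro j hj
        rw [mem_filter] at hj
        obtain ⟨ℓ, h1, h2, h3⟩ := hj.2
        exact absurd h3 (hUr ℓ x)) t hP.ht hP.eS
  have hdgm : ∀ v (y : ℝ), 0 ≤ y → dg H v * y / Δ ≤ y := by
    intro v y hy
    rw [div_le_iff₀ hΔ0, mul_comm]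
    refine mul_le_mul_of_nonneg_left ?_ hy
    exact_mod_cast hdH v
  -- near-perfect matchings
  obtain ⟨nn, hnn, hB1, hB2⟩ := npm H C Δ k r g K hdH U cl (by
      intro j hj v
      have h1 := (abs_le.1 (s3 v j hj)).2
      have h2 := hdgm v g hg0
      have h3 := hP.gB
      have h4 : (dg (cls H cl (r + j * g) (r + (j + 1) * g)) v : ℝ) + 1 ≤ 2 ^ k := by linarith
      exact_mod_cast h4) ((2 : ℝ) ^ k - g + t) (2 * ((Δ : ℝ) / K0 + t) * g / Δ + t) (2 * g + t) e1 (by
      rintro j hj (v | x) hv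
      · have h1 := (abs_le.1 (s3 (Sum.inl v) j hj)).1
        rw [hdC v, mul_div_assoc, mul_div_cancel₀ _ hΔ0.ne'] at h1
        linarith
      · exact absurd hv (hCr x)) (by
      intro j hj ℓ hℓ v
      refine (s4 v j hj ℓ hℓ).trans ?_
      have h1 := hU1 ℓ v
      have h2 : (((U ℓ).filter fun u => H.Adj v u).card : ℝ) * g / Δ ≤
          2 * ((Δ : ℝ) / K0 + t) * g / Δ := by
        refine div_le_div_of_nonneg_right ?_ hΔ0.le
        exact mul_le_mul_of_nonneg_right h1 hg0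
      linarith) (by
      intro v
      refine (s5 v).trans ?_
      have h2 := hdgm v g hg0
      linarith) ℓ0 Lm t hP.ht hP.hLm hP.hΔ1 hP.kΔ hP.hℓ hP.eQ hP.eM hP.he1 hP.he2 (by
      have := hP.gB
      have := hP.ht
      linarith)
  have hcast : (((2 ^ k : ℕ)) : ℝ) = (2 : ℝ) ^ k := by push_cast; rfl
  -- the process
  obtain ⟨mm, hSt⟩ := prc H (cls H cl 0 r) (fun u v h => h.1) C Δ K (2 ^ k) hdH hL U hUC nn hnn A'
    hA'1 hA'C hA'2 r Ld t e1 ((cap : ℝ) * r / Δ + t) ((r : ℝ) / Ld) γ hP.hLd hP.hΔ1 hP.ht hP.kΔ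
    hP.eP (by
      rintro (v | x) hv
      · have h1 := (abs_le.1 (s1 (Sum.inl v))).1
        rw [hdC v, mul_div_assoc, mul_div_cancel₀ _ hΔ0.ne'] at h1
        linarith
      · exact absurd hv (hCr x)) (by
      intro v
      have h1 := (abs_le.1 (s1 v)).2
      have h2 := hdgm v r (Nat.cast_nonneg _)
      linarith) (by
      intro v
      refine (s2 v).trans ?_
      have h1 : ((A' v).card : ℝ) * r / Δ ≤ (cap : ℝ) * r / Δ := by
        refine div_le_div_of_nonneg_right ?_ hΔ0.le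
        refine mul_le_mul_of_nonneg_right ?_ (Nat.cast_nonneg _)
        exact_mod_cast hA'c v
      linarith) (fun ℓ v => (hU1 ℓ v).trans hP.hU1) hB1 hB2 hP.hγ hP.hγ1 hP.hD (by
      rw [hcast]
      exact hP.hN1) hP.hN2 hP.hN3
  have hcM : ∀ v, c v + p ≤ K * 2 ^ k := by
    intro v
    have h1 := (hfc v).2
    have h2 : (f v + 1) * Λ ≤ K0 * Λ := Nat.mul_le_mul_right _ (hf v)
    have h3 := hP.labs
    omega
  refine bak G Δ p (K * 2 ^ k) hP.hp ?_ hΔ c hcM hcp ?_ mm U hUm ?_ ?_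
  · have := hP.labs
    omega
  · have := hP.KB
    have := hP.hp
    omega
  · rw [← hH]
    exact hSt.pm
  · intro ℓ hℓ v hv
    exact hSt.cov ℓ hℓ _ (hCm v) hv

end Pool.Agent.H71.MA
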