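import Mathlib
import Pool.Agent.H71.MA.Bas

/-!
NCO: the conditions on the vertex colouring (`Λ := ⌊(1 - 1/(2N)) Δ / N^13⌋₊`, `K0 = N^13`).

Proof.  Reals `n = N ≥ 10^4`, `x = Δ`, `b = 2^k`, `n^200 ≤ x ≤ 2 n^200`, `n^180 ≤ b ≤ 2 n^180`,
`y := (1 - 1/(2n)) x / n^13`, `y - 1 ≤ Λ ≤ y` (`Nat.floor_le`, `Nat.lt_floor_add_one`).
(1) `2 (cap / n^13 + b / n^14) + 1 ≤ ((1 - 1/n) x + 2) / n^13 + 2 b / n^14 + 1 ≤ y - 1`: `y - (1 - 1/n) x / n^13 =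
 x / (2 n^14) ≥ n^186 / 2` and `2 / n^13 + 2 b / n^14 + 2 ≤ 4 + 4 n^166 ≤ n^186 / 2`.
(2) `2 p ≤ Λ`: `Λ ≥ y - 1 ≥ x / (2 n^13) - 1 ≥ n^187 / 2 - 1 ≥ 2 n^161`.
(3) `2 p ≤ 2 N^161 ≤ N^180 < 2^k`.
(4) `N^13 Λ + p ≤ K 2^k`: `n^13 Λ ≤ (1 - 1/(2n)) x`; `K 2^k ≥ x - 2 r - b ≥ x - x / (8 n) - b` (`r2`), so the
 difference `K 2^k - N^13 Λ ≥ x / (2n) - x / (8n) - b = 3 x / (8 n) - b ≥ (3/8) n^199 - 2 n^180 ≥ n^161 ≥ p`.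
(5) `2 (x / n^13 + b / n^14) ≤ x / n^9`: `2 x / n^13 ≤ x / (2 n^9)` and `2 b / n^14 ≤ 4 n^166 ≤ n^191 / 2 ≤ x / (2 n^9)`.
-/

set_option autoImplicit false

namespace Pool.Agent.H71.MA

open Finset Classical

theorem Nco_core (n X b m : ℝ) (hn : 10 ^ 4 ≤ n) (hm : m = n ^ 166) (hX1 : n ^ 200 ≤ X) (hb2 : b ≤ 2 * n ^ 180)
    (hb0 : 0 ≤ b) :
    ∃ e f : ℝ, X = e * n ^ 14 ∧ b = f * n ^ 14 ∧ 0 ≤ f ∧ f ≤ 2 * m ∧ 1000 * n * m ≤ e ∧ 1 ≤ m := by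
  have hn0 : (0 : ℝ) < n := by linarith [show (0 : ℝ) < 10 ^ 4 by norm_num]
  have hn1 : (1 : ℝ) ≤ n := by linarith [show (1 : ℝ) ≤ 10 ^ 4 by norm_num]
  obtain ⟨w, hw⟩ : ∃ w, w = n ^ 14 := ⟨_, rfl⟩
  have hw0 : 0 < w := by rw [hw]; exact pow_pos hn0 14
  have hm1 : 1 ≤ m := by rw [hm]; exact one_le_pow₀ hn1
  have e200 : n ^ 200 = n ^ 19 * n * m * w := by rw [hm, hw, ← pow_succ, ← pow_add, ← pow_add]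
  have e180 : n ^ 180 = m * w := by rw [hm, hw, ← pow_add]
  have e19 : (1000 : ℝ) ≤ n ^ 19 := by
    have h1 : n ^ 1 ≤ n ^ 19 := pow_le_pow_right₀ hn1 (by norm_num)
    rw [pow_one] at h1
    linarith [show (1000 : ℝ) ≤ 10 ^ 4 by norm_num]
  rw [e200] at hX1
  rw [e180] at hb2
  rw [← hw]
  refine ⟨X / w, b / w, by field_simp, by field_simp, by positivity, ?_, ?_, hm1⟩
  · rw [div_le_iff₀ hw0]
    linarith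
  · rw [le_div_iff₀ hw0]
    refine le_trans ?_ hX1
    have h2 : 0 ≤ n * m * w := by positivity
    have h3 := mul_le_mul_of_nonneg_right e19 h2
    calc 1000 * n * m * w = 1000 * (n * m * w) := by ring
      _ ≤ n ^ 19 * (n * m * w) := h3
      _ = n ^ 19 * n * m * w := by ring

theorem Nco_five (n e f m : ℝ) (hn : 10 ^ 4 ≤ n) (hm : 1 ≤ m) (hf : f ≤ 2 * m) (he : 1000 * n * m ≤ e) :
    2 * (e * n ^ 14 / n ^ 13 + f * n ^ 14 / n ^ 14) ≤ e * n ^ 14 / n ^ 9 := by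
  have hn0 : (0 : ℝ) < n := by linarith [show (0 : ℝ) < 10 ^ 4 by norm_num]
  have hn1 : (1 : ℝ) ≤ n := by linarith [show (1 : ℝ) ≤ 10 ^ 4 by norm_num]
  have h1 : e * n ^ 14 / n ^ 13 = e * n := by field_simp
  have h2 : f * n ^ 14 / n ^ 14 = f := by field_simp
  have h3 : e * n ^ 14 / n ^ 9 = e * n ^ 5 := by field_simp
  rw [h1, h2, h3]
  have h4 : 0 ≤ n * m := by positivity
  have he0 : 0 ≤ e := by nlinarith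
  have h5 : m ≤ n * m := le_mul_of_one_le_left (by linarith) hn1
  have h6 : (10 : ℝ) * n ≤ n ^ 5 := by
    have h7 : n ^ 2 ≤ n ^ 5 := pow_le_pow_right₀ hn1 (by norm_num)
    nlinarith
  have h8 := mul_le_mul_of_nonneg_left h6 he0
  have h9 : e ≤ e * n := le_mul_of_one_le_right he0 hn1
  nlinarith

theorem nco (N Δ k r g K p cap : ℕ) (h : Bas N Δ k r g K) (hp : p ≤ N ^ 161)
    (hcap : (cap : ℝ) ≤ (1 - 1 / (N : ℝ)) * Δ / 2 + 1) :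
    2 * ((cap : ℝ) / ((N ^ 13 : ℕ) : ℝ) + 2 ^ k / (N : ℝ) ^ 14) + 1 ≤
      ((⌊(1 - 1 / (2 * (N : ℝ))) * Δ / (N : ℝ) ^ 13⌋₊ : ℕ) : ℝ) ∧
    2 * p ≤ ⌊(1 - 1 / (2 * (N : ℝ))) * Δ / (N : ℝ) ^ 13⌋₊ ∧
    2 * p ≤ 2 ^ k ∧
    N ^ 13 * ⌊(1 - 1 / (2 * (N : ℝ))) * Δ / (N : ℝ) ^ 13⌋₊ + p ≤ K * 2 ^ k ∧
    2 * ((Δ : ℝ) / ((N ^ 13 : ℕ) : ℝ) + 2 ^ k / (N : ℝ) ^ 14) ≤ Δ / (N : ℝ) ^ 9 := by
  have hn : (10 : ℝ) ^ 4 ≤ (N : ℝ) := by exact_mod_cast h.n4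
  have hX1 : (N : ℝ) ^ 200 ≤ (Δ : ℝ) := by exact_mod_cast h.x1
  have hb2 : (2 : ℝ) ^ k ≤ 2 * (N : ℝ) ^ 180 := by exact_mod_cast h.b2
  have hb0 : (0 : ℝ) ≤ (2 : ℝ) ^ k := by positivity
  have hpR : (p : ℝ) ≤ (N : ℝ) ^ 161 := by exact_mod_cast hp
  have h3 : 2 * p ≤ 2 ^ k := by
    have h1 : N ^ 162 ≤ N ^ 180 := Nat.pow_le_pow_right (by have := h.n4; omega) (by norm_num)
    have h2 : 2 * N ^ 161 ≤ N ^ 162 := by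
      rw [pow_succ N 161, mul_comm]
      exact Nat.mul_le_mul_left _ (by have := h.n4; omega)
    exact (((Nat.mul_le_mul_left 2 hp).trans h2).trans h1).trans h.b1.le
  have hK1 := h.K1
  have hr2 := h.r2
  rw [Nat.cast_pow]
  have hgoal4 : ((N ^ 13 * ⌊(1 - 1 / (2 * (N : ℝ))) * Δ / (N : ℝ) ^ 13⌋₊ + p : ℕ) : ℝ) ≤ ((K * 2 ^ k : ℕ) : ℝ) →
      N ^ 13 * ⌊(1 - 1 / (2 * (N : ℝ))) * Δ / (N : ℝ) ^ 13⌋₊ + p ≤ K * 2 ^ k := fun hh => by exact_mod_cast hh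
  have hgoal2 : ((2 * p : ℕ) : ℝ) ≤ ((⌊(1 - 1 / (2 * (N : ℝ))) * Δ / (N : ℝ) ^ 13⌋₊ : ℕ) : ℝ) →
      2 * p ≤ ⌊(1 - 1 / (2 * (N : ℝ))) * Δ / (N : ℝ) ^ 13⌋₊ := fun hh => by exact_mod_cast hh
  obtain ⟨L, hL⟩ : ∃ L, L = ⌊(1 - 1 / (2 * (N : ℝ))) * Δ / (N : ℝ) ^ 13⌋₊ := ⟨_, rfl⟩
  have hLu := Nat.lt_floor_add_one ((1 - 1 / (2 * (N : ℝ))) * Δ / (N : ℝ) ^ 13)
  have hN0 : (0 : ℝ) < (N : ℝ) := by linarith [show (0 : ℝ) < 10 ^ 4 by norm_num]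
  have hN1 : (1 : ℝ) ≤ (N : ℝ) := by linarith [show (1 : ℝ) ≤ 10 ^ 4 by norm_num]
  have hpos : 0 ≤ (1 - 1 / (2 * (N : ℝ))) * Δ / (N : ℝ) ^ 13 := by
    have h1 : 1 / (2 * (N : ℝ)) ≤ 1 := by
      rw [div_le_one (by positivity)]
      linarith
    have h2 : 0 ≤ 1 - 1 / (2 * (N : ℝ)) := by linarith
    positivity
  have hLl := Nat.floor_le hpos
  rw [← hL] at hLu hLl hgoal4 hgoal2 ⊢
  push_cast at hgoal4 hgoal2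
  obtain ⟨n, hnn⟩ : ∃ n : ℝ, n = (N : ℝ) := ⟨_, rfl⟩
  obtain ⟨X, hXX⟩ : ∃ X : ℝ, X = (Δ : ℝ) := ⟨_, rfl⟩
  obtain ⟨b, hbb⟩ : ∃ b : ℝ, b = (2 : ℝ) ^ k := ⟨_, rfl⟩
  obtain ⟨l, hll⟩ : ∃ l : ℝ, l = (L : ℝ) := ⟨_, rfl⟩
  obtain ⟨c, hcc⟩ : ∃ c : ℝ, c = (cap : ℝ) := ⟨_, rfl⟩
  obtain ⟨P, hPP⟩ : ∃ P : ℝ, P = (p : ℝ) := ⟨_, rfl⟩
  obtain ⟨R, hRR⟩ : ∃ R : ℝ, R = (r : ℝ) := ⟨_, rfl⟩
  obtain ⟨κ, hκκ⟩ : ∃ κ : ℝ, κ = (K : ℝ) := ⟨_, rfl⟩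
  rw [← hnn, ← hXX] at hX1 hLu hLl hr2 hcap ⊢
  rw [← hnn] at hn hb2 hpR hN0 hN1 hgoal4
  rw [← hbb] at hb2 hb0 hK1 hgoal4 ⊢
  rw [← hll] at hLu hLl hgoal4 hgoal2 ⊢
  rw [← hcc] at hcap ⊢
  rw [← hPP] at hpR hgoal4 hgoal2
  rw [← hRR, ← hκκ, ← hXX] at hK1
  rw [← hRR] at hr2
  rw [← hκκ] at hgoal4
  clear hpos
  obtain ⟨m, hm⟩ : ∃ m, m = n ^ 166 := ⟨_, rfl⟩
  have hPm : P ≤ m := by
    rw [hm]
    exact hpR.trans (pow_le_pow_right₀ hN1 (by norm_num))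
  obtain ⟨e, f, hXe, hbf, hf0, hf2, he, hm1⟩ := Nco_core n X b m hn hm hX1 hb2 hb0
  clear hX1 hb2 hb0 hpR hm
  have hnm : 0 ≤ n * m := by positivity
  have hmn : m ≤ n * m := le_mul_of_one_le_left (by linarith) hN1
  have he0 : 0 ≤ e := by nlinarith
  have hy : (1 - 1 / (2 * n)) * X / n ^ 13 = e * n - e / 2 := by
    rw [hXe]
    field_simp
  rw [hy] at hLu hLl
  have hen : e ≤ e * n := le_mul_of_one_le_right he0 hN1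
  have hw1 : (1 : ℝ) ≤ n ^ 13 := one_le_pow₀ hN1
  refine ⟨?_, ?_, h3, ?_, ?_⟩
  · have h1 : c / n ^ 13 ≤ (e * n - e) / 2 + 1 := by
      rw [div_le_iff₀ (by positivity)]
      have h2 : (1 - 1 / n) * X / 2 = (e * n - e) / 2 * n ^ 13 := by
        rw [hXe]
        field_simp
      rw [h2] at hcap
      nlinarith
    have h2 : b / n ^ 14 = f := by
      rw [hbf]
      field_simp
    rw [h2]
    nlinarith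
  · apply hgoal2
    nlinarith
  · apply hgoal4
    have h1 : n ^ 13 * l ≤ n ^ 13 * (e * n - e / 2) := mul_le_mul_of_nonneg_left hLl (by positivity)
    have h2 : X / (16 * n) = e * n ^ 13 / 16 := by
      rw [hXe]
      field_simp
    rw [h2] at hr2
    obtain ⟨w, hw⟩ : ∃ w, w = n ^ 13 := ⟨_, rfl⟩
    have h4 : n ^ 14 = n * w := by rw [hw]; ring
    rw [h4] at hXe hbf
    rw [← hw] at h1 hr2 hw1 ⊢
    have h5 : 1000 * n * m * w ≤ e * w := mul_le_mul_of_nonneg_right he (by linarith)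
    have h6 : f * (n * w) ≤ 2 * m * (n * w) := mul_le_mul_of_nonneg_right hf2 (by positivity)
    have h7 : n * m ≤ n * m * w := le_mul_of_one_le_right hnm hw1
    rw [hXe, hbf] at hK1
    rw [hbf]
    nlinarith
  · rw [hXe, hbf]
    exact Nco_five n e f m hn hm1 hf2 he

end Pool.Agent.H71.MA
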