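import Mathlib
import Pool.Agent.H71.MA.Bas

/-!
NEX: the exponential conditions.

Proof.  Let `n := (N : ℝ)`, `b := (2 : ℝ)^k`, `x := (Δ : ℝ)`; `n ≥ 10^4`, `n^180 ≤ b ≤ 2 n^180`, `n^200 ≤ x ≤ 2 n^200`.
Choose `N0 ≥ 10^4` such that `8 * n^1000 ≤ exp n` for `N ≥ N0` (e.g. from `Real.tendsto_pow_mul_exp_neg_atTop_nhds_zero 1000`).
So (helper) if `n ≤ E` and `0 ≤ F ≤ n^1000` then `8 * exp (-E) * F ≤ 1`.
With `t = b / n^14 ≥ n^166`: `t^2 / (2 x) ≥ n^332 / (4 n^200) = n^132 / 4 ≥ n`, `t^2 / (8 x) ≥ n^132 / 16 ≥ n`,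
`2 ℓ0 + 2 ≤ 4 n^16` (`ℓ0 = N^16`), `t^2 / (2 x (2 ℓ0 + 2)^2) ≥ n^332 / (64 n^232) = n^100 / 64 ≥ n`,
`ℓ0 / Lm = N^16 / N^14 = n^2 ≥ n`.
The factors: `K ≤ Δ` and `K * 2^k ≤ Δ` (`K2`, `1 ≤ 2^k`), `2^k ≤ 2 N^180 ≤ N^200 ≤ Δ`, `K0 = N^13 ≤ Δ`, so
 `Δ (2 (Δ K0)) + 1 ≤ 3 Δ^3`, `Δ (2 (3 + K + K (K 2^k))) + 1 ≤ 11 Δ^3`,
 `Δ (2 (2 ℓ0 + 2) (Δ (1 + 2^k) + 1)) + 1 ≤ 4 Δ * 4 N^16 * 3 Δ^2 + 1`, `Δ (2 + 2 (3 Δ)) + 1 ≤ 9 Δ^2`, all at most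
 `100 * Δ^3 * N^16 ≤ 800 N^616 ≤ N^1000`.
-/

set_option autoImplicit false

namespace Pool.Agent.H71.MA

open Finset Classical

theorem Nex_pow {n : ℝ} (hn : 10 ^ 4 ≤ n) (m p : ℕ) (hmp : m + 1 ≤ p) (c : ℝ) (hc : c ≤ 10 ^ 4) :
    c * n ^ m ≤ n ^ p := by
  have h0 : (0 : ℝ) ≤ n := le_trans (by norm_num) hn
  have h1 : (1 : ℝ) ≤ n := le_trans (by norm_num) hn
  calc c * n ^ m ≤ n * n ^ m := mul_le_mul_of_nonneg_right (hc.trans hn) (pow_nonneg h0 m)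
    _ = n ^ (m + 1) := by rw [pow_succ, mul_comm]
    _ ≤ n ^ p := pow_le_pow_right₀ h1 hmp

theorem Nex_exp {n E F : ℝ} (h : 8 * (n ^ 1000 * Real.exp (-n)) ≤ 1) (hE : n ≤ E) (hF0 : 0 ≤ F)
    (hF : F ≤ n ^ 1000) : 8 * Real.exp (-E) * F ≤ 1 := by
  have h1 : Real.exp (-E) ≤ Real.exp (-n) := Real.exp_le_exp.2 (neg_le_neg hE)
  have h2 : Real.exp (-E) * F ≤ Real.exp (-n) * n ^ 1000 :=
    mul_le_mul h1 hF hF0 (Real.exp_pos _).le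
  calc 8 * Real.exp (-E) * F = 8 * (Real.exp (-E) * F) := by ring
    _ ≤ 8 * (Real.exp (-n) * n ^ 1000) := by linarith
    _ = 8 * (n ^ 1000 * Real.exp (-n)) := by rw [mul_comm (Real.exp (-n))]
    _ ≤ 1 := h

theorem Nex_E {n x t D : ℝ} (hn : 10 ^ 4 ≤ n) (ht : n ^ 166 ≤ t) (hD : 0 < D) (h : n * D ≤ n ^ 332) :
    n ≤ t ^ 2 / D := by
  have h0 : (0 : ℝ) ≤ n := le_trans (by norm_num) hn
  rw [le_div_iff₀ hD]
  refine h.trans ?_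
  calc n ^ 332 = (n ^ 166) ^ 2 := by rw [← pow_mul]
    _ ≤ t ^ 2 := pow_le_pow_left₀ (pow_nonneg h0 _) ht 2

theorem Nex_main {n x b K : ℝ} (hn : 10 ^ 4 ≤ n) (hb1 : n ^ 180 ≤ b) (hb2 : b ≤ 2 * n ^ 180)
    (hx1 : n ^ 200 ≤ x) (hx2 : x ≤ 2 * n ^ 200) (hK0 : 0 ≤ K) (hKx : K ≤ x) (hKb : K * b ≤ x)
    (h : 8 * (n ^ 1000 * Real.exp (-n)) ≤ 1) :
    8 * Real.exp (-((b / n ^ 14) ^ 2 / (2 * x))) * (x * (2 * (x * n ^ 13)) + 1) ≤ 1 ∧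
    8 * Real.exp (-((b / n ^ 14) ^ 2 / (2 * x))) * (x * (2 * (3 + K + K * (K * b))) + 1) ≤ 1 ∧
    4 * Real.exp (-(n ^ 16 / n ^ 14)) * (x * (2 * (2 * n ^ 16 + 2) * (x * (1 + b) + 1)) + 1) ≤ 1 ∧
    8 * Real.exp (-((b / n ^ 14) ^ 2 / (2 * x * (2 * n ^ 16 + 2) ^ 2))) *
      (x * (2 * (2 * n ^ 16 + 2) * (x * (1 + b) + 1)) + 1) ≤ 1 ∧
    8 * Real.exp (-((b / n ^ 14) ^ 2 / (8 * x))) * (x * (2 + 2 * (3 * x)) + 1) ≤ 1 := by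
  have h1 : (1 : ℝ) ≤ n := le_trans (by norm_num) hn
  have h0 : (0 : ℝ) < n := lt_of_lt_of_le one_pos h1
  have hp : ∀ m : ℕ, (1 : ℝ) ≤ n ^ m := fun m => one_le_pow₀ h1
  have hx : 1 ≤ x := (hp 200).trans hx1
  have hx0 : 0 < x := lt_of_lt_of_le one_pos hx
  have hb : 1 ≤ b := (hp 180).trans hb1
  have hb0 : 0 < b := lt_of_lt_of_le one_pos hb
  have ht : n ^ 166 ≤ b / n ^ 14 := by
    rw [le_div_iff₀ (pow_pos h0 14), ← pow_add]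
    exact hb1
  have hbx : b ≤ x := by
    refine hb2.trans (le_trans ?_ hx1)
    exact Nex_pow hn 180 200 (by norm_num) 2 (by norm_num)
  have hx3 : x ^ 3 ≤ 8 * n ^ 600 := by
    calc x ^ 3 ≤ (2 * n ^ 200) ^ 3 := pow_le_pow_left₀ hx0.le hx2 3
      _ = 8 * n ^ 600 := by
        rw [mul_pow, ← pow_mul]
        norm_num
  have hx22 : x ^ 2 ≤ 4 * n ^ 400 := by
    calc x ^ 2 ≤ (2 * n ^ 200) ^ 2 := pow_le_pow_left₀ hx0.le hx2 2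
      _ = 4 * n ^ 400 := by
        rw [mul_pow, ← pow_mul]
        norm_num
  have hxx : x ≤ x ^ 2 := by
    calc x = x ^ 1 := (pow_one x).symm
      _ ≤ x ^ 2 := pow_le_pow_right₀ hx (by norm_num)
  have h13 : (1 : ℝ) ≤ x ^ 3 := one_le_pow₀ hx
  have h12 : (1 : ℝ) ≤ x ^ 2 := one_le_pow₀ hx
  have hl : 2 * n ^ 16 + 2 ≤ 4 * n ^ 16 := by
    have := hp 16
    linarith
  have hl0 : 0 < 2 * n ^ 16 + 2 := by
    have := hp 16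
    linarith
  -- the factors
  have F1 : x * (2 * (x * n ^ 13)) + 1 ≤ n ^ 1000 := by
    have e1 : x * (2 * (x * n ^ 13)) = 2 * (x ^ 2 * n ^ 13) := by ring
    have e2 : x ^ 2 * n ^ 13 ≤ 4 * n ^ 400 * n ^ 13 :=
      mul_le_mul_of_nonneg_right hx22 (pow_pos h0 13).le
    have e3 : 4 * n ^ 400 * n ^ 13 = 4 * n ^ 413 := by
      rw [mul_assoc, ← pow_add]
    have e4 := hp 413
    have e5 := Nex_pow hn 413 1000 (by norm_num) 9 (by norm_num)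
    rw [e1]
    linarith
  have F2 : x * (2 * (3 + K + K * (K * b))) + 1 ≤ n ^ 1000 := by
    have e1 : K * (K * b) ≤ x * x := mul_le_mul hKx hKb (mul_nonneg hK0 hb0.le) hx0.le
    have e2 : 3 + K + K * (K * b) ≤ 5 * x ^ 2 := by
      have e3 : x * x = x ^ 2 := by ring
      linarith
    have e4 : x * (2 * (3 + K + K * (K * b))) ≤ x * (2 * (5 * x ^ 2)) :=
      mul_le_mul_of_nonneg_left (by linarith) hx0.le
    have e5 : x * (2 * (5 * x ^ 2)) = 10 * x ^ 3 := by ring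
    have e6 := Nex_pow hn 600 1000 (by norm_num) 88 (by norm_num)
    linarith
  have F3 : x * (2 * (2 * n ^ 16 + 2) * (x * (1 + b) + 1)) + 1 ≤ n ^ 1000 := by
    have e1 : x * (1 + b) + 1 ≤ 3 * x ^ 2 := by
      have e2 : x * (1 + b) ≤ x * (2 * x) := mul_le_mul_of_nonneg_left (by linarith) hx0.le
      have e3 : x * (2 * x) = 2 * x ^ 2 := by ring
      linarith
    have e0 : 0 ≤ x * (1 + b) + 1 := by positivity
    have e4 : 2 * (2 * n ^ 16 + 2) * (x * (1 + b) + 1) ≤ 2 * (4 * n ^ 16) * (3 * x ^ 2) :=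
      mul_le_mul (by linarith) e1 e0 (by positivity)
    have e5 : x * (2 * (2 * n ^ 16 + 2) * (x * (1 + b) + 1)) ≤ x * (2 * (4 * n ^ 16) * (3 * x ^ 2)) :=
      mul_le_mul_of_nonneg_left e4 hx0.le
    have e6 : x * (2 * (4 * n ^ 16) * (3 * x ^ 2)) = 24 * (x ^ 3 * n ^ 16) := by ring
    have e7 : x ^ 3 * n ^ 16 ≤ 8 * n ^ 600 * n ^ 16 :=
      mul_le_mul_of_nonneg_right hx3 (pow_pos h0 16).le
    have e8 : 8 * n ^ 600 * n ^ 16 = 8 * n ^ 616 := by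
      rw [mul_assoc, ← pow_add]
    have e9 := Nex_pow hn 616 1000 (by norm_num) 200 (by norm_num)
    have e10 := hp 616
    linarith
  have F5 : x * (2 + 2 * (3 * x)) + 1 ≤ n ^ 1000 := by
    have e1 : x * (2 + 2 * (3 * x)) = 2 * x + 6 * x ^ 2 := by ring
    have e6 := Nex_pow hn 400 1000 (by norm_num) 36 (by norm_num)
    rw [e1]
    linarith
  have G3 : 0 ≤ x * (2 * (2 * n ^ 16 + 2) * (x * (1 + b) + 1)) + 1 := by positivity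
  -- the exponents
  have E1 : n ≤ (b / n ^ 14) ^ 2 / (2 * x) := by
    refine Nex_E (x := x) hn ht (by linarith) ?_
    have e1 : n * (2 * x) ≤ n * (2 * (2 * n ^ 200)) := mul_le_mul_of_nonneg_left (by linarith) h0.le
    have e2 : n * (2 * (2 * n ^ 200)) = 4 * n ^ 201 := by ring
    have e3 := Nex_pow hn 201 332 (by norm_num) 4 (by norm_num)
    linarith
  have E5 : n ≤ (b / n ^ 14) ^ 2 / (8 * x) := by
    refine Nex_E (x := x) hn ht (by linarith) ?_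
    have e1 : n * (8 * x) ≤ n * (8 * (2 * n ^ 200)) := mul_le_mul_of_nonneg_left (by linarith) h0.le
    have e2 : n * (8 * (2 * n ^ 200)) = 16 * n ^ 201 := by ring
    have e3 := Nex_pow hn 201 332 (by norm_num) 16 (by norm_num)
    linarith
  have E4 : n ≤ (b / n ^ 14) ^ 2 / (2 * x * (2 * n ^ 16 + 2) ^ 2) := by
    refine Nex_E (x := x) hn ht (by positivity) ?_
    have e1 : (2 * n ^ 16 + 2) ^ 2 ≤ (4 * n ^ 16) ^ 2 := pow_le_pow_left₀ hl0.le hl 2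
    have e2 : 2 * x * (2 * n ^ 16 + 2) ^ 2 ≤ 2 * (2 * n ^ 200) * (4 * n ^ 16) ^ 2 :=
      mul_le_mul (by linarith) e1 (by positivity) (by positivity)
    have e3 : n * (2 * x * (2 * n ^ 16 + 2) ^ 2) ≤ n * (2 * (2 * n ^ 200) * (4 * n ^ 16) ^ 2) :=
      mul_le_mul_of_nonneg_left e2 h0.le
    have e4 : n * (2 * (2 * n ^ 200) * (4 * n ^ 16) ^ 2) = 64 * n ^ 233 := by
      rw [mul_pow, ← pow_mul]
      ring
    have e5 := Nex_pow hn 233 332 (by norm_num) 64 (by norm_num)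
    linarith
  have E3 : n ≤ n ^ 16 / n ^ 14 := by
    rw [le_div_iff₀ (pow_pos h0 14)]
    have e1 := Nex_pow hn 15 16 (by norm_num) 1 (by norm_num)
    have e2 : n * n ^ 14 = 1 * n ^ 15 := by ring
    linarith
  refine ⟨Nex_exp h E1 (by positivity) F1, Nex_exp h E1 (by positivity) F2, ?_, Nex_exp h E4 G3 F3,
    Nex_exp h E5 (by positivity) F5⟩
  have h3 := Nex_exp h E3 G3 F3
  have h4 : 0 ≤ Real.exp (-(n ^ 16 / n ^ 14)) *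
      (x * (2 * (2 * n ^ 16 + 2) * (x * (1 + b) + 1)) + 1) := mul_nonneg (Real.exp_pos _).le G3
  linarith

theorem nex : ∃ N0 : ℕ, ∀ N Δ k r g K : ℕ, N0 ≤ N → Bas N Δ k r g K →
    8 * Real.exp (-(((2 : ℝ) ^ k / (N : ℝ) ^ 14) ^ 2 / (2 * Δ))) *
      ((Δ : ℝ) * (2 * (Δ * N ^ 13) : ℕ) + 1) ≤ 1 ∧
    8 * Real.exp (-(((2 : ℝ) ^ k / (N : ℝ) ^ 14) ^ 2 / (2 * Δ))) *
      ((Δ : ℝ) * (2 * (3 + K + K * (K * 2 ^ k)) : ℕ) + 1) ≤ 1 ∧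
    4 * Real.exp (-(((N ^ 16 : ℕ) : ℝ) / ((N ^ 14 : ℕ) : ℝ))) *
      ((Δ : ℝ) * (2 * (2 * N ^ 16 + 2) * (Δ * (1 + 2 ^ k) + 1) : ℕ) + 1) ≤ 1 ∧
    8 * Real.exp (-(((2 : ℝ) ^ k / (N : ℝ) ^ 14) ^ 2 /
      (2 * Δ * (2 * ((N ^ 16 : ℕ) : ℝ) + 2) ^ 2))) *
      ((Δ : ℝ) * (2 * (2 * N ^ 16 + 2) * (Δ * (1 + 2 ^ k) + 1) : ℕ) + 1) ≤ 1 ∧
    8 * Real.exp (-(((2 : ℝ) ^ k / (N : ℝ) ^ 14) ^ 2 / (8 * Δ))) *
      ((Δ : ℝ) * (2 + 2 * (3 * Δ) : ℕ) + 1) ≤ 1 := by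
  have h1 := Real.tendsto_pow_mul_exp_neg_atTop_nhds_zero 1000
  have h2 := h1.eventually (gt_mem_nhds (show (0 : ℝ) < 1 / 8 by norm_num))
  obtain ⟨a, ha⟩ := Filter.eventually_atTop.1 h2
  refine ⟨⌈a⌉₊, fun N Δ k r g K hN hB => ?_⟩
  have h3 : a ≤ (N : ℝ) := (Nat.le_ceil a).trans (Nat.cast_le.2 hN)
  have h4 := ha (N : ℝ) h3
  have hn : (10 : ℝ) ^ 4 ≤ (N : ℝ) := by
    have := Nat.cast_le (α := ℝ).2 hB.n4
    rwa [Nat.cast_pow, Nat.cast_ofNat] at this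
  have hb1 : (N : ℝ) ^ 180 ≤ (2 : ℝ) ^ k := by
    have := Nat.cast_le (α := ℝ).2 hB.b1.le
    rwa [Nat.cast_pow, Nat.cast_pow, Nat.cast_ofNat] at this
  have hb2 : (2 : ℝ) ^ k ≤ 2 * (N : ℝ) ^ 180 := by
    have := Nat.cast_le (α := ℝ).2 hB.b2
    rwa [Nat.cast_mul, Nat.cast_pow, Nat.cast_pow, Nat.cast_ofNat] at this
  have hx1 : (N : ℝ) ^ 200 ≤ (Δ : ℝ) := by
    have := Nat.cast_le (α := ℝ).2 hB.x1
    rwa [Nat.cast_pow] at this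
  have hx2 : (Δ : ℝ) ≤ 2 * (N : ℝ) ^ 200 := by
    have := Nat.cast_le (α := ℝ).2 hB.x2
    rwa [Nat.cast_mul, Nat.cast_pow, Nat.cast_ofNat] at this
  have hKb : (K : ℝ) * (2 : ℝ) ^ k ≤ (Δ : ℝ) := by
    have h5 : K * 2 ^ k ≤ Δ := le_trans (Nat.le_add_right _ _) hB.K2
    have := Nat.cast_le (α := ℝ).2 h5
    rwa [Nat.cast_mul, Nat.cast_pow, Nat.cast_ofNat] at this
  have hKx : (K : ℝ) ≤ (Δ : ℝ) := by
    refine le_trans ?_ hKb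
    exact le_mul_of_one_le_right (Nat.cast_nonneg K) (one_le_pow₀ (by norm_num))
  have h6 := Nex_main hn hb1 hb2 hx1 hx2 (Nat.cast_nonneg K) hKx hKb (by linarith)
  simp only [Nat.cast_mul, Nat.cast_add, Nat.cast_pow, Nat.cast_ofNat, Nat.cast_one]
  exact h6

end Pool.Agent.H71.MA
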