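import Mathlib
import Pool.Agent.H71.MA.Bas

/-!
NRE: the remaining numerical conditions (`t = 2^k / N^14`, `e1 = Δ / N^9`, `Ld = N^4`, `Lm = N^14`,
`K0 = N^13`, `γ = 1 / (2 N)`).

Proof.  Reals `n = N ≥ 10^4`, `x = Δ`, `b = 2^k`, `n^200 ≤ x ≤ 2 n^200`, `n^180 ≤ b ≤ 2 n^180`, so
`b ≤ x / (10^4 n^18)`..., `t = b / n^14 ≤ 2 n^166`, `t ≤ x / n^14`, `K b ≤ x` (`K2`), `K t ≤ x / n^14`,
`x / (32 n) ≤ r ≤ x / (16 n)` (`r1`: `x / (16 n) - 1`), `g ≤ b`, `g ≤ x`, `b - g ≤ 2 b / n^12`.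
(1) `r + K g ≤ Δ` in ℕ: `g ≤ 2^k` (`g2`, `2 b / n^12 ≥ 2`), `K 2^k + 2 r ≤ Δ`.
(2) `g + t + 1 ≤ b`: `g2`, `2 b / n^12 ≥ b / n^12 + 3`, `t ≤ b / n^12`... (`b / n^12 ≥ n^168`).
(3) he1: `b - g + t ≤ 3 b / n^12`; `2 (x / n^13 + t) g / x + t ≤ 2 b / n^13 + 2 t + t ≤ 3 b / n^12`; so the first term is
 `≤ x (6 b / n^12) / b = 6 x / n^12`; second: `2 k (x / n^14 + 2 t) ≤ 2 n * 3 x / n^14 = 6 x / n^13`. Sum `≤ x / n^9`.
(4) he2: `K (3 b / n^12 + k (2 b / n^14)) + 2 g + t ≤ x (3 / n^12 + 2 / n^13) + 3 b ≤ x / n^9` (`b ≤ 2 n^180`).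
(5) `1 ≤ x / n^9`. (6) `γ^2 (r / n^4) = r / (4 n^6) ≥ x / (128 n^7) ≥ 100`.
(7) hN1 is `(t + K (b / n^4 + t) + 3 e1) / n^4 + 2 t + b / n^4 + e1 ≤ r / (20 n^5)`; the left side is at most
 `(t + x / n^4 + x / n^14 + 3 x / n^9) / n^4 + 2 t + b / n^4 + x / n^9 ≤ 5 x / n^8`, and `r / (20 n^5) ≥ x / (640 n^6)`.
(8) hN2: `t / n^4 + t + e1 ≤ r / (20 n^5)`. (9) hN3: `cap r / x ≤ (1 - 1/n) r / 2 + 1` (`r ≤ x`), so the left side is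
 `≤ (1 - 1/n) r / (2 n^4) + (1 + t) / n^4 + t + e1`, the right side is `(1 - 1/(2n)) r / (2 n^4)`, the difference of the
 main terms is `r / (4 n^5) ≥ x / (128 n^6)`.
-/

set_option autoImplicit false

namespace Pool.Agent.H71.MA

open Finset Classical

/-- The parameters in terms of `q = 1 / n`. -/
private structure Nre_P (q b x g r K κ : ℝ) : Prop where
  q0 : 0 < q
  q1 : q ≤ 1 / 10 ^ 4
  b0 : 0 < b
  bx : b ≤ x * q ^ 16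
  xq : 1 ≤ x * q ^ 20
  bq : 10 ≤ b * q ^ 14
  r1 : x * q / 16 - 1 ≤ r
  r2 : r ≤ x * q / 16
  r0 : 0 ≤ r
  g0 : 0 ≤ g
  g1 : b - 2 * (b * q ^ 12) ≤ g
  g2 : g ≤ b - 2 * (b * q ^ 12) + 2
  K0 : 0 ≤ K
  K2 : K * b + 2 * r ≤ x
  κ0 : 0 ≤ κ
  κ1 : κ * q ≤ 1

/-- Comparison of powers. -/
private theorem Nre_pw {q y : ℝ} (hq0 : 0 < q) (hq1 : q ≤ 1 / 10 ^ 4) (hy : 0 ≤ y) (i j : ℕ) :
    y * q ^ (i + j) ≤ y * q ^ i * (1 / 10 ^ 4) ^ j := by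
  rw [pow_add, ← mul_assoc]
  exact mul_le_mul_of_nonneg_left (pow_le_pow_left₀ hq0.le hq1 j) (mul_nonneg hy (pow_nonneg hq0.le i))

private theorem Nre_x0 {q b x g r K κ : ℝ} (h : Nre_P q b x g r K κ) : 0 < x := by
  by_contra hx
  have h1 : x * q ^ 20 ≤ 0 := mul_nonpos_of_nonpos_of_nonneg (not_lt.mp hx) (pow_nonneg h.q0.le 20)
  linarith [h.xq]

private theorem Nre_bx {q b x g r K κ : ℝ} (h : Nre_P q b x g r K κ) : b ≤ x := by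
  have h1 := Nre_pw h.q0 h.q1 (Nre_x0 h).le 0 16
  have h2 := h.bx
  have h3 := Nre_x0 h
  norm_num at h1
  linarith

private theorem Nre_gb {q b x g r K κ : ℝ} (h : Nre_P q b x g r K κ) :
    g + b * q ^ 14 + 1 ≤ b := by
  have h1 := Nre_pw h.q0 h.q1 h.b0.le 12 2
  have h2 := h.bq
  have h3 := h.g2
  norm_num at h1
  linarith

private theorem Nre_gb' {q b x g r K κ : ℝ} (h : Nre_P q b x g r K κ) : g ≤ b := by
  have h1 := Nre_gb h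
  have h2 := h.bq
  linarith

private theorem Nre_2a {q b x g r K κ : ℝ} (h : Nre_P q b x g r K κ) :
    x * ((b - g + b * q ^ 14) + (2 * (x * q ^ 13 + b * q ^ 14) * g / x + b * q ^ 14)) / b +
      2 * (κ * (x * q ^ 14 + 2 * (b * q ^ 14))) ≤ x * q ^ 9 := by
  have hx0 := Nre_x0 h
  have hb0 := h.b0
  have hq0 := h.q0
  have hgb := Nre_gb' h
  have hbx := Nre_bx h
  have e1 : 2 * (x * q ^ 13 + b * q ^ 14) * g / x ≤ 2 * (b * q ^ 13) + 2 * (b * q ^ 14) := by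
    rw [div_le_iff₀ hx0]
    have h1 : x * q ^ 13 * g ≤ x * q ^ 13 * b :=
      mul_le_mul_of_nonneg_left hgb (by positivity)
    have h2 : b * q ^ 14 * g ≤ b * q ^ 14 * x :=
      mul_le_mul_of_nonneg_left (hgb.trans hbx) (by positivity)
    linarith
  have p1 := Nre_pw hq0 h.q1 hb0.le 12 1
  have p2 := Nre_pw hq0 h.q1 hb0.le 12 2
  norm_num at p1 p2
  have p0 : 0 < b * q ^ 12 := by positivity
  have hg1 := h.g1
  have e2 : (b - g + b * q ^ 14) + (2 * (x * q ^ 13 + b * q ^ 14) * g / x + b * q ^ 14) ≤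
      3 * (b * q ^ 12) := by
    linarith
  have e3 : x * ((b - g + b * q ^ 14) + (2 * (x * q ^ 13 + b * q ^ 14) * g / x + b * q ^ 14)) / b ≤
      3 * (x * q ^ 12) := by
    rw [div_le_iff₀ hb0]
    have h1 := mul_le_mul_of_nonneg_left e2 hx0.le
    linarith
  have e4 : κ * (x * q ^ 14 + 2 * (b * q ^ 14)) ≤ 3 * (x * q ^ 13) := by
    have h1 : κ * q * (x * q ^ 13 + 2 * (b * q ^ 13)) ≤ 1 * (x * q ^ 13 + 2 * (b * q ^ 13)) :=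
      mul_le_mul_of_nonneg_right h.κ1 (by positivity)
    have h2 : b * q ^ 13 ≤ x * q ^ 13 := mul_le_mul_of_nonneg_right hbx (by positivity)
    linarith
  have p3 := Nre_pw hq0 h.q1 hx0.le 9 3
  have p4 := Nre_pw hq0 h.q1 hx0.le 9 4
  norm_num at p3 p4
  have p5 : 0 < x * q ^ 9 := by positivity
  linarith

private theorem Nre_2b {q b x g r K κ : ℝ} (h : Nre_P q b x g r K κ) :
    K * ((b - g + b * q ^ 14) + κ * (b * q ^ 14 + b * q ^ 14)) + (2 * g + b * q ^ 14) ≤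
      x * q ^ 9 := by
  have hx0 := Nre_x0 h
  have hb0 := h.b0
  have hq0 := h.q0
  have hgb := Nre_gb' h
  have hbx := h.bx
  have hKb : K * b ≤ x := by linarith [h.K2, h.r0]
  have e1 : κ * (b * q ^ 14 + b * q ^ 14) ≤ 2 * (b * q ^ 13) := by
    have h1 : κ * q * (2 * (b * q ^ 13)) ≤ 1 * (2 * (b * q ^ 13)) :=
      mul_le_mul_of_nonneg_right h.κ1 (by positivity)
    linarith
  have p1 := Nre_pw hq0 h.q1 hb0.le 12 1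
  have p2 := Nre_pw hq0 h.q1 hb0.le 12 2
  norm_num at p1 p2
  have p0 : 0 < b * q ^ 12 := by positivity
  have hg1 := h.g1
  have e2 : (b - g + b * q ^ 14) + κ * (b * q ^ 14 + b * q ^ 14) ≤ b * (3 * q ^ 12) := by
    linarith
  have e3 : K * ((b - g + b * q ^ 14) + κ * (b * q ^ 14 + b * q ^ 14)) ≤ x * (3 * q ^ 12) := by
    have h1 := mul_le_mul_of_nonneg_left e2 h.K0
    have h2 : K * b * (3 * q ^ 12) ≤ x * (3 * q ^ 12) :=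
      mul_le_mul_of_nonneg_right hKb (by positivity)
    linarith
  have p3 := Nre_pw hq0 h.q1 hx0.le 9 3
  have p4 := Nre_pw hq0 h.q1 hx0.le 9 7
  have p6 := Nre_pw hq0 h.q1 hb0.le 0 14
  norm_num at p3 p4 p6
  have p5 : 0 < x * q ^ 9 := by positivity
  linarith

private theorem Nre_r {q b x g r K κ : ℝ} (h : Nre_P q b x g r K κ) : x * q / 32 ≤ r := by
  have hx0 := Nre_x0 h
  have p1 := Nre_pw h.q0 h.q1 hx0.le 1 19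
  have h1 := h.xq
  have h2 := h.r1
  norm_num at p1
  linarith

private theorem Nre_3a {q b x g r K κ : ℝ} (h : Nre_P q b x g r K κ) :
    100 ≤ (1 / 2 * q) ^ 2 * (r * q ^ 4) := by
  have hx0 := Nre_x0 h
  have hq0 := h.q0
  have hr := mul_le_mul_of_nonneg_right (Nre_r h) (by positivity : 0 ≤ q ^ 6)
  have p1 := Nre_pw h.q0 h.q1 hx0.le 7 13
  have h1 := h.xq
  norm_num at p1
  linarith

private theorem Nre_3b {q b x g r K κ : ℝ} (h : Nre_P q b x g r K κ) :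
    (1 - 1 / 2 * q / 10) * (r * q ^ 4) ≤
      (r - b * q ^ 14 - (K * (b * q ^ 4 + b * q ^ 14) + x * q ^ 9) - 2 * (x * q ^ 9)) * q ^ 4 -
        b * q ^ 14 - (b * q ^ 4 + b * q ^ 14 + x * q ^ 9) := by
  have hx0 := Nre_x0 h
  have hq0 := h.q0
  have hb0 := h.b0
  have hr := mul_le_mul_of_nonneg_right (Nre_r h) (by positivity : 0 ≤ q ^ 5)
  have hKb : K * b ≤ x := by linarith [h.K2, h.r0]
  have hK1 := mul_le_mul_of_nonneg_right hKb (by positivity : 0 ≤ q ^ 8)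
  have hK2 := mul_le_mul_of_nonneg_right hKb (by positivity : 0 ≤ q ^ 18)
  have hb4 := mul_le_mul_of_nonneg_right h.bx (by positivity : 0 ≤ q ^ 4)
  have hb14 := mul_le_mul_of_nonneg_right h.bx (by positivity : 0 ≤ q ^ 14)
  have hb18 := mul_le_mul_of_nonneg_right h.bx (by positivity : 0 ≤ q ^ 18)
  have p2 := Nre_pw h.q0 h.q1 hx0.le 6 2
  have p3 := Nre_pw h.q0 h.q1 hx0.le 6 3
  have p7 := Nre_pw h.q0 h.q1 hx0.le 6 7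
  have p12 := Nre_pw h.q0 h.q1 hx0.le 6 12
  have p14 := Nre_pw h.q0 h.q1 hx0.le 6 14
  have p24 := Nre_pw h.q0 h.q1 hx0.le 6 24
  have p28 := Nre_pw h.q0 h.q1 hx0.le 6 28
  norm_num at p2 p3 p7 p12 p14 p24 p28
  have p0 : 0 < x * q ^ 6 := by positivity
  linarith

private theorem Nre_3c {q b x g r K κ : ℝ} (h : Nre_P q b x g r K κ) :
    (r + b * q ^ 14) * q ^ 4 + b * q ^ 14 + x * q ^ 9 ≤ (1 + 1 / 2 * q / 10) * (r * q ^ 4) := by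
  have hx0 := Nre_x0 h
  have hq0 := h.q0
  have hb0 := h.b0
  have hr := mul_le_mul_of_nonneg_right (Nre_r h) (by positivity : 0 ≤ q ^ 5)
  have hb14 := mul_le_mul_of_nonneg_right h.bx (by positivity : 0 ≤ q ^ 14)
  have hb18 := mul_le_mul_of_nonneg_right h.bx (by positivity : 0 ≤ q ^ 18)
  have p3 := Nre_pw h.q0 h.q1 hx0.le 6 3
  have p24 := Nre_pw h.q0 h.q1 hx0.le 6 24
  have p28 := Nre_pw h.q0 h.q1 hx0.le 6 28
  norm_num at p3 p24 p28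
  have p0 : 0 < x * q ^ 6 := by positivity
  linarith

private theorem Nre_3d {q b x g r K κ c : ℝ} (h : Nre_P q b x g r K κ)
    (hc : c ≤ (1 - q) * x / 2 + 1) :
    (c * r / x + b * q ^ 14) * q ^ 4 + b * q ^ 14 + x * q ^ 9 ≤
      (1 - 1 / 2 * q) * (r * q ^ 4) / 2 := by
  have hx0 := Nre_x0 h
  have hq0 := h.q0
  have hb0 := h.b0
  have hrx : r ≤ x := by
    have p1 := Nre_pw h.q0 h.q1 hx0.le 0 1
    norm_num at p1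
    linarith [h.r2]
  have e1 : c * r / x ≤ (1 - q) * r / 2 + 1 := by
    rw [div_le_iff₀ hx0]
    have h1 := mul_le_mul_of_nonneg_right hc h.r0
    linarith
  have e2 := mul_le_mul_of_nonneg_right e1 (by positivity : 0 ≤ q ^ 4)
  have hr := mul_le_mul_of_nonneg_right (Nre_r h) (by positivity : 0 ≤ q ^ 5)
  have hb14 := mul_le_mul_of_nonneg_right h.bx (by positivity : 0 ≤ q ^ 14)
  have hb18 := mul_le_mul_of_nonneg_right h.bx (by positivity : 0 ≤ q ^ 18)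
  have hq4 := mul_le_mul_of_nonneg_right h.xq (by positivity : 0 ≤ q ^ 4)
  have p3 := Nre_pw h.q0 h.q1 hx0.le 6 3
  have p18 := Nre_pw h.q0 h.q1 hx0.le 6 18
  have p24 := Nre_pw h.q0 h.q1 hx0.le 6 24
  have p28 := Nre_pw h.q0 h.q1 hx0.le 6 28
  norm_num at p3 p18 p24 p28
  have p0 : 0 < x * q ^ 6 := by positivity
  linarith

/-- The parameters satisfy the conditions. -/
private theorem Nre_of {N Δ k r g K : ℕ} (h : Bas N Δ k r g K) :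
    Nre_P ((N : ℝ)⁻¹) ((2 : ℝ) ^ k) Δ g r K k := by
  have hn : (10 : ℝ) ^ 4 ≤ (N : ℝ) := by exact_mod_cast h.n4
  have hn0 : (0 : ℝ) < (N : ℝ) := lt_of_lt_of_le (by norm_num) hn
  have hn1 : (1 : ℝ) ≤ (N : ℝ) := le_trans (by norm_num) hn
  have hb1 : (N : ℝ) ^ 180 ≤ (2 : ℝ) ^ k := by exact_mod_cast h.b1.le
  have hb2 : (2 : ℝ) ^ k ≤ 2 * (N : ℝ) ^ 180 := by exact_mod_cast h.b2
  have hx1 : (N : ℝ) ^ 200 ≤ (Δ : ℝ) := by exact_mod_cast h.x1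
  have hinv : ∀ m : ℕ, ((N : ℝ)⁻¹) ^ m * (N : ℝ) ^ m = 1 := by
    intro m
    rw [← mul_pow, inv_mul_cancel₀ hn0.ne', one_pow]
  have hpos : ∀ m : ℕ, 0 < ((N : ℝ)⁻¹) ^ m := fun m => pow_pos (inv_pos.mpr hn0) m
  have hmul : ∀ m l : ℕ, (N : ℝ) ^ (m + l) * ((N : ℝ)⁻¹) ^ m = (N : ℝ) ^ l := by
    intro m l
    rw [pow_add, mul_comm, ← mul_assoc, hinv, one_mul]
  have hd : ∀ (y : ℝ) (m : ℕ), y / (N : ℝ) ^ m = y * ((N : ℝ)⁻¹) ^ m := by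
    intro y m
    rw [div_eq_mul_inv, inv_pow]
  refine ⟨inv_pos.mpr hn0, ?_, by positivity, ?_, ?_, ?_, ?_, ?_, Nat.cast_nonneg _,
    Nat.cast_nonneg _, ?_, ?_, Nat.cast_nonneg _, ?_, Nat.cast_nonneg _, ?_⟩
  · rw [one_div]
    exact inv_anti₀ (by norm_num) hn
  · have h1 : (N : ℝ) ^ 184 ≤ (Δ : ℝ) * ((N : ℝ)⁻¹) ^ 16 := by
      rw [← hmul 16 184]
      exact mul_le_mul_of_nonneg_right hx1 (hpos 16).le
    have h2 : 2 * (N : ℝ) ^ 180 ≤ (N : ℝ) ^ 184 := by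
      have h3 : (N : ℝ) ^ 184 = (N : ℝ) ^ 4 * (N : ℝ) ^ 180 := by rw [← pow_add]
      rw [h3]
      refine mul_le_mul_of_nonneg_right ?_ (by positivity)
      calc (2 : ℝ) ≤ (N : ℝ) := le_trans (by norm_num) hn
        _ = (N : ℝ) ^ 1 := (pow_one _).symm
        _ ≤ (N : ℝ) ^ 4 := pow_le_pow_right₀ hn1 (by norm_num)
    exact hb2.trans (h2.trans h1)
  · have h1 : (N : ℝ) ^ 180 ≤ (Δ : ℝ) * ((N : ℝ)⁻¹) ^ 20 := by
      rw [← hmul 20 180]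
      exact mul_le_mul_of_nonneg_right hx1 (hpos 20).le
    exact (one_le_pow₀ hn1).trans h1
  · have h1 : (N : ℝ) ^ 166 ≤ (2 : ℝ) ^ k * ((N : ℝ)⁻¹) ^ 14 := by
      rw [← hmul 14 166]
      exact mul_le_mul_of_nonneg_right hb1 (hpos 14).le
    refine le_trans ?_ h1
    calc (10 : ℝ) ≤ (N : ℝ) := le_trans (by norm_num) hn
      _ = (N : ℝ) ^ 1 := (pow_one _).symm
      _ ≤ (N : ℝ) ^ 166 := pow_le_pow_right₀ hn1 (by norm_num)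
  · refine le_trans (le_of_eq ?_) h.r1
    field_simp
  · refine le_trans h.r2 (le_of_eq ?_)
    field_simp
  · rw [← hd]
    exact h.g1
  · rw [← hd]
    exact h.g2
  · exact_mod_cast h.K2
  · have h1 : (k : ℝ) ≤ N := by exact_mod_cast h.kN
    calc (k : ℝ) * (N : ℝ)⁻¹ ≤ N * (N : ℝ)⁻¹ :=
          mul_le_mul_of_nonneg_right h1 (inv_pos.mpr hn0).le
      _ = 1 := mul_inv_cancel₀ hn0.ne'

private theorem Nre_div (N : ℕ) (y : ℝ) (m : ℕ) :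
    y / (N : ℝ) ^ m = y * ((N : ℝ)⁻¹) ^ m := by
  rw [div_eq_mul_inv, inv_pow]

private theorem Nre_div' (N : ℕ) (y : ℝ) (m : ℕ) :
    y / ((N ^ m : ℕ) : ℝ) = y * ((N : ℝ)⁻¹) ^ m := by
  rw [Nat.cast_pow, Nre_div]

private theorem Nre_half (N : ℕ) : 1 / (2 * (N : ℝ)) = 1 / 2 * (N : ℝ)⁻¹ := by
  rw [one_div, mul_inv, one_div]

theorem nre1 (N Δ k r g K : ℕ) (h : Bas N Δ k r g K) :
    r + K * g ≤ Δ ∧ 2 ^ k ≤ Δ ∧ N ^ 16 ≤ Δ ∧ K * 2 ^ k ≤ Δ ∧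
    (g : ℝ) + 2 ^ k / (N : ℝ) ^ 14 + 1 ≤ 2 ^ k ∧ 0 < (2 : ℝ) ^ k / (N : ℝ) ^ 14 ∧
    1 ≤ (Δ : ℝ) / (N : ℝ) ^ 9 := by
  have hP := Nre_of h
  have hN0 : 0 < N := lt_of_lt_of_le (by norm_num) h.n4
  have hgb : g ≤ 2 ^ k := by
    have h1 := Nre_gb' hP
    exact_mod_cast h1
  have h2 : K * g ≤ K * 2 ^ k := Nat.mul_le_mul_left K hgb
  have h3 := h.K2
  refine ⟨?_, ?_, ?_, ?_, ?_, ?_, ?_⟩
  · have h4 : r + K * 2 ^ k ≤ K * 2 ^ k + 2 * r := by rw [two_mul]; linarith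
    exact (Nat.add_le_add_left h2 r).trans (h4.trans h3)
  · have h1 := Nre_bx hP
    exact_mod_cast h1
  · exact (Nat.pow_le_pow_right hN0 (by norm_num)).trans h.x1
  · exact (Nat.le_add_right _ _).trans h3
  · rw [Nre_div]
    exact Nre_gb hP
  · rw [Nre_div]
    exact lt_of_lt_of_le (by norm_num) hP.bq
  · rw [Nre_div]
    have p1 := Nre_pw hP.q0 hP.q1 (Nre_x0 hP).le 9 11
    have h5 := hP.xq
    have h6 : 0 ≤ (Δ : ℝ) * ((N : ℝ)⁻¹) ^ 9 := by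
      have := hP.q0
      positivity
    generalize (Δ : ℝ) * ((N : ℝ)⁻¹) ^ 9 = u at p1 h6 ⊢
    have h7 : u * (1 / 10 ^ 4) ^ 11 ≤ u := by
      refine mul_le_of_le_one_right h6 ?_
      norm_num
    linarith

theorem nre2 (N Δ k r g K : ℕ) (h : Bas N Δ k r g K) :
    (Δ : ℝ) * (((2 : ℝ) ^ k - g + 2 ^ k / (N : ℝ) ^ 14) +
      (2 * ((Δ : ℝ) / ((N ^ 13 : ℕ) : ℝ) + 2 ^ k / (N : ℝ) ^ 14) * g / Δ + 2 ^ k / (N : ℝ) ^ 14)) /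
      2 ^ k + 2 * (k * ((Δ : ℝ) / ((N ^ 14 : ℕ) : ℝ) + 2 * (2 ^ k / (N : ℝ) ^ 14))) ≤
      Δ / (N : ℝ) ^ 9 ∧
    K * (((2 : ℝ) ^ k - g + 2 ^ k / (N : ℝ) ^ 14) +
      k * ((2 : ℝ) ^ k / ((N ^ 14 : ℕ) : ℝ) + 2 ^ k / (N : ℝ) ^ 14)) +
      (2 * g + 2 ^ k / (N : ℝ) ^ 14) ≤ Δ / (N : ℝ) ^ 9 := by
  have hP := Nre_of h
  rw [Nre_div', Nre_div', Nre_div', Nre_div, Nre_div]
  exact ⟨Nre_2a hP, Nre_2b hP⟩

theorem nre3 (N Δ k r g K cap : ℕ) (h : Bas N Δ k r g K)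
    (hcap : (cap : ℝ) ≤ (1 - 1 / (N : ℝ)) * Δ / 2 + 1) :
    100 ≤ (1 / (2 * (N : ℝ))) ^ 2 * ((r : ℝ) / ((N ^ 4 : ℕ) : ℝ)) ∧
    (1 - 1 / (2 * (N : ℝ)) / 10) * ((r : ℝ) / ((N ^ 4 : ℕ) : ℝ)) ≤
      (r - 2 ^ k / (N : ℝ) ^ 14 - (K * ((2 : ℝ) ^ k / ((N ^ 4 : ℕ) : ℝ) + 2 ^ k / (N : ℝ) ^ 14) +
        Δ / (N : ℝ) ^ 9) - 2 * (Δ / (N : ℝ) ^ 9)) / ((N ^ 4 : ℕ) : ℝ) - 2 ^ k / (N : ℝ) ^ 14 -
        ((2 : ℝ) ^ k / ((N ^ 4 : ℕ) : ℝ) + 2 ^ k / (N : ℝ) ^ 14 + Δ / (N : ℝ) ^ 9) ∧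
    ((r : ℝ) + 2 ^ k / (N : ℝ) ^ 14) / ((N ^ 4 : ℕ) : ℝ) + 2 ^ k / (N : ℝ) ^ 14 +
      Δ / (N : ℝ) ^ 9 ≤ (1 + 1 / (2 * (N : ℝ)) / 10) * ((r : ℝ) / ((N ^ 4 : ℕ) : ℝ)) ∧
    ((cap : ℝ) * r / Δ + 2 ^ k / (N : ℝ) ^ 14) / ((N ^ 4 : ℕ) : ℝ) + 2 ^ k / (N : ℝ) ^ 14 +
      Δ / (N : ℝ) ^ 9 ≤ (1 - 1 / (2 * (N : ℝ))) * ((r : ℝ) / ((N ^ 4 : ℕ) : ℝ)) / 2 := by
  have hP := Nre_of h
  have hc : (cap : ℝ) ≤ (1 - (N : ℝ)⁻¹) * Δ / 2 + 1 := by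
    rw [one_div] at hcap
    exact hcap
  simp only [Nre_div', Nre_div, Nre_half]
  exact ⟨Nre_3a hP, Nre_3b hP, Nre_3c hP, Nre_3d hP hc⟩

end Pool.Agent.H71.MA
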