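import Mathlib
import Pool.Agent.H71.MA.Prm
import Pool.Agent.H71.MA.Bas
import Pool.Agent.H71.MA.Nex
import Pool.Agent.H71.MA.Nco
import Pool.Agent.H71.MA.Nre

/-!
NUM: choice of the parameters.
-/

set_option autoImplicit false

namespace Pool.Agent.H71.MA

open Finset Classical

theorem num_aux (N : ℕ) (hN4 : 10 ^ 4 ≤ N) : 2 ≤ N ^ 14 ∧ (0 : ℝ) < 2 * (N : ℝ) ∧
    (1 : ℝ) ≤ 2 * (N : ℝ) := by
  have hNp : 0 < N := lt_of_lt_of_le (by norm_num) hN4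
  have hN1 : (1 : ℝ) ≤ N := by exact_mod_cast hNp
  refine ⟨?_, by linarith, by linarith⟩
  calc 2 ≤ N := le_trans (by norm_num) hN4
    _ = N ^ 1 := (pow_one _).symm
    _ ≤ N ^ 14 := Nat.pow_le_pow_right hNp (by norm_num)

theorem num : ∃ N0 : ℕ, ∀ N Δ p cap : ℕ, N0 ≤ N → N ^ 200 ≤ Δ → Δ < (N + 1) ^ 200 → 1 ≤ p →
    p ≤ N ^ 161 → 1 ≤ cap → (cap : ℝ) ≤ (1 - 1 / (N : ℝ)) * Δ / 2 + 1 →
    ∃ (k r g K Λ K0 ℓ0 Lm Ld : ℕ) (t e1 γ : ℝ), Prm Δ p cap k r g K Λ K0 ℓ0 Lm Ld t e1 γ := by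
  obtain ⟨N1, h1⟩ := bas
  obtain ⟨N2, h2⟩ := nex
  refine ⟨N1 + N2, ?_⟩
  intro N Δ p cap hN hx1 hx2 hp hp1 hcap1 hcap
  obtain ⟨k, r, g, K, hB⟩ := h1 N Δ (by omega) hx1 hx2
  obtain ⟨e1, e2, e3, e4, e5⟩ := h2 N Δ k r g K (by omega) hB
  obtain ⟨c1, c2, c3, c4, c5⟩ := nco N Δ k r g K p cap hB hp1 hcap
  obtain ⟨a1, a2, a3, a4, a5, a6, a7⟩ := nre1 N Δ k r g K hB
  obtain ⟨b1, b2⟩ := nre2 N Δ k r g K hB
  obtain ⟨d1, d2, d3, d4⟩ := nre3 N Δ k r g K cap hB hcap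
  have hN4 : 10 ^ 4 ≤ N := hB.n4
  have hNp : 0 < N := lt_of_lt_of_le (by norm_num) hN4
  obtain ⟨hLm2, h2N, h2N1⟩ := num_aux N hN4
  have hpos : ∀ m : ℕ, 1 ≤ N ^ m := fun m => Nat.one_le_pow _ _ hNp
  refine ⟨k, r, g, K, ⌊(1 - 1 / (2 * (N : ℝ))) * Δ / (N : ℝ) ^ 13⌋₊, N ^ 13, N ^ 16, N ^ 14, N ^ 4,
    (2 : ℝ) ^ k / (N : ℝ) ^ 14, Δ / (N : ℝ) ^ 9, 1 / (2 * (N : ℝ)), ?_⟩
  exact
    { hp := hp
      cap1 := hcap1
      hΔ1 := le_trans (hpos 200) hx1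
      ht := a6
      hK0 := hpos 13
      hLd := hpos 4
      hLm := hLm2
      hγ := one_div_pos.2 h2N
      hγ1 := (div_le_one h2N).2 h2N1
      hΛ := c1
      pΛ := c2
      pB := c3
      hrK := a1
      kΔ := a2
      hℓ := a3
      labs := c4
      KB := a4
      gB := a5
      eC := e1
      eS := e2
      eQ := e3
      eM := e4
      eP := e5
      hU1 := c5
      he1 := b1
      he2 := b2
      one_e1 := a7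
      hD := d1
      hN1 := d2
      hN2 := d3
      hN3 := d4 }

end Pool.Agent.H71.MA
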