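import Mathlib

/-!
ROT: the integer 200-th root of `Δ`.
-/

set_option autoImplicit false

namespace Pool.Agent.H71.MA

/-- The root `N` of `Δ`. -/
theorem root (D0 : ℕ) : ∃ D : ℕ, ∀ Δ : ℕ, D ≤ Δ → ∃ N : ℕ, D0 ≤ N ∧ N ^ 200 ≤ Δ ∧
    Δ < (N + 1) ^ 200 ∧ (Δ : ℝ) / N ≤ (Δ : ℝ) ^ (200 / 201 : ℝ) ∧
    (Δ : ℝ) ^ (4 / 5 : ℝ) ≤ (N : ℝ) ^ 161 := by
  obtain ⟨T, hT⟩ : ∃ T : ℕ, T = 2 ^ 201 := ⟨_, rfl⟩
  have hT1 : 1 ≤ T := by
    rw [hT]
    exact Nat.one_le_two_pow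
  refine ⟨(D0 + T + 1) ^ 200, fun Δ hΔ => ?_⟩
  obtain ⟨x, hx⟩ : ∃ x : ℝ, x = (Δ : ℝ) := ⟨_, rfl⟩
  have hx0 : 0 ≤ x := by rw [hx]; exact Nat.cast_nonneg _
  obtain ⟨y, hy⟩ : ∃ y : ℝ, y = x ^ (1 / 200 : ℝ) := ⟨_, rfl⟩
  have hy0 : 0 ≤ y := by rw [hy]; exact Real.rpow_nonneg hx0 _
  have hyx : y ^ (200 : ℕ) = x := by
    rw [hy, ← Real.rpow_natCast, ← Real.rpow_mul hx0]
    norm_num
  obtain ⟨N, hN⟩ : ∃ N : ℕ, N = ⌊y⌋₊ := ⟨_, rfl⟩
  have hNy : (N : ℝ) ≤ y := by rw [hN]; exact Nat.floor_le hy0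
  have hyN : y < (N : ℝ) + 1 := by rw [hN]; exact Nat.lt_floor_add_one y
  have hY : ((D0 + T + 1 : ℕ) : ℝ) ≤ y := by
    have h1 : ((D0 + T + 1 : ℕ) : ℝ) ^ (200 : ℕ) ≤ y ^ (200 : ℕ) := by
      rw [hyx, hx]
      exact_mod_cast hΔ
    exact (pow_le_pow_iff_left₀ (Nat.cast_nonneg _) hy0 (by norm_num)).1 h1
  have hDN : D0 + T + 1 ≤ N := by
    rw [hN]
    exact Nat.le_floor hY
  have hTy : (T : ℝ) ≤ y := by
    have h1 : T ≤ D0 + T + 1 := by omega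
    exact le_trans (by exact_mod_cast h1) hY
  have hTN : (T : ℝ) ≤ N := by
    have h1 : T ≤ N := by omega
    exact_mod_cast h1
  have hT1' : (1 : ℝ) ≤ T := by exact_mod_cast hT1
  have hypos : 0 < y := by linarith
  have hNpos : (0 : ℝ) < N := by linarith
  have hxpos : 0 < x := by rw [← hyx]; positivity
  refine ⟨N, by omega, ?_, ?_, ?_, ?_⟩
  · have h1 : (N : ℝ) ^ (200 : ℕ) ≤ (Δ : ℝ) := by
      rw [← hx, ← hyx]
      exact pow_le_pow_left₀ hNpos.le hNy _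
    exact_mod_cast h1
  · have h1 : (Δ : ℝ) < ((N : ℝ) + 1) ^ (200 : ℕ) := by
      rw [← hx, ← hyx]
      exact pow_lt_pow_left₀ hyN hy0 (by norm_num)
    exact_mod_cast h1
  · rw [← hx, div_le_iff₀ hNpos]
    have h1 : x = x ^ (200 / 201 : ℝ) * x ^ (1 / 201 : ℝ) := by
      rw [← Real.rpow_add hxpos]
      norm_num
    have h2 : x ^ (1 / 201 : ℝ) ≤ N := by
      have h3 : x ^ (1 / 201 : ℝ) = y ^ (200 / 201 : ℝ) := by
        rw [← hyx, ← Real.rpow_natCast, ← Real.rpow_mul hy0]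
        norm_num
      have h4 : y = y ^ (200 / 201 : ℝ) * y ^ (1 / 201 : ℝ) := by
        rw [← Real.rpow_add hypos]
        norm_num
      have h5 : (2 : ℝ) ≤ y ^ (1 / 201 : ℝ) := by
        have h6 : (2 : ℝ) = ((2 : ℝ) ^ (201 : ℕ)) ^ (1 / 201 : ℝ) := by
          rw [← Real.rpow_natCast, ← Real.rpow_mul (by norm_num)]
          norm_num
        rw [h6]
        refine Real.rpow_le_rpow (by positivity) ?_ (by norm_num)
        rw [hT] at hTy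
        exact_mod_cast hTy
      have h7 : 0 ≤ y ^ (200 / 201 : ℝ) := Real.rpow_nonneg hy0 _
      have h8 : y ^ (200 / 201 : ℝ) * 2 ≤ y := by
        calc y ^ (200 / 201 : ℝ) * 2 ≤ y ^ (200 / 201 : ℝ) * y ^ (1 / 201 : ℝ) :=
              mul_le_mul_of_nonneg_left h5 h7
          _ = y := h4.symm
      have h9 : 2 ≤ y := by
        have h10 : (2 : ℝ) ≤ T := by
          have h11 : 2 ≤ T := by
            rw [hT]
            calc 2 = 2 ^ 1 := rfl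
              _ ≤ 2 ^ 201 := Nat.pow_le_pow_right (by norm_num) (by norm_num)
          exact_mod_cast h11
        linarith
      rw [h3]
      linarith
    calc x = x ^ (200 / 201 : ℝ) * x ^ (1 / 201 : ℝ) := h1
      _ ≤ x ^ (200 / 201 : ℝ) * N :=
          mul_le_mul_of_nonneg_left h2 (Real.rpow_nonneg hx0 _)
  · rw [← hx]
    have h1 : x ^ (4 / 5 : ℝ) = y ^ (160 : ℕ) := by
      rw [← hyx, ← Real.rpow_natCast, ← Real.rpow_natCast, ← Real.rpow_mul hy0]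
      norm_num
    rw [h1]
    have h2 : y ≤ 2 * N := by
      have : (1 : ℝ) ≤ N := by linarith
      linarith
    have h3 : (2 : ℝ) ^ (160 : ℕ) ≤ N := by
      refine le_trans ?_ hTN
      have h4 : 2 ^ 160 ≤ T := by
        rw [hT]
        exact Nat.pow_le_pow_right (by norm_num) (by norm_num)
      exact_mod_cast h4
    calc y ^ (160 : ℕ) ≤ (2 * (N : ℝ)) ^ (160 : ℕ) := pow_le_pow_left₀ hy0 h2 _
      _ = 2 ^ (160 : ℕ) * (N : ℝ) ^ (160 : ℕ) := mul_pow _ _ _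
      _ ≤ N * (N : ℝ) ^ (160 : ℕ) := mul_le_mul_of_nonneg_right h3 (by positivity)
      _ = (N : ℝ) ^ (161 : ℕ) := by rw [← pow_succ']

end Pool.Agent.H71.MA
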