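import Mathlib
import Pool.Agent.H71.MA.Num
import Pool.Agent.H71.MA.Cor
import Pool.Agent.H71.MA.Rot
import Pool.Agent.H71.SX.MnS

/-!
MNM: the Havet-Yu bound for graphs whose maximum average degree is at most `Δ - Δ^(200/201)`.
-/

set_option autoImplicit false

namespace Pool.Agent.H71.MA

open Finset Classical
open Pool.Agent.H71.DN

theorem posaux (n x : ℝ) (hn : 2 ≤ n) (hx : 0 < x) : 0 < (1 - 1 / n) * x / 2 := by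
  have h1 : 1 / n ≤ 1 / 2 := one_div_le_one_div_of_le (by norm_num) hn
  have : 0 < 1 - 1 / n := by linarith
  positivity

theorem mainM : ∃ D : ℕ, ∀ (V : Type) [Fintype V] (G : SimpleGraph V) [DecidableRel G.Adj] (p : ℕ),
      D ≤ G.maxDegree → 1 ≤ p →
      (∀ S : Finset V, (ee G S S : ℝ) ≤
        ((G.maxDegree : ℝ) - (G.maxDegree : ℝ) ^ (200 / 201 : ℝ)) * S.card) →
      H70.HY.HYLab G G.maxDegree p := by
  obtain ⟨C, hC, hCH⟩ := H2.HV.main_hv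
  obtain ⟨D1, hD1⟩ := SX.ev4 C 1 one_pos
  obtain ⟨N0, hN0⟩ := num
  obtain ⟨D2, hD2⟩ := root (N0 + 2)
  refine ⟨D1 + D2 + 2, ?_⟩
  intro V _ G _ p hD hp hmad
  obtain ⟨Δ, hΔd⟩ : ∃ Δ, Δ = G.maxDegree := ⟨_, rfl⟩
  have hdg : ∀ v, dg G v ≤ Δ := fun v => by rw [hΔd]; exact (dg_bd G v).2
  by_cases hpκ : ((G.maxDegree : ℕ) : ℝ) ^ (4 / 5 : ℝ) ≤ (p : ℝ)
  · have h1 := hCH V G p (by omega)
    apply h1
    have h2 := hD1 G.maxDegree (by omega)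
    rw [one_mul] at h2
    exact h2.trans hpκ
  push Not at hpκ
  rw [← hΔd] at hD hmad hpκ ⊢
  have hΔ0 : (0 : ℝ) < Δ := by
    have : 0 < Δ := by omega
    exact_mod_cast this
  obtain ⟨N, hN1, hN2, hN3, hN4, hN5⟩ := hD2 Δ (by omega)
  have hNR : (2 : ℝ) ≤ N := by
    have : 2 ≤ N := le_trans (Nat.le_add_left 2 N0) hN1
    exact_mod_cast this
  have hpos : 0 < (1 - 1 / (N : ℝ)) * Δ / 2 := posaux _ _ hNR hΔ0
  obtain ⟨k, r, g, K, Λ, K0, ℓ0, Lm, Ld, t, e1, γ, hP⟩ := hN0 N Δ p ⌈(1 - 1 / (N : ℝ)) * Δ / 2⌉₊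
    (le_trans (Nat.le_add_right N0 2) hN1) hN2 hN3 hp (by
      have h1 : (p : ℝ) ≤ (N : ℝ) ^ 161 := hpκ.le.trans hN5
      exact_mod_cast h1) (Nat.one_le_iff_ne_zero.2 (Nat.ceil_pos.2 hpos).ne')
    (Nat.ceil_lt_add_one hpos.le).le
  refine cor G Δ p _ k r g K Λ K0 ℓ0 Lm Ld t e1 γ hP hdg ?_
  intro S
  have h1 := hmad S
  have h2 : ((Δ : ℝ) - (Δ : ℝ) ^ (200 / 201 : ℝ)) ≤ (1 - 1 / (N : ℝ)) * Δ := by
    have : (1 - 1 / (N : ℝ)) * Δ = Δ - Δ / N := by ring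
    rw [this]
    linarith
  have h3 : (1 - 1 / (N : ℝ)) * Δ / 2 ≤ (⌈(1 - 1 / (N : ℝ)) * Δ / 2⌉₊ : ℝ) := Nat.le_ceil _
  have h4 : ((ee G S S : ℕ) : ℝ) ≤ ((2 * (⌈(1 - 1 / (N : ℝ)) * Δ / 2⌉₊ * S.card) : ℕ) : ℝ) := by
    push_cast
    have hS : (0 : ℝ) ≤ S.card := Nat.cast_nonneg _
    calc (ee G S S : ℝ) ≤ ((Δ : ℝ) - (Δ : ℝ) ^ (200 / 201 : ℝ)) * S.card := h1
      _ ≤ ((1 - 1 / (N : ℝ)) * Δ) * S.card := mul_le_mul_of_nonneg_right h2 hS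
      _ ≤ (2 * (⌈(1 - 1 / (N : ℝ)) * Δ / 2⌉₊ : ℝ)) * S.card :=
          mul_le_mul_of_nonneg_right (by linarith) hS
      _ = 2 * ((⌈(1 - 1 / (N : ℝ)) * Δ / 2⌉₊ : ℝ) * S.card) := by ring
  exact_mod_cast h4

end Pool.Agent.H71.MA
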